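import Pool.Agent.Lib_MP_b8ab30.Defs

/-!
# Piece ACT: algebra of the source action

PROOFS.  `act r y k = ∑ n ∈ r.support, r.coeff n * y (n + k)`; `act` is additive in both arguments (`Polynomial.sum_add_index` or write it as
`Polynomial.aeval` of the shift), `act (r * s) = act r ∘ act s` (check on monomials, `Polynomial.induction_on'`; `act (monomial n a) y k = a * y (n + k)`), `act 1 y = y`.
`act r` is continuous (each coordinate is a finite sum of coordinates).  In characteristic two (`CharTwo.add_self_eq_zero`, in `T`: `y + y = 0`) `tr c a`, `e12 r`, `e21 r` are
involutions.  `F c`: reflexive (empty word), symmetric (reverse the word, the generators are involutions), transitive (append); the classes are countable (`List J` is countable);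
`{p | F c p.1 p.2}` is the countable union over `w` of the closed sets `{p | word c w p.1 = p.2}`.
-/

set_option autoImplicit false

open MeasureTheory

namespace Pool.MPb8ab30

theorem act_add_left (r s : R) (y : T) : act (r + s) y = act r y + act s y := by
  funext k
  simp only [act, Pi.add_apply]
  exact Polynomial.sum_add_index r s _ (fun i => by simp) (fun i a b => by ring)

theorem act_add_right (r : R) (y z : T) : act r (y + z) = act r y + act r z := by
  funext k
  simp only [act, Pi.add_apply, Polynomial.sum_def, mul_add, Finset.sum_add_distrib]

theorem act_zero_left (y : T) : act 0 y = 0 := by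
  funext k
  simp [act]

theorem act_zero_right (r : R) : act r 0 = 0 := by
  funext k
  simp [act, Polynomial.sum_def]

private theorem act_monomial_aux (n k : ℕ) (a : ZMod 2) (y : T) :
    act (Polynomial.monomial n a) y k = a * y (n + k) := by
  simp only [act]
  exact Polynomial.sum_monomial_index a _ (by simp)

theorem act_one (y : T) : act 1 y = y := by
  funext k
  have h : (1 : R) = Polynomial.monomial 0 1 := by simp
  rw [h, act_monomial_aux]
  simp

theorem act_mul (r s : R) (y : T) : act (r * s) y = act r (act s y) := by
  induction r using Polynomial.induction_on' with
  | add p q hp hq => rw [add_mul, act_add_left, act_add_left, hp, hq]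
  | monomial n a =>
    induction s using Polynomial.induction_on' with
    | add p q hp hq => rw [mul_add, act_add_left, act_add_left, act_add_right, hp, hq]
    | monomial m b =>
      funext k
      rw [Polynomial.monomial_mul_monomial, act_monomial_aux, act_monomial_aux, act_monomial_aux]
      have h : n + m + k = m + (n + k) := by omega
      rw [h, mul_assoc]

theorem act_monomial (n k : ℕ) (a : ZMod 2) (y : T) : act (Polynomial.monomial n a) y k = a * y (n + k) :=
  act_monomial_aux n k a y

theorem continuous_act (r : R) : Continuous (act r) := by
  refine continuous_pi fun k => ?_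
  simp only [act, Polynomial.sum_def]
  refine continuous_finsetSum _ fun n _ => ?_
  exact continuous_const.mul (continuous_apply (n + k))

theorem add_self_T (y : T) : y + y = 0 := by
  funext k
  simp only [Pi.add_apply, Pi.zero_apply]
  exact CharTwo.add_self_eq_zero _

theorem tr_zero (c : T) (y : Y) : tr c 0 y = y := by
  simp [tr, act_zero_left]

theorem tr_add (c : T) (a b : R × R) (y : Y) : tr c (a + b) y = tr c a (tr c b y) := by
  simp only [tr, Prod.fst_add, Prod.snd_add, act_add_left]
  refine Prod.ext ?_ ?_
  · simp only
    abel
  · simp only
    abel

theorem e12_tr (c : T) (r : R) (a : R × R) (y : Y) : e12 r (tr c a y) = tr c (f12 r a) (e12 r y) := by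
  simp only [tr, e12, f12, act_add_left, act_add_right, act_mul]
  refine Prod.ext ?_ ?_
  · simp only
    abel
  · rfl

theorem e21_tr (c : T) (r : R) (a : R × R) (y : Y) : e21 r (tr c a y) = tr c (f21 r a) (e21 r y) := by
  simp only [tr, e21, f21, act_add_left, act_add_right, act_mul]
  refine Prod.ext ?_ ?_
  · rfl
  · simp only
    abel

theorem continuous_gen (c : T) (j : J) : Continuous (gen c j) := by
  rcases j with a | r | r
  · change Continuous (tr c a)
    unfold tr
    exact (continuous_fst.add continuous_const).prodMk (continuous_snd.add continuous_const)
  · change Continuous (e12 r)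
    unfold e12
    exact (continuous_fst.add ((continuous_act r).comp continuous_snd)).prodMk continuous_snd
  · change Continuous (e21 r)
    unfold e21
    exact continuous_fst.prodMk (continuous_snd.add ((continuous_act r).comp continuous_fst))

theorem measurable_gen (c : T) (j : J) : Measurable (gen c j) :=
  (continuous_gen c j).measurable

private theorem Act_add_add (x y : T) : x + y + y = x := by
  rw [add_assoc, add_self_T, add_zero]

theorem gen_gen (c : T) (j : J) (y : Y) : gen c j (gen c j y) = y := by
  rcases j with a | r | r
  · change tr c a (tr c a y) = y
    simp only [tr, Act_add_add]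
  · change e12 r (e12 r y) = y
    simp only [e12, Act_add_add]
  · change e21 r (e21 r y) = y
    simp only [e21, Act_add_add]

theorem F_gen (c : T) (j : J) (y : Y) : F c (gen c j y) y :=
  ⟨[j], gen_gen c j y⟩

private theorem Act_word_append (c : T) (w v : List J) (y : Y) : word c (w ++ v) y = word c w (word c v y) := by
  simp [word, List.foldr_append]

private theorem Act_word_reverse (c : T) (w : List J) (y : Y) : word c w.reverse (word c w y) = y := by
  induction w with
  | nil => rfl
  | cons j w ih =>
    rw [List.reverse_cons, Act_word_append]
    have h : word c [j] (word c (j :: w) y) = word c w y := gen_gen c j _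
    rw [h, ih]

private theorem Act_continuous_word (c : T) (w : List J) : Continuous (word c w) := by
  induction w with
  | nil => exact continuous_id
  | cons j w ih => exact (continuous_gen c j).comp ih

private theorem Act_countable_J : Countable J := by
  have h : Countable R :=
    Cardinal.mk_le_aleph0_iff.1
      ((Polynomial.cardinalMk_le_max (R := ZMod 2)).trans (max_le Cardinal.mk_le_aleph0 le_rfl))
  infer_instance

theorem cber_F (c : T) : CBER (F c) := by
  have hJ : Countable J := Act_countable_J
  refine ⟨?_, ⟨fun y => ⟨[], rfl⟩, ?_, ?_⟩, ?_⟩
  · have h : {p : Y × Y | F c p.1 p.2} = ⋃ w : List J, {p : Y × Y | word c w p.1 = p.2} := by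
      ext p
      simp [F]
    rw [h]
    refine MeasurableSet.iUnion fun w => ?_
    exact (isClosed_eq ((Act_continuous_word c w).comp continuous_fst) continuous_snd).measurableSet
  · rintro y z ⟨w, rfl⟩
    exact ⟨w.reverse, Act_word_reverse c w y⟩
  · rintro y z u ⟨w, rfl⟩ ⟨v, rfl⟩
    exact ⟨v ++ w, Act_word_append c v w y⟩
  · intro y
    have h : {z | F c y z} = Set.range (fun w : List J => word c w y) := by
      ext z
      simp [F]
    rw [h]
    exact Set.countable_range _

end Pool.MPb8ab30
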