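import Mathlib

/-!
# Piece CAPH: minimax on a compact space (Hahn-Banach and Riesz)

`K` a compact metrizable (here: compact Hausdorff, Borel) space, `C` a convex set of continuous functions on `K` each of which takes a value `≥ t`.  Then some
probability measure `P` on `K` has `∫ g dP ≥ t` for all `g ∈ C`.

PROOF.  In `C(K, ℝ)` let `O = {g | ∀ b, g b < t}`: open (a continuous function on a compact space attains its maximum; `K` is non-empty if `C` is; if `C` is empty
any Dirac measure will do), convex, disjoint from `C`.  `geometric_hahn_banach_open` gives a continuous linear `f` and `u` with `f a < u` on `O` and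
`u ≤ f g` on `C`.  For `g ≥ 0` and all `n`: `t - 1 - n g ∈ O`, so `f (t - 1) - n f g < u` and `f g ≥ 0`.  `f 1 > 0`: otherwise `f = 0` (`|f g| ≤ ‖g‖ f 1`), but `O` gives `0 < u`
and `C` gives `u ≤ 0`.  For all reals `c < t`: `c f 1 = f c < u`, so `t f 1 ≤ u`.  Hence `f g ≥ t f 1` on `C`.  Riesz-Markov-Kakutani (`RealRMK`, `C_c(K,ℝ)` is all of
`C(K,ℝ)`) gives a finite measure representing `f`; divide it by `f 1`, its total mass.
-/

set_option autoImplicit false

open MeasureTheory Filter Topology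

namespace Pool.MPb8ab30

open scoped CompactlySupported in
/-- Every positive functional on `C(K, ℝ)` is the integral against a finite measure. -/
private theorem CapH_riesz {K : Type} [TopologicalSpace K] [CompactSpace K] [T2Space K] [MeasurableSpace K] [BorelSpace K]
    (f : C(K, ℝ) →ₗ[ℝ] ℝ) (hf : ∀ g : C(K, ℝ), (∀ b, 0 ≤ g b) → 0 ≤ f g) :
    ∃ μ : Measure K, IsFiniteMeasure μ ∧ ∀ g : C(K, ℝ), ∫ b, g b ∂μ = f g := by
  let Λ0 : C_c(K, ℝ) →ₗ[ℝ] ℝ :=
    { toFun := fun g => f g.toContinuousMap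
      map_add' := fun g h => by
        rw [← map_add]
        rfl
      map_smul' := fun c g => by
        rw [RingHom.id_apply, ← map_smul]
        rfl }
  have hpos : ∀ g : C_c(K, ℝ), 0 ≤ g → 0 ≤ Λ0 g := by
    intro g hg
    exact hf _ (fun b => hg b)
  let Λ : C_c(K, ℝ) →ₚ[ℝ] ℝ := PositiveLinearMap.mk₀ Λ0 hpos
  refine ⟨RealRMK.rieszMeasure Λ, inferInstance, fun g => ?_⟩
  have h := RealRMK.integral_rieszMeasure Λ (CompactlySupportedContinuousMap.continuousMapEquiv g)
  exact h

theorem minimax_compact {K : Type} [TopologicalSpace K] [CompactSpace K] [T2Space K] [MeasurableSpace K] [BorelSpace K] [Nonempty K]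
    (C : Set C(K, ℝ)) (hC : Convex ℝ C) (t : ℝ) (h : ∀ g ∈ C, ∃ b, t ≤ g b) :
    ∃ P : Measure K, IsProbabilityMeasure P ∧ ∀ g ∈ C, t ≤ ∫ b, g b ∂P := by
  rcases C.eq_empty_or_nonempty with hCe | ⟨g₀, hg₀⟩
  · obtain ⟨b₀⟩ := ‹Nonempty K›
    exact ⟨Measure.dirac b₀, inferInstance, by simp [hCe]⟩
  set O : Set C(K, ℝ) := {g | ∀ b, g b < t} with hO
  have hOo : IsOpen O := by
    rw [Metric.isOpen_iff]
    intro g hg
    obtain ⟨b₁, -, hb₁⟩ := isCompact_univ.exists_isMaxOn (Set.univ_nonempty (α := K)) g.continuous.continuousOn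
    have hlt : g b₁ < t := hg b₁
    refine ⟨t - g b₁, by linarith, fun g' hg' b => ?_⟩
    rw [Metric.mem_ball] at hg'
    have h1 : dist (g' b) (g b) ≤ dist g' g := ContinuousMap.dist_apply_le_dist b
    have h2 : g b ≤ g b₁ := hb₁ (Set.mem_univ b)
    have h3 : g' b - g b ≤ dist (g' b) (g b) := by
      rw [Real.dist_eq]
      exact le_abs_self _
    linarith
  have hOc : Convex ℝ O := by
    intro g hg g' hg' a b ha hb hab x
    have h1 := hg x
    have h2 := hg' x
    have h3 : (a • g + b • g') x = a * g x + b * g' x := rfl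
    rw [h3]
    rcases ha.eq_or_lt with h0 | h0
    · have hb1 : b = 1 := by linarith
      rw [← h0, hb1]
      linarith
    · have h4 : a * g x < a * t := mul_lt_mul_of_pos_left h1 h0
      have h5 : b * g' x ≤ b * t := mul_le_mul_of_nonneg_left h2.le hb
      have h6 : a * t + b * t = t := by rw [← add_mul, hab, one_mul]
      linarith
  have hdisj : Disjoint O C := by
    rw [Set.disjoint_left]
    intro g hg hgC
    obtain ⟨b, hb⟩ := h g hgC
    have := hg b
    linarith
  obtain ⟨f, u, hfO, hfC⟩ := geometric_hahn_banach_open hOc hOo hC hdisj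
  -- positivity
  have hpos : ∀ g : C(K, ℝ), (∀ b, 0 ≤ g b) → 0 ≤ f g := by
    intro g hg
    by_contra hneg
    push Not at hneg
    have hall : ∀ n : ℕ, f ((t - 1) • (1 : C(K, ℝ))) - (n : ℝ) * f g < u := by
      intro n
      have hmem : ((t - 1) • (1 : C(K, ℝ)) - (n : ℝ) • g) ∈ O := by
        intro b
        have h1 : ((t - 1) • (1 : C(K, ℝ)) - (n : ℝ) • g) b = (t - 1) * 1 - (n : ℝ) * g b := rfl
        rw [h1]
        have h2 : 0 ≤ (n : ℝ) * g b := mul_nonneg (Nat.cast_nonneg n) (hg b)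
        linarith
      have h3 := hfO _ hmem
      rw [map_sub, map_smul f (n : ℝ) g, smul_eq_mul] at h3
      exact h3
    obtain ⟨n, hn⟩ := exists_nat_gt ((u - f ((t - 1) • (1 : C(K, ℝ)))) / (-f g))
    have h1 := hall n
    rw [div_lt_iff₀ (by linarith)] at hn
    nlinarith
  have hconst : ∀ c : ℝ, f (c • (1 : C(K, ℝ))) = c * f 1 := fun c => by rw [map_smul, smul_eq_mul]
  -- `|f g| ≤ ‖g‖ f 1`
  have hbd : ∀ g : C(K, ℝ), f g ≤ ‖g‖ * f 1 := by
    intro g
    have h1 : 0 ≤ f (‖g‖ • (1 : C(K, ℝ)) - g) := by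
      apply hpos
      intro b
      have h2 : (‖g‖ • (1 : C(K, ℝ)) - g) b = ‖g‖ * 1 - g b := rfl
      rw [h2]
      have h3 := ContinuousMap.norm_coe_le_norm g b
      rw [Real.norm_eq_abs] at h3
      have h4 := le_abs_self (g b)
      linarith
    rw [map_sub, hconst] at h1
    linarith
  have hf1 : 0 < f 1 := by
    have h0 : 0 ≤ f 1 := hpos 1 (fun b => by simp)
    rcases h0.eq_or_lt with h1 | h1
    · exfalso
      have h2 : f ((t - 1) • (1 : C(K, ℝ))) < u := by
        apply hfO
        intro b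
        have h3 : ((t - 1) • (1 : C(K, ℝ))) b = (t - 1) * 1 := rfl
        rw [h3]
        linarith
      rw [hconst, ← h1, mul_zero] at h2
      have h4 := hfC g₀ hg₀
      have h5 := hbd g₀
      rw [← h1, mul_zero] at h5
      linarith
    · exact h1
  have htu : t * f 1 ≤ u := by
    have h1 : ∀ c : ℝ, c < t → c * f 1 < u := by
      intro c hc
      have h2 : f (c • (1 : C(K, ℝ))) < u := by
        apply hfO
        intro b
        have h3 : (c • (1 : C(K, ℝ))) b = c * 1 := rfl
        rw [h3]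
        linarith
      rwa [hconst] at h2
    by_contra hneg
    push Not at hneg
    have h2 : u / f 1 < t := by
      rw [div_lt_iff₀ hf1]
      exact hneg
    have h3 := h1 _ h2
    rw [div_mul_cancel₀ _ hf1.ne'] at h3
    exact lt_irrefl _ h3
  obtain ⟨μ, hμf, hμ⟩ := CapH_riesz (K := K) (f : C(K, ℝ) →ₗ[ℝ] ℝ) (fun g hg => hpos g hg)
  have hμ' : ∀ g : C(K, ℝ), ∫ b, g b ∂μ = f g := hμ
  have hmass : μ.real Set.univ = f 1 := by
    have h1 := hμ' 1
    simpa using h1
  refine ⟨(μ Set.univ)⁻¹ • μ, ?_, fun g hg => ?_⟩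
  · have hne : μ ≠ 0 := by
      intro h0
      rw [h0] at hmass
      simp at hmass
      linarith
    have : NeZero μ := ⟨hne⟩
    infer_instance
  · rw [integral_smul_measure, hμ' g, ENNReal.toReal_inv, smul_eq_mul]
    have h1 : (μ Set.univ).toReal = f 1 := hmass
    rw [h1]
    have h2 := hfC g hg
    rw [le_inv_mul_iff₀ hf1]
    linarith [mul_comm t (f 1)]

end Pool.MPb8ab30
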