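import Pool.Agent.Lib_MP_b8ab30.CapU
import Pool.Agent.Lib_MP_b8ab30.CapH

/-!
# Piece CAPC: compactness and minimax (steps (2), (3), (4) of CAP)
-/

set_option autoImplicit false

open MeasureTheory Filter Topology ProbabilityTheory

namespace Pool.MPb8ab30

private theorem CapC_int {X : Type} [MeasurableSpace X] (μ : Measure X) [IsFiniteMeasure μ] {f : X → ℝ}
    (hf : Measurable f) (h0 : ∀ x, 0 ≤ f x) (h1 : ∀ x, f x ≤ 1) : Integrable f μ := by
  refine Integrable.of_bound hf.aestronglyMeasurable 1 (Eventually.of_forall fun x => ?_)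
  rw [Real.norm_eq_abs, abs_of_nonneg (h0 x)]
  exact h1 x

/-- one step: bound the coordinate `k` -/
private theorem CapC_step {X : Type} [MeasurableSpace X] (μ : Measure X) [IsFiniteMeasure μ] (n : (ℕ → ℕ) → Measure X)
    (hn : ∀ b, IsProbabilityMeasure (n b)) (t : ℝ) (S : Set (ℕ → ℕ)) (hS : ¬ Good μ n S t) (k : ℕ) :
    ∃ j : ℕ, ¬ Good μ n (S ∩ {b | b k ≤ j}) t := by
  by_contra hcon
  push Not at hcon
  apply hS
  have h := good_iUnion μ n hn (fun j => S ∩ {b | b k ≤ j}) (fun i j hij b hb => ⟨hb.1, le_trans hb.2 hij⟩) t hcon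
  have hU : (⋃ j, S ∩ {b : ℕ → ℕ | b k ≤ j}) = S := by
    ext b
    constructor
    · intro hb
      obtain ⟨j, hj⟩ := Set.mem_iUnion.1 hb
      exact hj.1
    · intro hb
      exact Set.mem_iUnion.2 ⟨b k, hb, le_refl (b k)⟩
  rw [hU] at h
  exact h

private theorem CapC_beta {X : Type} [MeasurableSpace X] (μ : Measure X) [IsFiniteMeasure μ] (n : (ℕ → ℕ) → Measure X)
    (hn : ∀ b, IsProbabilityMeasure (n b)) (t : ℝ) (ht : ¬ Good μ n Set.univ t) :
    ∃ β : ℕ → ℕ, ∀ k, ¬ Good μ n {b | ∀ i, i < k → b i ≤ β i} t := by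
  choose j hj using fun (S : {S : Set (ℕ → ℕ) // ¬ Good μ n S t}) (k : ℕ) => CapC_step μ n hn t S.1 S.2 k
  let F : ℕ → {S : Set (ℕ → ℕ) // ¬ Good μ n S t} := fun k =>
    Nat.rec (motive := fun _ => {S : Set (ℕ → ℕ) // ¬ Good μ n S t}) ⟨Set.univ, ht⟩
      (fun k S => ⟨S.1 ∩ {b | b k ≤ j S k}, hj S k⟩) k
  refine ⟨fun k => j (F k) k, ?_⟩
  have hF : ∀ k, (F k).1 = {b | ∀ i, i < k → b i ≤ j (F i) i} := by
    intro k
    induction k with
    | zero =>
      ext b
      constructor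
      · intro _ i hi
        exact absurd hi (Nat.not_lt_zero i)
      · intro _
        exact Set.mem_univ b
    | succ k ih =>
      have h1 : (F (k + 1)).1 = (F k).1 ∩ {b | b k ≤ j (F k) k} := rfl
      rw [h1, ih]
      ext b
      constructor
      · intro hb i hi
        rcases Nat.lt_succ_iff_lt_or_eq.1 hi with h | h
        · exact hb.1 i h
        · rw [h]; exact hb.2
      · intro hb
        exact ⟨fun i hi => hb i (Nat.lt_succ_of_lt hi), hb k (Nat.lt_succ_self k)⟩
  intro k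
  have h2 := (F k).2
  rw [hF k] at h2
  exact h2

/-- the compactness step -/
private theorem CapC_cpt (β : ℕ → ℕ) (G : (ℕ → ℕ) → ℝ) (hG : Continuous G) (t : ℝ)
    (h : ∀ k, ∃ b : ℕ → ℕ, (∀ i, i < k → b i ≤ β i) ∧ t < G b) : ∃ b : ℕ → ℕ, (∀ i, b i ≤ β i) ∧ t ≤ G b := by
  choose b hb hGb using h
  have hK : IsCompact (Set.pi Set.univ fun i => Set.Iic (β i)) :=
    isCompact_univ_pi fun i => (Set.finite_Iic (β i)).isCompact
  obtain ⟨c, hc, ψ, hψ, hlim⟩ := hK.tendsto_subseq (x := fun k i => min (b k i) (β i))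
    (fun k i _ => show min (b k i) (β i) ≤ β i from min_le_right _ _)
  refine ⟨c, fun i => hc i (Set.mem_univ i), ?_⟩
  have hlim2 : Tendsto (fun k => b (ψ k)) atTop (𝓝 c) := by
    rw [tendsto_pi_nhds]
    intro i
    have h1 := (tendsto_pi_nhds.1 hlim) i
    refine h1.congr' ?_
    filter_upwards [eventually_gt_atTop i] with k hk
    have h2 : i < ψ k := lt_of_lt_of_le hk (hψ.id_le k)
    simp only [Function.comp]
    exact min_eq_left (hb (ψ k) i h2)
  have h3 := (hG.tendsto c).comp hlim2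
  exact ge_of_tendsto h3 (Eventually.of_forall fun k => le_of_lt (hGb (ψ k)))

theorem cap_compact {X : Type} [MeasurableSpace X] (μ : Measure X) [IsFiniteMeasure μ] (n : (ℕ → ℕ) → Measure X)
    (hn : ∀ b, IsProbabilityMeasure (n b)) (𝒜 : Set (Set X)) (h𝒜 : IsSetAlgebra 𝒜) (hm : ∀ A ∈ 𝒜, MeasurableSet A)
    (hc : ∀ A ∈ 𝒜, Continuous fun b => (n b A).toReal) (t : ℝ) (ht : ¬ Good μ n Set.univ t) :
    ∃ P : Measure (ℕ → ℕ), IsProbabilityMeasure P ∧ ∀ A ∈ 𝒜, t ≤ (μ A).toReal + ∫ b, (n b Aᶜ).toReal ∂P := by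
  obtain ⟨β, hβ⟩ := CapC_beta μ n hn t ht
  let K : Set (ℕ → ℕ) := Set.pi Set.univ fun i => Set.Iic (β i)
  have hK : IsCompact K := isCompact_univ_pi fun i => (Set.finite_Iic (β i)).isCompact
  have hKm : MeasurableSet K := hK.measurableSet
  haveI : CompactSpace K := isCompact_iff_compactSpace.1 hK
  haveI : Nonempty K := ⟨⟨fun _ => 0, fun i _ => Nat.zero_le _⟩⟩
  -- the convex set
  let C : Set C(K, ℝ) := {g | ∃ φ : X → ℝ, Measurable φ ∧ (∀ x, 0 ≤ φ x) ∧ (∀ x, φ x ≤ 1) ∧
    (Continuous fun b => ∫ x, (1 - φ x) ∂(n b)) ∧ ∀ b : K, g b = ∫ x, φ x ∂μ + ∫ x, (1 - φ x) ∂(n b)}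
  have hC : Convex ℝ C := by
    rintro g ⟨φ, hφ, h0, h1, hcφ, hg⟩ g' ⟨φ', hφ', h0', h1', hcφ', hg'⟩ a a' ha ha' haa
    have e1 : ∀ x, 1 - (a * φ x + a' * φ' x) = a * (1 - φ x) + a' * (1 - φ' x) := by
      intro x
      have : a' = 1 - a := by linarith
      rw [this]; ring
    have e2 : ∀ b, ∫ x, (1 - (a * φ x + a' * φ' x)) ∂(n b) =
        a * ∫ x, (1 - φ x) ∂(n b) + a' * ∫ x, (1 - φ' x) ∂(n b) := by
      intro b
      haveI := hn b
      have i1 : Integrable (fun x => 1 - φ x) (n b) :=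
        CapC_int (n b) (measurable_const.sub hφ) (fun x => by linarith [h1 x]) (fun x => by linarith [h0 x])
      have i2 : Integrable (fun x => 1 - φ' x) (n b) :=
        CapC_int (n b) (measurable_const.sub hφ') (fun x => by linarith [h1' x]) (fun x => by linarith [h0' x])
      rw [← integral_const_mul, ← integral_const_mul, ← integral_add (i1.const_mul a) (i2.const_mul a')]
      exact integral_congr_ae (Eventually.of_forall fun x => e1 x)
    refine ⟨fun x => a * φ x + a' * φ' x, (hφ.const_mul a).add (hφ'.const_mul a'), fun x => ?_, fun x => ?_, ?_, ?_⟩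
    · have := mul_nonneg ha (h0 x)
      have := mul_nonneg ha' (h0' x)
      linarith
    · have := mul_le_mul_of_nonneg_left (h1 x) ha
      have := mul_le_mul_of_nonneg_left (h1' x) ha'
      linarith
    · simp_rw [e2]
      exact (hcφ.const_mul a).add (hcφ'.const_mul a')
    · intro b
      have i1 : Integrable φ μ := CapC_int μ hφ h0 h1
      have i2 : Integrable φ' μ := CapC_int μ hφ' h0' h1'
      have e3 : ∫ x, (a * φ x + a' * φ' x) ∂μ = a * ∫ x, φ x ∂μ + a' * ∫ x, φ' x ∂μ := by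
        rw [integral_add (i1.const_mul a) (i2.const_mul a'), integral_const_mul, integral_const_mul]
      have e4 : (a • g + a' • g') b = a * g b + a' * g' b := rfl
      rw [e4, hg b, hg' b, e3, e2]
      ring
  have hsup : ∀ g ∈ C, ∃ b, t ≤ g b := by
    rintro g ⟨φ, hφ, h0, h1, hcφ, hg⟩
    obtain ⟨b, hb, hGb⟩ := CapC_cpt β (fun b => ∫ x, φ x ∂μ + ∫ x, (1 - φ x) ∂(n b)) (continuous_const.add hcφ) t (by
      intro k
      by_contra hcon
      push Not at hcon
      apply hβ k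
      refine ⟨φ, hφ, h0, h1, ∫ x, φ x ∂μ, le_refl _, fun b hb => ?_⟩
      have := hcon b hb
      linarith)
    exact ⟨⟨b, fun i _ => hb i⟩, by rw [hg]; exact hGb⟩
  obtain ⟨P, hP, hPC⟩ := minimax_compact C hC t hsup
  refine ⟨P.map Subtype.val, Measure.isProbabilityMeasure_map measurable_subtype_coe.aemeasurable, fun A hA => ?_⟩
  have hAm := hm A hA
  have e0 : ∀ b, (n b Aᶜ).toReal = 1 - (n b A).toReal := by
    intro b
    haveI := hn b
    have := prob_compl_eq_one_sub (μ := n b) hAm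
    rw [this, ENNReal.toReal_sub_of_le prob_le_one ENNReal.one_ne_top, ENNReal.toReal_one]
  have hcA : Continuous fun b => (n b Aᶜ).toReal := by
    simp_rw [e0]
    exact continuous_const.sub (hc A hA)
  have e1 : ∀ b, ∫ x, (1 - A.indicator (fun _ => (1 : ℝ)) x) ∂(n b) = (n b Aᶜ).toReal := by
    intro b
    haveI := hn b
    have e2 : (fun x => 1 - A.indicator (fun _ => (1 : ℝ)) x) = Aᶜ.indicator fun _ => (1 : ℝ) := by
      funext x
      by_cases hx : x ∈ A
      · simp [hx]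
      · simp [hx]
    rw [e2, integral_indicator_const _ hAm.compl]
    simp [Measure.real]
  rw [integral_map measurable_subtype_coe.aemeasurable hcA.aestronglyMeasurable]
  have hg := hPC ⟨fun b : K => ∫ x, A.indicator (fun _ => (1 : ℝ)) x ∂μ + ∫ x, (1 - A.indicator (fun _ => (1 : ℝ)) x) ∂(n b), by
      simp_rw [e1]
      exact continuous_const.add (hcA.comp continuous_subtype_val)⟩
    ⟨A.indicator fun _ => (1 : ℝ), measurable_const.indicator hAm, fun x => Set.indicator_nonneg (fun _ _ => zero_le_one) x,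
      fun x => Set.indicator_le_self' (f := fun _ => (1 : ℝ)) (fun _ _ => zero_le_one) x, by simp_rw [e1]; exact hcA, fun b => rfl⟩
  have e3 : ∫ x, A.indicator (fun _ => (1 : ℝ)) x ∂μ = (μ A).toReal := by
    rw [integral_indicator_const _ hAm]
    simp [Measure.real]
  have e4 : ∫ b : K, (∫ x, A.indicator (fun _ => (1 : ℝ)) x ∂μ + ∫ x, (1 - A.indicator (fun _ => (1 : ℝ)) x) ∂(n b)) ∂P =
      (μ A).toReal + ∫ b : K, (n b Aᶜ).toReal ∂P := by
    simp_rw [e1, e3]
    have hint : Integrable (fun b : K => (n b Aᶜ).toReal) P := by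
      refine CapC_int P (hcA.comp continuous_subtype_val).measurable (fun b => ENNReal.toReal_nonneg) fun b => ?_
      rw [e0]
      linarith [ENNReal.toReal_nonneg (a := n b A)]
    rw [integral_add (integrable_const _) hint]
    simp
  rw [← e4]
  exact hg

end Pool.MPb8ab30
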