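import Pool.Agent.Lib_MP_b8ab30.CapA
import Pool.Agent.Lib_MP_b8ab30.CapC

/-!
# Piece CAP: the capacity lemma

PROOF.  `Q` is non-empty (apply `h` to `∅`).  Fix a countable algebra `𝒜` of measurable sets generating the σ-algebra of `X` (`MeasurableSpace.countableGeneratingSet`,
`generateSetAlgebra`).  The map `Q → (𝒜 → ℝ)`, `r ↦ (m r A).toReal`, is measurable, so there is a finer Polish topology on `Q` (same Borel sets,
`upgradeStandardBorel`, `Measurable.exists_continuous`, or `borel_eq_borel_of_le`) making it continuous; compose with a continuous surjection of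
`B = (ℕ → ℕ)` (`PolishSpace.exists_nat_nat_continuous_surjective`): `e : B → Q` surjective, measurable, and `b ↦ (m (e b) A).toReal` is continuous for all `A ∈ 𝒜`.  Let `n b = m (e b)`.
(1) Some `t > 0` has `¬ Good μ n univ t`: otherwise `exists_null` contradicts `h` (surjectivity of `e`).
(2) Choose `β 0, β 1, ...` recursively such that `S k = {b | ∀ i < k, b i ≤ β i}` has `¬ Good μ n (S k) t` for all `k`: `S k = ⋃ j, {b ∈ S k | b k ≤ j}` increasing, `good_iUnion`.
(3) `K = {b | ∀ i, b i ≤ β i}` is compact (`isCompact_univ_pi`, finite discrete factors `Set.Iic`).  For an `𝒜`-simple function `φ` (finite real combination of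
indicators of sets of `𝒜`) with values in `[0,1]` let `g φ b = ∫ φ dμ + ∫ (1 - φ) d(n b)`, continuous in `b`.  There is `b ∈ K` with `g φ b ≥ t`: by (2) for each `k` there is
`b k ∈ S k` with `g φ (b k) > t` (the negation of `Good` with `a = ∫ φ dμ`); the truncation `b' k = fun i => min (b k i) (β i)` lies in `K` and agrees with `b k` below `k`; a
subsequence of `b' k` converges in `K`, hence so does the same subsequence of `b k`, to the same limit; use continuity.
(4) `minimax_compact` for the compact space `K` and the convex set of the `g φ` restricted to `K` gives a probability measure on `K`; push it to `B` and by `e` to `Q`: `P`.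
So `∫ φ dμ + ∫ (1 - φ) d(P.bind m) ≥ t` for all `𝒜`-simple `φ` with values in `[0,1]` (`∫ ∫ (1 - φ) d(n b) dP = ∫ (1 - φ) d(P.bind m)`), in particular for `φ = 1_A`,
`A ∈ 𝒜`: `μ A + (P.bind m) Aᶜ ≥ t`.  In fact only `φ = 1_A` is needed at the end.
(5) For measurable `N` with `μ N = 0` approximate `N` by `A ∈ 𝒜` in the finite measure `μ + P.bind m` (`Measure.MeasureDense`, `MeasureDense.approx` or
`measure_symmDiff` approximation for generating algebras): `μ A` small, `(P.bind m) Aᶜ` close to `(P.bind m) Nᶜ`; so `(P.bind m) Nᶜ ≥ t`.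
-/

set_option autoImplicit false

open MeasureTheory Filter Topology ProbabilityTheory

namespace Pool.MPb8ab30

theorem capacity {X Q : Type} [MeasurableSpace X] [StandardBorelSpace X] [MeasurableSpace Q] [StandardBorelSpace Q]
    (μ : Measure X) [IsFiniteMeasure μ] (m : Kernel Q X) [IsMarkovKernel m]
    (h : ∀ N, MeasurableSet N → μ N = 0 → ∃ r, m r N < 1) :
    ∃ P : Measure Q, IsProbabilityMeasure P ∧ ∃ t : ℝ, 0 < t ∧
      ∀ N, MeasurableSet N → μ N = 0 → ENNReal.ofReal t ≤ (P.bind m) Nᶜ := by
  haveI : Nonempty Q := by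
    obtain ⟨r, -⟩ := h ∅ MeasurableSet.empty measure_empty
    exact ⟨r⟩
  obtain ⟨𝒜, -, h𝒜, hm, hgen, e, he, hes, hc⟩ := cap_surj m
  have hn : ∀ b, IsProbabilityMeasure (m (e b)) := fun b => inferInstance
  have h1 : ∃ k : ℕ, ¬ Good μ (fun b => m (e b)) Set.univ ((1 / 2 : ℝ) ^ k) := by
    by_contra hcon
    push Not at hcon
    obtain ⟨N, hN, hN0, hN1⟩ := exists_null μ (fun b => m (e b)) hn hcon
    obtain ⟨r, hr⟩ := h N hN hN0
    obtain ⟨b, rfl⟩ := hes r
    rw [hN1 b] at hr
    exact lt_irrefl _ hr
  obtain ⟨k, hk⟩ := h1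
  obtain ⟨P, hP, hPA⟩ := cap_compact μ (fun b => m (e b)) hn 𝒜 h𝒜 hm hc _ hk
  refine ⟨P.map e, Measure.isProbabilityMeasure_map he.aemeasurable, (1 / 2 : ℝ) ^ k, by positivity, ?_⟩
  haveI : IsProbabilityMeasure (P.map e) := Measure.isProbabilityMeasure_map he.aemeasurable
  intro N hN hN0
  refine cap_approx μ ((P.map e).bind m) 𝒜 h𝒜 hgen _ (fun A hA => ?_) N hN hN0
  have hA' := hPA A hA
  have hAm := hm A hA
  have e1 : ((P.map e).bind m) Aᶜ = ENNReal.ofReal (∫ b, (m (e b) Aᶜ).toReal ∂P) := by
    rw [Measure.bind_apply hAm.compl m.measurable.aemeasurable, lintegral_map (m.measurable_coe hAm.compl) he,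
      ofReal_integral_eq_lintegral_ofReal]
    · refine lintegral_congr fun b => ?_
      rw [ENNReal.ofReal_toReal (measure_ne_top _ _)]
    · refine Integrable.of_bound (((m.measurable_coe hAm.compl).comp he).ennreal_toReal.aestronglyMeasurable) 1
        (Eventually.of_forall fun b => ?_)
      rw [Real.norm_eq_abs, abs_of_nonneg ENNReal.toReal_nonneg]
      exact ENNReal.toReal_le_of_le_ofReal zero_le_one (by rw [ENNReal.ofReal_one]; exact prob_le_one)
    · exact Eventually.of_forall fun b => ENNReal.toReal_nonneg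
  rw [e1, ← ENNReal.ofReal_toReal (measure_ne_top μ A), ← ENNReal.ofReal_add ENNReal.toReal_nonneg
    (integral_nonneg fun b => ENNReal.toReal_nonneg)]
  exact ENNReal.ofReal_le_ofReal hA'

end Pool.MPb8ab30
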