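import Pool.Agent.Lib_MP_b8ab30.CapU

/-!
# Piece CAPA: countable algebra, parametrisation by `ℕ → ℕ`, approximation (steps (0) and (5) of CAP)
-/

set_option autoImplicit false

open MeasureTheory Filter Topology ProbabilityTheory

namespace Pool.MPb8ab30

theorem cap_surj {X Q : Type} [MeasurableSpace X] [StandardBorelSpace X] [MeasurableSpace Q] [StandardBorelSpace Q] [Nonempty Q]
    (m : Kernel Q X) [IsMarkovKernel m] :
    ∃ 𝒜 : Set (Set X), 𝒜.Countable ∧ IsSetAlgebra 𝒜 ∧ (∀ A ∈ 𝒜, MeasurableSet A) ∧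
      MeasurableSpace.generateFrom 𝒜 = ‹MeasurableSpace X› ∧
      ∃ e : (ℕ → ℕ) → Q, Measurable e ∧ Function.Surjective e ∧ ∀ A ∈ 𝒜, Continuous fun b => (m (e b) A).toReal := by
  let 𝒜 : Set (Set X) := generateSetAlgebra (MeasurableSpace.countableGeneratingSet X)
  have hc : 𝒜.Countable := countable_generateSetAlgebra MeasurableSpace.countable_countableGeneratingSet
  have hgen : MeasurableSpace.generateFrom 𝒜 = ‹MeasurableSpace X› := by
    rw [generateFrom_generateSetAlgebra_eq, MeasurableSpace.generateFrom_countableGeneratingSet]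
  have hmeas : ∀ A ∈ 𝒜, MeasurableSet A := by
    intro A hA
    rw [← hgen]
    exact MeasurableSpace.measurableSet_generateFrom hA
  refine ⟨𝒜, hc, isSetAlgebra_generateSetAlgebra, hmeas, hgen, ?_⟩
  have hcc : Countable 𝒜 := hc.to_subtype
  let F : Q → (𝒜 → ℝ) := fun r A => (m r A.1).toReal
  have hF : Measurable F := measurable_pi_lambda _ fun A => (m.measurable_coe (hmeas A.1 A.2)).ennreal_toReal
  let t := upgradeStandardBorel Q
  obtain ⟨t', ht', hFc, hP⟩ := hF.exists_continuous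
  obtain ⟨e, hec, hes⟩ := @PolishSpace.exists_nat_nat_continuous_surjective Q t' hP _
  refine ⟨e, ?_, hes, fun A hA => ?_⟩
  · have h1 : @Continuous _ _ _ t.toTopologicalSpace e := continuous_le_rng ht' hec
    exact @Continuous.measurable _ _ _ _ _ t.toTopologicalSpace _ _ _ h1
  · have h2 : Continuous fun b => F (e b) := @Continuous.comp _ _ _ _ t' _ _ _ hFc hec
    exact (continuous_apply (⟨A, hA⟩ : 𝒜)).comp h2

theorem cap_approx {X : Type} [mX : MeasurableSpace X] (μ ν : Measure X) [IsFiniteMeasure μ] [IsFiniteMeasure ν]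
    (𝒜 : Set (Set X)) (h𝒜 : IsSetAlgebra 𝒜) (hgen : MeasurableSpace.generateFrom 𝒜 = mX) (t : ℝ)
    (h : ∀ A ∈ 𝒜, ENNReal.ofReal t ≤ μ A + ν Aᶜ) (N : Set X) (hN : MeasurableSet N) (h0 : μ N = 0) :
    ENNReal.ofReal t ≤ ν Nᶜ := by
  have hd : (μ + ν).MeasureDense 𝒜 := Measure.MeasureDense.of_generateFrom_isSetAlgebra_finite (μ + ν) h𝒜 hgen.symm
  refine ENNReal.le_of_forall_pos_le_add fun ε hε _ => ?_
  obtain ⟨A, hA, hlt⟩ := hd.approx N hN (measure_ne_top _ _) ε (by exact_mod_cast hε)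
  have h1 : μ A ≤ μ (symmDiff N A) := by
    calc μ A ≤ μ (N ∪ symmDiff N A) := measure_mono fun x hx => by
          by_cases hxN : x ∈ N
          · exact Or.inl hxN
          · exact Or.inr (Or.inr ⟨hx, hxN⟩)
      _ ≤ μ N + μ (symmDiff N A) := measure_union_le _ _
      _ = μ (symmDiff N A) := by rw [h0, zero_add]
  have h2 : ν Aᶜ ≤ ν Nᶜ + ν (symmDiff N A) := by
    calc ν Aᶜ ≤ ν (Nᶜ ∪ symmDiff N A) := measure_mono fun x hx => by
          by_cases hxN : x ∈ N
          · exact Or.inr (Or.inl ⟨hxN, hx⟩)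
          · exact Or.inl hxN
      _ ≤ ν Nᶜ + ν (symmDiff N A) := measure_union_le _ _
  calc ENNReal.ofReal t ≤ μ A + ν Aᶜ := h A hA
    _ ≤ μ (symmDiff N A) + (ν Nᶜ + ν (symmDiff N A)) := add_le_add h1 h2
    _ = ν Nᶜ + (μ + ν) (symmDiff N A) := by
        rw [Measure.add_apply]; ring
    _ ≤ ν Nᶜ + ENNReal.ofReal ε := by gcongr
    _ = ν Nᶜ + ε := by rw [ENNReal.ofReal_coe_nnreal]

end Pool.MPb8ab30
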