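import Mathlib

/-!
# Piece CAPM: convex combinations of tails converging almost everywhere

PROOF.  Work in `Lp ℝ 2 μ` (the functions are bounded, `μ` finite) or directly with integrals.  Let `C n` be the set of finite convex combinations of the
`φ k`, `k ≥ n`, and `d n = inf {∫ ψ^2 | ψ ∈ C n}`, increasing and `≤ μ univ`.  Choose `ψ n ∈ C n` with `∫ (ψ n)^2 ≤ d n + 1/(n+1)`.  For `m ≥ n`
`(ψ n + ψ m)/2 ∈ C n`, so by the parallelogram law `∫ (ψ n - ψ m)^2 ≤ 2 (d n + 1/(n+1)) + 2 (d m + 1/(m+1)) - 4 d n → 0`: Cauchy in `L2`, so it converges in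
`L2`, in measure, and a subsequence converges almost everywhere (`tendstoInMeasure_of_tendsto_eLpNorm`, `TendstoInMeasure.exists_seq_tendsto_ae`).  The
subsequence `ψ (ns n)` is still in `C n` since `ns n ≥ n`.  A convex combination is given here by a finitely supported weight `w n : ℕ →₀ ℝ`.
-/

set_option autoImplicit false

open MeasureTheory Filter Topology

namespace Pool.MPb8ab30

private theorem capM_cauchy {H : Type} [NormedAddCommGroup H] [InnerProductSpace ℝ H]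
    (C : ℕ → Set H) (hC : ∀ n, Convex ℝ (C n)) (hanti : ∀ n m, n ≤ m → C m ⊆ C n)
    (B : ℝ) (hB : ∀ n, ∃ x ∈ C n, ‖x‖ ^ 2 ≤ B) :
    ∃ ψ : ℕ → H, (∀ n, ψ n ∈ C n) ∧ CauchySeq ψ := by
  set d : ℕ → ℝ := fun n => sInf ((fun x => ‖x‖ ^ 2) '' C n) with hd
  have hbdd : ∀ n, BddBelow ((fun x : H => ‖x‖ ^ 2) '' C n) := by
    intro n
    refine ⟨0, ?_⟩
    rintro _ ⟨x, _, rfl⟩
    positivity
  have hne : ∀ n, ((fun x : H => ‖x‖ ^ 2) '' C n).Nonempty := by
    intro n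
    obtain ⟨x, hx, _⟩ := hB n
    exact ⟨_, x, hx, rfl⟩
  have hmono : Monotone d := by
    intro n m hnm
    exact csInf_le_csInf (hbdd n) (hne m) (Set.image_mono (hanti n m hnm))
  have hdB : ∀ n, d n ≤ B := by
    intro n
    obtain ⟨x, hx, hxB⟩ := hB n
    exact (csInf_le (hbdd n) ⟨x, hx, rfl⟩).trans hxB
  have hdle : ∀ n, ∀ x ∈ C n, d n ≤ ‖x‖ ^ 2 := fun n x hx => csInf_le (hbdd n) ⟨x, hx, rfl⟩
  have hex : ∀ n : ℕ, ∃ x ∈ C n, ‖x‖ ^ 2 < d n + 1 / ((n : ℝ) + 1) := by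
    intro n
    have hlt : d n < d n + 1 / ((n : ℝ) + 1) := by
      have : (0 : ℝ) < 1 / ((n : ℝ) + 1) := by positivity
      linarith
    obtain ⟨_, ⟨x, hx, rfl⟩, hxl⟩ := exists_lt_of_csInf_lt (hne n) hlt
    exact ⟨x, hx, hxl⟩
  choose ψ hψC hψ using hex
  refine ⟨ψ, hψC, ?_⟩
  have hlim : ∃ l, Tendsto d atTop (𝓝 l) :=
    ⟨_, tendsto_atTop_ciSup hmono ⟨B, by rintro _ ⟨n, rfl⟩; exact hdB n⟩⟩
  obtain ⟨l, hl⟩ := hlim
  have hdl : ∀ n, d n ≤ l := fun n => hmono.ge_of_tendsto hl n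
  have key : ∀ n m : ℕ, n ≤ m → ‖ψ n - ψ m‖ ^ 2 ≤ 2 * (l - d n) + 4 * (1 / ((n : ℝ) + 1)) := by
    intro n m hnm
    have hmid : (1 / 2 : ℝ) • ψ n + (1 / 2 : ℝ) • ψ m ∈ C n :=
      hC n (hψC n) (hanti n m hnm (hψC m)) (by norm_num) (by norm_num) (by norm_num)
    have h1 := hdle n _ hmid
    have h2 : ‖(1 / 2 : ℝ) • ψ n + (1 / 2 : ℝ) • ψ m‖ ^ 2 = 1 / 4 * ‖ψ n + ψ m‖ ^ 2 := by
      rw [← smul_add, norm_smul, mul_pow]
      norm_num
    rw [h2] at h1
    have h3 := parallelogram_law_with_norm ℝ (ψ n) (ψ m)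
    have h4 := hψ n
    have h5 := hψ m
    have h6 : 1 / ((m : ℝ) + 1) ≤ 1 / ((n : ℝ) + 1) := by
      apply one_div_le_one_div_of_le
      · positivity
      · have : (n : ℝ) ≤ m := by exact_mod_cast hnm
        linarith
    have h7 := hdl m
    nlinarith
  rw [Metric.cauchySeq_iff']
  intro ε hε
  have hε2 : (0 : ℝ) < ε ^ 2 := by positivity
  have hT : Tendsto (fun n : ℕ => 2 * (l - d n) + 4 * (1 / ((n : ℝ) + 1))) atTop (𝓝 0) := by
    have ha : Tendsto (fun n : ℕ => 2 * (l - d n)) atTop (𝓝 (2 * (l - l))) :=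
      (tendsto_const_nhds.sub hl).const_mul 2
    have hb : Tendsto (fun n : ℕ => 4 * (1 / ((n : ℝ) + 1))) atTop (𝓝 (4 * 0)) :=
      tendsto_one_div_add_atTop_nhds_zero_nat.const_mul 4
    simpa using ha.add hb
  obtain ⟨N, hN⟩ := (hT.eventually (gt_mem_nhds hε2)).exists
  refine ⟨N, fun m hm => ?_⟩
  rw [dist_comm, dist_eq_norm]
  have h := (key N m hm).trans_lt hN
  exact lt_of_pow_lt_pow_left₀ 2 hε.le h

private theorem capM_coeFn {X : Type} [MeasurableSpace X] {μ : Measure X}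
    (φ : ℕ → X → ℝ) (f : ℕ → Lp ℝ 2 μ) (hf : ∀ k, f k =ᵐ[μ] φ k) (c : ℕ → ℝ) (s : Finset ℕ) :
    (⇑(∑ k ∈ s, c k • f k) : X → ℝ) =ᵐ[μ] fun x => ∑ k ∈ s, c k * φ k x := by
  classical
  induction s using Finset.induction_on with
  | empty =>
    simp only [Finset.sum_empty]
    exact Lp.coeFn_zero ℝ 2 μ
  | insert a s ha ih =>
    rw [Finset.sum_insert ha]
    have h1 := Lp.coeFn_add (c a • f a) (∑ k ∈ s, c k • f k)
    have h2 := Lp.coeFn_smul (c a) (f a)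
    filter_upwards [h1, h2, ih, hf a] with x hx1 hx2 hx3 hx4
    rw [hx1, Finset.sum_insert ha, Pi.add_apply, hx2, hx3, Pi.smul_apply, hx4, smul_eq_mul]

theorem mazur_ae {X : Type} [MeasurableSpace X] (μ : Measure X) [IsFiniteMeasure μ] (φ : ℕ → X → ℝ)
    (hφ : ∀ n, Measurable (φ n)) (h0 : ∀ n x, 0 ≤ φ n x) (h1 : ∀ n x, φ n x ≤ 1) :
    ∃ w : ℕ → ℕ →₀ ℝ, (∀ n k, 0 ≤ w n k) ∧ (∀ n, ∑ k ∈ (w n).support, w n k = 1) ∧
      (∀ n, ∀ k ∈ (w n).support, n ≤ k) ∧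
      ∃ g : X → ℝ, Measurable g ∧
        ∀ᵐ x ∂μ, Tendsto (fun n => ∑ k ∈ (w n).support, w n k * φ k x) atTop (𝓝 (g x)) := by
  have hmem : ∀ k, MemLp (φ k) 2 μ := by
    intro k
    refine MemLp.of_bound (hφ k).aestronglyMeasurable 1 (Eventually.of_forall fun x => ?_)
    rw [Real.norm_eq_abs, abs_of_nonneg (h0 k x)]
    exact h1 k x
  set f : ℕ → Lp ℝ 2 μ := fun k => (hmem k).toLp (φ k) with hf
  have hfae : ∀ k, f k =ᵐ[μ] φ k := fun k => (hmem k).coeFn_toLp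
  set L : (ℕ →₀ ℝ) →ₗ[ℝ] Lp ℝ 2 μ := Finsupp.linearCombination ℝ f with hL
  set T : (ℕ →₀ ℝ) →ₗ[ℝ] ℝ := Finsupp.linearCombination ℝ (fun _ : ℕ => (1 : ℝ)) with hTdef
  set W : ℕ → Set (ℕ →₀ ℝ) := fun n => {w | (∀ k, 0 ≤ w k) ∧ T w = 1 ∧ ∀ k, w k ≠ 0 → n ≤ k} with hW
  set C : ℕ → Set (Lp ℝ 2 μ) := fun n => L '' W n with hCdef
  have hWconv : ∀ n, Convex ℝ (W n) := by
    intro n w hw v hv a b ha hb hab
    refine ⟨fun k => ?_, ?_, fun k hk => ?_⟩
    · simp only [Finsupp.add_apply, Finsupp.smul_apply, smul_eq_mul]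
      have := hw.1 k
      have := hv.1 k
      positivity
    · rw [map_add, map_smul, map_smul, hw.2.1, hv.2.1]
      simpa using hab
    · by_contra hlt
      apply hk
      have hw0 : w k = 0 := by
        by_contra h
        exact hlt (hw.2.2 k h)
      have hv0 : v k = 0 := by
        by_contra h
        exact hlt (hv.2.2 k h)
      simp [hw0, hv0]
  have hCconv : ∀ n, Convex ℝ (C n) := fun n => (hWconv n).linear_image L
  have hCanti : ∀ n m, n ≤ m → C m ⊆ C n := by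
    intro n m hnm
    exact Set.image_mono fun w hw => ⟨hw.1, hw.2.1, fun k hk => hnm.trans (hw.2.2 k hk)⟩
  set B : ℝ := (measureUnivNNReal μ : ℝ) ^ (2 : ENNReal).toReal⁻¹ * 1 with hBdef
  have hfB : ∀ k, ‖f k‖ ≤ B := by
    intro k
    refine Lp.norm_le_of_ae_bound zero_le_one ?_
    filter_upwards [hfae k] with x hx
    rw [hx, Real.norm_eq_abs, abs_of_nonneg (h0 k x)]
    exact h1 k x
  have hCB : ∀ n, ∃ x ∈ C n, ‖x‖ ^ 2 ≤ B ^ 2 := by
    intro n
    refine ⟨f n, ⟨Finsupp.single n 1, ⟨fun k => ?_, ?_, fun k hk => ?_⟩, ?_⟩, ?_⟩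
    · by_cases h : n = k
      · subst h
        simp
      · simp [h]
    · simp [hTdef, Finsupp.linearCombination_single]
    · by_contra h
      apply hk
      rw [Finsupp.single_apply, if_neg]
      omega
    · simp [hL, Finsupp.linearCombination_single]
    · have := hfB n
      have h0' : 0 ≤ ‖f n‖ := norm_nonneg _
      nlinarith
  obtain ⟨ψ, hψC, hψ⟩ := capM_cauchy C hCconv hCanti (B ^ 2) hCB
  choose w hw hwψ using hψC
  obtain ⟨g, hg⟩ := cauchySeq_tendsto_of_complete hψ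
  have hmeas : TendstoInMeasure μ (fun n => (ψ n : X → ℝ)) atTop (g : X → ℝ) :=
    tendstoInMeasure_of_tendsto_Lp hg
  obtain ⟨ns, hns, hae⟩ := hmeas.exists_seq_tendsto_ae
  refine ⟨fun n => w (ns n), fun n k => (hw (ns n)).1 k, fun n => ?_, fun n k hk => ?_, g,
    (Lp.stronglyMeasurable g).measurable, ?_⟩
  · have := (hw (ns n)).2.1
    rw [hTdef, Finsupp.linearCombination_apply] at this
    simpa [Finsupp.sum] using this
  · exact (hns.id_le n).trans ((hw (ns n)).2.2 k (Finsupp.mem_support_iff.mp hk))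
  · have hrep : ∀ n, (ψ (ns n) : X → ℝ) =ᵐ[μ]
        fun x => ∑ k ∈ (w (ns n)).support, w (ns n) k * φ k x := by
      intro n
      rw [← hwψ (ns n)]
      exact capM_coeFn φ f hfae (fun k => w (ns n) k) (w (ns n)).support
    have hall : ∀ᵐ x ∂μ, ∀ n, (ψ (ns n) : X → ℝ) x =
        ∑ k ∈ (w (ns n)).support, w (ns n) k * φ k x := ae_all_iff.mpr hrep
    filter_upwards [hae, hall] with x hx hx2
    simpa only [hx2] using hx

end Pool.MPb8ab30
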