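import Pool.Agent.Lib_MP_b8ab30.CapM

/-!
# Piece CAPU: the predicate `Good`, upward continuity, the null set

`Good μ m S t`: some measurable `φ : X → [0,1]` has `∫ φ dμ ≤ a` and `∫ (1 - φ) d(m b) ≤ t - a` for all `b ∈ S`.

PROOF of `good_iUnion`.  Take `φ n`, `a n := ∫ φ n dμ` (the given `a` may be lowered to `∫ φ n dμ`: `t - a` grows) for `S n`; pass to a subsequence with `a n → α`
(`a n ∈ [0, μ univ]`; the sets are monotone, so a subsequence still works).  `mazur_ae` gives convex combinations `ψ n` of `φ k`, `k ≥ n`, converging `μ`-a.e. to `g`.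
Let `φ* = limsup (ψ n)` (pointwise, values in `[0,1]`, measurable: `Measurable.limsup`).  `φ* = g` a.e., so by dominated convergence
`∫ φ* dμ = lim ∫ ψ n dμ = lim ∑ w n k * a k = α`.  For `b ∈ S j` and `n ≥ j`: `∫ (1 - ψ n) d(m b) = ∑ w n k ∫ (1 - φ k) d(m b) ≤ sup_(k ≥ n) (t - a k) → t - α`, and by
Fatou `∫ (1 - φ*) ≤ liminf ∫ (1 - ψ n) ≤ t - α`.  (One may work with `lintegral` and `ENNReal.ofReal` for Fatou.)

PROOF of `exists_null`.  `φ k` for `t = (1/2)^k`: `μ {φ k ≥ 1/2} ≤ 2 (1/2)^k` (Markov; note `a ≤ t` because `∫ (1 - φ) ≥ 0` and `S` is non-empty, and `a ≥ 0`),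
`(m b) {φ k < 1/2} ≤ 2 (1/2)^k`.  `N = limsup {φ k ≥ 1/2}`: `μ N = 0` (Borel-Cantelli, `measure_limsup_eq_zero`), and for every `b` the complement
`{x | eventually φ k x < 1/2}` has measure zero.
-/

set_option autoImplicit false

open MeasureTheory Filter Topology ProbabilityTheory

namespace Pool.MPb8ab30

def Good {X B : Type} [MeasurableSpace X] (μ : Measure X) (m : B → Measure X) (S : Set B) (t : ℝ) : Prop :=
  ∃ φ : X → ℝ, Measurable φ ∧ (∀ x, 0 ≤ φ x) ∧ (∀ x, φ x ≤ 1) ∧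
    ∃ a : ℝ, ∫ x, φ x ∂μ ≤ a ∧ ∀ b ∈ S, ∫ x, (1 - φ x) ∂(m b) ≤ t - a

private theorem CapU_bdd {X : Type} [MeasurableSpace X] (μ : Measure X) [IsFiniteMeasure μ] {f : X → ℝ}
    (hf : Measurable f) (h0 : ∀ x, 0 ≤ f x) (h1 : ∀ x, f x ≤ 1) : Integrable f μ := by
  refine Integrable.of_bound hf.aestronglyMeasurable 1 (Eventually.of_forall fun x => ?_)
  rw [Real.norm_eq_abs, abs_of_nonneg (h0 x)]
  exact h1 x

/-- a bounded real sequence has a convergent subsequence -/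
private theorem CapU_sub (a : ℕ → ℝ) (c : ℝ) (h0 : ∀ n, 0 ≤ a n) (h1 : ∀ n, a n ≤ c) :
    ∃ (α : ℝ) (ns : ℕ → ℕ), StrictMono ns ∧ Tendsto (fun n => a (ns n)) atTop (𝓝 α) := by
  obtain ⟨α, _, ns, hns, h⟩ := (isCompact_Icc (a := (0 : ℝ)) (b := c)).tendsto_subseq
    (x := a) (fun n => ⟨h0 n, h1 n⟩)
  exact ⟨α, ns, hns, h⟩

private theorem CapU_w_le {w : ℕ →₀ ℝ} (h0 : ∀ k, 0 ≤ w k) (h1 : ∑ k ∈ w.support, w k = 1) (a : ℕ → ℝ) (c : ℝ)
    (h : ∀ k ∈ w.support, a k ≤ c) : ∑ k ∈ w.support, w k * a k ≤ c := by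
  calc ∑ k ∈ w.support, w k * a k ≤ ∑ k ∈ w.support, w k * c :=
        Finset.sum_le_sum fun k hk => mul_le_mul_of_nonneg_left (h k hk) (h0 k)
    _ = c := by rw [← Finset.sum_mul, h1, one_mul]

private theorem CapU_w_nonneg {w : ℕ →₀ ℝ} (h0 : ∀ k, 0 ≤ w k) (a : ℕ → ℝ) (h : ∀ k, 0 ≤ a k) :
    0 ≤ ∑ k ∈ w.support, w k * a k :=
  Finset.sum_nonneg fun k _ => mul_nonneg (h0 k) (h k)

theorem good_iUnion {X B : Type} [MeasurableSpace X] (μ : Measure X) [IsFiniteMeasure μ] (m : B → Measure X)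
    (hm : ∀ b, IsProbabilityMeasure (m b)) (S : ℕ → Set B) (hS : Monotone S) (t : ℝ)
    (h : ∀ n, Good μ m (S n) t) : Good μ m (⋃ n, S n) t := by
  choose φ0 hφ0 h00 h10 a0 ha0 hb0 using h
  -- subsequence
  obtain ⟨α, ns, hns, hα⟩ := CapU_sub (fun n => ∫ x, φ0 n x ∂μ) (μ.real Set.univ)
    (fun n => integral_nonneg (h00 n)) (fun n => by
      calc ∫ x, φ0 n x ∂μ ≤ ∫ _, (1 : ℝ) ∂μ :=
            integral_mono (CapU_bdd μ (hφ0 n) (h00 n) (h10 n)) (integrable_const _) (h10 n)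
        _ = μ.real Set.univ := by simp)
  let φ : ℕ → X → ℝ := fun n => φ0 (ns n)
  have hφ : ∀ n, Measurable (φ n) := fun n => hφ0 _
  have h0 : ∀ n x, 0 ≤ φ n x := fun n x => h00 _ x
  have h1 : ∀ n x, φ n x ≤ 1 := fun n x => h10 _ x
  have hS2 : ∀ n, ∀ b ∈ S n, ∫ x, (1 - φ n x) ∂(m b) ≤ t - ∫ x, φ n x ∂μ := by
    intro n b hb
    have h2 := hb0 (ns n) b (hS (hns.id_le n) hb)
    have h3 := ha0 (ns n)
    show ∫ x, (1 - φ0 (ns n) x) ∂(m b) ≤ t - ∫ x, φ0 (ns n) x ∂μ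
    linarith
  have hev : ∀ ε > 0, ∃ K, ∀ k ≥ K, |(∫ x, φ k x ∂μ) - α| ≤ ε := by
    intro ε hε
    obtain ⟨K, hK⟩ := (Metric.tendsto_atTop.1 hα) ε hε
    refine ⟨K, fun k hk => ?_⟩
    have h2 := hK k hk
    rw [Real.dist_eq] at h2
    exact h2.le
  obtain ⟨w, hw0, hw1, hwn, g, hg, hconv⟩ := mazur_ae μ φ hφ h0 h1
  let ψ : ℕ → X → ℝ := fun n x => ∑ k ∈ (w n).support, w n k * φ k x
  have hψm : ∀ n, Measurable (ψ n) := fun n =>
    Finset.measurable_sum _ fun k _ => (hφ k).const_mul _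
  have hψ0 : ∀ n x, 0 ≤ ψ n x := fun n x => CapU_w_nonneg (hw0 n) (fun k => φ k x) (fun k => h0 k x)
  have hψ1 : ∀ n x, ψ n x ≤ 1 := fun n x => CapU_w_le (hw0 n) (hw1 n) (fun k => φ k x) 1 (fun k _ => h1 k x)
  have hψint : ∀ (ν : Measure X) [IsFiniteMeasure ν] n, ∫ x, ψ n x ∂ν = ∑ k ∈ (w n).support, w n k * ∫ x, φ k x ∂ν := by
    intro ν _ n
    show ∫ x, ∑ k ∈ (w n).support, w n k * φ k x ∂ν = _
    rw [integral_finset_sum _ (fun k _ => (CapU_bdd ν (hφ k) (h0 k) (h1 k)).const_mul _)]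
    exact Finset.sum_congr rfl fun k _ => integral_const_mul _ _
  let L : X → ENNReal := fun x => liminf (fun n => ENNReal.ofReal (1 - ψ n x)) atTop
  have hLm : Measurable L := Measurable.liminf fun n => ENNReal.measurable_ofReal.comp ((hψm n).const_sub 1)
  have hL1 : ∀ x, L x ≤ 1 := by
    intro x
    have h2 : liminf (fun n => ENNReal.ofReal (1 - ψ n x)) atTop ≤ liminf (fun _ : ℕ => (1 : ENNReal)) atTop := by
      refine liminf_le_liminf (Eventually.of_forall fun n => ?_)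
      rw [← ENNReal.ofReal_one]
      exact ENNReal.ofReal_le_ofReal (by linarith [hψ0 n x])
    rwa [liminf_const] at h2
  have hLt : ∀ x, (L x).toReal ≤ 1 := by
    intro x
    have h2 := ENNReal.toReal_mono ENNReal.one_ne_top (hL1 x)
    simpa using h2
  refine ⟨fun x => 1 - (L x).toReal, measurable_const.sub hLm.ennreal_toReal, fun x => by
    show 0 ≤ 1 - (L x).toReal
    linarith [hLt x], fun x => by
    show 1 - (L x).toReal ≤ 1
    linarith [ENNReal.toReal_nonneg (a := L x)], α, ?_, ?_⟩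
  · -- ∫ φ* dμ ≤ α
    have hlim : ∀ᵐ x ∂μ, Tendsto (fun n => ψ n x) atTop (𝓝 (1 - (L x).toReal)) := by
      filter_upwards [hconv] with x hx
      have hx' : Tendsto (fun n => ψ n x) atTop (𝓝 (g x)) := hx
      have h2 : Tendsto (fun n => ENNReal.ofReal (1 - ψ n x)) atTop (𝓝 (ENNReal.ofReal (1 - g x))) :=
        (ENNReal.continuous_ofReal.tendsto _).comp (tendsto_const_nhds.sub hx')
      have h3 : L x = ENNReal.ofReal (1 - g x) := h2.liminf_eq
      have h4 : g x ≤ 1 := le_of_tendsto' hx' fun n => hψ1 n x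
      rw [h3, ENNReal.toReal_ofReal (by linarith)]
      have h5 : 1 - (1 - g x) = g x := by ring
      rw [h5]
      exact hx'
    have hdct : Tendsto (fun n => ∫ x, ψ n x ∂μ) atTop (𝓝 (∫ x, (1 - (L x).toReal) ∂μ)) := by
      refine tendsto_integral_of_dominated_convergence (fun _ => (1 : ℝ)) (fun n => (hψm n).aestronglyMeasurable)
        (integrable_const _) (fun n => Eventually.of_forall fun x => ?_) hlim
      rw [Real.norm_eq_abs, abs_of_nonneg (hψ0 n x)]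
      exact hψ1 n x
    refine le_of_forall_pos_le_add fun ε hε => ?_
    obtain ⟨K, hK⟩ := hev ε hε
    refine le_of_tendsto hdct ?_
    filter_upwards [eventually_ge_atTop K] with n hn
    rw [hψint μ n]
    refine CapU_w_le (hw0 n) (hw1 n) _ _ fun k hk => ?_
    have h2 := hK k (hn.trans (hwn n k hk))
    rw [abs_le] at h2
    linarith [h2.2]
  · intro b hb
    haveI := hm b
    obtain ⟨j, hj⟩ := Set.mem_iUnion.1 hb
    refine le_of_forall_pos_le_add fun ε hε => ?_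
    obtain ⟨K, hK⟩ := hev ε hε
    have hbound : ∀ n, max K j ≤ n → ∫ x, (1 - ψ n x) ∂(m b) ≤ t - α + ε := by
      intro n hn
      have h2 : ∫ x, (1 - ψ n x) ∂(m b) = ∑ k ∈ (w n).support, w n k * ∫ x, (1 - φ k x) ∂(m b) := by
        rw [integral_sub (integrable_const _) (CapU_bdd _ (hψm n) (hψ0 n) (hψ1 n)), hψint (m b) n]
        have h3 : ∀ k, ∫ x, (1 - φ k x) ∂(m b) = 1 - ∫ x, φ k x ∂(m b) := by
          intro k
          rw [integral_sub (integrable_const _) (CapU_bdd _ (hφ k) (h0 k) (h1 k))]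
          simp
        simp only [h3, mul_sub, mul_one, Finset.sum_sub_distrib, hw1 n]
        simp
      rw [h2]
      refine CapU_w_le (hw0 n) (hw1 n) _ _ fun k hk => ?_
      have hkn := hwn n k hk
      have h4 := hS2 k b (hS (((le_max_right K j).trans hn).trans hkn) hj)
      have h5 := hK k (((le_max_left K j).trans hn).trans hkn)
      rw [abs_le] at h5
      linarith [h5.1]
    have hc : 0 ≤ t - α + ε := by
      refine le_trans ?_ (hbound (max K j) le_rfl)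
      exact integral_nonneg fun x => by
        show (0 : ℝ) ≤ 1 - ψ (max K j) x
        linarith [hψ1 (max K j) x]
    have e1 : ∫ x, (1 - (1 - (L x).toReal)) ∂(m b) = (∫⁻ x, L x ∂(m b)).toReal := by
      rw [← integral_toReal hLm.aemeasurable (Eventually.of_forall fun x => lt_of_le_of_lt (hL1 x) ENNReal.one_lt_top)]
      congr 1
      funext x
      ring
    rw [e1]
    have e2 : ∫⁻ x, L x ∂(m b) ≤ liminf (fun n => ∫⁻ x, ENNReal.ofReal (1 - ψ n x) ∂(m b)) atTop :=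
      lintegral_liminf_le fun n => ENNReal.measurable_ofReal.comp ((hψm n).const_sub 1)
    have e3 : liminf (fun n => ∫⁻ x, ENNReal.ofReal (1 - ψ n x) ∂(m b)) atTop ≤
        liminf (fun _ : ℕ => ENNReal.ofReal (t - α + ε)) atTop := by
      refine liminf_le_liminf ?_
      filter_upwards [eventually_ge_atTop (max K j)] with n hn
      rw [← ofReal_integral_eq_lintegral_ofReal]
      · exact ENNReal.ofReal_le_ofReal (hbound n hn)
      · exact (integrable_const _).sub (CapU_bdd _ (hψm n) (hψ0 n) (hψ1 n))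
      · exact Eventually.of_forall fun x => by
          show (0 : ℝ) ≤ 1 - ψ n x
          linarith [hψ1 n x]
    rw [liminf_const] at e3
    have e4 := ENNReal.toReal_mono ENNReal.ofReal_ne_top (e2.trans e3)
    rwa [ENNReal.toReal_ofReal hc] at e4

private theorem CapU_markov {X : Type} [MeasurableSpace X] (ν : Measure X) [IsFiniteMeasure ν] (f : X → ℝ)
    (hf : Measurable f) (h0 : ∀ x, 0 ≤ f x) (h1 : ∀ x, f x ≤ 1) (c : ℝ) (h : ∫ x, f x ∂ν ≤ c) :
    ν {x | 1 / 2 ≤ f x} ≤ ENNReal.ofReal (2 * c) := by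
  have h2 := mul_meas_ge_le_integral_of_nonneg (μ := ν) (f := f) (Eventually.of_forall h0) (CapU_bdd ν hf h0 h1) (1 / 2)
  have h3 : ν.real {x | 1 / 2 ≤ f x} ≤ 2 * c := by linarith
  rw [← ENNReal.ofReal_toReal (measure_ne_top ν {x | 1 / 2 ≤ f x})]
  exact ENNReal.ofReal_le_ofReal h3

private theorem CapU_tsum {X : Type} [MeasurableSpace X] (ν : Measure X) (A : ℕ → Set X)
    (h : ∀ k, ν (A k) ≤ ENNReal.ofReal (2 * (1 / 2 : ℝ) ^ k)) : ν (limsup A atTop) = 0 := by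
  apply measure_limsup_atTop_eq_zero
  have h1 : Summable fun k : ℕ => 2 * (1 / 2 : ℝ) ^ k := summable_geometric_two.mul_left 2
  have h2 : ∑' k : ℕ, ENNReal.ofReal (2 * (1 / 2 : ℝ) ^ k) = ENNReal.ofReal (∑' k : ℕ, 2 * (1 / 2 : ℝ) ^ k) :=
    (ENNReal.ofReal_tsum_of_nonneg (fun k => by positivity) h1).symm
  have h3 : ∑' k, ν (A k) ≤ ∑' k : ℕ, ENNReal.ofReal (2 * (1 / 2 : ℝ) ^ k) := ENNReal.tsum_le_tsum h
  rw [h2] at h3
  exact ne_top_of_le_ne_top ENNReal.ofReal_ne_top h3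

theorem exists_null {X B : Type} [MeasurableSpace X] [Nonempty B] (μ : Measure X) [IsFiniteMeasure μ] (m : B → Measure X)
    (hm : ∀ b, IsProbabilityMeasure (m b)) (h : ∀ k : ℕ, Good μ m Set.univ ((1 / 2 : ℝ) ^ k)) :
    ∃ N : Set X, MeasurableSet N ∧ μ N = 0 ∧ ∀ b, m b N = 1 := by
  choose φ hφ h0 h1 a ha hb using h
  have hsub0 : ∀ k x, 0 ≤ 1 - φ k x := fun k x => by linarith [h1 k x]
  have hsub1 : ∀ k x, 1 - φ k x ≤ 1 := fun k x => by linarith [h0 k x]
  have hA1 : ∀ k, ∫ x, φ k x ∂μ ≤ (1 / 2 : ℝ) ^ k := by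
    intro k
    obtain ⟨b⟩ := ‹Nonempty B›
    have h2 := hb k b (Set.mem_univ _)
    have h3 : 0 ≤ ∫ x, (1 - φ k x) ∂(m b) := integral_nonneg (hsub0 k)
    linarith [ha k]
  have hA2 : ∀ k b, ∫ x, (1 - φ k x) ∂(m b) ≤ (1 / 2 : ℝ) ^ k := by
    intro k b
    have h2 := hb k b (Set.mem_univ _)
    have h3 : 0 ≤ ∫ x, φ k x ∂μ := integral_nonneg (h0 k)
    linarith [ha k]
  have hmA : ∀ k, MeasurableSet {x | 1 / 2 ≤ φ k x} := fun k => measurableSet_le measurable_const (hφ k)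
  refine ⟨limsup (fun k => {x | 1 / 2 ≤ φ k x}) atTop, MeasurableSet.measurableSet_limsup hmA, ?_, fun b => ?_⟩
  · exact CapU_tsum μ _ fun k => CapU_markov μ (φ k) (hφ k) (h0 k) (h1 k) _ (hA1 k)
  · haveI := hm b
    rw [← prob_compl_eq_zero_iff (MeasurableSet.measurableSet_limsup hmA)]
    have h2 : m b (limsup (fun k => {x | 1 / 2 ≤ 1 - φ k x}) atTop) = 0 :=
      CapU_tsum (m b) _ fun k => CapU_markov (m b) (fun x => 1 - φ k x) ((hφ k).const_sub 1) (hsub0 k) (hsub1 k) _ (hA2 k b)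
    refine measure_mono_null ?_ h2
    intro x hx
    rw [Set.mem_compl_iff, mem_limsup_iff_frequently_mem, not_frequently] at hx
    rw [mem_limsup_iff_frequently_mem]
    refine Eventually.frequently (hx.mono fun k hk => ?_)
    simp only [Set.mem_setOf_eq, not_le] at hk
    show (1 / 2 : ℝ) ≤ 1 - φ k x
    linarith

end Pool.MPb8ab30
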