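import Pool.Agent.Lib_MP_b8ab30.Defs

/-!
# Piece COD: codes for measurable maps

PROOF.  Let `(C i)` (`i : ℕ`) enumerate a countable algebra of measurable sets generating the σ-algebra of `V` (`MeasurableSpace.countableGeneratingSet`, `generateSetAlgebra`,
`countable_generateSetAlgebra`; it contains `∅`).  For a sequence `v : ℕ → ℕ` let `[v] = {y | y ∈ C (v j) for infinitely many j}`.  For every measurable `B` there is `v`
with `[v] = B` almost everywhere: choose `v j` with `ν (B ∆ C (v j)) ≤ 2^(-j)` (approximation by a generating algebra: `Measure.MeasureDense`) and use Borel-Cantelli.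
Let `e : Z → (ℕ → Bool)` be a measurable embedding (`MeasurableSpace.measurableEmbedding_natBool...`, `MeasurableSpace.mapNatBool`; `Z` standard Borel, `Measurable.measurableEmbedding`) and `r : (ℕ → Bool) → Z` a measurable
left inverse (`MeasurableEmbedding.exists_measurable_extend` with `id`, `Z` non-empty).  `Ψ (w,y) = r (fun n => decide (y ∈ [w n]))`.  It is jointly measurable: for fixed `n, j`
the set `{(w,y) | y ∈ C (w n j)} = ⋃ i, {w | w n j = i} ×ˢ C i` is measurable, and `y ∈ [w n]` is a countable intersection of countable unions of such sets.  Given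
measurable `f`, choose `w n` with `[w n] = {y | e (f y) n = true}` a.e.
-/

set_option autoImplicit false

open MeasureTheory

namespace Pool.MPb8ab30

/-- the set coded by a sequence of indices: the points which are in infinitely many of the sets -/
private def Cod_lim {V : Type} (C : ℕ → Set V) (v : ℕ → ℕ) : Set V :=
  {y | ∀ N, ∃ j, N ≤ j ∧ y ∈ C (v j)}

private theorem Cod_approx {V : Type} [MeasurableSpace V] (ν : Measure V) [IsProbabilityMeasure ν]
    {C : ℕ → Set V} (hC : ν.MeasureDense (Set.range C)) {B : Set V} (hB : MeasurableSet B) :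
    ∃ v : ℕ → ℕ, ∀ᵐ y ∂ν, y ∈ Cod_lim C v ↔ y ∈ B := by
  have h1 : ∀ j : ℕ, ∃ i, ν (symmDiff B (C i)) < ENNReal.ofReal ((1 / 2) ^ j) := by
    intro j
    obtain ⟨t, ⟨i, rfl⟩, ht⟩ := hC.approx B hB (measure_ne_top ν B) ((1 / 2) ^ j) (by positivity)
    exact ⟨i, ht⟩
  choose v hv using h1
  refine ⟨v, ?_⟩
  have hsum : ∑' j, ν (symmDiff B (C (v j))) ≠ ⊤ := by
    have h2 : ∑' j : ℕ, ENNReal.ofReal ((1 / 2 : ℝ) ^ j) ≠ ⊤ := by
      rw [← ENNReal.ofReal_tsum_of_nonneg (fun j => by positivity) summable_geometric_two]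
      exact ENNReal.ofReal_ne_top
    exact ne_top_of_le_ne_top h2 (ENNReal.tsum_le_tsum fun j => (hv j).le)
  filter_upwards [ae_eventually_notMem hsum] with y hy
  rw [Filter.eventually_atTop] at hy
  obtain ⟨N, hN⟩ := hy
  have h3 : ∀ j, N ≤ j → (y ∈ C (v j) ↔ y ∈ B) := by
    intro j hj
    have h4 := hN j hj
    rw [Set.mem_symmDiff] at h4
    tauto
  constructor
  · intro h
    obtain ⟨j, hj, h5⟩ := h N
    exact (h3 j hj).mp h5
  · intro h M
    exact ⟨max N M, le_max_right N M, (h3 _ (le_max_left N M)).mpr h⟩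

private theorem Cod_meas {V : Type} [MeasurableSpace V] {C : ℕ → Set V}
    (hC : ∀ i, MeasurableSet (C i)) (n : ℕ) :
    MeasurableSet {p : W × V | p.2 ∈ Cod_lim C (p.1 n)} := by
  have h1 : ∀ j, MeasurableSet {p : W × V | p.2 ∈ C (p.1 n j)} := by
    intro j
    have h2 : {p : W × V | p.2 ∈ C (p.1 n j)} = ⋃ i, {p : W × V | p.1 n j = i ∧ p.2 ∈ C i} := by
      ext p
      rw [Set.mem_iUnion]
      constructor
      · intro h
        exact ⟨_, rfl, h⟩
      · rintro ⟨i, h, h'⟩
        have h3 : p.2 ∈ C (p.1 n j) := by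
          rw [h]
          exact h'
        exact h3
    rw [h2]
    refine MeasurableSet.iUnion fun i => ?_
    have h3 : Measurable fun p : W × V => p.1 n j :=
      (measurable_pi_apply j).comp ((measurable_pi_apply n).comp measurable_fst)
    exact (h3 (measurableSet_singleton i)).inter (measurable_snd (hC i))
  have h2 : {p : W × V | p.2 ∈ Cod_lim C (p.1 n)} =
      ⋂ N : ℕ, ⋃ j : ℕ, ⋃ _ : N ≤ j, {p : W × V | p.2 ∈ C (p.1 n j)} := by
    ext p
    rw [Set.mem_iInter]
    constructor
    · intro h N
      obtain ⟨j, hj, h'⟩ := h N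
      rw [Set.mem_iUnion₂]
      exact ⟨j, hj, h'⟩
    · intro h N
      have h' := h N
      rw [Set.mem_iUnion₂] at h'
      obtain ⟨j, hj, h'⟩ := h'
      exact ⟨j, hj, h'⟩
  rw [h2]
  exact MeasurableSet.iInter fun N => MeasurableSet.iUnion fun j => MeasurableSet.iUnion fun _ =>
    h1 j

theorem codes {V Z : Type} [MeasurableSpace V] [StandardBorelSpace V] [MeasurableSpace Z] [StandardBorelSpace Z] [Nonempty Z]
    (ν : Measure V) [IsProbabilityMeasure ν] :
    ∃ Ψ : W × V → Z, Measurable Ψ ∧ ∀ f : V → Z, Measurable f → ∃ w : W, ∀ᵐ y ∂ν, Ψ (w, y) = f y := by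
  classical
  have : IsSeparable ν := isSeparable_of_sigmaFinite ν
  obtain ⟨A, hA1, hA2⟩ := exists_countable_measureDense ν
  obtain ⟨C, rfl⟩ := hA1.exists_eq_range hA2.nonempty
  have hC : ∀ i, MeasurableSet (C i) := fun i => hA2.measurable _ (Set.mem_range_self i)
  have he : MeasurableEmbedding (MeasurableSpace.mapNatBool Z) :=
    (MeasurableSpace.measurable_mapNatBool Z).measurableEmbedding
      (MeasurableSpace.injective_mapNatBool Z)
  obtain ⟨r, hr, hre⟩ := he.exists_measurable_extend measurable_id fun _ => inferInstance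
  refine ⟨fun p => r fun n => decide (p.2 ∈ Cod_lim C (p.1 n)), hr.comp ?_, ?_⟩
  · refine measurable_pi_iff.mpr fun n => ?_
    have h1 : Measurable fun p : W × V => p.2 ∈ Cod_lim C (p.1 n) :=
      measurableSet_setOfPred.mp (Cod_meas hC n)
    exact (measurable_from_top (f := fun q : Prop => decide q)).comp h1
  · intro f hf
    have h1 : ∀ n, ∃ v : ℕ → ℕ, ∀ᵐ y ∂ν, y ∈ Cod_lim C v ↔
        y ∈ {y | MeasurableSpace.mapNatBool Z (f y) n = true} := by
      intro n
      refine Cod_approx ν hA2 ?_
      have h2 : Measurable fun y => MeasurableSpace.mapNatBool Z (f y) n :=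
        (measurable_pi_apply n).comp ((MeasurableSpace.measurable_mapNatBool Z).comp hf)
      exact h2 (measurableSet_singleton true)
    choose w hw using h1
    refine ⟨w, ?_⟩
    filter_upwards [ae_all_iff.mpr hw] with y hy
    have h3 : (fun n => decide (y ∈ Cod_lim C (w n))) = MeasurableSpace.mapNatBool Z (f y) := by
      funext n
      have h4 := hy n
      rw [Bool.eq_iff_iff, decide_eq_true_iff]
      exact h4
    show r (fun n => decide (y ∈ Cod_lim C (w n))) = f y
    rw [h3]
    exact congrFun hre (f y)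

end Pool.MPb8ab30
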