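import Mathlib

/-!
# No strongly universal countable Borel equivalence relation (MP_b8ab30_lc, S15278). Definitions

`R = F_2[t]` acts on the sequences `T = (ℕ → ZMod 2)`: `t` is the shift.  For `c : T` the involutions `gen c j` of `Y = T × T` are the
translations `tr c a` (`a ∈ R × R`) and the elementary matrices `e12 r`, `e21 r`; `F c` is the orbit relation of the group they generate.
`nu` is the Haar probability measure of `Y`.
-/

set_option autoImplicit false

open MeasureTheory

namespace Pool.MPb8ab30

/-- countable Borel equivalence relation -/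
structure CBER {X : Type} [MeasurableSpace X] (E : X → X → Prop) : Prop where
  meas : MeasurableSet {p : X × X | E p.1 p.2}
  equiv : Equivalence E
  count : ∀ x, {y | E x y}.Countable

/-- a countable family of Borel automorphisms whose graphs have union `E` -/
structure Gen {X : Type} [MeasurableSpace X] (E : X → X → Prop) (θ : ℕ → X ≃ᵐ X) : Prop where
  equiv : Equivalence E
  sub : ∀ k x, E x (θ k x)
  cover : ∀ x y, E x y → ∃ k, θ k x = y

/-- the polynomials over the field with two elements -/
abbrev R : Type := Polynomial (ZMod 2)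

/-- binary sequences -/
abbrev T : Type := ℕ → ZMod 2

/-- a standard Borel space of codes -/
abbrev W : Type := ℕ → ℕ → ℕ

/-- action of polynomials on sequences: `t` acts as the shift -/
noncomputable def act (r : R) (y : T) : T := fun k => r.sum fun n a => a * y (n + k)

abbrev Y : Type := T × T

/-- translation by `(a.1 c, a.2 c)` -/
noncomputable def tr (c : T) (a : R × R) (y : Y) : Y := (y.1 + act a.1 c, y.2 + act a.2 c)

noncomputable def e12 (r : R) (y : Y) : Y := (y.1 + act r y.2, y.2)

noncomputable def e21 (r : R) (y : Y) : Y := (y.1, y.2 + act r y.1)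

/-- the elementary matrices on `R × R` -/
noncomputable def f12 (r : R) (a : R × R) : R × R := (a.1 + r * a.2, a.2)

noncomputable def f21 (r : R) (a : R × R) : R × R := (a.1, a.2 + r * a.1)

/-- index set of the generators -/
abbrev J : Type := (R × R) ⊕ (R ⊕ R)

/-- the generators, involutions of `Y` -/
noncomputable def gen (c : T) : J → Y → Y
  | Sum.inl a => tr c a
  | Sum.inr (Sum.inl r) => e12 r
  | Sum.inr (Sum.inr r) => e21 r

/-- a word in the generators -/
noncomputable def word (c : T) (w : List J) (y : Y) : Y := w.foldr (fun j z => gen c j z) y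

/-- the source relation -/
def F (c : T) (y z : Y) : Prop := ∃ w : List J, word c w y = z

/-- the six special generators -/
noncomputable def six : Fin 6 → J
  | 0 => Sum.inl (1, 0)
  | 1 => Sum.inl (0, 1)
  | 2 => Sum.inr (Sum.inl 1)
  | 3 => Sum.inr (Sum.inl Polynomial.X)
  | 4 => Sum.inr (Sum.inr 1)
  | 5 => Sum.inr (Sum.inr Polynomial.X)

/-- Haar probability measure of `Y` -/
noncomputable def nu : Measure Y := Measure.addHaarMeasure ⊤

/-- `c` is not torsion -/
def NonTor (c : T) : Prop := ∀ q : R, act q c = 0 → q = 0

/-- `c`, `c'` are linearly independent over `R` -/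
def Ind (c c' : T) : Prop := ∀ q q' : R, act q c + act q' c' = 0 → q = 0 ∧ q' = 0

/-- the relation on `X × ℕ` -/
def Et {X : Type} (E : X → X → Prop) (a b : X × ℕ) : Prop := E a.1 b.1

/-- the measure on `X × ℕ` -/
noncomputable def mt {X : Type} [MeasurableSpace X] (μ : Measure X) : Measure (X × ℕ) := μ.prod Measure.count

/-- a random homomorphism `Φ(·, ω)` from `F c` to `E`, with absolutely continuous law, each one non-trivial, and on which the six special
generators are nearly given by the maps `t s` of `X` -/
structure IsDatum {X : Type} [MeasurableSpace X] (E : X → X → Prop) (μ : Measure X) (c : T)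
    (t : Fin 6 → X → X) (ε : ENNReal) (P : Measure W) (Φ : Y × W → X) : Prop where
  prob : IsProbabilityMeasure P
  meas : Measurable Φ
  hom : ∀ j : J, ∀ᵐ u ∂(nu.prod P), E (Φ (gen c j u.1, u.2)) (Φ u)
  nontriv : ∀ᵐ w ∂P, (nu.prod nu) {p : Y × Y | E (Φ (p.1, w)) (Φ (p.2, w))} = 0
  near : ∀ s : Fin 6, (nu.prod P) {u | Φ (gen c (six s) u.1, u.2) ≠ t s (Φ u)} ≤ ε
  ac : (nu.prod P).map Φ ≪ μ

end Pool.MPb8ab30
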