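import Pool.Agent.Lib_MP_b8ab30.Act

/-!
# Piece DENS: density of the translation subgroups

PROOFS.  The map `r ↦ fun k : Fin n => act r c k` is `ZMod 2`-linear from `R` to `Fin n → ZMod 2`.  If it is not onto, its range is a proper subspace and some
non-zero linear functional, `u ↦ ∑ k, α k * u k`, vanishes on it (`Submodule.exists_le_ker_of_lt_top` or `Submodule.exists_dual_map_eq_bot_of_lt_top`; the
functionals on `Fin n → ZMod 2` are of this form).  With `q = ∑ k, monomial k (α k) ≠ 0` for all `r`
`0 = ∑ k, α k * act r c k = act q (act r c) 0 = act r (act q c) 0`; `r = X^i` gives `(act q c) i = 0`, so `act q c = 0` and `q = 0`: contradiction.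
`onto2`: the same with `r ↦ (act r c, act r c')` and the functional `∑ α k * u k + ∑ β k * v k`: `act q c + act q' c' = 0`, `(q,q') ≠ 0`.
-/

set_option autoImplicit false

namespace Pool.MPb8ab30

private theorem Dens_surj {ι : Type} [Fintype ι] (φ : R →+ (ι → ZMod 2))
    (h : ∀ α : ι → ZMod 2, (∀ r, ∑ i, α i * φ r i = 0) → α = 0) : Function.Surjective φ := by
  classical
  by_contra hcon
  set L : R →ₗ[ZMod 2] (ι → ZMod 2) := φ.toZModLinearMap 2 with hL
  have hLφ : ∀ r, L r = φ r := fun r => rfl
  have h1 : LinearMap.range L ≠ ⊤ := by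
    intro h2
    rw [LinearMap.range_eq_top] at h2
    exact hcon h2
  obtain ⟨f, hf, hf0⟩ := Submodule.exists_dual_map_eq_bot_of_lt_top (lt_top_iff_ne_top.2 h1)
    inferInstance
  have h2 : ∀ u : ι → ZMod 2, f u = ∑ i, f (Pi.single i 1) * u i := by
    intro u
    rw [LinearMap.pi_apply_eq_sum_univ f u]
    refine Finset.sum_congr rfl fun i _ => ?_
    rw [smul_eq_mul, mul_comm]
    congr 2
    funext j
    by_cases hj : i = j
    · rw [if_pos hj, hj, Pi.single_eq_same]
    · rw [if_neg hj, Pi.single_eq_of_ne (Ne.symm hj)]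
  have h3 := h (fun i => f (Pi.single i 1)) fun r => by
    rw [← h2]
    have h4 : f (L r) ∈ (LinearMap.range L).map f := ⟨L r, ⟨r, rfl⟩, rfl⟩
    rw [hf0, Submodule.mem_bot] at h4
    exact h4
  apply hf
  ext i
  exact congrFun h3 i

/-- `act` as an additive map of the polynomial -/
private noncomputable def Dens_hom (y : T) : R →+ T where
  toFun r := act r y
  map_zero' := act_zero_left y
  map_add' r s := act_add_left r s y

private theorem Dens_sum {n : ℕ} (α : Fin n → ZMod 2) (y : T) (i : ℕ) :
    act (∑ k : Fin n, Polynomial.monomial (k : ℕ) (α k)) y i = ∑ k : Fin n, α k * y (k + i) := by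
  have h : act (∑ k : Fin n, Polynomial.monomial (k : ℕ) (α k)) y =
      ∑ k : Fin n, act (Polynomial.monomial (k : ℕ) (α k)) y :=
    map_sum (Dens_hom y) (fun k : Fin n => Polynomial.monomial (k : ℕ) (α k)) Finset.univ
  rw [h, Finset.sum_apply]
  refine Finset.sum_congr rfl fun k _ => ?_
  rw [act_monomial]

private theorem Dens_coeff {n : ℕ} (α : Fin n → ZMod 2)
    (h : ∑ k : Fin n, Polynomial.monomial (k : ℕ) (α k) = 0) (k : Fin n) : α k = 0 := by
  have h1 := congrArg (fun q => Polynomial.coeff q (k : ℕ)) h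
  simp only [Polynomial.finsetSum_coeff, Polynomial.coeff_monomial, Polynomial.coeff_zero] at h1
  rw [Finset.sum_eq_single k] at h1
  · rwa [if_pos rfl] at h1
  · intro j _ hj
    rw [if_neg fun h2 => hj (Fin.ext h2)]
  · intro h2
    exact absurd (Finset.mem_univ k) h2

theorem onto1 (c : T) (hc : NonTor c) (n : ℕ) (u : Fin n → ZMod 2) :
    ∃ r : R, ∀ k : Fin n, act r c k = u k := by
  have hsurj := Dens_surj (ι := Fin n)
    ({ toFun := fun r k => act r c k
       map_zero' := by rw [act_zero_left]; rfl
       map_add' := fun r s => by rw [act_add_left]; rfl } : R →+ (Fin n → ZMod 2)) ?_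
  · obtain ⟨r, hr⟩ := hsurj u
    exact ⟨r, fun k => congrFun hr k⟩
  · intro α hα
    have h1 : act (∑ k : Fin n, Polynomial.monomial (k : ℕ) (α k)) c = 0 := by
      funext i
      rw [Dens_sum]
      have h2 : ∑ k : Fin n, α k * act (Polynomial.monomial i 1) c k = 0 :=
        hα (Polynomial.monomial i 1)
      simp only [act_monomial, one_mul] at h2
      show _ = (0 : ZMod 2)
      rw [← h2]
      exact Finset.sum_congr rfl fun k _ => by rw [add_comm]
    funext k
    exact Dens_coeff α (hc _ h1) k

theorem onto2 (c c' : T) (hc : Ind c c') (n : ℕ) (u v : Fin n → ZMod 2) :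
    ∃ r : R, (∀ k : Fin n, act r c k = u k) ∧ ∀ k : Fin n, act r c' k = v k := by
  have hsurj := Dens_surj (ι := Fin n ⊕ Fin n)
    ({ toFun := fun r => Sum.elim (fun k => act r c k) fun k => act r c' k
       map_zero' := by
         rw [act_zero_left, act_zero_left]
         funext x
         cases x <;> rfl
       map_add' := fun r s => by
         rw [act_add_left, act_add_left]
         funext x
         cases x <;> rfl } : R →+ (Fin n ⊕ Fin n → ZMod 2)) ?_
  · obtain ⟨r, hr⟩ := hsurj (Sum.elim u v)
    exact ⟨r, fun k => congrFun hr (Sum.inl k), fun k => congrFun hr (Sum.inr k)⟩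
  · intro α hα
    have h1 : act (∑ k : Fin n, Polynomial.monomial (k : ℕ) (α (Sum.inl k))) c +
        act (∑ k : Fin n, Polynomial.monomial (k : ℕ) (α (Sum.inr k))) c' = 0 := by
      funext i
      rw [Pi.add_apply, Dens_sum (fun k => α (Sum.inl k)), Dens_sum (fun k => α (Sum.inr k))]
      have h2 : ∑ x : Fin n ⊕ Fin n, α x * Sum.elim (fun k : Fin n =>
          act (Polynomial.monomial i 1) c k)
          (fun k : Fin n => act (Polynomial.monomial i 1) c' k) x = 0 :=
        hα (Polynomial.monomial i 1)
      rw [Fintype.sum_sum_type] at h2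
      simp only [Sum.elim_inl, Sum.elim_inr, act_monomial, one_mul] at h2
      show _ = (0 : ZMod 2)
      rw [← h2]
      congr 1 <;> exact Finset.sum_congr rfl fun k _ => by rw [add_comm]
    obtain ⟨h2, h3⟩ := hc _ _ h1
    funext x
    rcases x with k | k
    · exact Dens_coeff (fun k => α (Sum.inl k)) h2 k
    · exact Dens_coeff (fun k => α (Sum.inr k)) h3 k

end Pool.MPb8ab30
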