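import Pool.Agent.Lib_MP_b8ab30.Defs

/-!
# Piece DIS: disintegration over a σ-finite base

PROOF of `exists_dis`.  Let `σ = m.map Φ` (finite) and `ρ' = m.map (fun u => (Φ u, u))` on `X × U`; `ρ'.fst = σ`, and `κ = ρ'.condKernel : Kernel X U` (Markov, `U` standard Borel,
non-empty) satisfies `σ ⊗ₘ κ = ρ'`, so `∫⁻ u, G (u, Φ u) dm = ∫⁻ x, ∫⁻ u, G (u,x) d(κ x) dσ`.  `σ = μ.withDensity r`, `r = σ.rnDeriv μ` (`Measure.withDensity_rnDeriv_eq`, `σ ≪ μ`,
`σ` finite, `μ` σ-finite).  Let `r' x = r x` if `r x ≠ ⊤` and `0` otherwise (`r < ⊤` a.e.: `Measure.rnDeriv_lt_top`); `K x = r' x • κ x`, as a kernel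
(`Kernel.withDensity κ (fun x _ => r' x)` or a direct definition; s-finite because `r'` is finite everywhere: sum over `n` of the parts where
`n ≤ r' < n + 1`).
`Dis.supp`: apply `Dis.int` to the indicator of `{(u,x) | Φ u ≠ x}` (measurable: `X` standard Borel): `0 = ∫⁻ x, K x {u | Φ u ≠ x} dμ`.
`Dis.mass`: `∫⁻ x, K x univ dμ = m univ`.
-/

set_option autoImplicit false

open MeasureTheory ProbabilityTheory

namespace Pool.MPb8ab30

/-- `K` disintegrates `m` over `μ` along `Φ` -/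
structure Dis {U X : Type} [MeasurableSpace U] [MeasurableSpace X] (m : Measure U) (μ : Measure X) (Φ : U → X)
    (K : Kernel X U) : Prop where
  sfin : IsSFiniteKernel K
  fin : ∀ x, K x Set.univ ≠ ⊤
  dens : ∀ᵐ x ∂μ, K x Set.univ = (m.map Φ).rnDeriv μ x
  int : ∀ G : U × X → ENNReal, Measurable G → ∫⁻ u, G (u, Φ u) ∂m = ∫⁻ x, ∫⁻ u, G (u, x) ∂(K x) ∂μ

theorem exists_dis {U X : Type} [MeasurableSpace U] [StandardBorelSpace U] [Nonempty U] [MeasurableSpace X] [StandardBorelSpace X]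
    (m : Measure U) [IsFiniteMeasure m] (μ : Measure X) [SigmaFinite μ] (Φ : U → X) (hΦ : Measurable Φ) (hac : m.map Φ ≪ μ) :
    ∃ K : Kernel X U, Dis m μ Φ K := by
  classical
  have hpair : Measurable (fun u : U => (Φ u, u)) := hΦ.prodMk measurable_id
  set σ : Measure X := m.map Φ with hσ
  set ρ : Measure (X × U) := m.map (fun u => (Φ u, u)) with hρ
  haveI : IsFiniteMeasure σ := Measure.isFiniteMeasure_map m Φ
  haveI : IsFiniteMeasure ρ := Measure.isFiniteMeasure_map m _
  have hfst : ρ.fst = σ := by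
    rw [hρ, hσ, Measure.fst, Measure.map_map measurable_fst hpair]
    rfl
  set κ : Kernel X U := ρ.condKernel with hκ
  have hdis : σ ⊗ₘ κ = ρ := by
    rw [← hfst]
    exact ρ.disintegrate ρ.condKernel
  set r : X → ENNReal := σ.rnDeriv μ with hr
  have hrm : Measurable r := Measure.measurable_rnDeriv σ μ
  let r' : X → ENNReal := fun x => if r x = ⊤ then 0 else r x
  have hr'm : Measurable r' := by
    refine Measurable.ite ?_ measurable_const hrm
    exact hrm (measurableSet_singleton ⊤)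
  have hr'top : ∀ x, r' x ≠ ⊤ := by
    intro x
    by_cases h : r x = ⊤
    · simp [r', h]
    · simp [r', h]
  have hr'ae : ∀ᵐ x ∂μ, r' x = r x := by
    filter_upwards [Measure.rnDeriv_lt_top σ μ] with x hx
    have h : r x ≠ ⊤ := hx.ne
    simp [r', h]
  have hfm : Measurable (Function.uncurry (fun (x : X) (_ : U) => r' x)) := hr'm.comp measurable_fst
  have hint : ∀ (x : X) (g : U → ENNReal), Measurable g →
      ∫⁻ u, g u ∂(Kernel.withDensity κ (fun x _ => r' x) x) = r' x * ∫⁻ u, g u ∂(κ x) := by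
    intro x g hg
    rw [Kernel.lintegral_withDensity κ hfm x hg, lintegral_const_mul _ hg]
  have huniv : ∀ x, Kernel.withDensity κ (fun x _ => r' x) x Set.univ = r' x := by
    intro x
    have h := hint x (fun _ => 1) measurable_const
    have h1 : κ x Set.univ = 1 := measure_univ
    rw [lintegral_one, lintegral_one, h1, mul_one] at h
    exact h
  refine ⟨Kernel.withDensity κ (fun x _ => r' x), ?_, ?_, ?_, ?_⟩
  · exact Kernel.IsSFiniteKernel.withDensity κ (fun x _ => hr'top x)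
  · intro x
    rw [huniv x]
    exact hr'top x
  · filter_upwards [hr'ae] with x hx
    rw [huniv x, hx]
  · intro G hG
    have hG' : Measurable (fun p : X × U => G (p.2, p.1)) := hG.comp measurable_swap
    have h1 : ∫⁻ u, G (u, Φ u) ∂m = ∫⁻ p, G (p.2, p.1) ∂ρ := by
      rw [hρ, lintegral_map hG' hpair]
    have h1' : ∫⁻ p, G (p.2, p.1) ∂ρ = ∫⁻ x, ∫⁻ u, G (u, x) ∂(κ x) ∂σ := by
      calc ∫⁻ p, G (p.2, p.1) ∂ρ = ∫⁻ p, G (p.2, p.1) ∂(σ ⊗ₘ κ) := by rw [hdis]
        _ = _ := Measure.lintegral_compProd hG'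
    rw [h1, h1']
    have hmeas : Measurable (fun x => ∫⁻ u, G (u, x) ∂(κ x)) :=
      Measurable.lintegral_kernel_prod_right' (κ := κ) hG'
    have h2 : σ = μ.withDensity r := (Measure.withDensity_rnDeriv_eq σ μ hac).symm
    calc ∫⁻ x, ∫⁻ u, G (u, x) ∂(κ x) ∂σ = ∫⁻ x, ∫⁻ u, G (u, x) ∂(κ x) ∂(μ.withDensity r) := by rw [← h2]
      _ = ∫⁻ x, (r * fun x => ∫⁻ u, G (u, x) ∂(κ x)) x ∂μ := lintegral_withDensity_eq_lintegral_mul μ hrm hmeas
      _ = ∫⁻ x, ∫⁻ u, G (u, x) ∂(Kernel.withDensity κ (fun x _ => r' x) x) ∂μ := by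
          refine lintegral_congr_ae ?_
          filter_upwards [hr'ae] with x hx
          rw [hint x (fun u => G (u, x)) (hG.comp (measurable_id.prodMk measurable_const)), hx]
          rfl

theorem Dis.supp {U X : Type} [MeasurableSpace U] [MeasurableSpace X] [StandardBorelSpace X] {m : Measure U} {μ : Measure X}
    {Φ : U → X} (hΦ : Measurable Φ) {K : Kernel X U} (h : Dis m μ Φ K) : ∀ᵐ x ∂μ, K x {u | Φ u ≠ x} = 0 := by
  haveI := h.sfin
  have hS : MeasurableSet {p : U × X | Φ p.1 ≠ p.2} :=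
    (measurableSet_eq_fun (hΦ.comp measurable_fst) measurable_snd).compl
  have hG : Measurable ({p : U × X | Φ p.1 ≠ p.2}.indicator (fun _ => (1 : ENNReal))) :=
    measurable_const.indicator hS
  have h1 := h.int _ hG
  have h2 : ∀ x, ∫⁻ u, {p : U × X | Φ p.1 ≠ p.2}.indicator (fun _ => (1 : ENNReal)) (u, x) ∂(K x) = K x {u | Φ u ≠ x} := by
    intro x
    have hSx : MeasurableSet {u : U | Φ u ≠ x} := hS.preimage (measurable_id.prodMk measurable_const)
    rw [← lintegral_indicator_one hSx]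
    rfl
  have h3 : ∫⁻ u, {p : U × X | Φ p.1 ≠ p.2}.indicator (fun _ => (1 : ENNReal)) (u, Φ u) ∂m = 0 := by
    have : ∀ u, {p : U × X | Φ p.1 ≠ p.2}.indicator (fun _ => (1 : ENNReal)) (u, Φ u) = 0 := by
      intro u
      rw [Set.indicator_of_notMem]
      simp
    simp [this]
  rw [h3] at h1
  simp only [h2] at h1
  have hm : Measurable (fun x => K x {u | Φ u ≠ x}) := by
    have h5 := Measurable.lintegral_kernel_prod_right' (κ := K) (hG.comp measurable_swap)
    have h6 : (fun x => K x {u | Φ u ≠ x}) = fun x => ∫⁻ u,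
        ({p : U × X | Φ p.1 ≠ p.2}.indicator (fun _ => (1 : ENNReal)) ∘ Prod.swap) (x, u) ∂(K x) := by
      funext x
      exact (h2 x).symm
    rw [h6]
    exact h5
  have h4 := (lintegral_eq_zero_iff hm).1 h1.symm
  exact h4

theorem Dis.mass {U X : Type} [MeasurableSpace U] [MeasurableSpace X] {m : Measure U} {μ : Measure X}
    {Φ : U → X} {K : Kernel X U} (h : Dis m μ Φ K) : ∫⁻ x, K x Set.univ ∂μ = m Set.univ := by
  have h1 := h.int (fun _ => 1) measurable_const
  simp only [lintegral_one] at h1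
  exact h1.symm

end Pool.MPb8ab30
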