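import Pool.Agent.Lib_MP_b8ab30.LN

/-!
# Piece FM: the theorem of Feldman and Moore (without the group)

PROOF.  Let `G = {p : X × X | E p.1 p.2}` (a measurable set, so the subtype `G` is standard Borel: `MeasurableSet.standardBorel`).  Apply `lusin_novikov` to
`Prod.fst : G → X` and `Prod.snd : G → X` (fibres countable: `E` has countable classes, symmetric): `h₁, h₂ : G → ℕ`.  For `(i,j)` the Borel set
`G i j = {p ∈ G | h₁ p = i, h₂ p = j}` is the graph of an injective partial map `ψ : A → A'`, `A = Prod.fst '' G i j`, `A' = Prod.snd '' G i j` (Borel sets and Borel maps: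
`MeasurableSet.image_of_measurable_injOn`, `Measurable.measurableEmbedding`).  Let `(B n)` be a countable family of measurable sets separating points
(`MeasurableSpace.CountablySeparated`; for `x ≠ y` some `B n` contains `x` and not `y`), closed under complements if convenient.  The part
`G i j n = {p ∈ G i j | p.1 ∈ B n, p.2 ∉ B n}` is the graph of a Borel bijection between the disjoint sets `C = A ∩ ...`, `C'`; extend it by its inverse on
`C'` and by the identity elsewhere: an involutive measurable equivalence `T i j n : X ≃ᵐ X` with `E x (T x)`.  Every pair `E x y` with `x ≠ y` is on the graph of some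
`T i j n` (or its symmetric one); the pairs `(x,x)` are on the graph of the identity.  Enumerate (`ℕ × ℕ × ℕ` plus the identity is countable).
-/

set_option autoImplicit false

namespace Pool.MPb8ab30

/-- the involution exchanging the ranges of two measurable embeddings with disjoint ranges -/
private theorem FM_swap {X S : Type} [MeasurableSpace X] [MeasurableSpace S] {E : X → X → Prop} (hE : Equivalence E)
    {f g : S → X} (hf : MeasurableEmbedding f) (hg : MeasurableEmbedding g) (hd : ∀ s t, f s ≠ g t)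
    (hfg : ∀ s, E (f s) (g s)) :
    ∃ T : X ≃ᵐ X, (∀ x, E x (T x)) ∧ (∀ s, T (f s) = g s) ∧ (∀ s, T (g s) = f s) := by
  have h1 : ∀ s, Function.extend f g (Function.extend g f id) (f s) = g s := fun s =>
    hf.injective.extend_apply _ _ _
  have h2 : ∀ s, Function.extend f g (Function.extend g f id) (g s) = f s := by
    intro s
    rw [Function.extend_apply' _ _ _ (by rintro ⟨t, ht⟩; exact hd t s ht)]
    exact hg.injective.extend_apply _ _ _
  have h3 : ∀ x, (¬ ∃ s, f s = x) → (¬ ∃ s, g s = x) →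
      Function.extend f g (Function.extend g f id) x = x := by
    intro x hx hx'
    rw [Function.extend_apply' _ _ _ hx, Function.extend_apply' _ _ _ hx']
    rfl
  have hinv : Function.Involutive (Function.extend f g (Function.extend g f id)) := by
    intro x
    by_cases hx : ∃ s, f s = x
    · obtain ⟨s, rfl⟩ := hx
      rw [h1, h2]
    · by_cases hx' : ∃ s, g s = x
      · obtain ⟨s, rfl⟩ := hx'
        rw [h2, h1]
      · rw [h3 x hx hx', h3 x hx hx']
  have hm : Measurable (Function.extend f g (Function.extend g f id)) :=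
    hf.measurable_extend hg.measurable (hg.measurable_extend hf.measurable measurable_id)
  refine ⟨MeasurableEquiv.ofInvolutive _ hinv hm, ?_, h1, h2⟩
  intro x
  show E x (Function.extend f g (Function.extend g f id) x)
  by_cases hx : ∃ s, f s = x
  · obtain ⟨s, rfl⟩ := hx
    rw [h1]
    exact hfg s
  · by_cases hx' : ∃ s, g s = x
    · obtain ⟨s, rfl⟩ := hx'
      rw [h2]
      exact hE.symm (hfg s)
    · rw [h3 x hx hx']
      exact hE.refl x

theorem feldman_moore {X : Type} [MeasurableSpace X] [StandardBorelSpace X] {E : X → X → Prop} (hE : CBER E) :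
    ∃ θ : ℕ → X ≃ᵐ X, Gen E θ := by
  classical
  have hG : MeasurableSet {p : X × X | E p.1 p.2} := hE.meas
  haveI : StandardBorelSpace {p : X × X | E p.1 p.2} := hG.standardBorel
  have hm1 : Measurable (fun g : {p : X × X | E p.1 p.2} => g.1.1) := measurable_fst.comp measurable_subtype_coe
  have hm2 : Measurable (fun g : {p : X × X | E p.1 p.2} => g.1.2) := measurable_snd.comp measurable_subtype_coe
  have hc1 : ∀ x, ((fun g : {p : X × X | E p.1 p.2} => g.1.1) ⁻¹' {x}).Countable := by
    intro x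
    refine Set.MapsTo.countable_of_injOn (f := fun g : {p : X × X | E p.1 p.2} => g.1.2) (t := {y | E x y}) ?_ ?_ (hE.count x)
    · rintro ⟨⟨a, b⟩, hab⟩ (ha : a = x)
      subst ha
      exact hab
    · rintro ⟨⟨a, b⟩, hab⟩ (ha : a = x) ⟨⟨a', b'⟩, hab'⟩ (ha' : a' = x) (hb : b = b')
      subst ha; subst ha'; subst hb
      rfl
  have hc2 : ∀ x, ((fun g : {p : X × X | E p.1 p.2} => g.1.2) ⁻¹' {x}).Countable := by
    intro x
    refine Set.MapsTo.countable_of_injOn (f := fun g : {p : X × X | E p.1 p.2} => g.1.1) (t := {y | E x y}) ?_ ?_ (hE.count x)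
    · rintro ⟨⟨a, b⟩, hab⟩ (ha : b = x)
      subst ha
      exact hE.equiv.symm hab
    · rintro ⟨⟨a, b⟩, hab⟩ (ha : b = x) ⟨⟨a', b'⟩, hab'⟩ (ha' : b' = x) (hb : a = a')
      subst ha; subst ha'; subst hb
      rfl
  obtain ⟨h₁, hh₁, hi₁⟩ := lusin_novikov _ hm1 hc1
  obtain ⟨h₂, hh₂, hi₂⟩ := lusin_novikov _ hm2 hc2
  obtain ⟨B, hB, hsep⟩ := exists_seq_separating X (p := MeasurableSet) (s₀ := ∅) MeasurableSet.empty Set.univ
  have key : ∀ q : ℕ × ℕ × ℕ, ∃ T : X ≃ᵐ X, (∀ x, E x (T x)) ∧
      ∀ g : {p : X × X | E p.1 p.2}, h₁ g = q.1 → h₂ g = q.2.1 → g.1.1 ∈ B q.2.2 → g.1.2 ∉ B q.2.2 →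
        T g.1.1 = g.1.2 ∧ T g.1.2 = g.1.1 := by
    rintro ⟨i, j, n⟩
    have hS : MeasurableSet {g : {p : X × X | E p.1 p.2} | h₁ g = i ∧ h₂ g = j ∧ g.1.1 ∈ B n ∧ g.1.2 ∉ B n} := by
      have e1 : MeasurableSet {g : {p : X × X | E p.1 p.2} | h₁ g = i} := hh₁ (measurableSet_singleton i)
      have e2 : MeasurableSet {g : {p : X × X | E p.1 p.2} | h₂ g = j} := hh₂ (measurableSet_singleton j)
      have e3 : MeasurableSet {g : {p : X × X | E p.1 p.2} | g.1.1 ∈ B n} := hm1 (hB n)
      have e4 : MeasurableSet {g : {p : X × X | E p.1 p.2} | g.1.2 ∉ B n} := hm2 (hB n).compl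
      exact e1.inter (e2.inter (e3.inter e4))
    haveI := hS.standardBorel
    have hf : MeasurableEmbedding
        (fun s : {g : {p : X × X | E p.1 p.2} | h₁ g = i ∧ h₂ g = j ∧ g.1.1 ∈ B n ∧ g.1.2 ∉ B n} => s.1.1.1) := by
      refine Measurable.measurableEmbedding (hm1.comp measurable_subtype_coe) ?_
      rintro ⟨g, hg⟩ ⟨g', hg'⟩ (h : g.1.1 = g'.1.1)
      refine Subtype.ext (hi₁ ?_)
      exact Prod.ext h (hg.1.trans hg'.1.symm)
    have hg : MeasurableEmbedding
        (fun s : {g : {p : X × X | E p.1 p.2} | h₁ g = i ∧ h₂ g = j ∧ g.1.1 ∈ B n ∧ g.1.2 ∉ B n} => s.1.1.2) := by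
      refine Measurable.measurableEmbedding (hm2.comp measurable_subtype_coe) ?_
      rintro ⟨g, hg⟩ ⟨g', hg'⟩ (h : g.1.2 = g'.1.2)
      refine Subtype.ext (hi₂ ?_)
      exact Prod.ext h (hg.2.1.trans hg'.2.1.symm)
    obtain ⟨T, hT, hT1, hT2⟩ := FM_swap hE.equiv hf hg
      (by
        rintro ⟨g, hg⟩ ⟨g', hg'⟩ (h : g.1.1 = g'.1.2)
        exact hg'.2.2.2 (h ▸ hg.2.2.1))
      (fun s => s.1.2)
    refine ⟨T, hT, fun g a1 a2 a3 a4 => ?_⟩
    exact ⟨hT1 ⟨g, a1, a2, a3, a4⟩, hT2 ⟨g, a1, a2, a3, a4⟩⟩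
  choose Θ hΘ hΘ' using key
  obtain ⟨e, he⟩ := exists_surjective_nat (Option (ℕ × ℕ × ℕ))
  refine ⟨fun k => (e k).elim (MeasurableEquiv.refl X) Θ, hE.equiv, ?_, ?_⟩
  · intro k x
    show E x (((e k).elim (MeasurableEquiv.refl X) Θ) x)
    cases e k with
    | none => exact hE.equiv.refl x
    | some q => exact hΘ q x
  · intro x y hxy
    by_cases hne : x = y
    · obtain ⟨k, hk⟩ := he none
      refine ⟨k, ?_⟩
      show ((e k).elim (MeasurableEquiv.refl X) Θ) x = y
      rw [hk]
      exact hne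
    · have hn : ∃ n, ¬ (x ∈ B n ↔ y ∈ B n) := by
        by_contra hcon
        push Not at hcon
        exact hne (hsep x (Set.mem_univ x) y (Set.mem_univ y) hcon)
      obtain ⟨n, hn⟩ := hn
      by_cases hx : x ∈ B n
      · have hy : y ∉ B n := fun hy => hn ⟨fun _ => hy, fun _ => hx⟩
        obtain ⟨k, hk⟩ := he (some (h₁ ⟨(x, y), hxy⟩, h₂ ⟨(x, y), hxy⟩, n))
        refine ⟨k, ?_⟩
        show ((e k).elim (MeasurableEquiv.refl X) Θ) x = y
        rw [hk]
        exact (hΘ' _ ⟨(x, y), hxy⟩ rfl rfl hx hy).1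
      · have hy : y ∈ B n := by
          by_contra hy
          exact hn ⟨fun h => absurd h hx, fun h => absurd h hy⟩
        have hyx : E y x := hE.equiv.symm hxy
        obtain ⟨k, hk⟩ := he (some (h₁ ⟨(y, x), hyx⟩, h₂ ⟨(y, x), hyx⟩, n))
        refine ⟨k, ?_⟩
        show ((e k).elim (MeasurableEquiv.refl X) Θ) x = y
        rw [hk]
        exact (hΘ' _ ⟨(y, x), hyx⟩ rfl rfl hy hx).2

end Pool.MPb8ab30
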