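import Pool.Agent.Lib_MP_b8ab30.Defs

/-!
# Piece FAM: a countable dense family of selectors of `E`

PROOF.  Let `𝒜` be a countable algebra of measurable sets generating the σ-algebra of `X`.  For a list `l` of pairs `(A, k) ∈ 𝒜 × ℕ` let `t l x = θ k x` for the
first pair `(A, k)` of `l` with `x ∈ A`, and `t l x = x` if there is none: measurable, `E x (t l x)`; there are countably many lists, enumerate them.
DENSITY.  `M k = {x | θ k x = T₀ x}` is a measurable cover of `X` (`Gen.cover`; `measurableSet_eq_fun` in a standard Borel space).  Choose `n`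
with `σ {x | θ k x ≠ T₀ x for all k < n} ≤ ε / 2` and `A k ∈ 𝒜` with `σ (M k ∆ A k) ≤ ε / (2 (n+1))` for `k < n` (approximation by a
generating algebra: `Measure.MeasureDense`).  The list `[(A 0, 0), ..., (A (n-1), n-1)]` gives `t x = T₀ x` for all `x` outside
the tail and `⋃_(k < n) (M k ∆ A k)`: if `x ∈ A j`, then `x ∈ M j`, so `θ j x = T₀ x`, and there is one such `j`.
-/

set_option autoImplicit false

open MeasureTheory

namespace Pool.MPb8ab30

open Classical in
/-- the selector of a list -/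
private noncomputable def famSel {X : Type} [MeasurableSpace X] (θ : ℕ → X ≃ᵐ X) : List (Set X × ℕ) → X → X
  | [], x => x
  | p :: l, x => if x ∈ p.1 then θ p.2 x else famSel θ l x

private theorem famSel_meas {X : Type} [MeasurableSpace X] (θ : ℕ → X ≃ᵐ X) (l : List (Set X × ℕ)) (hl : ∀ p ∈ l, MeasurableSet p.1) :
    Measurable (famSel θ l) := by
  induction l with
  | nil => exact measurable_id
  | cons p l ih =>
    have h1 : Measurable (famSel θ l) := ih fun q hq => hl q (List.mem_cons_of_mem _ hq)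
    have h2 : MeasurableSet p.1 := hl p (List.mem_cons_self)
    exact Measurable.ite h2 (θ p.2).measurable h1

private theorem famSel_rel {X : Type} [MeasurableSpace X] {E : X → X → Prop} (θ : ℕ → X ≃ᵐ X) (hθ : Gen E θ) (l : List (Set X × ℕ)) (x : X) :
    E x (famSel θ l x) := by
  induction l with
  | nil => exact hθ.equiv.refl x
  | cons p l ih =>
    rw [famSel]
    split_ifs with h
    · exact hθ.sub _ _
    · exact ih

private theorem famSel_eq {X : Type} [MeasurableSpace X] (θ : ℕ → X ≃ᵐ X) (l : List (Set X × ℕ)) (x y : X)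
    (h1 : ∃ p ∈ l, x ∈ p.1) (h2 : ∀ p ∈ l, x ∈ p.1 → θ p.2 x = y) : famSel θ l x = y := by
  induction l with
  | nil => obtain ⟨p, hp, _⟩ := h1; simp at hp
  | cons p l ih =>
    rw [famSel]
    split_ifs with h
    · exact h2 p List.mem_cons_self h
    · refine ih ?_ fun q hq => h2 q (List.mem_cons_of_mem _ hq)
      obtain ⟨q, hq, hx⟩ := h1
      rcases List.mem_cons.1 hq with rfl | hq
      · exact absurd hx h
      · exact ⟨q, hq, hx⟩

private theorem fam_algebra (X : Type) [mX : MeasurableSpace X] [StandardBorelSpace X] :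
    ∃ 𝒜 : Set (Set X), 𝒜.Countable ∧ (∀ s ∈ 𝒜, MeasurableSet s) ∧ ∀ σ : Measure X, IsFiniteMeasure σ → σ.MeasureDense 𝒜 := by
  have h := MeasurableSpace.countable_countableGeneratingSet (α := X)
  have hgen := MeasurableSpace.generateFrom_countableGeneratingSet (α := X)
  have h𝒜 : mX = MeasurableSpace.generateFrom (generateSetAlgebra (MeasurableSpace.countableGeneratingSet X)) := by
    rw [generateFrom_generateSetAlgebra_eq, hgen]
  refine ⟨generateSetAlgebra (MeasurableSpace.countableGeneratingSet X), countable_generateSetAlgebra h, ?_, ?_⟩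
  · intro s hs
    have h1 := MeasurableSpace.measurableSet_generateFrom hs
    rwa [← h𝒜] at h1
  · intro σ hσ
    exact Measure.MeasureDense.of_generateFrom_isSetAlgebra_finite σ isSetAlgebra_generateSetAlgebra h𝒜

theorem dense_family {X : Type} [MeasurableSpace X] [StandardBorelSpace X] {E : X → X → Prop} (θ : ℕ → X ≃ᵐ X) (hθ : Gen E θ) :
    ∃ t : ℕ → X → X, (∀ n, Measurable (t n)) ∧ (∀ n x, E x (t n x)) ∧
      ∀ (σ : Measure X), IsFiniteMeasure σ → ∀ T₀ : X → X, Measurable T₀ → (∀ x, E x (T₀ x)) →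
        ∀ ε : ENNReal, ε ≠ 0 → ∃ n, σ {x | t n x ≠ T₀ x} ≤ ε := by
  classical
  obtain ⟨𝒜, hc, hm, hd⟩ := fam_algebra X
  have : Countable ↥𝒜 := hc.to_subtype
  obtain ⟨f, hf⟩ := exists_surjective_nat (List (↥𝒜 × ℕ))
  have hfm : ∀ n, ∀ p ∈ (f n).map (fun p => ((p.1 : Set X), p.2)), MeasurableSet p.1 := by
    intro n p hp
    obtain ⟨q, _, rfl⟩ := List.mem_map.1 hp
    exact hm _ q.1.2
  refine ⟨fun n => famSel θ ((f n).map (fun p => ((p.1 : Set X), p.2))), fun n => famSel_meas θ _ (hfm n), fun n x => famSel_rel θ hθ _ x, ?_⟩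
  intro σ hσ T₀ hT₀ hE ε hε
  -- the cover
  have hM : ∀ k, MeasurableSet {x | θ k x = T₀ x} := fun k => measurableSet_eq_fun (θ k).measurable hT₀
  have hD : ∀ n : ℕ, MeasurableSet {x | ∀ k < n, θ k x ≠ T₀ x} := by
    intro n
    have : {x | ∀ k < n, θ k x ≠ T₀ x} = ⋂ k : ℕ, ⋂ _ : k < n, {x | θ k x = T₀ x}ᶜ := by
      ext x; simp
    rw [this]
    exact MeasurableSet.iInter fun k => MeasurableSet.iInter fun _ => (hM k).compl
  have hanti : Antitone (fun n : ℕ => {x | ∀ k < n, θ k x ≠ T₀ x}) := by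
    intro a b hab x hx k hk
    exact hx k (lt_of_lt_of_le hk hab)
  have hempty : (⋂ n : ℕ, {x | ∀ k < n, θ k x ≠ T₀ x}) = ∅ := by
    ext x
    simp only [Set.mem_iInter, Set.mem_ofPred_eq, Set.mem_empty_iff_false, iff_false, not_forall]
    obtain ⟨k, hk⟩ := hθ.cover x (T₀ x) (hE x)
    exact ⟨k + 1, k, Nat.lt_succ_self k, fun h => h hk⟩
  have hlim : Filter.Tendsto (fun n : ℕ => σ {x | ∀ k < n, θ k x ≠ T₀ x}) Filter.atTop (nhds 0) := by
    have := tendsto_measure_iInter_atTop (μ := σ) (fun n => (hD n).nullMeasurableSet) hanti ⟨0, measure_ne_top _ _⟩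
    rw [hempty, measure_empty] at this
    exact this
  have hε2 : (0 : ENNReal) < ε / 2 := ENNReal.half_pos hε
  obtain ⟨n, hn⟩ := (hlim.eventually (gt_mem_nhds hε2)).exists
  -- the approximations
  obtain ⟨δ, hδ0, hδ⟩ : ∃ δ : ℝ, 0 < δ ∧ (n : ENNReal) * ENNReal.ofReal δ ≤ ε / 2 := by
    rcases eq_or_ne n 0 with rfl | hn0
    · exact ⟨1, one_pos, by simp⟩
    · have h1 : (0 : ENNReal) < ε / 2 / n := ENNReal.div_pos hε2.ne' (ENNReal.natCast_ne_top n)
      obtain ⟨r, hr0, hr⟩ := ENNReal.lt_iff_exists_nnreal_btwn.1 h1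
      refine ⟨r, by exact_mod_cast hr0, ?_⟩
      rw [ENNReal.ofReal_coe_nnreal]
      calc (n : ENNReal) * r ≤ n * (ε / 2 / n) := by gcongr
        _ ≤ ε / 2 := ENNReal.mul_div_le
  have happ : ∀ k, ∃ A : ↥𝒜, σ (symmDiff {x | θ k x = T₀ x} (A : Set X)) ≤ ENNReal.ofReal δ := by
    intro k
    obtain ⟨A, hA, hlt⟩ := (hd σ hσ).approx _ (hM k) (measure_ne_top _ _) δ hδ0
    exact ⟨⟨A, hA⟩, hlt.le⟩
  choose A hA using happ
  obtain ⟨m, hfn⟩ := hf ((List.range n).map fun k => (A k, k))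
  refine ⟨m, ?_⟩
  have hsub : {x | famSel θ ((f m).map (fun p => ((p.1 : Set X), p.2))) x ≠ T₀ x} ⊆
      {x | ∀ k < n, θ k x ≠ T₀ x} ∪ ⋃ k ∈ Finset.range n, symmDiff {x | θ k x = T₀ x} (A k : Set X) := by
    intro x hx
    by_contra hcon
    rw [Set.mem_union, not_or] at hcon
    obtain ⟨h1, h2⟩ := hcon
    apply hx
    have h3 : ∀ k < n, (θ k x = T₀ x ↔ x ∈ (A k : Set X)) := by
      intro k hk
      have h4 : x ∉ symmDiff {x | θ k x = T₀ x} (A k : Set X) := by
        intro h5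
        exact h2 (Set.mem_biUnion (Finset.mem_coe.2 (Finset.mem_range.2 hk)) h5)
      rw [Set.mem_symmDiff, not_or] at h4
      constructor
      · intro h5
        by_contra h6
        exact h4.1 ⟨h5, h6⟩
      · intro h5
        by_contra h6
        exact h4.2 ⟨h5, h6⟩
    have h6 : ∃ k < n, θ k x = T₀ x := by
      by_contra h7
      apply h1
      intro k hk hk'
      exact h7 ⟨k, hk, hk'⟩
    apply famSel_eq
    · obtain ⟨k, hk, hk'⟩ := h6
      refine ⟨((A k : Set X), k), ?_, (h3 k hk).1 hk'⟩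
      rw [hfn, List.map_map]
      exact List.mem_map.2 ⟨k, List.mem_range.2 hk, rfl⟩
    · intro p hp hxp
      rw [hfn, List.map_map] at hp
      obtain ⟨k, hk, rfl⟩ := List.mem_map.1 hp
      exact (h3 k (List.mem_range.1 hk)).2 hxp
  calc σ {x | famSel θ ((f m).map (fun p => ((p.1 : Set X), p.2))) x ≠ T₀ x}
      ≤ σ ({x | ∀ k < n, θ k x ≠ T₀ x} ∪ ⋃ k ∈ Finset.range n, symmDiff {x | θ k x = T₀ x} (A k : Set X)) := measure_mono hsub
    _ ≤ σ {x | ∀ k < n, θ k x ≠ T₀ x} + σ (⋃ k ∈ Finset.range n, symmDiff {x | θ k x = T₀ x} (A k : Set X)) := measure_union_le _ _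
    _ ≤ ε / 2 + ∑ k ∈ Finset.range n, σ (symmDiff {x | θ k x = T₀ x} (A k : Set X)) := add_le_add hn.le (measure_biUnion_finset_le _ _)
    _ ≤ ε / 2 + ∑ k ∈ Finset.range n, ENNReal.ofReal δ := by gcongr with k hk; exact hA k
    _ = ε / 2 + (n : ENNReal) * ENNReal.ofReal δ := by rw [Finset.sum_const, Finset.card_range, nsmul_eq_mul]
    _ ≤ ε / 2 + ε / 2 := by gcongr
    _ = ε := ENNReal.add_halves ε

end Pool.MPb8ab30
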