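import Pool.Agent.Lib_MP_b8ab30.Dens

/-!
# Piece HAAR: Haar measure of `Y`, invariant measures

PROOFS.  `nu` is a translation invariant probability measure on the compact group `Y` (`Measure.addHaarMeasure_self`, `IsAddHaarMeasure`).
FINITE LEVELS.  For `n` let `π n : T → (Fin n → ZMod 2)` be the restriction.  The sets `{y | π n y.1 = u, π n y.2 = v}` (all `n, u, v`) form a π-system generating the Borel
sets of `Y` (together with the empty set), and any measure `η` on `Y` invariant under a set of translations whose images at level `n` are all of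
`(Fin n → ZMod 2)^2` gives each of them the measure `η univ / 4^n`.  So two finite measures invariant in this way with the same mass are equal.
DENSITY: `onto1`, `onto2` of Dens.lean say that the translations by `(act a.1 c, act a.2 c)` are onto at every finite level, and the same for
`(y,y') ↦ (tr c a y, tr c' a y')` on `Y × Y` if `c, c'` are independent.
`mp_gen`: translations clear; `e12 r`, `e21 r` are continuous additive bijections of `Y`, so the image of `nu` is a translation invariant probability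
measure (`(nu.map e)` translated by `z` is `nu` translated by `e⁻¹ z`, mapped), hence `nu` by uniqueness.
`zero_one`: the finite measure `nu.restrict B` is invariant under all `tr c a` (invariance of `B` mod `nu`), so it equals `nu B • nu`; evaluate at `B`: `nu B = nu B * nu B`.
`nu_class`: points are null (`nu {y} ≤ 4^(-n)` for all `n`), so countable sets are null.
`prod_of_invariant`: for a measurable set `Q` of `W × W` the measure `B ↦ η {p | (p.1.1, p.2.1) ∈ B, (p.1.2, p.2.2) ∈ Q}` on `Y × Y` is invariant under all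
`(y,y') ↦ (tr c a y, tr c' a y')`, so by (b) it is a multiple of `nu.prod nu` (which is invariant under all translations of `Y × Y`).  Conclude with
`Measure.prod_eq` or an induction on rectangles (`ext_prod`).
-/

set_option autoImplicit false

open MeasureTheory

namespace Pool.MPb8ab30

namespace Haar

open scoped ENNReal

/-! ### uniqueness by finite levels -/

section gen

variable {X : Type} [MeasurableSpace X] {A : ℕ → Type} [∀ n, Fintype (A n)]

/-- all cells of a level have the same measure -/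
private def Unif (p : ∀ n, X → A n) (μ : Measure X) : Prop :=
  ∀ n a b, μ (p n ⁻¹' {a}) = μ (p n ⁻¹' {b})

private theorem unif_card (p : ∀ n, X → A n) (hp : ∀ n a, MeasurableSet (p n ⁻¹' {a}))
    (μ : Measure X) (hμ : Unif p μ) (n : ℕ) (a : A n) :
    (Fintype.card (A n) : ℝ≥0∞) * μ (p n ⁻¹' {a}) = μ Set.univ := by
  classical
  have h1 : μ Set.univ = ∑ b : A n, μ (p n ⁻¹' {b}) := by
    have h2 : (Set.univ : Set X) = ⋃ b : A n, p n ⁻¹' {b} := by
      ext x
      simp
    rw [h2, measure_iUnion ?_ (hp n), tsum_fintype]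
    intro b b' hb
    rw [Function.onFun, Set.disjoint_left]
    intro x hx hx'
    exact hb ((Set.mem_singleton_iff.1 hx).symm.trans (Set.mem_singleton_iff.1 hx'))
  rw [h1, Finset.sum_congr rfl fun b _ => hμ n b a, Finset.sum_const, Finset.card_univ, nsmul_eq_mul]

private theorem unif_ext (p : ∀ n, X → A n) (hp : ∀ n a, MeasurableSet (p n ⁻¹' {a}))
    (hmono : ∀ n m, n ≤ m → ∀ x y, p m x = p m y → p n x = p n y)
    (hgen : ‹MeasurableSpace X› = MeasurableSpace.generateFrom {s | ∃ n a, s = p n ⁻¹' {a}})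
    (μ η : Measure X) [IsFiniteMeasure μ] (hu : μ Set.univ = η Set.univ) (hμ : Unif p μ)
    (hη : Unif p η) : μ = η := by
  refine ext_of_generate_finite _ hgen ?_ ?_ hu
  · rintro s ⟨n, a, rfl⟩ t ⟨m, b, rfl⟩ ⟨x, hx1, hx2⟩
    rw [Set.mem_preimage, Set.mem_singleton_iff] at hx1 hx2
    rcases le_total n m with h | h
    · refine ⟨m, b, ?_⟩
      ext y
      constructor
      · exact fun hy => hy.2
      · intro hy
        refine ⟨?_, hy⟩
        rw [Set.mem_preimage, Set.mem_singleton_iff] at hy ⊢
        rw [← hx1]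
        exact hmono n m h _ _ (hy.trans hx2.symm)
    · refine ⟨n, a, ?_⟩
      ext y
      constructor
      · exact fun hy => hy.1
      · intro hy
        refine ⟨hy, ?_⟩
        rw [Set.mem_preimage, Set.mem_singleton_iff] at hy ⊢
        rw [← hx2]
        exact hmono m n h _ _ (hy.trans hx1.symm)
  · rintro s ⟨n, a, rfl⟩
    have h1 := unif_card p hp μ hμ n a
    have h2 := unif_card p hp η hη n a
    rw [hu, ← h2] at h1
    have h0 : (Fintype.card (A n) : ℝ≥0∞) ≠ 0 := by
      have : Nonempty (A n) := ⟨a⟩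
      exact_mod_cast Fintype.card_ne_zero
    exact (ENNReal.mul_right_inj h0 (ENNReal.natCast_ne_top _)).1 h1

private theorem meas_fac {B : Type} [Fintype B] (p : X → B) (hp : ∀ a, MeasurableSet (p ⁻¹' {a}))
    (g : X → ZMod 2) (h : B → ZMod 2) (hg : ∀ x, g x = h (p x)) : Measurable g := by
  refine measurable_to_countable' fun c => ?_
  have h1 : g ⁻¹' {c} = ⋃ (a : B) (_ : h a = c), p ⁻¹' {a} := by
    ext x
    simp only [Set.mem_preimage, Set.mem_singleton_iff, Set.mem_iUnion, hg]
    constructor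
    · exact fun hx => ⟨p x, hx, rfl⟩
    · rintro ⟨a, ha, hx⟩
      rw [hx]
      exact ha
  rw [h1]
  exact MeasurableSet.iUnion fun a => MeasurableSet.iUnion fun _ => hp a

private theorem meas_Y (f : X → Y) (h : ∀ k, Measurable fun x => (f x).1 k)
    (h' : ∀ k, Measurable fun x => (f x).2 k) : Measurable f :=
  (measurable_pi_iff.2 h).prodMk (measurable_pi_iff.2 h')

end gen

/-! ### the levels of `Y` and `Y × Y` -/

private abbrev L (n : ℕ) : Type := (Fin n → ZMod 2) × (Fin n → ZMod 2)

private def pY (n : ℕ) (y : Y) : L n := (fun k => y.1 k, fun k => y.2 k)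

private def pYY (n : ℕ) (q : Y × Y) : L n × L n := (pY n q.1, pY n q.2)

private theorem pY_meas (n : ℕ) : Measurable (pY n) := by
  change Measurable fun y : Y => ((fun k : Fin n => y.1 k, fun k : Fin n => y.2 k) : L n)
  fun_prop

private theorem pY_set (n : ℕ) (a : L n) : MeasurableSet (pY n ⁻¹' {a}) :=
  pY_meas n (measurableSet_singleton a)

private theorem pYY_set (n : ℕ) (a : L n × L n) : MeasurableSet (pYY n ⁻¹' {a}) :=
  (((pY_meas n).comp measurable_fst).prodMk ((pY_meas n).comp measurable_snd))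
    (measurableSet_singleton a)

private theorem pY_eq {n : ℕ} {x y : Y} : pY n x = pY n y ↔
    (∀ k : Fin n, x.1 k = y.1 k) ∧ ∀ k : Fin n, x.2 k = y.2 k := by
  unfold pY
  rw [Prod.mk.injEq, funext_iff, funext_iff]

private theorem pY_mono (n m : ℕ) (h : n ≤ m) (x y : Y) (hxy : pY m x = pY m y) :
    pY n x = pY n y := by
  rw [pY_eq] at hxy ⊢
  exact ⟨fun k => hxy.1 ⟨k, k.2.trans_le h⟩, fun k => hxy.2 ⟨k, k.2.trans_le h⟩⟩

private theorem pYY_mono (n m : ℕ) (h : n ≤ m) (x y : Y × Y) (hxy : pYY m x = pYY m y) :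
    pYY n x = pYY n y := by
  have h1 := Prod.mk.inj hxy
  exact Prod.ext (pY_mono n m h _ _ h1.1) (pY_mono n m h _ _ h1.2)

private theorem gen_Y : (inferInstance : MeasurableSpace Y) =
    MeasurableSpace.generateFrom {s | ∃ n a, s = pY n ⁻¹' {a}} := by
  refine le_antisymm ?_ (MeasurableSpace.generateFrom_le ?_)
  · have hm : ∀ n a, MeasurableSet[MeasurableSpace.generateFrom {s | ∃ n a, s = pY n ⁻¹' {a}}]
        (pY n ⁻¹' {a}) := fun n a => MeasurableSpace.measurableSet_generateFrom ⟨n, a, rfl⟩
    have h := @meas_Y Y (MeasurableSpace.generateFrom {s | ∃ n a, s = pY n ⁻¹' {a}}) id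
      (fun k => @meas_fac Y (MeasurableSpace.generateFrom {s | ∃ n a, s = pY n ⁻¹' {a}}) (L (k + 1))
        _ (pY (k + 1)) (hm (k + 1)) _ (fun a => a.1 ⟨k, Nat.lt_succ_self k⟩) fun _ => rfl)
      (fun k => @meas_fac Y (MeasurableSpace.generateFrom {s | ∃ n a, s = pY n ⁻¹' {a}}) (L (k + 1))
        _ (pY (k + 1)) (hm (k + 1)) _ (fun a => a.2 ⟨k, Nat.lt_succ_self k⟩) fun _ => rfl)
    intro s hs
    exact h hs
  · rintro s ⟨n, a, rfl⟩
    exact pY_set n a

private theorem gen_YY : (inferInstance : MeasurableSpace (Y × Y)) =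
    MeasurableSpace.generateFrom {s | ∃ n a, s = pYY n ⁻¹' {a}} := by
  refine le_antisymm ?_ (MeasurableSpace.generateFrom_le ?_)
  · have hm : ∀ n a, MeasurableSet[MeasurableSpace.generateFrom {s | ∃ n a, s = pYY n ⁻¹' {a}}]
        (pYY n ⁻¹' {a}) := fun n a => MeasurableSpace.measurableSet_generateFrom ⟨n, a, rfl⟩
    have hf : ∀ (g : Y × Y → ZMod 2) (k : ℕ) (h : L (k + 1) × L (k + 1) → ZMod 2),
        (∀ x, g x = h (pYY (k + 1) x)) →
        Measurable[MeasurableSpace.generateFrom {s | ∃ n a, s = pYY n ⁻¹' {a}}] g :=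
      fun g k h hg => @meas_fac (Y × Y)
        (MeasurableSpace.generateFrom {s | ∃ n a, s = pYY n ⁻¹' {a}}) (L (k + 1) × L (k + 1)) _
        (pYY (k + 1)) (hm (k + 1)) g h hg
    have h1 := @meas_Y (Y × Y) (MeasurableSpace.generateFrom {s | ∃ n a, s = pYY n ⁻¹' {a}})
      Prod.fst (fun k => hf _ k (fun a => a.1.1 ⟨k, Nat.lt_succ_self k⟩) fun _ => rfl)
      (fun k => hf _ k (fun a => a.1.2 ⟨k, Nat.lt_succ_self k⟩) fun _ => rfl)
    have h2 := @meas_Y (Y × Y) (MeasurableSpace.generateFrom {s | ∃ n a, s = pYY n ⁻¹' {a}})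
      Prod.snd (fun k => hf _ k (fun a => a.2.1 ⟨k, Nat.lt_succ_self k⟩) fun _ => rfl)
      (fun k => hf _ k (fun a => a.2.2 ⟨k, Nat.lt_succ_self k⟩) fun _ => rfl)
    have h := @Measurable.prodMk (Y × Y)
      (MeasurableSpace.generateFrom {s | ∃ n a, s = pYY n ⁻¹' {a}}) Y Y _ _ _ _ h1 h2
    intro s hs
    exact h hs
  · rintro s ⟨n, a, rfl⟩
    exact pYY_set n a

private theorem ext_Y (μ η : Measure Y) [IsFiniteMeasure μ] (hu : μ Set.univ = η Set.univ)
    (hμ : Unif pY μ) (hη : Unif pY η) : μ = η :=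
  unif_ext pY pY_set pY_mono gen_Y μ η hu hμ hη

private theorem ext_YY (μ η : Measure (Y × Y)) [IsFiniteMeasure μ]
    (hu : μ Set.univ = η Set.univ) (hμ : Unif pYY μ) (hη : Unif pYY η) : μ = η :=
  unif_ext pYY pYY_set pYY_mono gen_YY μ η hu hμ hη

/-- a point of a given cell -/
private def pt (n : ℕ) (a : L n) : Y :=
  (fun k => if h : k < n then a.1 ⟨k, h⟩ else 0, fun k => if h : k < n then a.2 ⟨k, h⟩ else 0)

private theorem pY_pt (n : ℕ) (a : L n) : pY n (pt n a) = a := by
  refine Prod.ext (funext fun k => ?_) (funext fun k => ?_)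
  · exact dif_pos k.2
  · exact dif_pos k.2

private theorem pY_add (n : ℕ) (x y : Y) : pY n (x + y) = pY n x + pY n y := rfl

/-- translations -/
private theorem trans_pre (n : ℕ) (a b : L n) (z : Y) (hz : pY n z = b - a) :
    (fun y : Y => y + z) ⁻¹' (pY n ⁻¹' {b}) = pY n ⁻¹' {a} := by
  ext y
  simp only [Set.mem_preimage, Set.mem_singleton_iff]
  rw [pY_add, hz, ← eq_sub_iff_add_eq, sub_sub_cancel]

private theorem unif_of_trans (μ : Measure Y) (h : ∀ z : Y, μ.map (fun y => y + z) = μ) :
    Unif pY μ := by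
  intro n a b
  have h1 := h (pt n (b - a))
  have h2 : μ (pY n ⁻¹' {b}) = (μ.map (fun y => y + pt n (b - a))) (pY n ⁻¹' {b}) := by rw [h1]
  rw [h2, Measure.map_apply (measurable_add_const _) (pY_set n b), trans_pre n a b _ (pY_pt n _)]

end Haar

open Haar

instance instProbNu : IsProbabilityMeasure nu := by
  constructor
  have h := Measure.addHaarMeasure_self (K₀ := (⊤ : TopologicalSpace.PositiveCompacts Y))
  rw [TopologicalSpace.PositiveCompacts.coe_top] at h
  exact h

namespace Haar

instance instHaarNu : Measure.IsAddHaarMeasure nu := by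
  unfold nu
  infer_instance

private theorem map_add_nu (z : Y) : nu.map (fun y => y + z) = nu :=
  (measurePreserving_add_right nu z).map_eq

private theorem unif_nu : Unif pY nu := unif_of_trans nu map_add_nu

private theorem map_inv (e : Y → Y) (he : Measurable e) (hadd : ∀ y z, e (y + z) = e y + e z)
    (hinv : ∀ y, e (e y) = y) : nu.map e = nu := by
  have : IsProbabilityMeasure (nu.map e) := Measure.isProbabilityMeasure_map he.aemeasurable
  refine ext_Y _ _ (by rw [measure_univ, measure_univ]) (unif_of_trans _ fun z => ?_) unif_nu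
  rw [Measure.map_map (measurable_add_const z) he]
  have h1 : (fun y => y + z) ∘ e = e ∘ fun y => y + e z := by
    funext y
    simp only [Function.comp_apply]
    rw [hadd, hinv]
  rw [h1, ← Measure.map_map he (measurable_add_const _), map_add_nu]

end Haar

theorem mp_gen (c : T) (j : J) : MeasurePreserving (gen c j) nu nu := by
  refine ⟨measurable_gen c j, ?_⟩
  rcases j with a | r | r
  · exact map_add_nu (act a.1 c, act a.2 c)
  · refine map_inv _ (measurable_gen c _) ?_ (gen_gen c (Sum.inr (Sum.inl r)))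
    intro y z
    change e12 r (y + z) = e12 r y + e12 r z
    unfold e12
    refine Prod.ext ?_ rfl
    change (y.1 + z.1) + act r (y.2 + z.2) = (y.1 + act r y.2) + (z.1 + act r z.2)
    rw [act_add_right]
    abel
  · refine map_inv _ (measurable_gen c _) ?_ (gen_gen c (Sum.inr (Sum.inr r)))
    intro y z
    change e21 r (y + z) = e21 r y + e21 r z
    unfold e21
    refine Prod.ext rfl ?_
    change (y.2 + z.2) + act r (y.1 + z.1) = (y.2 + act r y.1) + (z.2 + act r z.1)
    rw [act_add_right]
    abel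

theorem zero_one (c : T) (hc : NonTor c) (B : Set Y) (hB : MeasurableSet B)
    (h : ∀ a : R × R, ∀ᵐ y ∂nu, (tr c a y ∈ B ↔ y ∈ B)) : nu B = 0 ∨ nu B = 1 := by
  have hU : Unif pY (nu.restrict B) := by
    intro n a b
    obtain ⟨r1, hr1⟩ := onto1 c hc n (b - a).1
    obtain ⟨r2, hr2⟩ := onto1 c hc n (b - a).2
    have hz : pY n (act r1 c, act r2 c) = b - a :=
      Prod.ext (funext fun k => hr1 k) (funext fun k => hr2 k)
    have hpre : tr c (r1, r2) ⁻¹' (pY n ⁻¹' {b}) = pY n ⁻¹' {a} :=
      trans_pre n a b (act r1 c, act r2 c) hz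
    have hmp : MeasurePreserving (tr c (r1, r2)) nu nu := mp_gen c (Sum.inl (r1, r2))
    rw [Measure.restrict_apply (pY_set n a), Measure.restrict_apply (pY_set n b),
      ← hmp.measure_preimage ((pY_set n b).inter hB).nullMeasurableSet, Set.preimage_inter, hpre]
    refine measure_congr ?_
    refine (Filter.EventuallyEq.refl _ _).inter ?_
    filter_upwards [h (r1, r2)] with y hy
    exact propext hy.symm
  have hV : Unif pY (nu B • nu) := by
    intro n a b
    rw [Measure.smul_apply, Measure.smul_apply, unif_nu n a b]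
  have h1 : nu.restrict B = nu B • nu := by
    refine ext_Y _ _ ?_ hU hV
    rw [Measure.restrict_apply_univ, Measure.smul_apply, measure_univ, smul_eq_mul, mul_one]
  have h2 : nu B = nu B * nu B := by
    have h3 := congrArg (fun μ : Measure Y => μ B) h1
    simp only [Measure.smul_apply, smul_eq_mul] at h3
    rwa [Measure.restrict_apply_self] at h3
  by_cases h0 : nu B = 0
  · exact Or.inl h0
  · right
    have h3 : nu B * 1 = nu B * nu B := by rw [mul_one]; exact h2
    exact ((ENNReal.mul_right_inj h0 (measure_ne_top _ _)).1 h3).symm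

theorem nu_class (c : T) (y : Y) : nu {z | F c y z} = 0 := by
  have hpt : ∀ z : Y, nu {z} = 0 := by
    intro z
    by_contra hne
    have h1 : ∀ n : ℕ, (2 : ENNReal) ^ n * nu {z} ≤ 1 := by
      intro n
      have h2 := unif_card pY pY_set nu unif_nu n (pY n z)
      rw [measure_univ] at h2
      rw [← h2]
      refine mul_le_mul' ?_ (measure_mono ?_)
      · have h3 : 2 ^ n ≤ Fintype.card (L n) := by
          rw [Fintype.card_prod, Fintype.card_fun, Fintype.card_fin, ZMod.card]
          exact Nat.le_mul_of_pos_left _ (by positivity)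
        exact_mod_cast h3
      · rintro x rfl
        rfl
    have h2 : Filter.Tendsto (fun n : ℕ => (2 : ENNReal) ^ n * nu {z}) Filter.atTop (nhds ⊤) := by
      have h3 : Filter.Tendsto (fun n : ℕ => (2 : ENNReal) ^ n) Filter.atTop (nhds ⊤) :=
        ENNReal.tendsto_pow_atTop_nhds_top_iff.2 (by norm_num)
      have h4 := ENNReal.Tendsto.mul_const (b := nu {z}) h3 (Or.inl ENNReal.top_ne_zero)
      rwa [ENNReal.top_mul hne] at h4
    have h3 := le_of_tendsto' h2 h1
    exact absurd h3 (by simp)
  have : NullSingletonClass nu := ⟨hpt⟩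
  exact ((cber_F c).count y).measure_zero nu

theorem prod_of_invariant (c c' : T) (hc : Ind c c') (η : Measure ((Y × W) × (Y × W))) [IsFiniteMeasure η]
    (h : ∀ a : R × R, η.map (fun p => ((tr c a p.1.1, p.1.2), (tr c' a p.2.1, p.2.2))) = η) :
    η = ((nu.prod nu).prod (η.map fun p => (p.1.2, p.2.2))).map
      fun q : (Y × Y) × (W × W) => ((q.1.1, q.2.1), (q.1.2, q.2.2)) := by
  set gY : (Y × W) × (Y × W) → Y × Y := fun p => (p.1.1, p.2.1) with hgY
  set gW : (Y × W) × (Y × W) → W × W := fun p => (p.1.2, p.2.2) with hgW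
  have mY : Measurable gY := by fun_prop
  have mW : Measurable gW := by fun_prop
  have key : (nu.prod nu).prod (η.map gW) = η.map fun p => (gY p, gW p) := by
    refine Measure.prod_eq fun s t hs ht => ?_
    rw [Measure.map_apply (mY.prodMk mW) (hs.prod ht), Measure.map_apply mW ht]
    have h1 : (fun p => (gY p, gW p)) ⁻¹' (s ×ˢ t) = gY ⁻¹' s ∩ gW ⁻¹' t := rfl
    rw [h1]
    set κ : Measure (Y × Y) := (η.restrict (gW ⁻¹' t)).map gY with hκ
    have hκs : ∀ s, MeasurableSet s → κ s = η (gY ⁻¹' s ∩ gW ⁻¹' t) := by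
      intro s hs
      rw [hκ, Measure.map_apply mY hs, Measure.restrict_apply (mY hs)]
    have : IsFiniteMeasure κ := by
      rw [hκ]
      infer_instance
    have hU : Unif pYY κ := by
      intro n a b
      obtain ⟨r1, hr1, hr1'⟩ := onto2 c c' hc n (b.1 - a.1).1 (b.2 - a.2).1
      obtain ⟨r2, hr2, hr2'⟩ := onto2 c c' hc n (b.1 - a.1).2 (b.2 - a.2).2
      have hz : pY n (act r1 c, act r2 c) = b.1 - a.1 :=
        Prod.ext (funext fun k => hr1 k) (funext fun k => hr2 k)
      have hz' : pY n (act r1 c', act r2 c') = b.2 - a.2 :=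
        Prod.ext (funext fun k => hr1' k) (funext fun k => hr2' k)
      have hpre : tr c (r1, r2) ⁻¹' (pY n ⁻¹' {b.1}) = pY n ⁻¹' {a.1} := trans_pre n a.1 b.1 _ hz
      have hpre' : tr c' (r1, r2) ⁻¹' (pY n ⁻¹' {b.2}) = pY n ⁻¹' {a.2} :=
        trans_pre n a.2 b.2 _ hz'
      rw [hκs _ (pYY_set n a), hκs _ (pYY_set n b)]
      have mtr : ∀ c : T, Measurable (tr c (r1, r2)) := fun c => measurable_gen c (Sum.inl (r1, r2))
      have mΨ : Measurable (fun p : (Y × W) × (Y × W) =>
          ((tr c (r1, r2) p.1.1, p.1.2), (tr c' (r1, r2) p.2.1, p.2.2))) :=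
        (((mtr c).comp (measurable_fst.comp measurable_fst)).prodMk
          (measurable_snd.comp measurable_fst)).prodMk
          (((mtr c').comp (measurable_fst.comp measurable_snd)).prodMk
          (measurable_snd.comp measurable_snd))
      have h2 : η (gY ⁻¹' (pYY n ⁻¹' {b}) ∩ gW ⁻¹' t) =
          (η.map (fun p => ((tr c (r1, r2) p.1.1, p.1.2), (tr c' (r1, r2) p.2.1, p.2.2))))
            (gY ⁻¹' (pYY n ⁻¹' {b}) ∩ gW ⁻¹' t) := by rw [h (r1, r2)]
      rw [h2, Measure.map_apply mΨ ((mY (pYY_set n b)).inter (mW ht))]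
      congr 1
      ext p
      have e1 : pY n p.1.1 = a.1 ↔ pY n (tr c (r1, r2) p.1.1) = b.1 := by
        have := Set.ext_iff.1 hpre p.1.1
        exact this.symm
      have e2 : pY n p.2.1 = a.2 ↔ pY n (tr c' (r1, r2) p.2.1) = b.2 := by
        have := Set.ext_iff.1 hpre' p.2.1
        exact this.symm
      have e3 : pYY n (gY p) = a ↔ (pY n p.1.1 = a.1 ∧ pY n p.2.1 = a.2) := Prod.ext_iff
      have e4 : pYY n (tr c (r1, r2) p.1.1, tr c' (r1, r2) p.2.1) = b ↔
          (pY n (tr c (r1, r2) p.1.1) = b.1 ∧ pY n (tr c' (r1, r2) p.2.1) = b.2) := Prod.ext_iff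
      constructor
      · rintro ⟨q1, q2⟩
        refine ⟨?_, q2⟩
        have q3 := e3.1 q1
        exact e4.2 ⟨e1.1 q3.1, e2.1 q3.2⟩
      · rintro ⟨q1, q2⟩
        refine ⟨?_, q2⟩
        have q3 := e4.1 q1
        exact e3.2 ⟨e1.2 q3.1, e2.2 q3.2⟩
    have hV : Unif pYY (η (gW ⁻¹' t) • nu.prod nu) := by
      have h3 : ∀ n (a : L n × L n), (nu.prod nu) (pYY n ⁻¹' {a}) =
          nu (pY n ⁻¹' {a.1}) * nu (pY n ⁻¹' {a.2}) := by
        intro n a
        rw [← Measure.prod_prod]
        congr 1
        ext q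
        exact Prod.ext_iff
      intro n a b
      rw [Measure.smul_apply, Measure.smul_apply, h3, h3, unif_nu n a.1 b.1, unif_nu n a.2 b.2]
    have h4 : κ = η (gW ⁻¹' t) • nu.prod nu := by
      refine ext_YY _ _ ?_ hU hV
      rw [hκs _ MeasurableSet.univ, Set.preimage_univ, Set.univ_inter, Measure.smul_apply,
        measure_univ, smul_eq_mul, mul_one]
    rw [← hκs s hs, h4, Measure.smul_apply, smul_eq_mul, mul_comm]
  rw [key, Measure.map_map (by fun_prop) (mY.prodMk mW)]
  have h5 : (fun q : (Y × Y) × (W × W) => ((q.1.1, q.2.1), (q.1.2, q.2.2))) ∘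
      (fun p => (gY p, gW p)) = id := by
    funext p
    rfl
  rw [h5, Measure.map_id]

end Pool.MPb8ab30
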