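import Pool.Agent.Lib_MP_b8ab30.Act

/-!
# Piece INDEP: counting torsion and dependence

PROOFS.  For `q ≠ 0` of degree `d` and `b : T` a solution `y` of `act q y = b` is determined by `y 0, ..., y (d-1)`: the leading coefficient of `q` is `1`, so
`y (d + k) = b k - ∑_(n < d) q.coeff n * y (n + k)` (strong induction).  So `{y | act q y = b}` is finite (injects into `Fin d → ZMod 2`), in particular countable.  The torsion
elements are the countable union over `q ≠ 0` of the sets `{y | act q y = 0}` (`R` is countable) and `T` is uncountable (`ℕ → ZMod 2` has the cardinality of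
the continuum; or `Cardinal.not_countable`, an injection of `Set ℕ`).  If `c` is non-torsion and `¬ Ind c c'`: some `(q,q') ≠ (0,0)` has `act q c + act q' c' = 0`; `q' ≠ 0`
(otherwise `act q c = 0`, so `q = 0`); then `act q' c' = act q c` (characteristic two) and `c'` lies in the countable set `⋃ (q, q' ≠ 0) {y | act q' y = act q c}`.
-/

set_option autoImplicit false

namespace Pool.MPb8ab30

private theorem Indep_zero (q : R) (hq : q ≠ 0) (w : T) (hw : act q w = 0) (h0 : ∀ n < q.natDegree, w n = 0) :
    w = 0 := by
  funext n
  induction n using Nat.strong_induction_on with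
  | _ n ih =>
    by_cases hn : n < q.natDegree
    · exact h0 n hn
    · obtain ⟨k, rfl⟩ := Nat.exists_eq_add_of_le (not_lt.1 hn)
      have h1 : act q w k = 0 := by rw [hw]; rfl
      have h2 : act q w k = ∑ m ∈ Finset.range (q.natDegree + 1), q.coeff m * w (m + k) := by
        unfold act
        rw [Polynomial.sum_over_range]
        intro m
        rw [zero_mul]
      rw [h2, Finset.sum_range_succ, Finset.sum_eq_zero, zero_add] at h1
      · rcases mul_eq_zero.1 h1 with h3 | h3
        · exact absurd h3 (Polynomial.leadingCoeff_ne_zero.2 hq)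
        · exact h3
      · intro m hm
        have hm' : m < q.natDegree := Finset.mem_range.1 hm
        have := ih (m + k) (by omega)
        rw [this]
        simp

private theorem Indep_finite (q : R) (hq : q ≠ 0) (b : T) : {y : T | act q y = b}.Finite := by
  refine Set.Finite.of_finite_image (f := fun (y : T) (i : Fin q.natDegree) => y i) (Set.toFinite _) ?_
  intro y hy z hz hyz
  have hy' : act q y = b := hy
  have hz' : act q z = b := hz
  have h1 : act q (y + z) = 0 := by
    rw [act_add_right, hy', hz', add_self_T]
  have h2 : y + z = 0 := by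
    apply Indep_zero q hq _ h1
    intro n hn
    have h3 : y n = z n := congrFun hyz ⟨n, hn⟩
    change y n + z n = 0
    rw [h3]
    exact congrFun (add_self_T z) n
  have h3 : y + z = z + z := by rw [h2, add_self_T]
  exact add_right_cancel h3

private theorem Indep_countable_R : Countable R := by
  rw [← Cardinal.mk_le_aleph0_iff]
  refine Polynomial.cardinalMk_le_max.trans ?_
  rw [max_le_iff]
  exact ⟨Cardinal.mk_le_aleph0_iff.2 inferInstance, le_refl _⟩

private theorem Indep_finite' (q : {q : R // q ≠ 0}) (b : T) : {y : T | act q.1 y = b}.Countable :=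
  (Indep_finite q.1 q.2 b).countable

theorem uncountable_nonTor : ¬ {c : T | NonTor c}.Countable := by
  intro h
  have h1 : {c : T | ¬ NonTor c}.Countable := by
    have h2 : {c : T | ¬ NonTor c} ⊆ ⋃ q : {q : R // q ≠ 0}, {y : T | act q.1 y = 0} := by
      intro c hc
      have hc' : ¬ ∀ q : R, act q c = 0 → q = 0 := hc
      push Not at hc'
      obtain ⟨q, hq, hq0⟩ := hc'
      exact Set.mem_iUnion.2 ⟨⟨q, hq0⟩, hq⟩
    have hR := Indep_countable_R
    refine Set.Countable.mono h2 ?_
    apply Set.countable_iUnion
    intro q
    exact Indep_finite' q 0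
  have h3 : (Set.univ : Set T).Countable := by
    have h4 : (Set.univ : Set T) = {c : T | NonTor c} ∪ {c : T | ¬ NonTor c} := by
      ext c
      exact ⟨fun _ => em _, fun _ => Set.mem_univ _⟩
    rw [h4]
    exact h.union h1
  have h5 : Countable T := Set.countable_univ_iff.1 h3
  have h6 : Countable (Set ℕ) := by
    classical
    refine Function.Injective.countable (f := fun (s : Set ℕ) (n : ℕ) => if n ∈ s then (1 : ZMod 2) else 0) ?_
    intro s t hst
    ext n
    have := congrFun hst n
    by_cases hs : n ∈ s <;> by_cases ht : n ∈ t <;> simp_all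
  obtain ⟨f, hf⟩ := exists_surjective_nat (Set ℕ)
  exact Function.cantor_surjective f hf

theorem countable_dep (c : T) (hc : NonTor c) : {c' : T | ¬ Ind c c'}.Countable := by
  have h2 : {c' : T | ¬ Ind c c'} ⊆ ⋃ q : R, ⋃ q' : {q : R // q ≠ 0}, {y : T | act q'.1 y = act q c} := by
    intro c' hc'
    have hn : ¬ ∀ q q' : R, act q c + act q' c' = 0 → q = 0 ∧ q' = 0 := hc'
    push Not at hn
    obtain ⟨q, q', h0, h1⟩ := hn
    have hq' : q' ≠ 0 := by
      rintro rfl
      rw [act_zero_left, add_zero] at h0
      exact h1 (hc q h0) rfl
    refine Set.mem_iUnion.2 ⟨q, Set.mem_iUnion.2 ⟨⟨q', hq'⟩, ?_⟩⟩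
    change act q' c' = act q c
    have h3 : act q c + act q' c' = act q c + act q c := by rw [h0, add_self_T]
    exact add_left_cancel h3
  have hR := Indep_countable_R
  refine Set.Countable.mono h2 ?_
  apply Set.countable_iUnion
  intro q
  apply Set.countable_iUnion
  intro q'
  exact Indep_finite' q' (act q c)

end Pool.MPb8ab30
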