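import Pool.Agent.Lib_MP_b8ab30.RelT

/-!
# Piece KOO: from a nearly invariant function to an invariant measure

PROOF.  `H = Lp ℝ 2 lam`; a measure preserving map `g` of `V` acts by `ζ ↦ ζ ∘ g` (`Lp.compMeasurePreservingₗᵢ` / `Lp.compMeasurePreserving`), a linear isometry.  Let `π a` be the
operator of `τ a` and `M12, M12t, M21, M21t` the operators of `M 0, M 1, M 2, M 3`.  `π 0 = id`; `π (a+b) ζ = ζ ∘ τ (a + b) = ζ ∘ τ b ∘ τ a` (use `hτ b a`, `a + b = b + a`)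
`= π a (π b ζ)`.  `M (π a ζ) = ζ ∘ τ a ∘ M` and `π (w a) (M ζ) = ζ ∘ M ∘ τ (w a) = ζ ∘ τ (w (w a)) ∘ M = ζ ∘ τ a ∘ M` (`hM`, and `w (w a) = a` for `f12 r`, `f21 r` in characteristic two).
The function `ζ` is in `L2` (`h1`); `‖ζ‖^2 = ∫ ζ^2 ≤ 1`, `≥ 1 - κ ≥ 3/4`; `‖ζ ∘ S - ζ‖^2 = ‖ζ ∘ S‖^2 + ‖ζ‖^2 - 2 ∫ ζ (S v) ζ v ≤ 2 - 2 (1 - κ) = 2 κ ≤ (1/50)^2`.  `relT` gives `ξ ≠ 0` in `L2` with
`ξ ∘ τ a = ξ` a.e. for all `a`.  `η = lam.withDensity (ofReal (ξ^2))`: finite, non-zero, `≪ lam`, and `η.map (τ a) = η`: `∫⁻ v, 1_B (τ a v) ξ(v)^2 = ∫⁻ v, 1_B (τ a v) ξ (τ a v)^2 =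
∫⁻ v, 1_B v ξ(v)^2`.
-/

set_option autoImplicit false

open MeasureTheory

namespace Pool.MPb8ab30

/-- the four elementary matrices on `R × R` -/
noncomputable def fA : Fin 4 → R × R → R × R
  | 0 => f12 1
  | 1 => f12 Polynomial.X
  | 2 => f21 1
  | 3 => f21 Polynomial.X

private lemma koo_two (a : R) : a + a = 0 := CharTwo.add_self_eq_zero a

private lemma koo_f12 (r : R) (a : R × R) : f12 r (f12 r a) = a := by
  unfold f12
  ext1
  · change a.1 + r * a.2 + r * a.2 = a.1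
    rw [add_assoc, koo_two, add_zero]
  · rfl

private lemma koo_f21 (r : R) (a : R × R) : f21 r (f21 r a) = a := by
  unfold f21
  ext1
  · rfl
  · change a.2 + r * a.1 + r * a.1 = a.2
    rw [add_assoc, koo_two, add_zero]

private lemma koo_fA (i : Fin 4) (a : R × R) : fA i (fA i a) = a := by
  fin_cases i
  · exact koo_f12 _ _
  · exact koo_f12 _ _
  · exact koo_f21 _ _
  · exact koo_f21 _ _

section ops

variable {V : Type} [MeasurableSpace V] {lam : Measure V}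

/-- the Koopman operator -/
private noncomputable def kooC (f : V → V) (hf : MeasurePreserving f lam lam) :
    Lp ℝ 2 lam →ₗᵢ[ℝ] Lp ℝ 2 lam := Lp.compMeasurePreservingₗᵢ ℝ f hf

private lemma kooC_ae (f : V → V) (hf : MeasurePreserving f lam lam) (x : Lp ℝ 2 lam) :
    (kooC f hf x : V → ℝ) =ᵐ[lam] (x : V → ℝ) ∘ f :=
  Lp.coeFn_compMeasurePreserving x hf

private lemma kooC_comp (f g k : V → V) (hf : MeasurePreserving f lam lam) (hg : MeasurePreserving g lam lam)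
    (hk : MeasurePreserving k lam lam) (h : ∀ v, k v = g (f v)) (x : Lp ℝ 2 lam) :
    kooC k hk x = kooC f hf (kooC g hg x) := by
  apply Lp.ext
  have h1 := kooC_ae k hk x
  have h2 := kooC_ae f hf (kooC g hg x)
  have h3 := hf.quasiMeasurePreserving.ae_eq_comp (kooC_ae g hg x)
  filter_upwards [h1, h2, h3] with v e1 e2 e3
  rw [e1, e2, e3]
  simp only [Function.comp_apply, h]

end ops

private lemma koo_near {V : Type} [MeasurableSpace V] {lam : Measure V} (S : V → V)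
    (hS : MeasurePreserving S lam lam) (ζ : V → ℝ) (_hζ : Measurable ζ) (h0 : ∀ v, 0 ≤ ζ v)
    (κ : ENNReal) (hκ : κ ≤ ENNReal.ofReal (1 / 10000)) (hm : MemLp ζ 2 lam)
    (hn : ‖hm.toLp ζ‖ ≤ 1)
    (h : 1 ≤ ∫⁻ v, ENNReal.ofReal (ζ (S v) * ζ v) ∂lam + κ) :
    ‖kooC S hS (hm.toLp ζ) - hm.toLp ζ‖ ≤ 1 / 50 := by
  set x := hm.toLp ζ with hx
  have hxe : (x : V → ℝ) =ᵐ[lam] ζ := hm.coeFn_toLp
  have hye : (kooC S hS x : V → ℝ) =ᵐ[lam] fun v => ζ (S v) := by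
    have h1 := kooC_ae S hS x
    have h2 := hS.quasiMeasurePreserving.ae_eq_comp hxe
    filter_upwards [h1, h2] with v e1 e2
    rw [e1, e2]; rfl
  have hprod : (fun v => inner ℝ ((kooC S hS x : V → ℝ) v) ((x : V → ℝ) v)) =ᵐ[lam]
      fun v => ζ (S v) * ζ v := by
    filter_upwards [hxe, hye] with v e1 e2
    rw [e1, e2]
    simp [mul_comm]
  have hint : Integrable (fun v => ζ (S v) * ζ v) lam :=
    (L2.integrable_inner (𝕜 := ℝ) (kooC S hS x) x).congr hprod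
  have hnn : 0 ≤ᵐ[lam] fun v => ζ (S v) * ζ v := ae_of_all _ fun v => mul_nonneg (h0 _) (h0 _)
  have hin : inner ℝ (kooC S hS x) x = (∫⁻ v, ENNReal.ofReal (ζ (S v) * ζ v) ∂lam).toReal := by
    rw [L2.inner_def, integral_congr_ae hprod, integral_eq_lintegral_of_nonneg_ae hnn hint.1]
  have hfin : (∫⁻ v, ENNReal.ofReal (ζ (S v) * ζ v) ∂lam) ≠ ⊤ :=
    ((hasFiniteIntegral_iff_ofReal hnn).1 hint.2).ne
  have hκf : κ ≠ ⊤ := (hκ.trans_lt ENNReal.ofReal_lt_top).ne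
  have hκr : κ.toReal ≤ 1 / 10000 := ENNReal.toReal_le_of_le_ofReal (by norm_num) hκ
  have hlow : 1 ≤ inner ℝ (kooC S hS x) x + κ.toReal := by
    rw [hin, ← ENNReal.toReal_add hfin hκf]
    have := ENNReal.toReal_mono (ENNReal.add_ne_top.2 ⟨hfin, hκf⟩) h
    simpa using this
  have hsq : ‖kooC S hS x - x‖ ^ 2 ≤ (1 / 50) ^ 2 := by
    rw [@norm_sub_sq_real, LinearIsometry.norm_map]
    have h1 : ‖x‖ ^ 2 ≤ 1 := pow_le_one₀ (norm_nonneg _) hn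
    linarith
  exact le_of_sq_le_sq hsq (by norm_num)
where
  le_of_sq_le_sq {a b : ℝ} (h : a ^ 2 ≤ b ^ 2) (hb : 0 ≤ b) : a ≤ b := abs_le_of_sq_le_sq' h hb |>.2

theorem koopman {V : Type} [MeasurableSpace V] (lam : Measure V) (τ : R × R → V → V) (M : Fin 4 → V → V)
    (hτm : ∀ a, MeasurePreserving (τ a) lam lam) (hMm : ∀ i, MeasurePreserving (M i) lam lam)
    (hτ0 : ∀ v, τ 0 v = v) (hτ : ∀ a b v, τ (a + b) v = τ a (τ b v))
    (hM : ∀ i a v, M i (τ a v) = τ (fA i a) (M i v))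
    (ζ : V → ℝ) (hζ : Measurable ζ) (h0 : ∀ v, 0 ≤ ζ v) (κ : ENNReal) (hκ : κ ≤ ENNReal.ofReal (1 / 10000))
    (h1 : ∫⁻ v, ENNReal.ofReal (ζ v ^ 2) ∂lam ≤ 1) (h2 : 1 ≤ ∫⁻ v, ENNReal.ofReal (ζ v ^ 2) ∂lam + κ)
    (h3 : 1 ≤ ∫⁻ v, ENNReal.ofReal (ζ (τ (1, 0) v) * ζ v) ∂lam + κ)
    (h4 : 1 ≤ ∫⁻ v, ENNReal.ofReal (ζ (τ (0, 1) v) * ζ v) ∂lam + κ)
    (h5 : ∀ i, 1 ≤ ∫⁻ v, ENNReal.ofReal (ζ (M i v) * ζ v) ∂lam + κ) :
    ∃ η : Measure V, IsFiniteMeasure η ∧ η ≠ 0 ∧ η ≪ lam ∧ ∀ a, η.map (τ a) = η := by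
  have hnn : 0 ≤ᵐ[lam] fun v => ζ v ^ 2 := ae_of_all _ fun v => sq_nonneg _
  have hlt : (∫⁻ v, ENNReal.ofReal (ζ v ^ 2) ∂lam) ≠ ⊤ := (h1.trans_lt ENNReal.one_lt_top).ne
  have hm : MemLp ζ 2 lam := by
    rw [memLp_two_iff_integrable_sq hζ.aestronglyMeasurable]
    exact ⟨(hζ.pow_const 2).aestronglyMeasurable, (hasFiniteIntegral_iff_ofReal hnn).2
      (h1.trans_lt ENNReal.one_lt_top)⟩
  have hnorm : ‖hm.toLp ζ‖ ^ 2 = (∫⁻ v, ENNReal.ofReal (ζ v ^ 2) ∂lam).toReal := by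
    rw [← real_inner_self_eq_norm_sq, L2.inner_def]
    have he : (fun v => inner ℝ ((hm.toLp ζ : V → ℝ) v) ((hm.toLp ζ : V → ℝ) v)) =ᵐ[lam]
        fun v => ζ v ^ 2 := by
      filter_upwards [hm.coeFn_toLp] with v e
      rw [e]
      simp [sq]
    rw [integral_congr_ae he, integral_eq_lintegral_of_nonneg_ae hnn
      (hζ.pow_const 2).aestronglyMeasurable]
  have hκf : κ ≠ ⊤ := (hκ.trans_lt ENNReal.ofReal_lt_top).ne
  have hκr : κ.toReal ≤ 1 / 10000 := ENNReal.toReal_le_of_le_ofReal (by norm_num) hκ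
  have hn2 : ‖hm.toLp ζ‖ ^ 2 ≤ 1 := by
    rw [hnorm]
    simpa using ENNReal.toReal_mono ENNReal.one_ne_top h1
  have hn1 : ‖hm.toLp ζ‖ ≤ 1 := by
    nlinarith [norm_nonneg (hm.toLp ζ)]
  have hlow : 3 / 4 ≤ ‖hm.toLp ζ‖ ^ 2 := by
    have := ENNReal.toReal_mono (ENNReal.add_ne_top.2 ⟨hlt, hκf⟩) h2
    rw [ENNReal.toReal_add hlt hκf, ← hnorm, ENNReal.toReal_one] at this
    linarith
  have hMπ : ∀ (i : Fin 4) (a : R × R) (x : Lp ℝ 2 lam),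
      kooC (M i) (hMm i) (kooC (τ a) (hτm a) x) =
        kooC (τ (fA i a)) (hτm (fA i a)) (kooC (M i) (hMm i) x) := by
    intro i a x
    have hk : MeasurePreserving (τ a ∘ M i) lam lam := (hτm a).comp (hMm i)
    rw [← kooC_comp (M i) (τ a) (τ a ∘ M i) (hMm i) (hτm a) hk (fun v => rfl) x]
    refine kooC_comp (τ (fA i a)) (M i) (τ a ∘ M i) (hτm (fA i a)) (hMm i) hk (fun v => ?_) x
    rw [hM, koo_fA]
    rfl
  obtain ⟨ξ, hξ0, hξ⟩ := relT (fun a => kooC (τ a) (hτm a))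
    (fun x => by
      apply Lp.ext
      filter_upwards [kooC_ae (τ 0) (hτm 0) x] with v e
      rw [e]
      simp only [Function.comp_apply, hτ0])
    (fun a b x => kooC_comp (τ a) (τ b) (τ (a + b)) (hτm a) (hτm b) (hτm (a + b))
      (fun v => by rw [add_comm, hτ]) x)
    (kooC (M 0) (hMm 0)) (kooC (M 1) (hMm 1)) (kooC (M 2) (hMm 2)) (kooC (M 3) (hMm 3))
    (hMπ 0) (hMπ 1) (hMπ 2) (hMπ 3) (hm.toLp ζ) hn1 hlow (1 / 50) le_rfl
    (koo_near _ _ ζ hζ h0 κ hκ hm hn1 h3) (koo_near _ _ ζ hζ h0 κ hκ hm hn1 h4)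
    (koo_near _ _ ζ hζ h0 κ hκ hm hn1 (h5 0)) (koo_near _ _ ζ hζ h0 κ hκ hm hn1 (h5 1))
    (koo_near _ _ ζ hζ h0 κ hκ hm hn1 (h5 2)) (koo_near _ _ ζ hζ h0 κ hκ hm hn1 (h5 3))
  have hξm : Measurable (ξ : V → ℝ) := (Lp.stronglyMeasurable ξ).measurable
  have hdm : Measurable fun v => ENNReal.ofReal ((ξ : V → ℝ) v ^ 2) := (hξm.pow_const 2).ennreal_ofReal
  refine ⟨lam.withDensity fun v => ENNReal.ofReal ((ξ : V → ℝ) v ^ 2), ?_, ?_, ?_, ?_⟩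
  · exact isFiniteMeasure_withDensity_ofReal
      ((memLp_two_iff_integrable_sq (Lp.aestronglyMeasurable ξ)).1 (Lp.memLp ξ)).2
  · intro hz
    apply hξ0
    rw [withDensity_eq_zero_iff hdm.aemeasurable] at hz
    apply Lp.ext
    filter_upwards [hz, Lp.coeFn_zero ℝ 2 lam] with v e1 e2
    rw [e2]
    have : (ξ : V → ℝ) v ^ 2 ≤ 0 := ENNReal.ofReal_eq_zero.1 e1
    have h' : (ξ : V → ℝ) v ^ 2 = 0 := le_antisymm this (sq_nonneg _)
    simpa using h'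
  · exact withDensity_absolutelyContinuous _ _
  · intro a
    ext B hB
    rw [Measure.map_apply (hτm a).measurable hB, withDensity_apply _ ((hτm a).measurable hB),
      withDensity_apply _ hB, ← (hτm a).setLIntegral_comp_preimage hB hdm]
    apply lintegral_congr_ae
    apply ae_restrict_of_ae
    have h6 := kooC_ae (τ a) (hτm a) ξ
    have h7 : kooC (τ a) (hτm a) ξ = ξ := hξ a
    rw [h7] at h6
    filter_upwards [h6] with v e
    rw [e]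
    rfl

end Pool.MPb8ab30
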