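import Pool.Agent.Lib_MP_b8ab30.LN1

/-!
# Piece LN2: the Cantor scheme for the theorem of Lusin and Novikov

PROOF.  Iterate `split` with `ε = 2^(-k)`: a scheme `A : List Bool → Set B`, `A (j :: l) = A l ∩ U l j`, such that for every `k` the family is not thin, so (with `D = ∅`) some `x k` lies in `f '' (A l)` for all `l` of length `k`.
The closures `closure (A l)` are non-empty, decreasing, with diameters `→ 0`, so every `α : ℕ → Bool` determines a point `z α` of the (complete metric) space `B`; different `α` give different points.  All `f (z α)` are equal: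
if `f (z α) ≠ f (z β)` take disjoint neighbourhoods of the two values; for large `k` `f` maps `A (α|k)` into the first, `A (β|k)` into the second, so the images are disjoint.
So the fibre of `f` over this common value is uncountable.
-/

set_option autoImplicit false

open MeasureTheory Set TopologicalSpace

namespace Pool.MPb8ab30

open Filter Topology in
/-- a Cantor scheme whose levels have intersecting images produces an uncountable fibre -/
theorem LN2_cantor_scheme {B X : Type} [MetricSpace B] [CompleteSpace B] [TopologicalSpace X] [T2Space X]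
    (f : B → X) (hf : Continuous f)
    (P : ℕ → (List Bool → Set B) → Prop)
    (h0 : P 0 (fun _ => univ))
    (hs : ∀ n Z ε, 0 < ε → P n Z → ∃ U : List Bool → Bool → Set B,
      (∀ s, Disjoint (closure (U s false)) (closure (U s true))) ∧
      (∀ s b, ∀ x ∈ U s b, ∀ y ∈ U s b, dist x y ≤ ε) ∧
      ∀ Z' : List Bool → Set B, (∀ l j, Z' (j :: l) = Z l ∩ U l j) → (∀ l, Z' l = univ ∨ ∃ l' j, Z' l = Z l' ∩ U l' j) →
        P (n + 1) Z')
    (hn : ∀ n Z, P n Z → ∃ x, ∀ l : List Bool, l.length = n → x ∈ f '' Z l) : ∃ x, ¬ (f ⁻¹' {x}).Countable := by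
  classical
  have eps : ∀ n : ℕ, (0 : ℝ) < 1 / ((n : ℝ) + 1) := fun n => by positivity
  choose U hU using fun n Z => hs n Z (1 / ((n : ℝ) + 1)) (eps n)
  -- the recursion
  let step : (Z : List Bool → Set B) → (List Bool → Bool → Set B) → List Bool → Set B := fun Z V l =>
    match l with
    | [] => univ
    | j :: l => Z l ∩ V l j
  have hstep : ∀ Z V l, step Z V l = univ ∨ ∃ l' j, step Z V l = Z l' ∩ V l' j := by
    intro Z V l
    cases l with
    | nil => exact Or.inl rfl
    | cons j l => exact Or.inr ⟨l, j, rfl⟩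
  let D : (n : ℕ) → {Z : List Bool → Set B // P n Z} := fun n =>
    Nat.rec ⟨fun _ => univ, h0⟩ (fun n Z => ⟨step Z.1 (U n Z.1 Z.2),
      (hU n Z.1 Z.2).2.2 _ (fun _ _ => rfl) (hstep _ _)⟩) n
  -- restriction of an infinite sequence
  let r : (ℕ → Bool) → (n : ℕ) → List Bool := fun α n => Nat.rec [] (fun n l => α n :: l) n
  have hr : ∀ α n, r α (n + 1) = α n :: r α n := fun α n => rfl
  have hrl : ∀ α n, (r α n).length = n := by
    intro α n
    induction n with
    | zero => rfl
    | succ n ih => rw [hr, List.length_cons, ih]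
  have hrc : ∀ α β n, (∀ m < n, α m = β m) → r α n = r β n := by
    intro α β n
    induction n with
    | zero => intro _; rfl
    | succ n ih =>
      intro h
      rw [hr, hr, h n (Nat.lt_succ_self n), ih fun m hm => h m (Nat.lt_succ_of_lt hm)]
  let V : (ℕ → Bool) → ℕ → Set B := fun α n => (D n).1 (r α n)
  have hV : ∀ α n, V α (n + 1) = V α n ∩ U n (D n).1 (D n).2 (r α n) (α n) := fun α n => rfl
  have hVanti : ∀ α, Antitone (V α) := fun α => antitone_nat_of_succ_le fun n => by
    rw [hV]; exact inter_subset_left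
  have hVne : ∀ α n, (V α n).Nonempty := by
    intro α n
    obtain ⟨x, hx⟩ := hn n _ (D n).2
    obtain ⟨y, hy, -⟩ := hx (r α n) (hrl α n)
    exact ⟨y, hy⟩
  have hVd : ∀ α n, ∀ x ∈ closure (V α (n + 1)), ∀ y ∈ closure (V α (n + 1)), dist x y ≤ 1 / ((n : ℝ) + 1) := by
    intro α n x hx y hy
    have hsub : ∀ x ∈ V α (n + 1), ∀ y ∈ V α (n + 1), dist x y ≤ 1 / ((n : ℝ) + 1) := by
      intro x hx y hy
      rw [hV] at hx hy
      exact (hU n (D n).1 (D n).2).2.1 _ _ x hx.2 y hy.2
    have hclosed : IsClosed {p : B × B | dist p.1 p.2 ≤ 1 / ((n : ℝ) + 1)} :=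
      isClosed_le (by fun_prop) continuous_const
    have hsub2 : closure (V α (n + 1) ×ˢ V α (n + 1)) ⊆ {p : B × B | dist p.1 p.2 ≤ 1 / ((n : ℝ) + 1)} :=
      closure_minimal (fun p hp => hsub p.1 hp.1 p.2 hp.2) hclosed
    rw [closure_prod_eq] at hsub2
    exact hsub2 (show (x, y) ∈ closure (V α (n + 1)) ×ˢ closure (V α (n + 1)) from ⟨hx, hy⟩)
  -- the limit point
  have hz : ∀ α, ∃ z, ∀ n, z ∈ closure (V α n) := by
    intro α
    have := Metric.nonempty_iInter_of_nonempty_biInter (s := fun n => closure (V α (n + 1)))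
      (fun n => isClosed_closure)
      (fun n => by
        rw [Metric.isBounded_iff]
        exact ⟨_, fun x hx y hy => hVd α n x hx y hy⟩)
      (fun N => by
        obtain ⟨y, hy⟩ := hVne α (N + 1)
        refine ⟨y, ?_⟩
        simp only [mem_iInter]
        intro n hnN
        exact subset_closure (hVanti α (by omega : n + 1 ≤ N + 1) hy))
      (by
        refine squeeze_zero (fun n => Metric.diam_nonneg) (fun n => Metric.diam_le_of_forall_dist_le (eps n).le
          (fun x hx y hy => hVd α n x hx y hy)) ?_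
        exact tendsto_one_div_add_atTop_nhds_zero_nat)
    obtain ⟨z, hz⟩ := this
    refine ⟨z, fun n => ?_⟩
    have h1 := mem_iInter.1 hz n
    exact closure_mono (hVanti α (Nat.le_succ n)) h1
  choose z hz using hz
  -- injectivity
  have hinj : Function.Injective z := by
    intro α β hab
    by_contra hne
    have hex : ∃ n, α n ≠ β n := Function.ne_iff.1 hne
    let n := Nat.find hex
    have hn1 : α n ≠ β n := Nat.find_spec hex
    have hn2 : ∀ m < n, α m = β m := fun m hm => not_not.1 (Nat.find_min hex hm)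
    have hrr : r α n = r β n := hrc α β n hn2
    have hA : z α ∈ closure (U n (D n).1 (D n).2 (r α n) (α n)) :=
      closure_mono (by rw [hV]; exact inter_subset_right) (hz α (n + 1))
    have hB : z β ∈ closure (U n (D n).1 (D n).2 (r β n) (β n)) :=
      closure_mono (by rw [hV]; exact inter_subset_right) (hz β (n + 1))
    rw [← hrr, ← hab] at hB
    have hdis := (hU n (D n).1 (D n).2).1 (r α n)
    rcases hα : α n with _ | _ <;> rcases hβ : β n with _ | _
    · exact hn1 (hα.trans hβ.symm)
    · rw [hα] at hA; rw [hβ] at hB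
      exact Set.disjoint_left.1 hdis hA hB
    · rw [hα] at hA; rw [hβ] at hB
      exact Set.disjoint_left.1 hdis hB hA
    · exact hn1 (hα.trans hβ.symm)
  -- constancy
  have hconst : ∀ α β, f (z α) = f (z β) := by
    intro α β
    by_contra hne
    obtain ⟨O₁, O₂, hO₁, hO₂, h1, h2, hdis⟩ := t2_separation hne
    have key : ∀ γ (O : Set X), IsOpen O → f (z γ) ∈ O → ∀ᶠ n in atTop, V γ (n + 1) ⊆ f ⁻¹' O := by
      intro γ O hO hmem
      have hnh : f ⁻¹' O ∈ 𝓝 (z γ) := (hO.preimage hf).mem_nhds hmem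
      obtain ⟨ρ, hρ, hball⟩ := Metric.mem_nhds_iff.1 hnh
      have := (tendsto_one_div_add_atTop_nhds_zero_nat (𝕜 := ℝ)).eventually (gt_mem_nhds hρ)
      filter_upwards [this] with n hn' y hy
      apply hball
      rw [Metric.mem_ball]
      exact lt_of_le_of_lt (hVd γ n y (subset_closure hy) (z γ) (hz γ (n + 1))) hn'
    obtain ⟨n, hn1, hn2⟩ := ((key α O₁ hO₁ h1).and (key β O₂ hO₂ h2)).exists
    obtain ⟨x, hx⟩ := hn (n + 1) _ (D (n + 1)).2
    obtain ⟨y, hy, hyx⟩ := hx (r α (n + 1)) (hrl α (n + 1))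
    obtain ⟨y', hy', hyx'⟩ := hx (r β (n + 1)) (hrl β (n + 1))
    have ha : f y ∈ O₁ := hn1 hy
    have hb : f y' ∈ O₂ := hn2 hy'
    rw [hyx] at ha
    rw [hyx'] at hb
    exact Set.disjoint_left.1 hdis ha hb
  -- conclusion
  have h2 : Cardinal.mk (ℕ → Bool) = Cardinal.continuum := by simp
  refine ⟨f (z fun _ => false), fun hc => ?_⟩
  have hcount : Countable (ℕ → Bool) := by
    have : Countable (f ⁻¹' {f (z fun _ => false)}) := hc.to_subtype
    let g : (ℕ → Bool) → f ⁻¹' {f (z fun _ => false)} := fun α => ⟨z α, hconst α _⟩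
    exact Function.Injective.countable (f := g) fun α β h => hinj (congrArg Subtype.val h)
  have h1 : Cardinal.mk (ℕ → Bool) ≤ Cardinal.aleph0 := Cardinal.mk_le_aleph0_iff.2 hcount
  rw [h2] at h1
  exact absurd h1 (not_le.2 Cardinal.aleph0_lt_continuum)

theorem thin_zero {B X : Type} [MetricSpace B] [CompleteSpace B] [PolishSpace B] [MeasurableSpace B] [BorelSpace B]
    [TopologicalSpace X] [PolishSpace X] [MeasurableSpace X] [BorelSpace X] (f : B → X) (hf : Continuous f)
    (hc : ∀ x, (f ⁻¹' {x}).Countable) : Thin f 0 fun _ => univ := by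
  by_contra hthin
  have key : ∃ x, ¬ (f ⁻¹' {x}).Countable := by
    refine LN2_cantor_scheme f hf (fun n Z => (∀ l, MeasurableSet (Z l)) ∧ ¬ Thin f n Z)
      ⟨fun _ => MeasurableSet.univ, hthin⟩ ?_ ?_
    · rintro n Z ε hε ⟨hZ, hT⟩
      obtain ⟨U, hUo, hUd, hUe, hU⟩ := split f hf n Z hZ hT (ENNReal.ofReal ε) (ENNReal.ofReal_pos.2 hε)
      refine ⟨U, hUd, fun s b x hx y hy => ?_, fun Z' hZ' hZ'' => ⟨fun l => ?_, hU Z' hZ'⟩⟩
      · have h1 : edist x y ≤ ENNReal.ofReal ε := (Metric.edist_le_ediam_of_mem hx hy).trans (hUe s b)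
        rw [edist_dist] at h1
        exact (ENNReal.ofReal_le_ofReal_iff hε.le).1 h1
      · rcases hZ'' l with h | ⟨l', j, h⟩
        · rw [h]; exact MeasurableSet.univ
        · rw [h]; exact (hZ l').inter (hUo l' j).measurableSet
    · rintro n Z ⟨hZ, hT⟩
      by_contra hcon
      push Not at hcon
      refine hT ⟨fun _ => ∅, fun _ => MeasurableSet.empty, fun _ => ⟨fun _ => ∅, fun _ => MeasurableSet.empty, fun _ => injOn_empty f, empty_subset _⟩, fun x => ?_⟩
      obtain ⟨l, hl, hxl⟩ := hcon x
      exact ⟨l, hl, by rwa [sdiff_empty]⟩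
  obtain ⟨x, hx⟩ := key
  exact hx (hc x)

end Pool.MPb8ab30
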