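import Pool.Agent.Lib_MP_b8ab30.Defs
import Pool.Agent.Lib_MP_b8ab30.LN2

/-!
# Piece LN: the theorem of Lusin and Novikov

A Borel map with countable fibres between standard Borel spaces is injective on each of countably many Borel sets covering the space.

PROOF (complete).  Make `f` continuous for a finer Polish topology on `B` (`upgradeStandardBorel`, `Measurable.exists_continuous`; fix a Polish topology on
`X` too).  Call a set `D ⊆ B` SMALL if it is contained in a countable union of Borel sets on each of which `f` is injective (a σ-ideal).
For a finite index set `I` and Borel sets `Z i ⊆ B` (`i ∈ I`) call `Z` THIN if there are Borel small sets `D i` with `⋂ i, f '' (Z i \ D i) = ∅`.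
If `I` has one element, thin means: `Z` is small.  Suppose `B` is not small.
SPLITTING LEMMA.  Fix a countable basis of `B` (open sets of diameter `< ε` suffice).  If `Z` is not thin then there are basic open sets `U i 0, U i 1`,
with disjoint closures and diameters `< ε`, such that `(Z i ∩ U i j)` indexed by `I × {0,1}` is not thin.  Otherwise, for each of the countably many choices
`U` with all `closure (U i 0) ∩ closure (U i 1) = ∅` and small diameters, choose witnesses `D U i j`; let `D` be the union of all of them (Borel, small) and
`Z' i = Z i \ D`.  Then for all such `U` `⋂_(i,j) f '' (Z' i ∩ U i j) = ∅`, that is: there is no `x` such that for every `i` there are two different points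
of `Z' i` over `x` (two different points have basic neighbourhoods with disjoint closures, of small diameter).  Let
`M i = {x | ∃ y ≠ y' ∈ Z' i, f y = x = f y'}` (analytic: the image of the Borel set `{(y,y') ∈ Z' i ×ˢ Z' i | y ≠ y', f y = f y'}`); `⋂ i, M i = ∅`.  Separation for
finitely many analytic sets with empty intersection: there are Borel `N i ⊇ M i` with `⋂ i, N i = ∅` (induction on the number of sets from
`AnalyticSet.measurablySeparable`, finite intersections of analytic sets are analytic: `AnalyticSet.iInter`).  `f` is injective on the Borel set
`E i = Z' i ∩ f ⁻¹' (N i)ᶜ` (a point outside `N i` is outside `M i`).  With `D i = D ∪ E i`: `f '' (Z i \ D i) ⊆ N i`, so `⋂ i, f '' (Z i \ D i) = ∅`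
and `Z` is thin: contradiction.
CANTOR SCHEME.  Iterating (start with `Z = B`, index sets `List Bool` of length `n` or `Fin n → Bool`) we get basic open sets `U s`, `s` a finite 0-1 sequence, with
`Z s = U s ∩ Z (parent)`, diameters `→ 0`, disjoint closures for the two children, and for each `n` the sets `f '' (Z s)`, `|s| = n`, have non-empty
intersection (not thin with `D = ∅`).  One can also require `closure (U (s j)) ⊆ U s`, or simply use `Z s ⊆ U s` with `closure (Z s)` decreasing: for an
infinite sequence `α` the closed sets `closure (Z (α|n))` are nested, non-empty, with diameters `→ 0` in a complete metric: one point `z α`.  Different `α` give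
different points (disjoint closures).  All `f (z α)` are equal: if `f (z α) ≠ f (z β)` take disjoint neighbourhoods of the two values; by continuity
`f (Z (α|n))` and `f (Z (β|n))` lie in them for large `n`, contradicting that the images have a common point.  So one fibre contains uncountably many points
(`ℕ → Bool` injects): contradiction.  Hence `B` is small: `B = ⋃ B n`, `h y = ` least `n` with `y ∈ B n`.
-/

set_option autoImplicit false

open MeasureTheory Set TopologicalSpace

namespace Pool.MPb8ab30

private theorem LN_top {B X : Type} [TopologicalSpace B] [PolishSpace B] [MeasurableSpace B] [BorelSpace B]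
    [TopologicalSpace X] [PolishSpace X] [MeasurableSpace X] [BorelSpace X] (f : B → X) (hf : Continuous f)
    (hc : ∀ x, (f ⁻¹' {x}).Countable) : ∃ h : B → ℕ, Measurable h ∧ Function.Injective fun y => (f y, h y) := by
  letI := upgradeIsCompletelyMetrizable B
  obtain ⟨D, -, hs, hD⟩ := thin_zero f hf hc
  obtain ⟨E, hE, hinj, hcov⟩ := hs []
  have hall : ∀ y, ∃ n, y ∈ E n := by
    intro y
    have hy : y ∈ D [] := by
      by_contra hy
      obtain ⟨l, hl, hx⟩ := hD (f y)
      rw [List.length_eq_zero_iff] at hl
      subst hl
      exact hx ⟨y, ⟨mem_univ y, hy⟩, rfl⟩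
    exact mem_iUnion.1 (hcov hy)
  classical
  refine ⟨fun y => Nat.find (hall y), measurable_find hall fun k => hE k, ?_⟩
  intro y y' h
  simp only [Prod.mk.injEq] at h
  have h1 := Nat.find_spec (hall y)
  have h2 := Nat.find_spec (hall y')
  rw [← h.2] at h2
  exact hinj _ h1 h2 h.1

theorem lusin_novikov {B X : Type} [MeasurableSpace B] [StandardBorelSpace B] [MeasurableSpace X] [StandardBorelSpace X]
    (f : B → X) (hf : Measurable f) (hc : ∀ x, (f ⁻¹' {x}).Countable) :
    ∃ h : B → ℕ, Measurable h ∧ Function.Injective fun y => (f y, h y) := by
  obtain ⟨τX, hbX, hpX⟩ := StandardBorelSpace.polish (α := X)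
  obtain ⟨τB, hbB, hpB⟩ := StandardBorelSpace.polish (α := B)
  obtain ⟨τ', hle, hfc, hτ'⟩ := hf.exists_continuous
  have hb' : @BorelSpace B τ' _ := by
    refine @BorelSpace.mk B τ' _ ?_
    rw [borel_eq_borel_of_le hτ' hpB hle]
    exact hbB.measurable_eq
  exact @LN_top B X τ' hτ' _ hb' τX hpX _ hbX f hfc hc

end Pool.MPb8ab30
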