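import Mathlib

/-!
# Piece LN0: separation of finitely many analytic sets with empty intersection

Used in `LN1` (the splitting lemma for the theorem of Lusin and Novikov).
-/

set_option autoImplicit false

open MeasureTheory Set TopologicalSpace

namespace Pool.MPb8ab30

private lemma LN0_inter {X : Type} [TopologicalSpace X] [PolishSpace X] {A B : Set X}
    (hA : AnalyticSet A) (hB : AnalyticSet B) : AnalyticSet (A ∩ B) := by
  have h : A ∩ B = ⋂ b : Bool, cond b A B := by
    ext x
    simp only [mem_inter_iff, mem_iInter, Bool.forall_bool, cond_true, cond_false]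
    exact and_comm
  rw [h]
  refine AnalyticSet.iInter (fun b => ?_)
  cases b
  · exact hB
  · exact hA

/-- separation of finitely many analytic sets with empty intersection -/
theorem sep {X : Type} [TopologicalSpace X] [PolishSpace X] [MeasurableSpace X] [BorelSpace X] {ι : Type} (s : Finset ι)
    (M : ι → Set X) (hM : ∀ i ∈ s, AnalyticSet (M i)) (he : ∀ x, ∃ i ∈ s, x ∉ M i) :
    ∃ N : ι → Set X, (∀ i, MeasurableSet (N i)) ∧ (∀ i ∈ s, M i ⊆ N i) ∧ ∀ x, ∃ i ∈ s, x ∉ N i := by
  classical
  induction s using Finset.induction_on generalizing M with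
  | empty =>
    refine ⟨fun _ => ∅, fun _ => MeasurableSet.empty, fun i hi => absurd hi (Finset.notMem_empty i),
      fun x => ?_⟩
    obtain ⟨i, hi, _⟩ := he x
    exact absurd hi (Finset.notMem_empty i)
  | insert a s ha ih =>
    rcases s.eq_empty_or_nonempty with hs0 | ⟨i0, hi0⟩
    · -- only one set, which is empty
      subst hs0
      have hMa : M a = ∅ := by
        rw [eq_empty_iff_forall_notMem]
        intro x hx
        obtain ⟨i, hi, hxi⟩ := he x
        rcases Finset.mem_insert.mp hi with h | h
        · exact hxi (h ▸ hx)
        · exact absurd h (Finset.notMem_empty i)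
      refine ⟨fun _ => ∅, fun _ => MeasurableSet.empty, fun i hi => ?_, fun x =>
        ⟨a, Finset.mem_insert_self a _, notMem_empty x⟩⟩
      rcases Finset.mem_insert.mp hi with h | h
      · rw [h, hMa]
      · exact absurd h (Finset.notMem_empty i)
    -- the intersection of the others is analytic
    have hI : ∀ t : Finset ι, (∀ i ∈ t, AnalyticSet (M i)) → AnalyticSet (⋂ i ∈ t, M i) := by
      intro t
      induction t using Finset.induction_on with
      | empty => intro _; simpa using (MeasurableSet.univ (α := X)).analyticSet
      | insert b t hb ih2 =>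
        intro h
        rw [Finset.set_biInter_insert]
        exact LN0_inter (h b (Finset.mem_insert_self b t))
          (ih2 (fun i hi => h i (Finset.mem_insert_of_mem hi)))
    have hMs : ∀ i ∈ s, AnalyticSet (M i) := fun i hi => hM i (Finset.mem_insert_of_mem hi)
    have hd : Disjoint (M a) (⋂ i ∈ s, M i) := by
      rw [Set.disjoint_left]
      intro x hx hx2
      obtain ⟨i, hi, hxi⟩ := he x
      rcases Finset.mem_insert.mp hi with h | h
      · exact hxi (h ▸ hx)
      · exact hxi (mem_iInter₂.mp hx2 i h)
    obtain ⟨u, hu1, hu2, hu3⟩ := (hM a (Finset.mem_insert_self a s)).measurablySeparable (hI s hMs) hd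
    obtain ⟨N', h1, h2, h3⟩ := ih (fun i => M i ∩ u)
      (fun i hi => LN0_inter (hMs i hi) hu3.analyticSet) (fun x => by
        by_contra hc
        push Not at hc
        have hx : x ∈ ⋂ i ∈ s, M i := mem_iInter₂.mpr (fun i hi => (hc i hi).1)
        exact Set.disjoint_left.mp hu2 hx (hc i0 hi0).2)
    refine ⟨fun i => if i = a then u else N' i ∪ uᶜ, fun i => ?_, fun i hi => ?_, fun x => ?_⟩
    · by_cases h : i = a
      · simp only [h, if_true]; exact hu3
      · simp only [h, if_false]; exact (h1 i).union hu3.compl
    · by_cases h : i = a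
      · simp only [h, if_true]; exact hu1
      · simp only [h, if_false]
        have his : i ∈ s := (Finset.mem_insert.mp hi).resolve_left h
        intro x hx
        by_cases hxu : x ∈ u
        · exact Or.inl (h2 i his ⟨hx, hxu⟩)
        · exact Or.inr hxu
    · by_cases hxu : x ∈ u
      · obtain ⟨i, hi, hxi⟩ := h3 x
        refine ⟨i, Finset.mem_insert_of_mem hi, ?_⟩
        have hia : i ≠ a := fun h => ha (h ▸ hi)
        simp only [hia, if_false]
        rintro (h | h)
        · exact hxi h
        · exact h hxu
      · refine ⟨a, Finset.mem_insert_self a s, ?_⟩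
        simp only [if_true]
        exact hxu

end Pool.MPb8ab30
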