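import Mathlib

/-!
# Piece LN1: the splitting lemma for the theorem of Lusin and Novikov

`Sm f D`: `D` is small, i.e. contained in a countable union of Borel sets on each of which `f` is injective.  `Thin f k Z`: for suitable small Borel `D l` the sets `f '' (Z l \ D l)`, `l` a 0-1 list of length `k`,
have empty intersection.

PROOF of `sep`: induction on `s`.  For `insert i s` with `M' = ⋂ j ∈ s, M j` (analytic: `AnalyticSet.iInter` / for `s` empty `M'` is everything): `M i` and `M'` are disjoint: a Borel `N i ⊇ M i` disjoint from `M'` (`AnalyticSet.measurablySeparable`);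
apply the induction hypothesis to the analytic sets `M j ∩ N i`, `j ∈ s`, (empty intersection), get Borel `N' j`, and `N j = N' j ∪ (N i)ᶜ`.  (Then `N i ∩ ⋂ N j ⊆ ⋂ N' j = ∅`.)
PROOF of `split`: fix a countable basis `b` of `B` (`TopologicalSpace.countableBasis`).  Suppose no such `U` exists.  For `U : {l // l.length = k} → Bool → b` (countably many such `U`, since the set of lists of length `k` is finite) which has
disjoint closures and small diameters the family of the `Z l ∩ U l j` is thin: witnesses `D U l j`.  Let `D` be the union of all of them (Borel, small) and `Z' l = Z l \ D`.  So for every such `U` no point `x` lies in all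
`f '' (Z' l ∩ U l j)`.  Let `M l = {x | ∃ y y', y ≠ y' ∧ y ∈ Z' l ∧ y' ∈ Z' l ∧ f y = x ∧ f y' = x}`: analytic (the image of a Borel subset of `B × B` under a measurable map:
`MeasurableSet.analyticSet_image`).  `⋂ l, M l = ∅`: if `x` is in all, take `y l ≠ y' l` and basic neighbourhoods with disjoint closures and diameter `≤ ε` (regular space; points at distance `d > 0`: take basic sets inside balls of radius `min (d/4) (ε/2)`).
`sep` gives Borel `N l ⊇ M l` with empty intersection.  `f` is injective on the Borel set `E l = Z' l ∩ f ⁻¹' (N l)ᶜ`.  With `D' l = D ∪ E l` (Borel, small): `f '' (Z l \ D' l) ⊆ N l`, so `Z` is thin: contradiction.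
-/

set_option autoImplicit false

open MeasureTheory Set TopologicalSpace

namespace Pool.MPb8ab30

/-- small sets -/
def Sm {B X : Type} [MeasurableSpace B] (f : B → X) (D : Set B) : Prop :=
  ∃ E : ℕ → Set B, (∀ n, MeasurableSet (E n)) ∧ (∀ n, InjOn f (E n)) ∧ D ⊆ ⋃ n, E n

/-- thin families, indexed by the 0-1 lists of length `k` -/
def Thin {B X : Type} [MeasurableSpace B] (f : B → X) (k : ℕ) (Z : List Bool → Set B) : Prop :=
  ∃ D : List Bool → Set B, (∀ l, MeasurableSet (D l)) ∧ (∀ l, Sm f (D l)) ∧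
    ∀ x : X, ∃ l : List Bool, l.length = k ∧ x ∉ f '' (Z l \ D l)

private theorem LN1_small_iUnion {B X J : Type} [MeasurableSpace B] [Countable J] {f : B → X} {D : J → Set B}
    (h : ∀ j, Sm f (D j)) : Sm f (⋃ j, D j) := by
  choose E h1 h2 h3 using h
  rcases isEmpty_or_nonempty J with hJ | hJ
  · exact ⟨fun _ => ∅, fun _ => MeasurableSet.empty, fun _ => Set.injOn_empty f, by simp⟩
  · obtain ⟨g, hg⟩ := exists_surjective_nat (J × ℕ)
    refine ⟨fun n => E (g n).1 (g n).2, fun n => h1 _ _, fun n => h2 _ _, ?_⟩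
    intro y hy
    obtain ⟨j, hj⟩ := Set.mem_iUnion.1 hy
    obtain ⟨n, hn⟩ := Set.mem_iUnion.1 (h3 j hj)
    obtain ⟨k, hk⟩ := hg (j, n)
    refine Set.mem_iUnion.2 ⟨k, ?_⟩
    rw [hk]
    exact hn

private theorem LN1_inter {α : Type} [TopologicalSpace α] [T2Space α] {s t : Set α} (hs : AnalyticSet s)
    (ht : AnalyticSet t) : AnalyticSet (s ∩ t) := by
  have h := AnalyticSet.iInter (s := fun b : Bool => cond b s t) (fun b => by cases b <;> assumption)
  rwa [Set.inter_eq_iInter]

private theorem LN1_sep {X I : Type} [TopologicalSpace X] [PolishSpace X] [MeasurableSpace X] [BorelSpace X]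
    (A : I → Set X) (s : Finset I) :
    (∀ i ∈ s, AnalyticSet (A i)) → ∀ C : Set X, AnalyticSet C → (∀ x ∈ C, ∃ i ∈ s, x ∉ A i) →
      ∃ (N' : Set X) (N : I → Set X), MeasurableSet N' ∧ (∀ i, MeasurableSet (N i)) ∧ C ⊆ N' ∧
        (∀ i ∈ s, A i ⊆ N i) ∧ ∀ x ∈ N', ∃ i ∈ s, x ∉ N i := by
  classical
  induction s using Finset.induction_on with
  | empty =>
    intro _ C _ h
    refine ⟨∅, fun _ => ∅, MeasurableSet.empty, fun _ => MeasurableSet.empty, ?_, by simp, by simp⟩
    intro x hx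
    obtain ⟨i, hi, _⟩ := h x hx
    exact absurd hi (Finset.notMem_empty i)
  | insert a s ha ih =>
    intro hA C hC h
    have hAa : AnalyticSet (A a) := hA a (Finset.mem_insert_self a s)
    obtain ⟨N', N, hN', hN, hCN, hAN, hE⟩ := ih (fun i hi => hA i (Finset.mem_insert_of_mem hi))
      (C ∩ A a) (LN1_inter hC hAa) (by
        rintro x ⟨hx1, hx2⟩
        obtain ⟨i, hi, hxi⟩ := h x hx1
        rcases Finset.mem_insert.1 hi with rfl | hi
        · exact absurd hx2 hxi
        · exact ⟨i, hi, hxi⟩)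
    have hc : AnalyticSet (C ∩ N'ᶜ) := LN1_inter hC hN'.compl.analyticSet
    have ha' : AnalyticSet (A a ∩ N'ᶜ) := LN1_inter hAa hN'.compl.analyticSet
    have hd : Disjoint (C ∩ N'ᶜ) (A a ∩ N'ᶜ) := by
      rw [Set.disjoint_left]
      intro x hx hx'
      exact hx.2 (hCN ⟨hx.1, hx'.1⟩)
    obtain ⟨U, hU1, hU2, hU3⟩ := hc.measurablySeparable ha' hd
    refine ⟨U ∪ N', Function.update N a (Uᶜ ∪ N'), hU3.union hN', ?_, ?_, ?_, ?_⟩
    · intro i
      rcases eq_or_ne i a with rfl | hi
      · rw [Function.update_self]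
        exact hU3.compl.union hN'
      · rw [Function.update_of_ne hi]
        exact hN i
    · intro x hx
      by_cases hxN : x ∈ N'
      · exact Or.inr hxN
      · exact Or.inl (hU1 ⟨hx, hxN⟩)
    · intro i hi
      rcases eq_or_ne i a with rfl | hia
      · rw [Function.update_self]
        intro x hx
        by_cases hxN : x ∈ N'
        · exact Or.inr hxN
        · exact Or.inl fun hxU => (Set.disjoint_left.1 hU2) ⟨hx, hxN⟩ hxU
      · rw [Function.update_of_ne hia]
        exact hAN i ((Finset.mem_insert.1 hi).resolve_left hia)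
    · intro x hx
      by_cases hxN : x ∈ N'
      · obtain ⟨i, hi, hxi⟩ := hE x hxN
        refine ⟨i, Finset.mem_insert_of_mem hi, ?_⟩
        have hia : i ≠ a := fun h => ha (h ▸ hi)
        rwa [Function.update_of_ne hia]
      · refine ⟨a, Finset.mem_insert_self a s, ?_⟩
        rw [Function.update_self]
        rintro (h1 | h1)
        · exact h1 (hx.resolve_right hxN)
        · exact hxN h1

/-- separation of finitely many analytic sets with empty intersection -/
theorem sep {X : Type} [TopologicalSpace X] [PolishSpace X] [MeasurableSpace X] [BorelSpace X] {ι : Type} (s : Finset ι)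
    (M : ι → Set X) (hM : ∀ i ∈ s, AnalyticSet (M i)) (he : ∀ x, ∃ i ∈ s, x ∉ M i) :
    ∃ N : ι → Set X, (∀ i, MeasurableSet (N i)) ∧ (∀ i ∈ s, M i ⊆ N i) ∧ ∀ x, ∃ i ∈ s, x ∉ N i := by
  obtain ⟨N', N, _, hN, hu, hAN, hE⟩ := LN1_sep M s hM Set.univ MeasurableSet.univ.analyticSet
    (fun x _ => he x)
  exact ⟨N, hN, hAN, fun x => hE x (hu (Set.mem_univ x))⟩

private theorem LN1_basic {B : Type} [MetricSpace B] [SecondCountableTopology B] (ε : ENNReal) (hε : 0 < ε)
    {y y' : B} (h : y ≠ y') : ∃ u ∈ countableBasis B, ∃ v ∈ countableBasis B, y ∈ u ∧ y' ∈ v ∧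
      Disjoint (closure u) (closure v) ∧ Metric.ediam u ≤ ε ∧ Metric.ediam v ≤ ε := by
  obtain ⟨δ, hδ0, hδ⟩ := ENNReal.lt_iff_exists_nnreal_btwn.1 hε
  have hδ1 : (0 : ℝ) < δ := by
    have : (0 : NNReal) < δ := by exact_mod_cast hδ0
    exact this
  have hd : 0 < dist y y' := dist_pos.2 h
  set r : ℝ := min (δ / 2) (dist y y' / 3) with hr
  have hr0 : 0 < r := lt_min (by linarith) (by linarith)
  have hr1 : r ≤ δ / 2 := min_le_left _ _
  have hr2 : r ≤ dist y y' / 3 := min_le_right _ _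
  obtain ⟨u, hu, hyu, hub⟩ := (isBasis_countableBasis B).exists_subset_of_mem_open
    (Metric.mem_ball_self hr0) (Metric.isOpen_ball (x := y) (ε := r))
  obtain ⟨v, hv, hyv, hvb⟩ := (isBasis_countableBasis B).exists_subset_of_mem_open
    (Metric.mem_ball_self hr0) (Metric.isOpen_ball (x := y') (ε := r))
  have key : ∀ (z : B) (w : Set B), w ⊆ Metric.ball z r → Metric.ediam w ≤ ε := by
    intro z w hw
    refine le_trans ?_ hδ.le
    refine Metric.ediam_le fun a ha b hb => ?_
    have h1 : dist a z < r := hw ha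
    have h2 : dist b z < r := hw hb
    rw [edist_dist]
    have h3 : dist a b ≤ δ := by
      have := dist_triangle_right a b z
      linarith
    calc ENNReal.ofReal (dist a b) ≤ ENNReal.ofReal δ := ENNReal.ofReal_le_ofReal h3
      _ = δ := ENNReal.ofReal_coe_nnreal
  refine ⟨u, hu, v, hv, hyu, hyv, ?_, key y u hub, key y' v hvb⟩
  have h1 : closure u ⊆ Metric.closedBall y r :=
    closure_minimal (hub.trans Metric.ball_subset_closedBall) Metric.isClosed_closedBall
  have h2 : closure v ⊆ Metric.closedBall y' r :=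
    closure_minimal (hvb.trans Metric.ball_subset_closedBall) Metric.isClosed_closedBall
  exact (Metric.closedBall_disjoint_closedBall (by linarith)).mono h1 h2

theorem split {B X : Type} [MetricSpace B] [PolishSpace B] [MeasurableSpace B] [BorelSpace B] [TopologicalSpace X] [PolishSpace X]
    [MeasurableSpace X] [BorelSpace X] (f : B → X) (hf : Continuous f) (k : ℕ) (Z : List Bool → Set B)
    (hZ : ∀ l, MeasurableSet (Z l)) (h : ¬ Thin f k Z) (ε : ENNReal) (hε : 0 < ε) :
    ∃ U : List Bool → Bool → Set B, (∀ l j, IsOpen (U l j)) ∧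
      (∀ l, Disjoint (closure (U l false)) (closure (U l true))) ∧ (∀ l j, Metric.ediam (U l j) ≤ ε) ∧
        ∀ Z' : List Bool → Set B, (∀ l j, Z' (j :: l) = Z l ∩ U l j) → ¬ Thin f (k + 1) Z' := by
  classical
  by_contra hcon
  have hfm : Measurable f := hf.measurable
  -- the countable set of the choices
  let P : Type := {p : countableBasis B × countableBasis B //
    Disjoint (closure p.1.1) (closure p.2.1) ∧ Metric.ediam p.1.1 ≤ ε ∧ Metric.ediam p.2.1 ≤ ε}
  have hPc : Countable P := inferInstanceAs (Countable {p : countableBasis B × countableBasis B //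
    Disjoint (closure p.1.1) (closure p.2.1) ∧ Metric.ediam p.1.1 ≤ ε ∧ Metric.ediam p.2.1 ≤ ε})
  let J : Type := {l : List Bool // l.length = k}
  have hJf : Finite J := (List.finite_length_eq Bool k).to_subtype
  let U : (J → P) → List Bool → Bool → Set B := fun w l j =>
    if hl : l.length = k then (cond j (w ⟨l, hl⟩).1.2.1 (w ⟨l, hl⟩).1.1.1) else ∅
  have hU1 : ∀ w l j, IsOpen (U w l j) := by
    intro w l j
    by_cases hl : l.length = k
    · have e : U w l j = cond j (w ⟨l, hl⟩).1.2.1 (w ⟨l, hl⟩).1.1.1 := dif_pos hl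
      rw [e]
      cases j with
      | false => exact (isBasis_countableBasis B).isOpen (w ⟨l, hl⟩).1.1.2
      | true => exact (isBasis_countableBasis B).isOpen (w ⟨l, hl⟩).1.2.2
    · have e : U w l j = ∅ := dif_neg hl
      rw [e]
      exact isOpen_empty
  have hU2 : ∀ w l, Disjoint (closure (U w l false)) (closure (U w l true)) := by
    intro w l
    by_cases hl : l.length = k
    · have e : ∀ j, U w l j = cond j (w ⟨l, hl⟩).1.2.1 (w ⟨l, hl⟩).1.1.1 := fun j => dif_pos hl
      rw [e, e]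
      exact (w ⟨l, hl⟩).2.1
    · have e : ∀ j, U w l j = ∅ := fun j => dif_neg hl
      rw [e, e, closure_empty]
      exact Set.disjoint_empty _
  have hU3 : ∀ w l j, Metric.ediam (U w l j) ≤ ε := by
    intro w l j
    by_cases hl : l.length = k
    · have e : U w l j = cond j (w ⟨l, hl⟩).1.2.1 (w ⟨l, hl⟩).1.1.1 := dif_pos hl
      rw [e]
      cases j with
      | false => exact (w ⟨l, hl⟩).2.2.1
      | true => exact (w ⟨l, hl⟩).2.2.2
    · have e : U w l j = ∅ := dif_neg hl
      rw [e, Metric.ediam_empty]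
      exact zero_le
  have h1 : ∀ w : J → P, ∃ D : List Bool → Set B, (∀ l, MeasurableSet (D l)) ∧ (∀ l, Sm f (D l)) ∧
      ∀ x : X, ∃ (l : List Bool) (j : Bool), l.length = k ∧ x ∉ f '' ((Z l ∩ U w l j) \ D (j :: l)) := by
    intro w
    by_contra hw
    refine hcon ⟨U w, hU1 w, hU2 w, hU3 w, fun Z' hZ' hT => hw ?_⟩
    obtain ⟨D, hD1, hD2, hD3⟩ := hT
    refine ⟨D, hD1, hD2, fun x => ?_⟩
    obtain ⟨l, hl, hx⟩ := hD3 x
    cases l with
    | nil => exact absurd hl (by simp)
    | cons j l =>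
      refine ⟨l, j, by simpa using hl, ?_⟩
      rw [← hZ']
      exact hx
  choose D hD1 hD2 hD3 using h1
  set Ds : Set B := ⋃ w : J → P, ⋃ l : List Bool, D w l with hDs
  have hDm : MeasurableSet Ds := MeasurableSet.iUnion fun w => MeasurableSet.iUnion fun l => hD1 w l
  have hDsm : Sm f Ds := LN1_small_iUnion fun w => LN1_small_iUnion fun l => hD2 w l
  set M : List Bool → Set X := fun l => (fun p : B × B => f p.1) ''
    {p : B × B | p.1 ∈ Z l \ Ds ∧ p.2 ∈ Z l \ Ds ∧ p.1 ≠ p.2 ∧ f p.1 = f p.2} with hM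
  have hMa : ∀ l, AnalyticSet (M l) := by
    intro l
    refine MeasurableSet.analyticSet_image ?_ (hfm.comp measurable_fst)
    have h1 : MeasurableSet {p : B × B | p.1 ∈ Z l \ Ds} := ((hZ l).diff hDm).preimage measurable_fst
    have h2 : MeasurableSet {p : B × B | p.2 ∈ Z l \ Ds} := ((hZ l).diff hDm).preimage measurable_snd
    have h3 : MeasurableSet {p : B × B | p.1 ≠ p.2} :=
      (measurableSet_eq_fun measurable_fst measurable_snd).compl
    have h4 : MeasurableSet {p : B × B | f p.1 = f p.2} :=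
      measurableSet_eq_fun (hfm.comp measurable_fst) (hfm.comp measurable_snd)
    exact h1.inter (h2.inter (h3.inter h4))
  set s : Finset (List Bool) := (List.finite_length_eq Bool k).toFinset with hs
  have hsm : ∀ l, l ∈ s ↔ l.length = k := fun l => (List.finite_length_eq Bool k).mem_toFinset
  have hMe : ∀ x, ∃ l ∈ s, x ∉ M l := by
    intro x
    by_contra hx
    have hx' : ∀ l : J, x ∈ M l.1 := by
      intro l
      by_contra hl
      exact hx ⟨l.1, (hsm l.1).2 l.2, hl⟩
    choose p hp hpx using hx'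
    have h2 : ∀ l : J, ∃ q : P, (p l).1 ∈ q.1.1.1 ∧ (p l).2 ∈ q.1.2.1 := by
      intro l
      obtain ⟨u, hu, v, hv, hyu, hyv, hdis, hdu, hdv⟩ := LN1_basic ε hε (hp l).2.2.1
      exact ⟨⟨(⟨u, hu⟩, ⟨v, hv⟩), hdis, hdu, hdv⟩, hyu, hyv⟩
    choose w hw using h2
    obtain ⟨l, j, hl, hxl⟩ := hD3 w x
    have h3 : ∀ y, y ∈ Z l \ Ds → y ∉ D w (j :: l) := fun y hy hy' =>
      hy.2 (Set.mem_iUnion.2 ⟨w, Set.mem_iUnion.2 ⟨j :: l, hy'⟩⟩)
    have e : U w l j = cond j (w ⟨l, hl⟩).1.2.1 (w ⟨l, hl⟩).1.1.1 := dif_pos hl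
    apply hxl
    rw [e]
    cases j with
    | false =>
      exact ⟨(p ⟨l, hl⟩).1, ⟨⟨(hp ⟨l, hl⟩).1.1, (hw ⟨l, hl⟩).1⟩, h3 _ (hp ⟨l, hl⟩).1⟩, hpx ⟨l, hl⟩⟩
    | true =>
      exact ⟨(p ⟨l, hl⟩).2, ⟨⟨(hp ⟨l, hl⟩).2.1.1, (hw ⟨l, hl⟩).2⟩, h3 _ (hp ⟨l, hl⟩).2.1⟩,
        (hp ⟨l, hl⟩).2.2.2.symm.trans (hpx ⟨l, hl⟩)⟩
  obtain ⟨N, hN1, hN2, hN3⟩ := sep s M (fun l _ => hMa l) hMe
  refine h ⟨fun l => if l.length = k then Ds ∪ ((Z l \ Ds) ∩ f ⁻¹' (N l)ᶜ) else ∅, fun l => ?_, fun l => ?_,
    fun x => ?_⟩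
  · by_cases hl : l.length = k
    · simp only [if_pos hl]
      exact hDm.union (((hZ l).diff hDm).inter (hfm (hN1 l).compl))
    · simp only [if_neg hl]
      exact MeasurableSet.empty
  · by_cases hl : l.length = k
    · simp only [if_pos hl]
      have h1 : Sm f ((Z l \ Ds) ∩ f ⁻¹' (N l)ᶜ) := by
        refine ⟨fun _ => (Z l \ Ds) ∩ f ⁻¹' (N l)ᶜ, fun _ => ((hZ l).diff hDm).inter (hfm (hN1 l).compl),
          fun _ => ?_, fun y hy => Set.mem_iUnion.2 ⟨0, hy⟩⟩
        intro y hy y' hy' hyy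
        by_contra hne
        exact hy.2 (hN2 l ((hsm l).2 hl) ⟨(y, y'), ⟨hy.1, hy'.1, hne, hyy⟩, rfl⟩)
      have h2 := LN1_small_iUnion (f := f) (D := fun b : Bool => cond b Ds ((Z l \ Ds) ∩ f ⁻¹' (N l)ᶜ))
        (fun b => by cases b <;> assumption)
      rwa [← Set.union_eq_iUnion] at h2
    · simp only [if_neg hl]
      exact ⟨fun _ => ∅, fun _ => MeasurableSet.empty, fun _ => Set.injOn_empty f, Set.empty_subset _⟩
  · obtain ⟨l, hl, hx⟩ := hN3 x
    refine ⟨l, (hsm l).1 hl, ?_⟩
    simp only [if_pos ((hsm l).1 hl)]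
    rintro ⟨y, ⟨hy1, hy2⟩, rfl⟩
    have h1 : y ∉ Ds := fun h => hy2 (Or.inl h)
    exact hy2 (Or.inr ⟨⟨hy1, h1⟩, hx⟩)

end Pool.MPb8ab30
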