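import Pool.Agent.Lib_MP_b8ab30.Mtp
import Pool.Agent.Lib_MP_b8ab30.Dis

/-!
# Piece LAM: the measure `lam` on `U × U'`

`lam = ∫_X ∑_(x' E x) K x × K' x' dμ(x)`.

PROOFS.  `lintegral_lam`: `Measure.lintegral_sum_measure`, `Measure.lintegral_bind`, `Kernel.prod_apply`/`lintegral_prod`.
`lam_supp`: for `μ`-a.e. `x`: `K x {u | Φ u ≠ x} = 0` (`Dis.supp`) and, for all `k`, `K' (θ k x) {u' | Φ' u' ≠ θ k x} = 0` (`θ k` preserves `μ`); then `E (Φ u) (Φ' u')`
for `K x × K' (θ k x)`-almost all `(u,u')`.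
`lam_diag`: apply `lintegral_lam` to `F` times the indicator of `{p | Φ p.1 = Φ' p.2}`.  For a.e. `x` the `k`-th inner integral vanishes unless `θ k x = x`, and then equals
`∫⁻∫⁻ F dK' x dK x` (for a.e. `x` the condition `Φ u = Φ' u'` holds almost everywhere in it); exactly one `k` with `x ∈ first θ k` has `θ k x = x` (`diag_sum`).
-/

set_option autoImplicit false

open MeasureTheory ProbabilityTheory

namespace Pool.MPb8ab30

/-- the measure `∫_X ∑_(x' E x) K x × K' x' dμ(x)` -/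
noncomputable def lam {X U U' : Type} [MeasurableSpace X] [MeasurableSpace U] [MeasurableSpace U'] (θ : ℕ → X ≃ᵐ X)
    (μ : Measure X) (K : Kernel X U) (K' : Kernel X U') : Measure (U × U') :=
  Measure.sum fun k => (μ.restrict (first θ k)).bind (K ×ₖ (K'.comap (θ k) (θ k).measurable))

theorem lintegral_lam {X U U' : Type} [MeasurableSpace X] [MeasurableSpace U] [MeasurableSpace U'] (θ : ℕ → X ≃ᵐ X)
    (μ : Measure X) (K : Kernel X U) (K' : Kernel X U') [IsSFiniteKernel K] [IsSFiniteKernel K'] (G : U × U' → ENNReal)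
    (hG : Measurable G) :
    ∫⁻ p, G p ∂(lam θ μ K K') = ∑' k, ∫⁻ x in first θ k, ∫⁻ u, ∫⁻ u', G (u, u') ∂(K' (θ k x)) ∂(K x) ∂μ := by
  unfold lam
  rw [lintegral_sum_measure]
  refine tsum_congr fun k => ?_
  rw [Measure.lintegral_bind (Kernel.aemeasurable _) hG.aemeasurable]
  refine lintegral_congr fun x => ?_
  rw [Kernel.lintegral_prod _ _ _ hG]
  rfl

private theorem Lam_ae {X U' : Type} [MeasurableSpace X] [StandardBorelSpace X] [MeasurableSpace U']
    {μ : Measure X} {θ : X ≃ᵐ X} (hm : MeasurePreserving θ μ μ)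
    {m' : Measure U'} {Φ' : U' → X} (hΦ' : Measurable Φ') {K' : Kernel X U'} (hK' : Dis m' μ Φ' K') :
    ∀ᵐ x ∂μ, ∀ᵐ u' ∂(K' (θ x)), Φ' u' = θ x := by
  have h1 := hK'.supp hΦ'
  have h2 := hm.quasiMeasurePreserving.ae h1
  filter_upwards [h2] with x hx
  exact hx

private theorem Lam_ae0 {X U : Type} [MeasurableSpace X] [StandardBorelSpace X] [MeasurableSpace U]
    {μ : Measure X} {m : Measure U} {Φ : U → X} (hΦ : Measurable Φ) {K : Kernel X U} (hK : Dis m μ Φ K) :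
    ∀ᵐ x ∂μ, ∀ᵐ u ∂(K x), Φ u = x := by
  filter_upwards [hK.supp hΦ] with x hx
  exact hx

theorem lam_supp {X U U' : Type} [MeasurableSpace X] [StandardBorelSpace X] [MeasurableSpace U] [MeasurableSpace U']
    {E : X → X → Prop} (hE : MeasurableSet {p : X × X | E p.1 p.2}) (θ : ℕ → X ≃ᵐ X) (hθ : Gen E θ)
    (μ : Measure X) (hm : ∀ k, MeasurePreserving (θ k) μ μ)
    {m : Measure U} {m' : Measure U'} {Φ : U → X} {Φ' : U' → X} (hΦ : Measurable Φ) (hΦ' : Measurable Φ')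
    {K : Kernel X U} {K' : Kernel X U'} (hK : Dis m μ Φ K) (hK' : Dis m' μ Φ' K') :
    lam θ μ K K' {p | ¬ E (Φ p.1) (Φ' p.2)} = 0 := by
  have := hK.sfin
  have := hK'.sfin
  have hS : MeasurableSet {p : U × U' | ¬ E (Φ p.1) (Φ' p.2)} :=
    ((hΦ.comp measurable_fst).prodMk (hΦ'.comp measurable_snd) hE).compl
  rw [← lintegral_indicator_one hS, lintegral_lam θ μ K K' _ (measurable_one.indicator hS)]
  rw [ENNReal.tsum_eq_zero]
  intro k
  have h0 : ∀ᵐ x ∂μ, ∫⁻ u, ∫⁻ u', {p : U × U' | ¬ E (Φ p.1) (Φ' p.2)}.indicator 1 (u, u') ∂(K' (θ k x)) ∂(K x) =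
      (0 : ENNReal) := by
    filter_upwards [Lam_ae0 hΦ hK, Lam_ae (hm k) hΦ' hK'] with x hx hx'
    refine lintegral_eq_zero_of_ae_eq_zero ?_
    filter_upwards [hx] with u hu
    refine lintegral_eq_zero_of_ae_eq_zero ?_
    filter_upwards [hx'] with u' hu'
    rw [Set.indicator_of_notMem]
    · rfl
    · intro hne
      apply hne
      show E (Φ u) (Φ' u')
      rw [hu, hu']
      exact hθ.sub k x
  rw [lintegral_congr_ae (ae_restrict_of_ae h0), lintegral_zero]

theorem lam_diag {X U U' : Type} [MeasurableSpace X] [StandardBorelSpace X] [MeasurableSpace U] [MeasurableSpace U']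
    {E : X → X → Prop} (θ : ℕ → X ≃ᵐ X) (hθ : Gen E θ)
    (μ : Measure X) (hm : ∀ k, MeasurePreserving (θ k) μ μ)
    {m : Measure U} {m' : Measure U'} {Φ : U → X} {Φ' : U' → X} (hΦ : Measurable Φ) (hΦ' : Measurable Φ')
    {K : Kernel X U} {K' : Kernel X U'} (hK : Dis m μ Φ K) (hK' : Dis m' μ Φ' K') (G : U × U' → ENNReal) (hG : Measurable G) :
    ∫⁻ p in {p | Φ p.1 = Φ' p.2}, G p ∂(lam θ μ K K') = ∫⁻ x, ∫⁻ u, ∫⁻ u', G (u, u') ∂(K' x) ∂(K x) ∂μ := by
  have := hK.sfin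
  have := hK'.sfin
  have hS : MeasurableSet {p : U × U' | Φ p.1 = Φ' p.2} :=
    measurableSet_eq_fun (hΦ.comp measurable_fst) (hΦ'.comp measurable_snd)
  rw [← lintegral_indicator hS, lintegral_lam θ μ K K' _ (hG.indicator hS)]
  have hfix : ∀ k, MeasurableSet {x : X | θ k x = x} := fun k =>
    measurableSet_eq_fun (θ k).measurable measurable_id
  have hk : ∀ k, ∫⁻ x in first θ k, ∫⁻ u, ∫⁻ u', {p : U × U' | Φ p.1 = Φ' p.2}.indicator G (u, u') ∂(K' (θ k x)) ∂(K x) ∂μ =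
      ∫⁻ x in {x | θ k x = x} ∩ first θ k, ∫⁻ u, ∫⁻ u', G (u, u') ∂(K' x) ∂(K x) ∂μ := by
    intro k
    rw [← setLIntegral_indicator (hfix k)]
    refine lintegral_congr_ae (ae_restrict_of_ae ?_)
    filter_upwards [Lam_ae0 hΦ hK, Lam_ae (hm k) hΦ' hK'] with x hx hx'
    by_cases hxk : θ k x = x
    · rw [Set.indicator_of_mem (show x ∈ {x | θ k x = x} from hxk), hxk]
      rw [hxk] at hx'
      refine lintegral_congr_ae ?_
      filter_upwards [hx] with u hu
      refine lintegral_congr_ae ?_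
      filter_upwards [hx'] with u' hu'
      exact Set.indicator_of_mem (show (u, u') ∈ {p : U × U' | Φ p.1 = Φ' p.2} from hu.trans hu'.symm) G
    · rw [Set.indicator_of_notMem (show x ∉ {x | θ k x = x} from hxk)]
      refine lintegral_eq_zero_of_ae_eq_zero ?_
      filter_upwards [hx] with u hu
      refine lintegral_eq_zero_of_ae_eq_zero ?_
      filter_upwards [hx'] with u' hu'
      refine Set.indicator_of_notMem (show (u, u') ∉ {p : U × U' | Φ p.1 = Φ' p.2} from fun h => hxk ?_) G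
      have h2 : Φ u = Φ' u' := h
      rw [hu, hu'] at h2
      exact h2.symm
  rw [tsum_congr hk, ← lintegral_iUnion (fun k => (hfix k).inter (measurableSet_first θ k))]
  · have hU : (⋃ k, {x | θ k x = x} ∩ first θ k) = Set.univ := by
      refine Set.eq_univ_of_forall fun x => ?_
      obtain ⟨k, ⟨h1, h2⟩, -⟩ := diag_sum θ hθ x
      exact Set.mem_iUnion.2 ⟨k, h2, h1⟩
    rw [hU, Measure.restrict_univ]
  · intro k l hkl
    refine Set.disjoint_left.2 ?_
    rintro x ⟨h1, h2⟩ ⟨h3, h4⟩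
    obtain ⟨j, -, hj⟩ := diag_sum θ hθ x
    exact hkl ((hj k ⟨h2, h1⟩).trans (hj l ⟨h4, h3⟩).symm)

end Pool.MPb8ab30
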