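import Pool.Agent.Lib_MP_b8ab30.Lam

/-!
# Piece LAMI: invariance of `lam`

PROOF of `lam_left`.  For measurable `G : U × U' → ENNReal` let `H (v, x) = ∑' k, (first θ k).indicator (fun z => ∫⁻ u', G (v,u') d(K' (θ k z))) x`, measurable in
`(v,x)`.  `lintegral_lam` and `Dis.int` give `∫⁻ G dlam = ∫⁻ x, ∫⁻ u, H (u,x) d(K x) dμ = ∫⁻ u, H (u, Φ u) dm`, and in the same way
`∫⁻ G (g u, u') dlam = ∫⁻ u, H (g u, Φ u) dm`.  By `class_sum` (for the function `z ↦ ∫⁻ u', G (v,u') d(K' z)`) `H (v, x) = H (v, x')` if `E x x'`, so for a.e. `u`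
`H (g u, Φ u) = H (g u, Φ (g u))`, and `∫⁻ u, H (g u, Φ (g u)) dm = ∫⁻ u, H (u, Φ u) dm` because `g` preserves `m`.  So the two integrals agree for all `G`.
PROOF of `lam_right`.  By `mtp` applied to `Jf (x,x') = ∫⁻ u, ∫⁻ u', G (u,u') d(K' x') d(K x)` (measurable: s-finite kernels) `lam θ μ K K'` is the image of
`lam θ μ K' K` under `Prod.swap` (the order of integration of the two s-finite measures is exchanged by `lintegral_lintegral_swap`): `lam_swap`.  Then use `lam_left`.
-/

set_option autoImplicit false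

open MeasureTheory ProbabilityTheory

namespace Pool.MPb8ab30

/-- the inner function, jointly measurable -/
private theorem LamI_meas {X U U' : Type} [MeasurableSpace X] [StandardBorelSpace X] [MeasurableSpace U] [MeasurableSpace U']
    (θ : ℕ → X ≃ᵐ X) (K' : Kernel X U') [IsSFiniteKernel K'] (G : U × U' → ENNReal) (hG : Measurable G) (k : ℕ) :
    Measurable fun p : U × X => (first θ k).indicator (fun z => ∫⁻ u', G (p.1, u') ∂(K' (θ k z))) p.2 := by
  have h1 : Measurable fun p : U × X => ∫⁻ u', G (p.1, u') ∂(K' (θ k p.2)) := by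
    have h2 := Measurable.lintegral_kernel_prod_right
      (κ := K'.comap (fun p : U × X => θ k p.2) ((θ k).measurable.comp measurable_snd))
      (f := fun (p : U × X) (u' : U') => G (p.1, u')) (by
        exact hG.comp ((measurable_fst.comp measurable_fst).prodMk measurable_snd))
    exact h2
  have h3 : (fun p : U × X => (first θ k).indicator (fun z => ∫⁻ u', G (p.1, u') ∂(K' (θ k z))) p.2) =
      (Prod.snd ⁻¹' (first θ k)).indicator fun p : U × X => ∫⁻ u', G (p.1, u') ∂(K' (θ k p.2)) := by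
    funext p
    by_cases hp : p.2 ∈ first θ k
    · rw [Set.indicator_of_mem hp, Set.indicator_of_mem (show p ∈ Prod.snd ⁻¹' (first θ k) from hp)]
    · rw [Set.indicator_of_notMem hp, Set.indicator_of_notMem (show p ∉ Prod.snd ⁻¹' (first θ k) from hp)]
  rw [h3]
  exact h1.indicator (measurable_snd (measurableSet_first θ k))

private theorem LamI_measH {X U U' : Type} [MeasurableSpace X] [StandardBorelSpace X] [MeasurableSpace U] [MeasurableSpace U']
    (θ : ℕ → X ≃ᵐ X) (K' : Kernel X U') [IsSFiniteKernel K'] (G : U × U' → ENNReal) (hG : Measurable G) :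
    Measurable fun p : U × X => ∑' k, (first θ k).indicator (fun z => ∫⁻ u', G (p.1, u') ∂(K' (θ k z))) p.2 :=
  Measurable.tsum fun k => LamI_meas θ K' G hG k

private theorem LamI_int {X U U' : Type} [MeasurableSpace X] [StandardBorelSpace X] [MeasurableSpace U] [MeasurableSpace U']
    (θ : ℕ → X ≃ᵐ X) (μ : Measure X) {m : Measure U} {Φ : U → X}
    {K : Kernel X U} {K' : Kernel X U'} (hK : Dis m μ Φ K) [IsSFiniteKernel K'] (G : U × U' → ENNReal) (hG : Measurable G) :
    ∫⁻ p, G p ∂(lam θ μ K K') =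
      ∫⁻ u, ∑' k, (first θ k).indicator (fun z => ∫⁻ u', G (u, u') ∂(K' (θ k z))) (Φ u) ∂m := by
  have hs := hK.sfin
  rw [hK.int (fun p : U × X => ∑' k, (first θ k).indicator (fun z => ∫⁻ u', G (p.1, u') ∂(K' (θ k z))) p.2)
    (LamI_measH θ K' G hG), lintegral_lam θ μ K K' G hG]
  have h1 : ∀ x, ∫⁻ u, ∑' k, (first θ k).indicator (fun z => ∫⁻ u', G (u, u') ∂(K' (θ k z))) x ∂(K x) =
      ∑' k, (first θ k).indicator (fun z => ∫⁻ u, ∫⁻ u', G (u, u') ∂(K' (θ k z)) ∂(K z)) x := by
    intro x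
    have hmeas : ∀ k, Measurable fun u : U => (first θ k).indicator (fun z => ∫⁻ u', G (u, u') ∂(K' (θ k z))) x :=
      fun k => (LamI_meas θ K' G hG k).comp (measurable_id.prodMk measurable_const)
    rw [lintegral_tsum fun k => (hmeas k).aemeasurable]
    refine tsum_congr fun k => ?_
    by_cases hx : x ∈ first θ k
    · simp only [Set.indicator_of_mem hx]
    · simp only [Set.indicator_of_notMem hx, lintegral_zero]
  have h2 : ∫⁻ x, ∫⁻ u, ∑' k, (first θ k).indicator (fun z => ∫⁻ u', G (u, u') ∂(K' (θ k z))) x ∂(K x) ∂μ =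
      ∫⁻ x, ∑' k, (first θ k).indicator (fun z => ∫⁻ u, ∫⁻ u', G (u, u') ∂(K' (θ k z)) ∂(K z)) x ∂μ := by
    refine lintegral_congr fun x => h1 x
  rw [show (fun x => ∫⁻ u, (fun p : U × X => ∑' k, (first θ k).indicator (fun z => ∫⁻ u', G (p.1, u') ∂(K' (θ k z))) p.2)
      (u, x) ∂(K x)) = fun x => ∫⁻ u, ∑' k, (first θ k).indicator (fun z => ∫⁻ u', G (u, u') ∂(K' (θ k z))) x ∂(K x) from rfl,
    h2, lintegral_tsum]
  · refine tsum_congr fun k => ?_
    rw [lintegral_indicator (measurableSet_first θ k)]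
  · intro k
    refine Measurable.aemeasurable ?_
    refine Measurable.indicator ?_ (measurableSet_first θ k)
    have h3 := Measurable.lintegral_kernel_prod_right
      (κ := K'.comap (fun p : U × X => θ k p.2) ((θ k).measurable.comp measurable_snd))
      (f := fun (p : U × X) (u' : U') => G (p.1, u')) (by
        exact hG.comp ((measurable_fst.comp measurable_fst).prodMk measurable_snd))
    have h4 := Measurable.lintegral_kernel_prod_right (κ := K)
      (f := fun (x : X) (u : U) => ∫⁻ u', G (u, u') ∂(K' (θ k x))) (by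
        exact h3.comp (measurable_snd.prodMk measurable_fst))
    exact h4

theorem lam_left {X U U' : Type} [MeasurableSpace X] [StandardBorelSpace X] [MeasurableSpace U] [MeasurableSpace U']
    {E : X → X → Prop} (θ : ℕ → X ≃ᵐ X) (hθ : Gen E θ) (μ : Measure X)
    {m : Measure U} {m' : Measure U'} {Φ : U → X} {Φ' : U' → X} (hΦ : Measurable Φ)
    {K : Kernel X U} {K' : Kernel X U'} (hK : Dis m μ Φ K) (hK' : Dis m' μ Φ' K') (g : U → U)
    (hg : MeasurePreserving g m m) (hgE : ∀ᵐ u ∂m, E (Φ (g u)) (Φ u)) :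
    MeasurePreserving (fun p : U × U' => (g p.1, p.2)) (lam θ μ K K') (lam θ μ K K') := by
  have hs' := hK'.sfin
  have hgm : Measurable fun p : U × U' => (g p.1, p.2) := (hg.measurable.comp measurable_fst).prodMk measurable_snd
  refine ⟨hgm, ?_⟩
  refine Measure.ext_of_lintegral _ fun G hG => ?_
  rw [lintegral_map hG hgm, LamI_int θ μ hK (fun p : U × U' => G (g p.1, p.2)) (hG.comp hgm), LamI_int θ μ hK G hG]
  have hH := LamI_measH θ K' G hG
  have h1 : ∫⁻ u, ∑' k, (first θ k).indicator (fun z => ∫⁻ u', G (g u, u') ∂(K' (θ k z))) (Φ u) ∂m =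
      ∫⁻ u, ∑' k, (first θ k).indicator (fun z => ∫⁻ u', G (g u, u') ∂(K' (θ k z))) (Φ (g u)) ∂m := by
    refine lintegral_congr_ae ?_
    filter_upwards [hgE] with u hu
    exact (class_sum θ hθ (fun z => ∫⁻ u', G (g u, u') ∂(K' z)) _ _ hu).symm
  refine h1.trans ?_
  exact hg.lintegral_comp (f := fun u => ∑' k, (first θ k).indicator (fun z => ∫⁻ u', G (u, u') ∂(K' (θ k z))) (Φ u))
    (hH.comp (measurable_id.prodMk hΦ))

theorem lam_swap {X U U' : Type} [MeasurableSpace X] [StandardBorelSpace X] [MeasurableSpace U] [MeasurableSpace U']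
    {E : X → X → Prop} (θ : ℕ → X ≃ᵐ X) (hθ : Gen E θ) (μ : Measure X) (hm : ∀ k, MeasurePreserving (θ k) μ μ)
    (K : Kernel X U) (K' : Kernel X U') [IsSFiniteKernel K] [IsSFiniteKernel K'] :
    (lam θ μ K' K).map Prod.swap = lam θ μ K K' := by
  refine Measure.ext_of_lintegral _ fun G hG => ?_
  rw [lintegral_map hG measurable_swap, lintegral_lam θ μ K' K (fun p => G p.swap) (hG.comp measurable_swap),
    lintegral_lam θ μ K K' G hG]
  have hJ : Measurable fun q : X × X => ∫⁻ u, ∫⁻ u', G (u, u') ∂(K' q.2) ∂(K q.1) := by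
    have h0 : Measurable (Function.uncurry fun (p : (X × X) × U) (u' : U') => G (p.2, u')) :=
      hG.comp ((measurable_snd.comp measurable_fst).prodMk measurable_snd)
    have h1 := Measurable.lintegral_kernel_prod_right
      (κ := K'.comap (fun p : (X × X) × U => p.1.2) (measurable_snd.comp measurable_fst)) h0
    have h2 := Measurable.lintegral_kernel_prod_right
      (κ := K.comap (fun q : X × X => q.1) measurable_fst)
      (f := fun (q : X × X) (u : U) => ∫⁻ u', G (u, u') ∂(K' q.2)) (by exact h1)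
    exact h2
  have h := mtp θ hθ μ hm (fun q : X × X => ∫⁻ u, ∫⁻ u', G (u, u') ∂(K' q.2) ∂(K q.1)) hJ
  rw [show (∑' k, ∫⁻ x in first θ k, ∫⁻ u, ∫⁻ u', G (u, u') ∂(K' (θ k x)) ∂(K x) ∂μ) =
    ∑' k, ∫⁻ x in first θ k, (fun q : X × X => ∫⁻ u, ∫⁻ u', G (u, u') ∂(K' q.2) ∂(K q.1)) (x, θ k x) ∂μ from rfl, h]
  refine tsum_congr fun k => lintegral_congr fun x => ?_
  show ∫⁻ u', ∫⁻ u, G (u, u') ∂(K (θ k x)) ∂(K' x) = ∫⁻ u, ∫⁻ u', G (u, u') ∂(K' x) ∂(K (θ k x))
  refine lintegral_lintegral_swap ?_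
  exact (hG.comp (measurable_snd.prodMk measurable_fst)).aemeasurable

theorem lam_right {X U U' : Type} [MeasurableSpace X] [StandardBorelSpace X] [MeasurableSpace U] [MeasurableSpace U']
    {E : X → X → Prop} (θ : ℕ → X ≃ᵐ X) (hθ : Gen E θ) (μ : Measure X) (hm : ∀ k, MeasurePreserving (θ k) μ μ)
    {m : Measure U} {m' : Measure U'} {Φ : U → X} {Φ' : U' → X} (hΦ' : Measurable Φ')
    {K : Kernel X U} {K' : Kernel X U'} (hK : Dis m μ Φ K) (hK' : Dis m' μ Φ' K') (g : U' → U')
    (hg : MeasurePreserving g m' m') (hgE : ∀ᵐ u ∂m', E (Φ' (g u)) (Φ' u)) :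
    MeasurePreserving (fun p : U × U' => (p.1, g p.2)) (lam θ μ K K') (lam θ μ K K') := by
  have hs := hK.sfin
  have hs' := hK'.sfin
  have h1 : MeasurePreserving (Prod.swap : U' × U → U × U') (lam θ μ K' K) (lam θ μ K K') :=
    ⟨measurable_swap, lam_swap θ hθ μ hm K K'⟩
  have h2 : MeasurePreserving (Prod.swap : U × U' → U' × U) (lam θ μ K K') (lam θ μ K' K) :=
    ⟨measurable_swap, lam_swap θ hθ μ hm K' K⟩
  have h3 := lam_left θ hθ μ hΦ' hK' hK g hg hgE
  exact (h1.comp h3).comp h2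

end Pool.MPb8ab30
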