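import Pool.Agent.Lib_MP_b8ab30.Defs

/-!
# Piece MTP: mass transport

`first θ k` = the points `x` for which `k` is the least index leading to `θ k x`.  So for every `x` the points `θ k x`, `x ∈ first θ k`, enumerate the class of `x`
without repetition.

PROOFS.  `measurableSet_first`: `X` is standard Borel, `{x | θ j x = θ k x}` is measurable (`measurableSet_eq_fun`).
`class_sum`: both sides are `∑' y : {y // E x y}, g y` (the map `k ↦ θ k x` is a bijection from `{k | x ∈ first θ k}` onto the class of `x`; `Gen.sub`, `Gen.cover`).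
`diag_sum`: for every `x` exactly one `k` has `x ∈ first θ k` and `θ k x = x`.
`mtp`: for `k, l` let `D k l = {x ∈ first θ k | θ k x ∈ first θ l, θ l (θ k x) = x}`; `first θ k = ⋃ l, D k l` (disjoint, by `Gen`: `E (θ k x) x`) and `θ k` maps `D k l`
bijectively onto `D l k` with inverse `θ l`.  Hence `∫⁻ x in D k l, Jf (x, θ k x) dμ = ∫⁻ y in D l k, Jf (θ l y, y) dμ` (`θ k` preserves `μ`: `MeasurePreserving.setLIntegral_comp_emb` or
`lintegral_map_equiv`).  Sum over all `k, l` (`lintegral_iUnion`, `ENNReal.tsum_comm`).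
-/

set_option autoImplicit false

open MeasureTheory

namespace Pool.MPb8ab30

def first {X : Type} [MeasurableSpace X] (θ : ℕ → X ≃ᵐ X) (k : ℕ) : Set X := {x | ∀ j, j < k → θ j x ≠ θ k x}

theorem measurableSet_first {X : Type} [MeasurableSpace X] [StandardBorelSpace X] (θ : ℕ → X ≃ᵐ X) (k : ℕ) :
    MeasurableSet (first θ k) := by
  have h : first θ k = ⋂ j, ⋂ (_ : j < k), {x | θ j x = θ k x}ᶜ := by
    ext x
    simp [first]
  rw [h]
  exact MeasurableSet.iInter fun j => MeasurableSet.iInter fun _ =>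
    (measurableSet_eq_fun (θ j).measurable (θ k).measurable).compl

private theorem Mtp_least {X : Type} [MeasurableSpace X] (θ : ℕ → X ≃ᵐ X) {x y : X}
    (h : ∃ k, θ k x = y) : ∃ k, x ∈ first θ k ∧ θ k x = y := by
  classical
  refine ⟨Nat.find h, ?_, Nat.find_spec h⟩
  intro j hj e
  exact Nat.find_min h hj (e.trans (Nat.find_spec h))

private theorem Mtp_inj {X : Type} [MeasurableSpace X] (θ : ℕ → X ≃ᵐ X) {x : X} {k l : ℕ}
    (hk : x ∈ first θ k) (hl : x ∈ first θ l) (e : θ k x = θ l x) : k = l := by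
  rcases lt_trichotomy k l with h | h | h
  · exact absurd e (hl k h)
  · exact h
  · exact absurd e.symm (hk l h)

private theorem Mtp_class {X : Type} [MeasurableSpace X] {E : X → X → Prop} (θ : ℕ → X ≃ᵐ X) (hθ : Gen E θ)
    (g : X → ENNReal) (x x' : X) (h : E x x') :
    ∑' k, (first θ k).indicator (fun z => g (θ k z)) x' = ∑' y : {y // E x y}, g y.1 := by
  classical
  have h1 : ∑' k, (first θ k).indicator (fun z => g (θ k z)) x' =
      ∑' k : {k // x' ∈ first θ k}, g (θ k.1 x') := by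
    have h2 := tsum_subtype {k | x' ∈ first θ k} (fun k => g (θ k x'))
    refine Eq.trans ?_ h2.symm
    refine tsum_congr fun k => ?_
    by_cases hk : x' ∈ first θ k
    · rw [Set.indicator_of_mem hk, Set.indicator_of_mem (show k ∈ {k | x' ∈ first θ k} from hk)]
    · rw [Set.indicator_of_notMem hk,
        Set.indicator_of_notMem (show k ∉ {k | x' ∈ first θ k} from hk)]
  rw [h1]
  let e : {k // x' ∈ first θ k} → {y // E x y} :=
    fun k => ⟨θ k.1 x', hθ.equiv.trans h (hθ.sub k.1 x')⟩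
  have he : Function.Bijective e := by
    constructor
    · rintro ⟨k, hk⟩ ⟨l, hl⟩ hkl
      have h3 : θ k x' = θ l x' := congrArg Subtype.val hkl
      exact Subtype.ext (Mtp_inj θ hk hl h3)
    · rintro ⟨y, hy⟩
      obtain ⟨k, hk, hky⟩ := Mtp_least θ (hθ.cover x' y (hθ.equiv.trans (hθ.equiv.symm h) hy))
      exact ⟨⟨k, hk⟩, Subtype.ext hky⟩
  exact (Equiv.ofBijective e he).tsum_eq (fun y : {y // E x y} => g y.1)

theorem class_sum {X : Type} [MeasurableSpace X] {E : X → X → Prop} (θ : ℕ → X ≃ᵐ X) (hθ : Gen E θ)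
    (g : X → ENNReal) (x x' : X) (h : E x x') :
    ∑' k, (first θ k).indicator (fun z => g (θ k z)) x = ∑' k, (first θ k).indicator (fun z => g (θ k z)) x' := by
  rw [Mtp_class θ hθ g x x (hθ.equiv.refl x), Mtp_class θ hθ g x x' h]

theorem diag_sum {X : Type} [MeasurableSpace X] {E : X → X → Prop} (θ : ℕ → X ≃ᵐ X) (hθ : Gen E θ) (x : X) :
    ∃! k, x ∈ first θ k ∧ θ k x = x := by
  obtain ⟨k, hk, hkx⟩ := Mtp_least θ (hθ.cover x x (hθ.equiv.refl x))
  refine ⟨k, ⟨hk, hkx⟩, ?_⟩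
  rintro l ⟨hl, hlx⟩
  exact Mtp_inj θ hl hk (hlx.trans hkx.symm)

private def Mtp_D {X : Type} [MeasurableSpace X] (θ : ℕ → X ≃ᵐ X) (k l : ℕ) : Set X :=
  {x | x ∈ first θ k ∧ θ k x ∈ first θ l ∧ θ l (θ k x) = x}

private theorem Mtp_D_meas {X : Type} [MeasurableSpace X] [StandardBorelSpace X] (θ : ℕ → X ≃ᵐ X)
    (k l : ℕ) : MeasurableSet (Mtp_D θ k l) := by
  refine (measurableSet_first θ k).inter (((θ k).measurable (measurableSet_first θ l)).inter ?_)
  exact measurableSet_eq_fun ((θ l).measurable.comp (θ k).measurable) measurable_id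

private theorem Mtp_D_union {X : Type} [MeasurableSpace X] {E : X → X → Prop} (θ : ℕ → X ≃ᵐ X)
    (hθ : Gen E θ) (k : ℕ) : first θ k = ⋃ l, Mtp_D θ k l := by
  ext x
  rw [Set.mem_iUnion]
  constructor
  · intro hx
    obtain ⟨l, hl, hlx⟩ := Mtp_least θ (hθ.cover (θ k x) x (hθ.equiv.symm (hθ.sub k x)))
    exact ⟨l, hx, hl, hlx⟩
  · rintro ⟨l, hx, -, -⟩
    exact hx

private theorem Mtp_D_disj {X : Type} [MeasurableSpace X] (θ : ℕ → X ≃ᵐ X) (k : ℕ) :
    Pairwise (Function.onFun Disjoint fun l => Mtp_D θ k l) := by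
  intro l l' hne
  rw [Function.onFun, Set.disjoint_left]
  rintro x ⟨-, h1, h2⟩ ⟨-, h3, h4⟩
  exact hne (Mtp_inj θ h1 h3 (h2.trans h4.symm))

private theorem Mtp_D_pre {X : Type} [MeasurableSpace X] (θ : ℕ → X ≃ᵐ X) (k l : ℕ) :
    Mtp_D θ k l = θ k ⁻¹' Mtp_D θ l k := by
  ext x
  constructor
  · rintro ⟨h1, h2, h3⟩
    refine ⟨h2, ?_, ?_⟩
    · rw [h3]
      exact h1
    · rw [h3]
  · rintro ⟨h1, h2, h3⟩
    have h4 : θ l (θ k x) = x := (θ k).injective h3
    rw [h4] at h2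
    exact ⟨h2, h1, h4⟩

theorem mtp {X : Type} [MeasurableSpace X] [StandardBorelSpace X] {E : X → X → Prop} (θ : ℕ → X ≃ᵐ X) (hθ : Gen E θ)
    (μ : Measure X) (hm : ∀ k, MeasurePreserving (θ k) μ μ) (Jf : X × X → ENNReal) (hJ : Measurable Jf) :
    ∑' k, ∫⁻ x in first θ k, Jf (x, θ k x) ∂μ = ∑' k, ∫⁻ x in first θ k, Jf (θ k x, x) ∂μ := by
  have key : ∀ k l, ∫⁻ x in Mtp_D θ k l, Jf (x, θ k x) ∂μ =
      ∫⁻ y in Mtp_D θ l k, Jf (θ l y, y) ∂μ := by
    intro k l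
    have h1 : ∫⁻ x in Mtp_D θ k l, Jf (x, θ k x) ∂μ =
        ∫⁻ x in Mtp_D θ k l, Jf (θ l (θ k x), θ k x) ∂μ := by
      refine setLIntegral_congr_fun (Mtp_D_meas θ k l) ?_
      rintro x ⟨-, -, h⟩
      show Jf (x, θ k x) = Jf (θ l (θ k x), θ k x)
      rw [h]
    rw [h1]
    have h2 := (hm k).setLIntegral_comp_preimage_emb (θ k).measurableEmbedding
      (fun y => Jf (θ l y, y)) (Mtp_D θ l k)
    rw [← Mtp_D_pre] at h2
    exact h2
  have hL : ∀ k, ∫⁻ x in first θ k, Jf (x, θ k x) ∂μ =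
      ∑' l, ∫⁻ x in Mtp_D θ k l, Jf (x, θ k x) ∂μ := by
    intro k
    rw [← lintegral_iUnion (fun l => Mtp_D_meas θ k l) (Mtp_D_disj θ k), ← Mtp_D_union θ hθ k]
  have hR : ∀ k, ∫⁻ x in first θ k, Jf (θ k x, x) ∂μ =
      ∑' l, ∫⁻ x in Mtp_D θ k l, Jf (θ k x, x) ∂μ := by
    intro k
    rw [← lintegral_iUnion (fun l => Mtp_D_meas θ k l) (Mtp_D_disj θ k), ← Mtp_D_union θ hθ k]
  calc ∑' k, ∫⁻ x in first θ k, Jf (x, θ k x) ∂μ
      = ∑' k, ∑' l, ∫⁻ x in Mtp_D θ k l, Jf (x, θ k x) ∂μ := tsum_congr hL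
    _ = ∑' k, ∑' l, ∫⁻ y in Mtp_D θ l k, Jf (θ l y, y) ∂μ :=
        tsum_congr fun k => tsum_congr fun l => key k l
    _ = ∑' l, ∑' k, ∫⁻ y in Mtp_D θ l k, Jf (θ l y, y) ∂μ := ENNReal.tsum_comm
    _ = ∑' k, ∫⁻ x in first θ k, Jf (θ k x, x) ∂μ := (tsum_congr hR).symm

end Pool.MPb8ab30
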