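import Mathlib

/-!
# Piece PIGD: pigeonhole for densities

PROOF.  `L1(μ)` is separable (the σ-algebra of the standard Borel space `X` is countably generated and `μ` is σ-finite: `Lp.SecondCountableTopology` in
`Mathlib.MeasureTheory.Measure.SeparableMeasure`); let `f n` be a dense sequence.  The real valued density `(σ i).rnDeriv μ` (`toReal`, integrable: `Measure.integrable_toReal_rnDeriv`; the `ENNReal`
density is finite a.e.) is within `ε/2` (or within a small real number if `ε = ⊤`) of some `f n`; choose such `n i`.  Two indices with the same `n` have densities within `ε` in `L1`,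
and `∫⁻ (a - b) ≤ ∫⁻ ‖a.toReal - b.toReal‖`.
-/

set_option autoImplicit false

open MeasureTheory

namespace Pool.MPb8ab30

theorem pigeon_dens {X ι : Type} [MeasurableSpace X] [StandardBorelSpace X] (μ : Measure X) [SigmaFinite μ]
    (σ : ι → Measure X) (hσ : ∀ i, IsFiniteMeasure (σ i)) (ε : ENNReal) (hε : ε ≠ 0) :
    ∃ n : ι → ℕ, ∀ i j, n i = n j → ∫⁻ x, ((σ i).rnDeriv μ x - (σ j).rnDeriv μ x) ∂μ ≤ ε := by
  have hint : ∀ i, Integrable (fun x => ((σ i).rnDeriv μ x).toReal) μ := fun i => by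
    have := hσ i
    exact Measure.integrable_toReal_rnDeriv
  have : Fact ((1 : ENNReal) ≤ 1) := ⟨le_refl _⟩
  have : Fact ((1 : ENNReal) ≠ ⊤) := ⟨ENNReal.one_ne_top⟩
  let g : ι → (X →₁[μ] ℝ) := fun i => (hint i).toL1 _
  have hhalf : 0 < ε / 2 := ENNReal.half_pos hε
  have hex : ∀ i, ∃ n : ℕ, edist (g i) (TopologicalSpace.denseSeq (X →₁[μ] ℝ) n) < ε / 2 := by
    intro i
    have hd := TopologicalSpace.denseRange_denseSeq (X →₁[μ] ℝ)
    have hmem : g i ∈ closure (Set.range (TopologicalSpace.denseSeq (X →₁[μ] ℝ))) := hd (g i)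
    obtain ⟨y, ⟨n, rfl⟩, hy⟩ := EMetric.mem_closure_iff.1 hmem (ε / 2) hhalf
    exact ⟨n, hy⟩
  choose n hn using hex
  refine ⟨n, fun i j hij => ?_⟩
  have := hσ i
  have := hσ j
  have h1 : edist (g i) (g j) ≤ ε := by
    calc edist (g i) (g j) ≤ edist (g i) (TopologicalSpace.denseSeq (X →₁[μ] ℝ) (n i)) +
        edist (TopologicalSpace.denseSeq (X →₁[μ] ℝ) (n i)) (g j) := edist_triangle _ _ _
      _ ≤ ε / 2 + ε / 2 := by
        refine add_le_add (hn i).le ?_
        rw [hij, edist_comm]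
        exact (hn j).le
      _ = ε := ENNReal.add_halves ε
  have h2 : edist (g i) (g j) =
      ∫⁻ x, edist (((σ i).rnDeriv μ x).toReal) (((σ j).rnDeriv μ x).toReal) ∂μ :=
    Integrable.edist_toL1_toL1 _ _ (hint i) (hint j)
  rw [h2] at h1
  refine le_trans (lintegral_mono_ae ?_) h1
  filter_upwards [Measure.rnDeriv_ne_top (σ i) μ, Measure.rnDeriv_ne_top (σ j) μ] with x hx hy
  rw [edist_dist, Real.dist_eq]
  have h3 : (σ i).rnDeriv μ x - (σ j).rnDeriv μ x =
      ENNReal.ofReal (((σ i).rnDeriv μ x).toReal - ((σ j).rnDeriv μ x).toReal) := by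
    rw [ENNReal.ofReal_sub _ ENNReal.toReal_nonneg, ENNReal.ofReal_toReal hx, ENNReal.ofReal_toReal hy]
  rw [h3]
  exact ENNReal.ofReal_le_ofReal (le_abs_self _)

end Pool.MPb8ab30
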