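import Pool.Agent.Lib_MP_b8ab30.RanB
import Pool.Agent.Lib_MP_b8ab30.Cap
import Pool.Agent.Lib_MP_b8ab30.Cod

/-!
# Piece RANC: from strong universality to a datum

PROOF of `exists_datum`.  `X` is non-empty (`μ` is a probability measure), `codes` gives `Ψ : W × Y → X × ℕ`.  Take `n` from `avoid`, `t' s = t (n s)`, `Q = Rset Ψ E c t' ε` as a subtype (standard
Borel: `MeasurableSet.standardBorel`), the Markov kernel `m : Kernel Q X`, `m w = nu.map (fun y => (Ψ (w,y)).1)` (e.g. `Kernel.map (Kernel.prodMkRight ..)` or build it from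
`Kernel.deterministic`/`Measurable` of `w ↦ nu.map _`, via `measurable_measure_prodMk_left`).  `capacity` gives `P₀` on `Q` and `t₀ > 0`.  Let `P₁ = P₀.map Subtype.val`
on `W` and `σ = P₀.bind m`, a probability measure on `X`: `σ B = (P₁.prod nu) {(w,y) | (Ψ (w,y)).1 ∈ B}`.  Lebesgue decomposition of `σ` with respect to `μ`: a measurable
`N₀` with `μ N₀ = 0` and `σ` restricted to `N₀ᶜ` absolutely continuous (`Measure.haveLebesgueDecomposition`, `Measure.mutuallySingular_singularPart`).  `N₁ = ⋃ k, (θ k) ⁻¹' N₀` null, `E`-invariant.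
For `w ∈ Q` the set `B w = {y | (Ψ (w,y)).1 ∉ N₁}` is invariant mod `nu` under all `gen c j` (first condition of `Rset`, `N₁` invariant), so `nu (B w) ∈ {0,1}` (`zero_one`).
`σ N₁ᶜ ≥ t₀ > 0`, so `Ω₁ = {w ∈ Q | nu (B w) = 1}` (measurable) has `P₁ Ω₁ = σ N₁ᶜ > 0`.  Let `P = (P₁ Ω₁)⁻¹ • P₁.restrict Ω₁` and `Φ (y, w) = Ψ (w, y)`.  Then
`IsDatum`: `hom`, `near` by Fubini over `w ∈ Ω₁ ⊆ Q` (`Measure.ae_prod_iff...`, `measure_prod_null`, `Measure.prod_apply_symm`), `nontriv` directly; `ac`: by `ac_mt` it suffices that `μ N = 0` implies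
`(nu.prod P) {(Ψ (w,y)).1 ∈ N} = 0`: up to a constant it is at most `σ (N \ N₁) = 0` (for `w ∈ Ω₁` a.e. `y` has `(Ψ (w,y)).1 ∉ N₁`).
-/

set_option autoImplicit false

open MeasureTheory ProbabilityTheory

namespace Pool.MPb8ab30

private theorem RanC_decomp {X : Type} [MeasurableSpace X] (μ σ : Measure X) [SigmaFinite μ] [IsFiniteMeasure σ] :
    ∃ N, MeasurableSet N ∧ μ N = 0 ∧ ∀ A, MeasurableSet A → μ A = 0 → σ (A \ N) = 0 := by
  obtain ⟨S, hS, h1, h2⟩ := Measure.mutuallySingular_singularPart σ μ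
  refine ⟨Sᶜ, hS.compl, h2, fun A hA h0 => ?_⟩
  have h3 : A \ Sᶜ = A ∩ S := by
    rw [Set.sdiff_eq, compl_compl]
  rw [h3, Measure.haveLebesgueDecomposition_add σ μ, Measure.add_apply]
  have h4 : σ.singularPart μ (A ∩ S) = 0 := measure_mono_null Set.inter_subset_right h1
  have h5 : (μ.withDensity (σ.rnDeriv μ)) (A ∩ S) = 0 :=
    withDensity_absolutelyContinuous μ _ (measure_mono_null Set.inter_subset_left h0)
  rw [h4, h5, add_zero]

private theorem RanC_inv {X : Type} [MeasurableSpace X] (μ : Measure X) (E : X → X → Prop) (θ : ℕ → X ≃ᵐ X)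
    (hθ : Gen E θ) (hm : ∀ k, MeasurePreserving (θ k) μ μ) (N : Set X) (hN : MeasurableSet N) (h0 : μ N = 0) :
    ∃ N', MeasurableSet N' ∧ μ N' = 0 ∧ N ⊆ N' ∧ ∀ x y, E x y → (x ∈ N' ↔ y ∈ N') := by
  refine ⟨⋃ k, (θ k) ⁻¹' N, MeasurableSet.iUnion fun k => (θ k).measurable hN, ?_, ?_, ?_⟩
  · rw [measure_iUnion_null_iff]
    intro k
    rw [(hm k).measure_preimage hN.nullMeasurableSet, h0]
  · intro x hx
    obtain ⟨k, hk⟩ := hθ.cover x x (hθ.equiv.refl x)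
    refine Set.mem_iUnion.2 ⟨k, ?_⟩
    show θ k x ∈ N
    rwa [hk]
  · have key : ∀ x y, E x y → x ∈ ⋃ k, (θ k) ⁻¹' N → y ∈ ⋃ k, (θ k) ⁻¹' N := by
      intro x y h hx
      obtain ⟨k, hk⟩ := Set.mem_iUnion.1 hx
      obtain ⟨l, hl⟩ := hθ.cover y (θ k x) (hθ.equiv.trans (hθ.equiv.symm h) (hθ.sub k x))
      refine Set.mem_iUnion.2 ⟨l, ?_⟩
      show θ l y ∈ N
      rw [hl]
      exact hk
    exact fun x y h => ⟨key x y h, key y x (hθ.equiv.symm h)⟩

/-- the kernel `w ↦` law of `(Ψ (w, y)).1` -/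
private noncomputable def RanC_ker {X : Type} [MeasurableSpace X] (Ψ : W × Y → X × ℕ) (hΨ : Measurable Ψ) (Q : Set W) :
    Kernel Q X where
  toFun w := nu.map fun y => (Ψ (w.1, y)).1
  measurable' := by
    refine Measure.measurable_of_measurable_coe _ fun B hB => ?_
    have h1 : ∀ w : Q, (nu.map fun y => (Ψ (w.1, y)).1) B = nu (Prod.mk w.1 ⁻¹' {p : W × Y | (Ψ p).1 ∈ B}) := by
      intro w
      have hw : Measurable fun y => (Ψ (w.1, y)).1 := measurable_fst.comp (hΨ.comp measurable_prodMk_left)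
      rw [Measure.map_apply hw hB]
      rfl
    simp only [h1]
    have h2 : MeasurableSet {p : W × Y | (Ψ p).1 ∈ B} := (measurable_fst.comp hΨ) hB
    exact (measurable_measure_prodMk_left (ν := nu) h2).comp measurable_subtype_coe

private theorem RanC_ker_apply {X : Type} [MeasurableSpace X] (Ψ : W × Y → X × ℕ) (hΨ : Measurable Ψ) (Q : Set W)
    (w : Q) (B : Set X) (hB : MeasurableSet B) : RanC_ker Ψ hΨ Q w B = nu {y | (Ψ (w.1, y)).1 ∈ B} := by
  show (nu.map fun y => (Ψ (w.1, y)).1) B = _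
  have hw : Measurable fun y => (Ψ (w.1, y)).1 := measurable_fst.comp (hΨ.comp measurable_prodMk_left)
  rw [Measure.map_apply hw hB]
  rfl

private instance RanC_ker_markov {X : Type} [MeasurableSpace X] (Ψ : W × Y → X × ℕ) (hΨ : Measurable Ψ) (Q : Set W) :
    IsMarkovKernel (RanC_ker Ψ hΨ Q) := by
  refine ⟨fun w => ?_⟩
  show IsProbabilityMeasure (nu.map fun y => (Ψ (w.1, y)).1)
  exact Measure.isProbabilityMeasure_map (measurable_fst.comp (hΨ.comp measurable_prodMk_left)).aemeasurable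

private theorem RanC_meas {X : Type} [MeasurableSpace X] (Ψ : W × Y → X × ℕ) (hΨ : Measurable Ψ) (B : Set X)
    (hB : MeasurableSet B) : Measurable fun w : W => nu {y | (Ψ (w, y)).1 ∈ B} := by
  have h2 : MeasurableSet {p : W × Y | (Ψ p).1 ∈ B} := (measurable_fst.comp hΨ) hB
  have h1 : ∀ w : W, {y | (Ψ (w, y)).1 ∈ B} = Prod.mk w ⁻¹' {p : W × Y | (Ψ p).1 ∈ B} := fun w => rfl
  simp only [h1]
  exact measurable_measure_prodMk_left (ν := nu) h2

/-- the mixed law and its values -/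
private theorem RanC_sig {X : Type} [MeasurableSpace X] (Ψ : W × Y → X × ℕ) (hΨ : Measurable Ψ) (Q : Set W)
    (P₀ : Measure Q) (B : Set X) (hB : MeasurableSet B) :
    (P₀.bind (RanC_ker Ψ hΨ Q)) B = ∫⁻ w, nu {y | (Ψ (w, y)).1 ∈ B} ∂(P₀.map Subtype.val) := by
  rw [Measure.bind_apply hB (RanC_ker Ψ hΨ Q).measurable.aemeasurable]
  rw [lintegral_map (RanC_meas Ψ hΨ B hB) measurable_subtype_coe]
  exact lintegral_congr fun w => RanC_ker_apply Ψ hΨ Q w B hB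

theorem exists_datum {X : Type} [MeasurableSpace X] [StandardBorelSpace X] (μ : Measure X) [IsProbabilityMeasure μ]
    (E : X → X → Prop) (hE : CBER E) (θ : ℕ → X ≃ᵐ X) (hθ : Gen E θ) (hm : ∀ k, MeasurePreserving (θ k) μ μ) (c : T)
    (hc : NonTor c)
    (hU : ∀ A : Set X, MeasurableSet A → (∀ x y, E x y → (x ∈ A ↔ y ∈ A)) → μ A = 1 →
      ∃ f : Y → X, Measurable f ∧ (∀ y, f y ∈ A) ∧ ∀ y z, F c y z ↔ E (f y) (f z))
    (t : ℕ → X × ℕ → X × ℕ) (ht : ∀ n, Measurable (t n))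
    (hd : ∀ (σ : Measure (X × ℕ)), IsFiniteMeasure σ → ∀ T₀ : X × ℕ → X × ℕ, Measurable T₀ → (∀ x, Et E x (T₀ x)) →
        ∀ ε : ENNReal, ε ≠ 0 → ∃ n, σ {x | t n x ≠ T₀ x} ≤ ε)
    (ε : ENNReal) (hε : ε ≠ 0) :
    ∃ n : Fin 6 → ℕ, ∃ (P : Measure W) (Φ : Y × W → X × ℕ), IsDatum (Et E) (mt μ) c (fun s => t (n s)) ε P Φ := by
  have hne : Nonempty X := nonempty_of_isProbabilityMeasure μ
  obtain ⟨Ψ, hΨ, hΨ'⟩ := codes (V := Y) (Z := X × ℕ) nu
  obtain ⟨n, hn⟩ := avoid μ E hE θ hθ hm c hU t ht hd Ψ hΨ hΨ' ε hε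
  have hQ : MeasurableSet (Rset Ψ E c (fun s => t (n s)) ε) :=
    measurableSet_Rset Ψ hΨ E hE.meas c _ (fun s => ht _) ε
  generalize hQdef : Rset Ψ E c (fun s => t (n s)) ε = Q at hQ hn
  have hQ1 : ∀ w ∈ Q, (∀ j : J, ∀ᵐ y ∂nu, E (Ψ (w, gen c j y)).1 (Ψ (w, y)).1) ∧
      (nu.prod nu) {p : Y × Y | E (Ψ (w, p.1)).1 (Ψ (w, p.2)).1} = 0 ∧
      ∀ s : Fin 6, nu {y | Ψ (w, gen c (six s) y) ≠ t (n s) (Ψ (w, y))} ≤ ε := by
    intro w hw
    rw [← hQdef] at hw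
    exact hw
  have hsec : ∀ w : W, Measurable fun y => Ψ (w, y) := fun w => hΨ.comp measurable_prodMk_left
  have : StandardBorelSpace Q := hQ.standardBorel
  obtain ⟨P₀, hP₀, t₀, ht₀, hcap⟩ := capacity μ (RanC_ker Ψ hΨ Q) (by
    intro N hN h0
    obtain ⟨w, hw, hlt⟩ := hn N hN h0
    refine ⟨⟨w, hw⟩, ?_⟩
    rw [RanC_ker_apply Ψ hΨ Q _ N hN]
    exact hlt)
  set P₁ : Measure W := P₀.map Subtype.val with hP₁
  have hP₁p : IsProbabilityMeasure P₁ := Measure.isProbabilityMeasure_map measurable_subtype_coe.aemeasurable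
  have hP₁Q : ∀ᵐ w ∂P₁, w ∈ Q := by
    rw [hP₁]
    exact (ae_map_iff (p := fun w => w ∈ Q) measurable_subtype_coe.aemeasurable hQ).2
      (Filter.Eventually.of_forall fun w => w.2)
  set σ : Measure X := P₀.bind (RanC_ker Ψ hΨ Q) with hσ
  have hσf : IsProbabilityMeasure σ := by
    rw [hσ]
    infer_instance
  have hσB : ∀ B, MeasurableSet B → σ B = ∫⁻ w, nu {y | (Ψ (w, y)).1 ∈ B} ∂P₁ :=
    fun B hB => RanC_sig Ψ hΨ Q P₀ B hB
  have hmB : ∀ B, MeasurableSet B → Measurable fun w : W => nu {y | (Ψ (w, y)).1 ∈ B} :=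
    fun B hB => RanC_meas Ψ hΨ B hB
  obtain ⟨N₀, hN₀, hN₀0, hN₀σ⟩ := RanC_decomp μ σ
  obtain ⟨N₁, hN₁, hN₁0, hN₀₁, hN₁E⟩ := RanC_inv μ E θ hθ hm N₀ hN₀ hN₀0
  -- the zero-one law
  have h01 : ∀ w ∈ Q, nu {y | (Ψ (w, y)).1 ∈ N₁ᶜ} = 0 ∨ nu {y | (Ψ (w, y)).1 ∈ N₁ᶜ} = 1 := by
    intro w hw
    refine zero_one c hc _ ((measurable_fst.comp (hsec w)) hN₁.compl) fun a => ?_
    filter_upwards [(hQ1 w hw).1 (Sum.inl a)] with y hy
    have h1 := hN₁E _ _ hy
    exact not_congr h1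
  set Ω : Set W := {w | w ∈ Q ∧ nu {y | (Ψ (w, y)).1 ∈ N₁ᶜ} = 1} with hΩ
  have hΩm : MeasurableSet Ω := hQ.inter ((hmB _ hN₁.compl) (measurableSet_singleton 1))
  have hΩ0 : P₁ Ω ≠ 0 := by
    intro h0
    have h1 := hcap N₁ hN₁ hN₁0
    rw [hσB _ hN₁.compl] at h1
    have h2 : ∫⁻ w, nu {y | (Ψ (w, y)).1 ∈ N₁ᶜ} ∂P₁ = 0 := by
      rw [lintegral_eq_zero_iff (hmB _ hN₁.compl)]
      have h3 : ∀ᵐ w ∂P₁, w ∉ Ω := by
        rw [ae_iff]
        simpa using h0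
      filter_upwards [hP₁Q, h3] with w hw1 hw2
      rcases h01 w hw1 with h | h
      · exact h
      · exact absurd ⟨hw1, h⟩ hw2
    rw [h2] at h1
    have h4 := ENNReal.ofReal_eq_zero.1 (le_antisymm h1 bot_le)
    exact absurd ht₀ (not_lt.2 h4)
  set P : Measure W := ProbabilityTheory.cond P₁ Ω with hP
  have hPp : IsProbabilityMeasure P := cond_isProbabilityMeasure hΩ0
  have hPΩ : ∀ᵐ w ∂P, w ∈ Ω := ae_cond_mem hΩm
  have hPac : P ≪ P₁ := cond_absolutelyContinuous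
  have hΦm : Measurable fun u : Y × W => Ψ (u.2, u.1) := hΨ.comp measurable_swap
  have hgen : ∀ j, Measurable fun u : Y × W => Ψ (u.2, gen c j u.1) := fun j =>
    hΨ.comp (measurable_snd.prodMk ((measurable_gen c j).comp measurable_fst))
  refine ⟨n, P, fun u => Ψ (u.2, u.1), hPp, hΦm, ?_, ?_, ?_, ?_⟩
  · intro j
    have hms : MeasurableSet {u : Y × W | E (Ψ (u.2, gen c j u.1)).1 (Ψ (u.2, u.1)).1} :=
      ((measurable_fst.comp (hgen j)).prodMk (measurable_fst.comp hΦm)) hE.meas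
    have h1 : ∀ᵐ u ∂(nu.prod P), E (Ψ (u.2, gen c j u.1)).1 (Ψ (u.2, u.1)).1 := by
      rw [ae_iff]
      have h2 : MeasurableSet {u : Y × W | ¬ E (Ψ (u.2, gen c j u.1)).1 (Ψ (u.2, u.1)).1} := hms.compl
      rw [Measure.prod_apply_symm h2, lintegral_eq_zero_iff (measurable_measure_prodMk_right h2)]
      filter_upwards [hPΩ] with w hw
      exact ae_iff.1 ((hQ1 w hw.1).1 j)
    exact h1
  · filter_upwards [hPΩ] with w hw
    exact (hQ1 w hw.1).2.1
  · intro s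
    have h2 : MeasurableSet {u : Y × W | Ψ (u.2, gen c (six s) u.1) ≠ t (n s) (Ψ (u.2, u.1))} :=
      (measurableSet_eq_fun (hgen (six s)) ((ht (n s)).comp hΦm)).compl
    show (nu.prod P) {u : Y × W | Ψ (u.2, gen c (six s) u.1) ≠ t (n s) (Ψ (u.2, u.1))} ≤ ε
    rw [Measure.prod_apply_symm h2]
    calc ∫⁻ w, nu ((fun y => (y, w)) ⁻¹' {u : Y × W | Ψ (u.2, gen c (six s) u.1) ≠ t (n s) (Ψ (u.2, u.1))}) ∂P
        ≤ ∫⁻ _w, ε ∂P := by
          refine lintegral_mono_ae ?_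
          filter_upwards [hPΩ] with w hw
          exact (hQ1 w hw.1).2.2 s
      _ = ε := by rw [lintegral_const, measure_univ, mul_one]
  · refine ac_mt μ _ ?_
    refine Measure.AbsolutelyContinuous.mk fun N hN h0 => ?_
    rw [Measure.map_map measurable_fst hΦm, Measure.map_apply (measurable_fst.comp hΦm) hN]
    have h2 : MeasurableSet ((Prod.fst ∘ fun u : Y × W => Ψ (u.2, u.1)) ⁻¹' N) := (measurable_fst.comp hΦm) hN
    rw [Measure.prod_apply_symm h2, lintegral_eq_zero_iff (measurable_measure_prodMk_right h2)]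
    have h3 : σ (N \ N₁) = 0 :=
      measure_mono_null (Set.sdiff_subset_sdiff_right hN₀₁) (hN₀σ N hN h0)
    have hN2 : MeasurableSet (N \ N₁) := MeasurableSet.diff hN hN₁
    rw [hσB _ hN2, lintegral_eq_zero_iff (hmB _ hN2)] at h3
    filter_upwards [hPΩ, hPac.ae_le h3] with w hw hw3
    have hw3' : nu {y | (Ψ (w, y)).1 ∈ N \ N₁} = 0 := hw3
    have h4 : nu {y | (Ψ (w, y)).1 ∈ N₁} = 0 := by
      have h5 : MeasurableSet {y | (Ψ (w, y)).1 ∈ N₁ᶜ} := (measurable_fst.comp (hsec w)) hN₁.compl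
      have h6 := (prob_compl_eq_zero_iff h5).2 hw.2
      refine measure_mono_null ?_ h6
      intro y hy hy'
      exact hy' hy
    show nu {y | (Ψ (w, y)).1 ∈ N} = 0
    refine measure_mono_null ?_ (measure_union_null hw3' h4)
    intro y hy
    by_cases hy1 : (Ψ (w, y)).1 ∈ N₁
    · exact Or.inr hy1
    · exact Or.inl ⟨hy, hy1⟩

end Pool.MPb8ab30
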