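import Pool.Agent.Lib_MP_b8ab30.Two
import Pool.Agent.Lib_MP_b8ab30.RanC
import Pool.Agent.Lib_MP_b8ab30.PigD
import Pool.Agent.Lib_MP_b8ab30.Fam
import Pool.Agent.Lib_MP_b8ab30.FM
import Pool.Agent.Lib_MP_b8ab30.Indep

/-!
# Piece PIG: pigeonhole and the main theorem

PROOF of `main`.  Suppose `E, μ` is strongly universal in the sense of the frozen statement.  `CBER E`; `feldman_moore` gives `θ`, each `θ k` preserves `μ`.  `gen_Et` gives `θ'` on `X × ℕ`; `dense_family θ'`
gives `t`.  `ε = ofReal (1/1000000)`.  For every `c` with `NonTor c` `exists_datum` gives `n c : Fin 6 → ℕ`, `P c`, `Φ c` (`hU` from the hypothesis with `Y := Pool.MPb8ab30.Y`, `F c`, `cber_F c`).  `pigeon_dens` with the finite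
measures `(nu.prod (P c)).map (Φ c)` gives `k c : ℕ`.  The map `c ↦ (n c, k c)` from the uncountable set of non-torsion elements (`uncountable_nonTor`) to a countable type has an uncountable
fibre; take `c` in it; the fibre is not contained in `{c' | ¬ Ind c c'}` (`countable_dep`): take `c'` in the fibre with `Ind c c'` and apply `no_two` on `X × ℕ` (`sigmaFinite_mt`, `measurable_Et`).
-/

set_option autoImplicit false

open MeasureTheory ProbabilityTheory

namespace Pool.MPb8ab30

theorem main {X : Type} [MeasurableSpace X] [StandardBorelSpace X] (μ : Measure X) [IsProbabilityMeasure μ]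
    (E : X → X → Prop) (hE : CBER E) (hinv : ∀ S : X ≃ᵐ X, (∀ x, E x (S x)) → MeasurePreserving S μ μ)
    (hU : ∀ c : T, ∀ A : Set X, MeasurableSet A → (∀ x y, E x y → (x ∈ A ↔ y ∈ A)) → μ A = 1 →
      ∃ f : Y → X, Measurable f ∧ (∀ y, f y ∈ A) ∧ ∀ y z, F c y z ↔ E (f y) (f z)) : False := by
  obtain ⟨θ, hθ⟩ := feldman_moore hE
  have hm : ∀ k, MeasurePreserving (θ k) μ μ := fun k => hinv (θ k) (hθ.sub k)
  obtain ⟨θ', hθ', hm'⟩ := gen_Et θ hθ μ hm
  obtain ⟨t, ht, htE, hd⟩ := dense_family θ' hθ'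
  set ε : ENNReal := ENNReal.ofReal (1 / 1000000) with hε
  have hε0 : ε ≠ 0 := by
    rw [hε]
    simp
  have key : ∀ c : {c : T // NonTor c}, ∃ n : Fin 6 → ℕ, ∃ (P : Measure W) (Φ : Y × W → X × ℕ),
      IsDatum (Et E) (mt μ) c.1 (fun s => t (n s)) ε P Φ := fun c =>
    exists_datum μ E hE θ hθ hm c.1 c.2 (hU c.1) t ht hd ε hε0
  choose n P Φ D using key
  have hfin : ∀ c, IsFiniteMeasure ((nu.prod (P c)).map (Φ c)) := fun c => by
    haveI := (D c).prob
    infer_instance
  obtain ⟨k, hk⟩ := pigeon_dens (mt μ) (fun c => (nu.prod (P c)).map (Φ c)) hfin ε hε0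
  -- an uncountable fibre
  have hfib : ∃ v : (Fin 6 → ℕ) × ℕ, ¬ {c : {c : T // NonTor c} | (n c, k c) = v}.Countable := by
    by_contra hcon
    push Not at hcon
    have h1 : (⋃ v : (Fin 6 → ℕ) × ℕ, {c : {c : T // NonTor c} | (n c, k c) = v}).Countable :=
      Set.countable_iUnion hcon
    have h2 : (⋃ v : (Fin 6 → ℕ) × ℕ, {c : {c : T // NonTor c} | (n c, k c) = v}) = Set.univ := by
      ext c
      simp
    rw [h2] at h1
    have h3 : (Subtype.val '' (Set.univ : Set {c : T // NonTor c})).Countable := h1.image _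
    rw [Set.image_univ, Subtype.range_coe_subtype] at h3
    exact uncountable_nonTor h3
  obtain ⟨v, hv⟩ := hfib
  have hne : {c : {c : T // NonTor c} | (n c, k c) = v}.Nonempty := by
    by_contra hcon
    rw [Set.not_nonempty_iff_eq_empty] at hcon
    rw [hcon] at hv
    exact hv Set.countable_empty
  obtain ⟨c, hc⟩ := hne
  have hdep : {c' : {c : T // NonTor c} | ¬ Ind c.1 c'.1}.Countable := by
    have := (countable_dep c.1 c.2).preimage (Subtype.val_injective (p := fun c : T => NonTor c))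
    exact this
  have hex : ∃ c' : {c : T // NonTor c}, (n c', k c') = v ∧ Ind c.1 c'.1 := by
    by_contra hcon
    push Not at hcon
    exact hv (hdep.mono fun c' h => hcon c' h)
  obtain ⟨c', hc', hI⟩ := hex
  have hnc : n c = n c' := by
    have := (Prod.mk.inj (hc.trans hc'.symm)).1
    exact this
  have hkc : k c = k c' := (Prod.mk.inj (hc.trans hc'.symm)).2
  have D' := D c'
  rw [← hnc] at D'
  exact no_two (mt μ) (Et E) (measurable_Et hE.meas) θ' hθ' hm' (fun s => t (n c s)) (fun s => ht _)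
    (fun s x => htE _ x) c.1 c'.1 hI ε le_rfl (P c) (P c') (Φ c) (Φ c') (D c) D'
    (hk c c' hkc) (hk c' c hkc.symm)

end Pool.MPb8ab30
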