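import Pool.Agent.Lib_MP_b8ab30.Defs

/-!
# Piece PRD: the product with `ℕ`

PROOFS.  `gen_Et`: for `k, i, j : ℕ` the automorphism `(x, n) ↦ (θ k x, Equiv.swap i j n)` of `X × ℕ` preserves `μ.prod count` (`MeasurePreserving.prod`; a permutation of `ℕ`
preserves `Measure.count`) and has its graph in `Et E`; if `Et E (x,n) (x',n')` take `k` with `θ k x = x'` and `i = n`, `j = n'`.  Enumerate the triples by `ℕ` (e.g. with
`Nat.unpair` twice, or `Encodable`/`Denumerable (ℕ × ℕ × ℕ)`).
`sigmaFinite_mt`: `Measure.prod` of σ-finite measures.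
`mt_null`: if `mt μ N = 0` then `μ {x | (x,n) ∈ N} = 0` for every `n`, and conversely (`Measure.prod_apply_symm`, sum over `n`).
`Et_equiv`, `measurable_Et` are clear.
-/

set_option autoImplicit false

open MeasureTheory

namespace Pool.MPb8ab30

instance sigmaFinite_mt {X : Type} [MeasurableSpace X] (μ : Measure X) [SigmaFinite μ] : SigmaFinite (mt μ) := by
  unfold mt
  infer_instance

theorem Et_equiv {X : Type} {E : X → X → Prop} (h : Equivalence E) : Equivalence (Et E) :=
  ⟨fun _ => h.refl _, fun hab => h.symm hab, fun h1 h2 => h.trans h1 h2⟩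

theorem measurable_Et {X : Type} [MeasurableSpace X] {E : X → X → Prop} (h : MeasurableSet {p : X × X | E p.1 p.2}) :
    MeasurableSet {p : (X × ℕ) × (X × ℕ) | Et E p.1 p.2} := by
  have hm : Measurable (fun p : (X × ℕ) × (X × ℕ) => (p.1.1, p.2.1)) := by fun_prop
  exact hm h

private noncomputable def prdSwap (i j : ℕ) : ℕ ≃ᵐ ℕ where
  toEquiv := Equiv.swap i j
  measurable_toFun := Measurable.of_discrete
  measurable_invFun := Measurable.of_discrete

private theorem prd_count (i j : ℕ) : MeasurePreserving (prdSwap i j) (Measure.count : Measure ℕ) Measure.count := by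
  refine ⟨(prdSwap i j).measurable, ?_⟩
  ext s hs
  rw [Measure.map_apply (prdSwap i j).measurable hs, Measure.count_apply ((prdSwap i j).measurable hs), Measure.count_apply hs]
  congr 1
  exact Set.encard_preimage_of_bijective (prdSwap i j).bijective s

theorem gen_Et {X : Type} [MeasurableSpace X] {E : X → X → Prop} (θ : ℕ → X ≃ᵐ X) (hθ : Gen E θ) (μ : Measure X) [SigmaFinite μ]
    (hm : ∀ k, MeasurePreserving (θ k) μ μ) :
    ∃ θ' : ℕ → (X × ℕ) ≃ᵐ (X × ℕ), Gen (Et E) θ' ∧ ∀ k, MeasurePreserving (θ' k) (mt μ) (mt μ) := by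
  refine ⟨fun k => (θ (Nat.unpair k).1).prodCongr (prdSwap (Nat.unpair (Nat.unpair k).2).1 (Nat.unpair (Nat.unpair k).2).2), ?_, ?_⟩
  · refine ⟨Et_equiv hθ.equiv, ?_, ?_⟩
    · intro k x
      exact hθ.sub _ x.1
    · rintro ⟨x, n⟩ ⟨x', n'⟩ hE
      obtain ⟨k, hk⟩ := hθ.cover x x' hE
      refine ⟨Nat.pair k (Nat.pair n n'), ?_⟩
      have h1 : (θ k) x = x' := hk
      have h2 : (prdSwap n n') n = n' := Equiv.swap_apply_left n n'
      simp only [Nat.unpair_pair]
      exact Prod.ext h1 h2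
  · intro k
    exact (hm (Nat.unpair k).1).prod (prd_count _ _)

/-- absolute continuity can be tested on the first coordinate -/
theorem ac_mt {X : Type} [MeasurableSpace X] (μ : Measure X) [SigmaFinite μ] (σ : Measure (X × ℕ)) [IsFiniteMeasure σ]
    (h : σ.map Prod.fst ≪ μ) : σ ≪ mt μ := by
  refine Measure.AbsolutelyContinuous.mk fun N hN h0 => ?_
  have hN0 : ∀ n : ℕ, MeasurableSet ((fun x => (x, n)) ⁻¹' N : Set X) := fun n => measurable_prodMk_right hN
  have h1 : ∀ n : ℕ, μ ((fun x => (x, n)) ⁻¹' N) = 0 := by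
    unfold mt at h0
    rw [Measure.prod_apply_symm hN, lintegral_count] at h0
    intro n
    exact (ENNReal.tsum_eq_zero.1 h0) n
  have h2 : N ⊆ ⋃ n : ℕ, Prod.fst ⁻¹' ((fun x => (x, n)) ⁻¹' N : Set X) := by
    rintro ⟨x, n⟩ hx
    exact Set.mem_iUnion.2 ⟨n, hx⟩
  refine measure_mono_null h2 (measure_iUnion_null fun n => ?_)
  rw [← Measure.map_apply measurable_fst (hN0 n)]
  exact h (h1 n)

end Pool.MPb8ab30
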