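import Pool.Agent.Lib_MP_b8ab30.Haar
import Pool.Agent.Lib_MP_b8ab30.Prd
import Pool.Agent.Lib_MP_b8ab30.LN

/-!
# Piece RANA: codes of reductions

`Rset Ψ E c t ε` = the codes `w` for which `Ψ (w, ·) : Y → X × ℕ` is (a.e.) a non-trivial homomorphism to `E` on which the six special generators are nearly given by `t`.

PROOF of `measurableSet_Rset`.  Countable intersection (`J` is countable) of sets defined by measures of sections of measurable sets: `measurable_measure_prodMk_left`
(for `Measure.prod`, kernels or `Measurable.lintegral_prod_right'`).  `∀ᵐ y` means that the measure of the complement is `0`.  `X × ℕ` is standard Borel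
(`measurableSet_eq_fun` for the last condition).
PROOF of `exists_code`.  The fibres of `f` are countable: `f y = f z` implies `E (f y) (f z)` (reflexivity), so `F c y z`, and classes of `F c` are countable (`cber_F`).
`lusin_novikov` gives `h : Y → ℕ` with `g y = (f y, h y)` injective; `g : Y → X × ℕ` is a measurable embedding (`Measurable.measurableEmbedding`).
For `s : Fin 6` let `T₀ s : X × ℕ → X × ℕ` be `T₀ s (g y) = g (gen c (six s) y)` and `T₀ s x = x` outside the range of `g` (measurable: `MeasurableEmbedding`; the range is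
measurable), so `Et E x (T₀ s x)` for all `x` (`F_gen`, `f` is a homomorphism).  By `hd` applied to `σ = nu.map g` there is `n s` with `nu {y | t (n s) (g y) ≠ g (gen c (six s) y)} ≤ ε`.
By `hΨ` there is `w` with `Ψ (w, y) = g y` a.e.; `gen c j` preserves `nu` (`mp_gen`), so also `Ψ (w, gen c j y) = g (gen c j y)` a.e.  The three
conditions of `Rset` follow; the second one: `{p | E (f p.1) (f p.2)} = {p | F c p.1 p.2}` has null sections (`nu_class`), use `measure_prod_null`.
-/

set_option autoImplicit false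

open MeasureTheory

namespace Pool.MPb8ab30

def Rset {X : Type} (Ψ : W × Y → X × ℕ) (E : X → X → Prop) (c : T) (t : Fin 6 → X × ℕ → X × ℕ) (ε : ENNReal) : Set W :=
  {w | (∀ j : J, ∀ᵐ y ∂nu, E (Ψ (w, gen c j y)).1 (Ψ (w, y)).1) ∧
    (nu.prod nu) {p : Y × Y | E (Ψ (w, p.1)).1 (Ψ (w, p.2)).1} = 0 ∧
    ∀ s : Fin 6, nu {y | Ψ (w, gen c (six s) y) ≠ t s (Ψ (w, y))} ≤ ε}

private theorem RanA_countable_J : Countable J := by
  have h1 : Countable R := by
    have h2 : Cardinal.mk R ≤ Cardinal.aleph0 := by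
      refine (Polynomial.cardinalMk_le_max).trans ?_
      rw [max_le_iff]
      exact ⟨Cardinal.mk_le_aleph0, le_rfl⟩
    exact Cardinal.mk_le_aleph0_iff.1 h2
  infer_instance

theorem measurableSet_Rset {X : Type} [MeasurableSpace X] [StandardBorelSpace X] (Ψ : W × Y → X × ℕ) (hΨ : Measurable Ψ)
    (E : X → X → Prop) (hE : MeasurableSet {p : X × X | E p.1 p.2}) (c : T) (t : Fin 6 → X × ℕ → X × ℕ)
    (ht : ∀ s, Measurable (t s)) (ε : ENNReal) : MeasurableSet (Rset Ψ E c t ε) := by
  have := RanA_countable_J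
  have hg : ∀ j : J, Measurable fun p : W × Y => Ψ (p.1, gen c j p.2) := fun j =>
    hΨ.comp (measurable_fst.prodMk ((measurable_gen c j).comp measurable_snd))
  have hA : ∀ j : J, MeasurableSet {p : W × Y | E (Ψ (p.1, gen c j p.2)).1 (Ψ p).1} := by
    intro j
    have h1 : Measurable fun p : W × Y => ((Ψ (p.1, gen c j p.2)).1, (Ψ p).1) :=
      (measurable_fst.comp (hg j)).prodMk (measurable_fst.comp hΨ)
    exact h1 hE
  have hB : MeasurableSet {q : W × (Y × Y) | E (Ψ (q.1, q.2.1)).1 (Ψ (q.1, q.2.2)).1} := by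
    have h2 : Measurable fun q : W × (Y × Y) => Ψ (q.1, q.2.1) :=
      hΨ.comp (measurable_fst.prodMk (measurable_fst.comp measurable_snd))
    have h3 : Measurable fun q : W × (Y × Y) => Ψ (q.1, q.2.2) :=
      hΨ.comp (measurable_fst.prodMk (measurable_snd.comp measurable_snd))
    have h1 : Measurable fun q : W × (Y × Y) => ((Ψ (q.1, q.2.1)).1, (Ψ (q.1, q.2.2)).1) :=
      (measurable_fst.comp h2).prodMk (measurable_fst.comp h3)
    exact h1 hE
  have hC : ∀ s : Fin 6, MeasurableSet {p : W × Y | Ψ (p.1, gen c (six s) p.2) ≠ t s (Ψ p)} := by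
    intro s
    exact (measurableSet_eq_fun (hg (six s)) ((ht s).comp hΨ)).compl
  have hset : Rset Ψ E c t ε =
      (⋂ j : J, {w | nu (Prod.mk w ⁻¹' {p : W × Y | E (Ψ (p.1, gen c j p.2)).1 (Ψ p).1}ᶜ) = 0}) ∩
      ({w | (nu.prod nu) (Prod.mk w ⁻¹' {q : W × (Y × Y) | E (Ψ (q.1, q.2.1)).1 (Ψ (q.1, q.2.2)).1}) = 0} ∩
      ⋂ s : Fin 6, {w | nu (Prod.mk w ⁻¹' {p : W × Y | Ψ (p.1, gen c (six s) p.2) ≠ t s (Ψ p)}) ≤ ε}) := by
    ext w
    constructor
    · rintro ⟨h1, h2, h3⟩
      exact ⟨Set.mem_iInter.2 fun j => ae_iff.1 (h1 j), h2, Set.mem_iInter.2 fun s => h3 s⟩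
    · rintro ⟨h1, h2, h3⟩
      exact ⟨fun j => ae_iff.2 (Set.mem_iInter.1 h1 j), h2, fun s => Set.mem_iInter.1 h3 s⟩
  rw [hset]
  refine (MeasurableSet.iInter fun j => ?_).inter (MeasurableSet.inter ?_ (MeasurableSet.iInter fun s => ?_))
  · exact (measurable_measure_prodMk_left (hA j).compl) (measurableSet_singleton 0)
  · exact (measurable_measure_prodMk_left hB) (measurableSet_singleton 0)
  · exact (measurable_measure_prodMk_left (hC s)) measurableSet_Iic

theorem exists_code {X : Type} [MeasurableSpace X] [StandardBorelSpace X] (Ψ : W × Y → X × ℕ) (hΨ : Measurable Ψ)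
    (hΨ' : ∀ f : Y → X × ℕ, Measurable f → ∃ w : W, ∀ᵐ y ∂nu, Ψ (w, y) = f y)
    (E : X → X → Prop) (hE : CBER E) (c : T) (t : ℕ → X × ℕ → X × ℕ) (ht : ∀ n, Measurable (t n))
    (hd : ∀ (σ : Measure (X × ℕ)), IsFiniteMeasure σ → ∀ T₀ : X × ℕ → X × ℕ, Measurable T₀ → (∀ x, Et E x (T₀ x)) →
        ∀ ε : ENNReal, ε ≠ 0 → ∃ n, σ {x | t n x ≠ T₀ x} ≤ ε)
    (ε : ENNReal) (hε : ε ≠ 0) (f : Y → X) (hf : Measurable f) (hfE : ∀ y z, F c y z ↔ E (f y) (f z)) :
    ∃ n : Fin 6 → ℕ, ∃ w ∈ Rset Ψ E c (fun s => t (n s)) ε, ∀ᵐ y ∂nu, (Ψ (w, y)).1 = f y := by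
  have hcount : ∀ x, (f ⁻¹' {x}).Countable := by
    intro x
    rcases (f ⁻¹' {x}).eq_empty_or_nonempty with h0 | ⟨y, hy⟩
    · rw [h0]
      exact Set.countable_empty
    · refine ((cber_F c).count y).mono ?_
      intro z hz
      rw [Set.mem_preimage, Set.mem_singleton_iff] at hy hz
      refine (hfE y z).2 ?_
      rw [hy, hz]
      exact hE.equiv.refl x
  obtain ⟨h, hh, hinj⟩ := lusin_novikov f hf hcount
  set g : Y → X × ℕ := fun y => (f y, h y) with hg
  have hgm : Measurable g := hf.prodMk hh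
  have hge : MeasurableEmbedding g := hgm.measurableEmbedding hinj
  have hEt : ∀ j y, Et E (g y) (g (gen c j y)) := by
    intro j y
    exact hE.equiv.symm ((hfE _ _).1 (F_gen c j y))
  have hT : ∀ s : Fin 6, ∃ n : ℕ, nu {y | t n (g y) ≠ g (gen c (six s) y)} ≤ ε := by
    intro s
    have hfin : IsFiniteMeasure (nu.map g) := inferInstance
    obtain ⟨n, hn⟩ := hd (nu.map g) hfin (Function.extend g (fun y => g (gen c (six s) y)) fun x => x)
      (hge.measurable_extend (hgm.comp (measurable_gen c _)) measurable_id)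
      (fun x => by
        by_cases hx : ∃ y, g y = x
        · obtain ⟨y, rfl⟩ := hx
          rw [hinj.extend_apply]
          exact hEt _ y
        · rw [Function.extend_apply' _ _ _ hx]
          exact hE.equiv.refl x.1) ε hε
    refine ⟨n, le_trans (le_trans (le_of_eq ?_) (Measure.le_map_apply hgm.aemeasurable _)) hn⟩
    congr 1
    ext y
    change t n (g y) ≠ g (gen c (six s) y) ↔
      t n (g y) ≠ Function.extend g (fun y => g (gen c (six s) y)) (fun x => x) (g y)
    rw [hinj.extend_apply]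
  choose n hn using hT
  obtain ⟨w, hw⟩ := hΨ' g hgm
  have hwj : ∀ j, ∀ᵐ y ∂nu, Ψ (w, gen c j y) = g (gen c j y) := fun j =>
    (mp_gen c j).quasiMeasurePreserving.ae hw
  refine ⟨n, w, ⟨fun j => ?_, ?_, fun s => ?_⟩, ?_⟩
  · filter_upwards [hw, hwj j] with y h1 h2
    rw [h1, h2]
    exact (hfE _ _).1 (F_gen c j y)
  · have h0 : (nu.prod nu) {p : Y × Y | E (f p.1) (f p.2)} = 0 := by
      have hm : MeasurableSet {p : Y × Y | E (f p.1) (f p.2)} := by
        have h1 : Measurable fun p : Y × Y => (f p.1, f p.2) :=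
          (hf.comp measurable_fst).prodMk (hf.comp measurable_snd)
        exact h1 hE.meas
      rw [Measure.measure_prod_null hm]
      refine Filter.Eventually.of_forall fun y => ?_
      have h2 : Prod.mk y ⁻¹' {p : Y × Y | E (f p.1) (f p.2)} = {z | F c y z} := by
        ext z
        exact (hfE y z).symm
      change nu (Prod.mk y ⁻¹' {p : Y × Y | E (f p.1) (f p.2)}) = 0
      rw [h2]
      exact nu_class c y
    rw [← h0]
    refine measure_congr ?_
    filter_upwards [Measure.quasiMeasurePreserving_fst.ae hw, Measure.quasiMeasurePreserving_snd.ae hw] with p h1 h2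
    refine propext ?_
    change E (Ψ (w, p.1)).1 (Ψ (w, p.2)).1 ↔ E (f p.1) (f p.2)
    rw [h1, h2]
  · refine le_trans (le_of_eq ?_) (hn s)
    refine measure_congr ?_
    filter_upwards [hw, hwj (six s)] with y h1 h2
    refine propext ?_
    change Ψ (w, gen c (six s) y) ≠ t (n s) (Ψ (w, y)) ↔ t (n s) (g y) ≠ g (gen c (six s) y)
    rw [h1, h2]
    exact ne_comm
  · filter_upwards [hw] with y h1
    rw [h1]

end Pool.MPb8ab30
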