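import Pool.Agent.Lib_MP_b8ab30.RanA

/-!
# Piece RANB: no null set is avoided by all codes for one choice of `n`

PROOF of `avoid`.  For `w : W` let `m w = nu.map (fun y => (Ψ (w, y)).1)`.  Otherwise for every `n : Fin 6 → ℕ` (countably many) there is a measurable `μ`-null `N n` with
`m w (N n) = 1` for all `w ∈ Rset ...(n)` (`m w` is a probability measure: not `< 1` means `= 1`).  `N = ⋃ n, N n` is null, `N' = ⋃ k, (θ k) ⁻¹' N` is measurable, null, `E`-invariant and contains `N`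
(if `E x y` and `θ k y ∈ N` then `E x (θ k y)`, so `θ l x = θ k y ∈ N` for some `l`).  `hU c N'ᶜ` gives a reduction `f` with values in `N'ᶜ`; `exists_code` gives `n`, `w ∈ Rset ..(n)`
with `(Ψ (w,y)).1 = f y` a.e., so `m w (N n) = 0`: contradiction.

-/

set_option autoImplicit false

open MeasureTheory ProbabilityTheory

namespace Pool.MPb8ab30

theorem avoid {X : Type} [MeasurableSpace X] [StandardBorelSpace X] (μ : Measure X) [IsProbabilityMeasure μ]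
    (E : X → X → Prop) (hE : CBER E) (θ : ℕ → X ≃ᵐ X) (hθ : Gen E θ) (hm : ∀ k, MeasurePreserving (θ k) μ μ) (c : T)
    (hU : ∀ A : Set X, MeasurableSet A → (∀ x y, E x y → (x ∈ A ↔ y ∈ A)) → μ A = 1 →
      ∃ f : Y → X, Measurable f ∧ (∀ y, f y ∈ A) ∧ ∀ y z, F c y z ↔ E (f y) (f z))
    (t : ℕ → X × ℕ → X × ℕ) (ht : ∀ n, Measurable (t n))
    (hd : ∀ (σ : Measure (X × ℕ)), IsFiniteMeasure σ → ∀ T₀ : X × ℕ → X × ℕ, Measurable T₀ → (∀ x, Et E x (T₀ x)) →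
        ∀ ε : ENNReal, ε ≠ 0 → ∃ n, σ {x | t n x ≠ T₀ x} ≤ ε)
    (Ψ : W × Y → X × ℕ) (hΨ : Measurable Ψ)
    (hΨ' : ∀ f : Y → X × ℕ, Measurable f → ∃ w : W, ∀ᵐ y ∂nu, Ψ (w, y) = f y)
    (ε : ENNReal) (hε : ε ≠ 0) :
    ∃ n : Fin 6 → ℕ, ∀ N, MeasurableSet N → μ N = 0 →
      ∃ w ∈ Rset Ψ E c (fun s => t (n s)) ε, nu {y | (Ψ (w, y)).1 ∈ N} < 1 := by
  by_contra hcon
  have hcon' : ∀ n : Fin 6 → ℕ, ∃ N, MeasurableSet N ∧ μ N = 0 ∧
      ∀ w ∈ Rset Ψ E c (fun s => t (n s)) ε, 1 ≤ nu {y | (Ψ (w, y)).1 ∈ N} := by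
    intro n
    by_contra h
    refine hcon ⟨n, fun N hN hN0 => ?_⟩
    by_contra h'
    refine h ⟨N, hN, hN0, fun w hw => ?_⟩
    by_contra h''
    exact h' ⟨w, hw, not_le.1 h''⟩
  choose N hN hN0 hN1 using hcon'
  have hMm : MeasurableSet (⋃ n, N n) := MeasurableSet.iUnion hN
  have hM0 : μ (⋃ n, N n) = 0 := measure_iUnion_null hN0
  have hM'm : MeasurableSet (⋃ k, (θ k) ⁻¹' (⋃ n, N n)) := MeasurableSet.iUnion fun k => (θ k).measurable hMm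
  have hM'0 : μ (⋃ k, (θ k) ⁻¹' (⋃ n, N n)) = 0 := by
    refine measure_iUnion_null fun k => ?_
    rw [(hm k).measure_preimage hMm.nullMeasurableSet]
    exact hM0
  have hinv : ∀ x y, E x y → y ∈ (⋃ k, (θ k) ⁻¹' (⋃ n, N n)) → x ∈ (⋃ k, (θ k) ⁻¹' (⋃ n, N n)) := by
    intro x y hxy hy
    obtain ⟨k, hk⟩ := Set.mem_iUnion.1 hy
    obtain ⟨l, hl⟩ := hθ.cover x (θ k y) (hθ.equiv.trans hxy (hθ.sub k y))
    refine Set.mem_iUnion.2 ⟨l, ?_⟩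
    rw [Set.mem_preimage, hl]
    exact hk
  have hsub : (⋃ n, N n) ⊆ ⋃ k, (θ k) ⁻¹' (⋃ n, N n) := by
    intro x hx
    obtain ⟨l, hl⟩ := hθ.cover x x (hθ.equiv.refl x)
    refine Set.mem_iUnion.2 ⟨l, ?_⟩
    rw [Set.mem_preimage, hl]
    exact hx
  obtain ⟨f, hf, hfA, hfE⟩ := hU (⋃ k, (θ k) ⁻¹' (⋃ n, N n))ᶜ hM'm.compl
    (fun x y hxy => by
      rw [Set.mem_compl_iff, Set.mem_compl_iff]
      exact not_congr ⟨hinv y x (hθ.equiv.symm hxy), hinv x y hxy⟩)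
    (by rw [prob_compl_eq_one_iff hM'm]; exact hM'0)
  obtain ⟨n, w, hw, hwf⟩ := exists_code Ψ hΨ hΨ' E hE c t ht hd ε hε f hf hfE
  have h1 := hN1 n w hw
  have h0 : nu {y | (Ψ (w, y)).1 ∈ N n} = 0 := by
    have h2 : ∀ᵐ y ∂nu, (Ψ (w, y)).1 ∉ N n := by
      filter_upwards [hwf] with y hy hy'
      rw [hy] at hy'
      exact hfA y (hsub (Set.mem_iUnion.2 ⟨n, hy'⟩))
    have h3 := ae_iff.1 h2
    simpa only [not_not] using h3
  rw [h0] at h1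
  exact absurd h1 (by simp)

end Pool.MPb8ab30
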