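import Pool.Agent.Lib_MP_b8ab30.Defs

/-!
# Piece RELT: relative property (T) in characteristic two

`A = R × R` acts by commuting involutive isometries `π a` on the real Hilbert space `H`; the four isometries `M12, M12t, M21, M21t` satisfy
`M (π a v) = π (w a) (M v)` with `w = f12 1, f12 t, f21 1, f21 t` (`t = Polynomial.X`).  If `ζ` is nearly fixed by the six operators then `A` has a
non-zero fixed vector.

PROOF.  (0) `π a (π a v) = v` (`a + a = 0`), all `π a` commute and are self-adjoint.  For `k : ℕ` let `p k v = (v + π (t^k,0) v)/2`, `p' k v = (v - π (t^k,0) v)/2`,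
`q k`, `q' k` the same with `(0,t^k)`: commuting orthogonal projections.  Fix `n`.  `A k = p 0 ... p (k-1) p' k` for `k < n`, `A n = p 0 ... p (n-1)`; `B l` the same with
`q`.  `ζ = ∑_(k,l ≤ n) ζ k l`, `ζ k l = A k (B l ζ)`, orthogonal.  `H k l` = range of `A k B l` = vectors with `π (t^i,0) v = v` for `i < k`, `π (t^k,0) v = -v` if `k < n`,
and the same with `(0,t^i)`, `l`.  For a set `C` of pairs `P C` = projection onto the sum of the `H k l`, `(k,l) ∈ C`, `m C = ‖P C ζ‖^2 = ∑_(C) ‖ζ k l‖^2`.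
(1) KEY LEMMA.  `M` an isometry with `‖M ζ - ζ‖ ≤ δ` and `M (H k l) ⊆ H_D` (the range of `P D`) for all `(k,l) ∈ C`.  Then `m C ≤ m D + 3 δ`.
Proof: `ζ = a + b`, `a = P C ζ ⊥ b`; `M a ∈ H_D`, `⟪M ζ, M a⟫ = ⟪ζ, a⟫ = ‖a‖^2`, so `‖P D (M ζ)‖ ≥ ‖a‖`; and `‖P D (M ζ)‖ ≤ ‖P D ζ‖ + δ`; square, all norms `≤ 1`, `δ ≤ 1`.
(2) `Bad = {k = 0 or l = 0}` (with `n ≥ 1`): `‖π (1,0) ζ - ζ‖^2 = 4 m {k = 0}`, so `m Bad ≤ δ^2/2 =: β`.
(3) `M12t` maps `H k l` (`1 ≤ k ≤ l ≤ n`, `k < n`) into `H k (k-1)`: for `v ∈ H k l` `π (0,t^i) (M v) = M (π (t^(i+1), t^i) v) = M (π (t^(i+1),0) (π (0,t^i) v))`, which is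
`M v` for `i < k - 1` and `- M v` for `i = k - 1` (because `k - 1 < l`); and `π (t^i,0) (M v) = M (π (t^i,0) v)`.  So with `L = {k < l}`, `G = {l < k}`,
`Q = {k = l < n}`: `m L + m Q - β ≤ m G + 3 δ`.  By symmetry (`M21t`) `m G + m Q - β ≤ m L + 3 δ`.  Adding: `m Q ≤ β + 3 δ`.
(4) `M12` maps `H k l`, `k < l`, into `H k k` (`π (0,t^i) (M v) = M (π (t^i,0) (π (0,t^i) v))`): `m L ≤ m Q + 3 δ ≤ β + 6 δ`; symmetrically (`M21`) `m G ≤ β + 6 δ`.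
So `m {(n,n)} ≥ ‖ζ‖^2 - 3 β - 15 δ ≥ 3/4 - 1/3 > 1/4`.
(5) `ζ n n =: ξ n` is fixed by `π (t^i,0)`, `π (0,t^i)`, `i < n`, `‖ξ n‖^2 ≥ 1/4`, and `ξ (n+1) = p n (q n (ξ n))` is an orthogonal projection of `ξ n`, so
`‖ξ n - ξ m‖^2 = ‖ξ n‖^2 - ‖ξ m‖^2` for `n ≤ m`: Cauchy.  The limit `ξ` is non-zero and fixed by all `π (t^i,0)`, `π (0,t^i)`, hence (additivity, every polynomial over `ZMod 2`
is a sum of monomials) by all `π a`.
-/

set_option autoImplicit false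

open scoped RealInnerProductSpace

namespace Pool.MPb8ab30

section

variable {H : Type} [NormedAddCommGroup H] [InnerProductSpace ℝ H]

/-- Commuting symmetric involutions. -/
private structure RelT_Inv (x : ℕ → H →ₗ[ℝ] H) : Prop where
  sq : ∀ i v, x i (x i v) = v
  comm : ∀ i j v, x i (x j v) = x j (x i v)
  symm : ∀ i v w, ⟪x i v, w⟫ = ⟪v, x i w⟫

/-- The projection onto the vectors fixed by `x i`, `i < k`. -/
private noncomputable def RelT_pr (x : ℕ → H →ₗ[ℝ] H) : ℕ → H →ₗ[ℝ] H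
  | 0 => LinearMap.id
  | k + 1 => (1 / 2 : ℝ) • (RelT_pr x k + x k ∘ₗ RelT_pr x k)

private theorem RelT_pr_zero (x : ℕ → H →ₗ[ℝ] H) (v : H) : RelT_pr x 0 v = v := rfl

private theorem RelT_pr_succ (x : ℕ → H →ₗ[ℝ] H) (k : ℕ) (v : H) :
    RelT_pr x (k + 1) v = (1 / 2 : ℝ) • (RelT_pr x k v + x k (RelT_pr x k v)) := rfl

private theorem RelT_pr_fix {x : ℕ → H →ₗ[ℝ] H} (hx : RelT_Inv x) (k : ℕ) :
    ∀ i, i < k → ∀ v, x i (RelT_pr x k v) = RelT_pr x k v := by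
  induction k with
  | zero => intro i hi; exact absurd hi (Nat.not_lt_zero i)
  | succ k ih =>
    intro i hi v
    rw [RelT_pr_succ, map_smul, map_add]
    rcases Nat.lt_succ_iff_lt_or_eq.mp hi with h | h
    · rw [hx.comm i k, ih i h v]
    · rw [h, hx.sq, add_comm]

private theorem RelT_pr_comm {x : ℕ → H →ₗ[ℝ] H} (T : H →ₗ[ℝ] H)
    (hT : ∀ i v, T (x i v) = x i (T v)) (k : ℕ) : ∀ v, T (RelT_pr x k v) = RelT_pr x k (T v) := by
  induction k with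
  | zero => intro v; rfl
  | succ k ih =>
    intro v
    rw [RelT_pr_succ, RelT_pr_succ, map_smul, map_add, hT, ih]

/-- `u` is fixed by `x i`, `i < k`, and `x k u = - u` if `k < n`. -/
private def RelT_Val (x : ℕ → H →ₗ[ℝ] H) (n k : ℕ) (u : H) : Prop :=
  (∀ i, i < k → x i u = u) ∧ (k < n → x k u = - u)

/-- The projection onto the vectors with `RelT_Val x n k`. -/
private noncomputable def RelT_A (x : ℕ → H →ₗ[ℝ] H) (n k : ℕ) : H →ₗ[ℝ] H :=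
  if k < n then RelT_pr x k - RelT_pr x (k + 1) else RelT_pr x k

private theorem RelT_A_val {x : ℕ → H →ₗ[ℝ] H} (hx : RelT_Inv x) (n k : ℕ) (v : H) :
    RelT_Val x n k (RelT_A x n k v) := by
  unfold RelT_A
  by_cases h : k < n
  · rw [if_pos h]
    refine ⟨fun i hi => ?_, fun _ => ?_⟩
    · rw [LinearMap.sub_apply, map_sub, RelT_pr_fix hx k i hi,
        RelT_pr_fix hx (k + 1) i (Nat.lt_succ_of_lt hi)]
    · rw [LinearMap.sub_apply, map_sub, RelT_pr_fix hx (k + 1) k (Nat.lt_succ_self k),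
        RelT_pr_succ]
      module
  · rw [if_neg h]
    exact ⟨fun i hi => RelT_pr_fix hx k i hi v, fun h' => absurd h' h⟩

private theorem RelT_A_comm {x : ℕ → H →ₗ[ℝ] H} (T : H →ₗ[ℝ] H)
    (hT : ∀ i v, T (x i v) = x i (T v)) (n k : ℕ) (v : H) :
    T (RelT_A x n k v) = RelT_A x n k (T v) := by
  unfold RelT_A
  by_cases h : k < n
  · rw [if_pos h, LinearMap.sub_apply, LinearMap.sub_apply, map_sub, RelT_pr_comm T hT,
      RelT_pr_comm T hT]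
  · rw [if_neg h, RelT_pr_comm T hT]

private theorem RelT_A_sum (x : ℕ → H →ₗ[ℝ] H) (n : ℕ) (v : H) :
    ∑ k ∈ Finset.range (n + 1), RelT_A x n k v = v := by
  rw [Finset.sum_range_succ]
  have h1 : ∑ k ∈ Finset.range n, RelT_A x n k v =
      ∑ k ∈ Finset.range n, (RelT_pr x k v - RelT_pr x (k + 1) v) := by
    refine Finset.sum_congr rfl fun k hk => ?_
    unfold RelT_A
    rw [if_pos (Finset.mem_range.mp hk), LinearMap.sub_apply]
  have h2 : RelT_A x n n v = RelT_pr x n v := by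
    unfold RelT_A
    rw [if_neg (lt_irrefl n)]
  rw [h1, h2, Finset.sum_range_sub' (fun k => RelT_pr x k v), RelT_pr_zero, sub_add_cancel]

private theorem RelT_orth_lt {x : ℕ → H →ₗ[ℝ] H} (hx : RelT_Inv x) {n k j : ℕ} {u u' : H}
    (h : RelT_Val x n k u) (h' : RelT_Val x n j u') (hj : j ≤ n) (hkj : k < j) : ⟪u, u'⟫ = 0 := by
  have h1 : x k u = - u := h.2 (lt_of_lt_of_le hkj hj)
  have h2 : x k u' = u' := h'.1 k hkj
  have h3 := hx.symm k u u'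
  rw [h1, h2, inner_neg_left] at h3
  linarith

private theorem RelT_orth {x : ℕ → H →ₗ[ℝ] H} (hx : RelT_Inv x) {n k j : ℕ} {u u' : H}
    (h : RelT_Val x n k u) (h' : RelT_Val x n j u') (hk : k ≤ n) (hj : j ≤ n) (hkj : k ≠ j) :
    ⟪u, u'⟫ = 0 := by
  rcases Nat.lt_or_gt_of_ne hkj with h1 | h1
  · exact RelT_orth_lt hx h h' hj h1
  · rw [real_inner_comm]
    exact RelT_orth_lt hx h' h hk h1

/-- Pythagoras. -/
private theorem RelT_pyth {ι : Type} [DecidableEq ι] {S C : Finset ι} (hC : C ⊆ S) {z : ι → H}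
    (ho : ∀ i ∈ S, ∀ j ∈ S, i ≠ j → ⟪z i, z j⟫ = 0) :
    ⟪∑ j ∈ S, z j, ∑ i ∈ C, z i⟫ = ∑ i ∈ C, ‖z i‖ ^ 2 := by
  rw [inner_sum]
  refine Finset.sum_congr rfl fun i hi => ?_
  rw [sum_inner, Finset.sum_eq_single_of_mem i (hC hi) fun j hj hji => ho j hj i (hC hi) hji,
    real_inner_self_eq_norm_sq]

/-- (1) the key lemma. -/
private theorem RelT_key {ι : Type} [DecidableEq ι] {S C D : Finset ι} (hC : C ⊆ S) (hD : D ⊆ S)
    {z : ι → H} (ho : ∀ i ∈ S, ∀ j ∈ S, i ≠ j → ⟪z i, z j⟫ = 0) {ζ : H}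
    (hz : ∑ j ∈ S, z j = ζ) (hζ : ‖ζ‖ ≤ 1) {δ : ℝ} (hδ1 : δ ≤ 1) (M : H →ₗᵢ[ℝ] H)
    (hM : ‖M ζ - ζ‖ ≤ δ) (h : ∀ i ∈ C, ∀ j ∈ S, j ∉ D → ⟪z j, M (z i)⟫ = 0) :
    ∑ i ∈ C, ‖z i‖ ^ 2 ≤ ∑ i ∈ D, ‖z i‖ ^ 2 + 3 * δ := by
  have hδ0 : 0 ≤ δ := (norm_nonneg _).trans hM
  obtain ⟨a, ha⟩ : ∃ a, a = ∑ i ∈ C, z i := ⟨_, rfl⟩
  obtain ⟨d, hd⟩ : ∃ d, d = ∑ i ∈ D, z i := ⟨_, rfl⟩
  have a1 : ‖a‖ ^ 2 = ∑ i ∈ C, ‖z i‖ ^ 2 := by
    rw [← real_inner_self_eq_norm_sq, ha]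
    exact RelT_pyth (le_refl C) fun i hi j hj => ho i (hC hi) j (hC hj)
  have d1 : ‖d‖ ^ 2 = ∑ i ∈ D, ‖z i‖ ^ 2 := by
    rw [← real_inner_self_eq_norm_sq, hd]
    exact RelT_pyth (le_refl D) fun i hi j hj => ho i (hD hi) j (hD hj)
  have a2 : ⟪ζ, a⟫ = ‖a‖ ^ 2 := by
    rw [a1, ← hz, ha]
    exact RelT_pyth hC ho
  have d2 : ⟪ζ, d⟫ = ‖d‖ ^ 2 := by
    rw [d1, ← hz, hd]
    exact RelT_pyth hD ho
  have a3 : ⟪ζ, M a⟫ = ⟪d, M a⟫ := by
    rw [← hz, hd, ha, map_sum, inner_sum, inner_sum]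
    refine Finset.sum_congr rfl fun i hi => ?_
    rw [sum_inner, sum_inner]
    exact (Finset.sum_subset hD fun j hj hjD => h i hi j hj hjD).symm
  have a4 : ⟪M ζ, M a⟫ = ‖a‖ ^ 2 := by rw [M.inner_map_map, a2]
  have a5 : ‖M a‖ = ‖a‖ := M.norm_map a
  have a6 : ⟪M ζ - ζ, M a⟫ ≤ δ * ‖a‖ := by
    refine (real_inner_le_norm _ _).trans ?_
    rw [a5]
    exact mul_le_mul_of_nonneg_right hM (norm_nonneg _)
  have a7 : ⟪d, M a⟫ ≤ ‖d‖ * ‖a‖ := by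
    refine (real_inner_le_norm _ _).trans ?_
    rw [a5]
  rw [inner_sub_left, a4, a3] at a6
  have d3 : ‖d‖ ≤ 1 := by
    have h1 : ‖d‖ ^ 2 ≤ ‖ζ‖ * ‖d‖ := by
      rw [← d2]
      exact real_inner_le_norm _ _
    by_contra hc
    push Not at hc
    nlinarith [norm_nonneg d, norm_nonneg ζ]
  rw [← a1, ← d1]
  rcases (norm_nonneg a).eq_or_lt with h0 | h0
  · rw [← h0]
    nlinarith [norm_nonneg d]
  · have h1 : ‖a‖ ≤ ‖d‖ + δ := by
      by_contra hc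
      push Not at hc
      nlinarith
    nlinarith [norm_nonneg d, norm_nonneg a]

/-- The components of `ζ`. -/
private noncomputable def RelT_c (x y : ℕ → H →ₗ[ℝ] H) (n : ℕ) (ζ : H) (i : ℕ × ℕ) : H :=
  RelT_A x n i.1 (RelT_A y n i.2 ζ)

private theorem RelT_c_val {x y : ℕ → H →ₗ[ℝ] H} (hx : RelT_Inv x) (hy : RelT_Inv y)
    (hxy : ∀ i j v, x i (y j v) = y j (x i v)) (n : ℕ) (ζ : H) (i : ℕ × ℕ) :
    RelT_Val x n i.1 (RelT_c x y n ζ i) ∧ RelT_Val y n i.2 (RelT_c x y n ζ i) := by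
  refine ⟨RelT_A_val hx n i.1 _, ?_⟩
  have h := RelT_A_val hy n i.2 ζ
  have hT : ∀ j v, y j (RelT_A x n i.1 v) = RelT_A x n i.1 (y j v) := fun j v =>
    RelT_A_comm (y j) (fun i v => (hxy i j v).symm) n i.1 v
  unfold RelT_c
  refine ⟨fun j hj => ?_, fun hj => ?_⟩
  · rw [hT, h.1 j hj]
  · rw [hT, h.2 hj, map_neg]

private theorem RelT_c_row (x y : ℕ → H →ₗ[ℝ] H) (n : ℕ) (ζ : H) (k : ℕ) :
    ∑ l ∈ Finset.range (n + 1), RelT_c x y n ζ (k, l) = RelT_A x n k ζ := by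
  show ∑ l ∈ Finset.range (n + 1), RelT_A x n k (RelT_A y n l ζ) = RelT_A x n k ζ
  rw [← map_sum, RelT_A_sum]

private theorem RelT_c_col (x y : ℕ → H →ₗ[ℝ] H) (n : ℕ) (ζ : H) (l : ℕ) :
    ∑ k ∈ Finset.range (n + 1), RelT_c x y n ζ (k, l) = RelT_A y n l ζ := by
  show ∑ k ∈ Finset.range (n + 1), RelT_A x n k (RelT_A y n l ζ) = RelT_A y n l ζ
  rw [RelT_A_sum]

private theorem RelT_c_sum (x y : ℕ → H →ₗ[ℝ] H) (n : ℕ) (ζ : H) :
    ∑ i ∈ Finset.range (n + 1) ×ˢ Finset.range (n + 1), RelT_c x y n ζ i = ζ := by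
  rw [Finset.sum_product]
  simp only [RelT_c_row, RelT_A_sum]

private theorem RelT_A_zero {x : ℕ → H →ₗ[ℝ] H} {n : ℕ} (hn : 0 < n) (ζ : H) :
    ‖RelT_A x n 0 ζ‖ ^ 2 = ‖x 0 ζ - ζ‖ ^ 2 / 4 := by
  have h : RelT_A x n 0 ζ = (-(1 / 2) : ℝ) • (x 0 ζ - ζ) := by
    unfold RelT_A
    rw [if_pos hn, LinearMap.sub_apply, RelT_pr_succ, RelT_pr_zero]
    module
  rw [h, norm_smul, mul_pow]
  norm_num
  ring

/-- The estimate on the finite level. -/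
private theorem RelT_fin {x y : ℕ → H →ₗ[ℝ] H} (hx : RelT_Inv x) (hy : RelT_Inv y)
    (hxy : ∀ i j v, x i (y j v) = y j (x i v)) {n : ℕ} (hn : 0 < n) {ζ : H} (hζ1 : ‖ζ‖ ≤ 1)
    (hζ2 : 3 / 4 ≤ ‖ζ‖ ^ 2) {δ : ℝ} (hδ : δ ≤ 1 / 50) (M12 M12t M21 M21t : H →ₗᵢ[ℝ] H)
    (h12 : ∀ k l u, k < l → l ≤ n → RelT_Val x n k u → RelT_Val y n l u →
      RelT_Val x n k (M12 u) ∧ RelT_Val y n k (M12 u))
    (h12t : ∀ k l u, 0 < k → k ≤ l → k < n → RelT_Val x n k u → RelT_Val y n l u →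
      RelT_Val x n k (M12t u) ∧ RelT_Val y n (k - 1) (M12t u))
    (h21 : ∀ k l u, l < k → k ≤ n → RelT_Val x n k u → RelT_Val y n l u →
      RelT_Val x n l (M21 u) ∧ RelT_Val y n l (M21 u))
    (h21t : ∀ k l u, 0 < l → l ≤ k → l < n → RelT_Val x n k u → RelT_Val y n l u →
      RelT_Val x n (l - 1) (M21t u) ∧ RelT_Val y n l (M21t u))
    (d1 : ‖x 0 ζ - ζ‖ ≤ δ) (d2 : ‖y 0 ζ - ζ‖ ≤ δ) (d3 : ‖M12 ζ - ζ‖ ≤ δ) (d4 : ‖M12t ζ - ζ‖ ≤ δ)
    (d5 : ‖M21 ζ - ζ‖ ≤ δ) (d6 : ‖M21t ζ - ζ‖ ≤ δ) :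
    1 / 4 ≤ ‖RelT_c x y n ζ (n, n)‖ ^ 2 := by
  have hδ0 : 0 ≤ δ := (norm_nonneg _).trans d1
  have hδ1 : δ ≤ 1 := by linarith
  obtain ⟨S, hS⟩ : ∃ S, S = Finset.range (n + 1) ×ˢ Finset.range (n + 1) := ⟨_, rfl⟩
  obtain ⟨z, hz⟩ : ∃ z : ℕ × ℕ → H, z = RelT_c x y n ζ := ⟨_, rfl⟩
  have hmS : ∀ i : ℕ × ℕ, i ∈ S ↔ i.1 ≤ n ∧ i.2 ≤ n := by
    intro i
    rw [hS, Finset.mem_product, Finset.mem_range, Finset.mem_range]
    omega
  have hsum : ∑ i ∈ S, z i = ζ := by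
    rw [hS, hz]
    exact RelT_c_sum x y n ζ
  have hv : ∀ i, RelT_Val x n i.1 (z i) ∧ RelT_Val y n i.2 (z i) := by
    rw [hz]
    exact RelT_c_val hx hy hxy n ζ
  -- orthogonality to a vector of a given type
  have hort : ∀ (j : ℕ × ℕ) (k l : ℕ) (u : H), j ∈ S → k ≤ n → l ≤ n → ¬ (j.1 = k ∧ j.2 = l) →
      RelT_Val x n k u → RelT_Val y n l u → ⟪z j, u⟫ = 0 := by
    intro j k l u hj hk hl hne hu hu'
    rw [hmS] at hj
    by_cases h1 : j.1 = k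
    · exact RelT_orth hy (hv j).2 hu' hj.2 hl fun e => hne ⟨h1, e⟩
    · exact RelT_orth hx (hv j).1 hu hj.1 hk h1
  have ho : ∀ i ∈ S, ∀ j ∈ S, i ≠ j → ⟪z i, z j⟫ = 0 := by
    intro i hi j hj hij
    refine hort i j.1 j.2 (z j) hi ((hmS j).mp hj).1 ((hmS j).mp hj).2 ?_ (hv j).1 (hv j).2
    rintro ⟨e1, e2⟩
    exact hij (Prod.ext e1 e2)
  obtain ⟨f, hf⟩ : ∃ f : ℕ × ℕ → ℝ, f = fun i => ‖z i‖ ^ 2 := ⟨_, rfl⟩
  have hf0 : ∀ i, 0 ≤ f i := fun i => by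
    rw [hf]
    exact sq_nonneg _
  obtain ⟨L, hL⟩ : ∃ L, L = S.filter fun i => i.1 < i.2 := ⟨_, rfl⟩
  obtain ⟨G, hG⟩ : ∃ G, G = S.filter fun i => i.2 < i.1 := ⟨_, rfl⟩
  obtain ⟨Q, hQ⟩ : ∃ Q, Q = S.filter fun i => i.1 = i.2 ∧ i.1 < n := ⟨_, rfl⟩
  obtain ⟨C1, hC1⟩ : ∃ C, C = S.filter fun i => 0 < i.1 ∧ i.1 ≤ i.2 ∧ i.1 < n := ⟨_, rfl⟩
  obtain ⟨C2, hC2⟩ : ∃ C, C = S.filter fun i => 0 < i.2 ∧ i.2 ≤ i.1 ∧ i.2 < n := ⟨_, rfl⟩
  obtain ⟨Z1, hZ1⟩ : ∃ C, C = S.filter fun i => i.1 = 0 := ⟨_, rfl⟩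
  obtain ⟨Z2, hZ2⟩ : ∃ C, C = S.filter fun i => i.2 = 0 := ⟨_, rfl⟩
  have key := fun (C D : Finset (ℕ × ℕ)) (hC : C ⊆ S) (hD : D ⊆ S) (M : H →ₗᵢ[ℝ] H)
    (hM : ‖M ζ - ζ‖ ≤ δ) (h : ∀ i ∈ C, ∀ j ∈ S, j ∉ D → ⟪z j, M (z i)⟫ = 0) =>
    RelT_key hC hD ho hsum hζ1 hδ1 M hM h
  have sub : ∀ P : ℕ × ℕ → Prop, [DecidablePred P] → S.filter P ⊆ S := fun P _ =>
    Finset.filter_subset P S
  have k1 : ∑ i ∈ C1, f i ≤ ∑ i ∈ G, f i + 3 * δ := by
    rw [hf]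
    refine key C1 G (hC1 ▸ sub _) (hG ▸ sub _) M12t d4 ?_
    intro i hi j hj hjG
    rw [hC1, Finset.mem_filter, hmS] at hi
    rw [hG, Finset.mem_filter, not_and] at hjG
    have h1 := hjG hj
    obtain ⟨e1, e2⟩ := h12t i.1 i.2 (z i) hi.2.1 hi.2.2.1 hi.2.2.2 (hv i).1 (hv i).2
    refine hort j i.1 (i.1 - 1) _ hj hi.1.1 (by omega) ?_ e1 e2
    rintro ⟨e3, e4⟩
    omega
  have k2 : ∑ i ∈ C2, f i ≤ ∑ i ∈ L, f i + 3 * δ := by
    rw [hf]
    refine key C2 L (hC2 ▸ sub _) (hL ▸ sub _) M21t d6 ?_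
    intro i hi j hj hjG
    rw [hC2, Finset.mem_filter, hmS] at hi
    rw [hL, Finset.mem_filter, not_and] at hjG
    have h1 := hjG hj
    obtain ⟨e1, e2⟩ := h21t i.1 i.2 (z i) hi.2.1 hi.2.2.1 hi.2.2.2 (hv i).1 (hv i).2
    refine hort j (i.2 - 1) i.2 _ hj (by omega) hi.1.2 ?_ e1 e2
    rintro ⟨e3, e4⟩
    omega
  have k3 : ∑ i ∈ L, f i ≤ ∑ i ∈ Q, f i + 3 * δ := by
    rw [hf]
    refine key L Q (hL ▸ sub _) (hQ ▸ sub _) M12 d3 ?_
    intro i hi j hj hjG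
    rw [hL, Finset.mem_filter, hmS] at hi
    rw [hQ, Finset.mem_filter, not_and] at hjG
    have h1 := hjG hj
    obtain ⟨e1, e2⟩ := h12 i.1 i.2 (z i) hi.2 hi.1.2 (hv i).1 (hv i).2
    refine hort j i.1 i.1 _ hj hi.1.1 hi.1.1 ?_ e1 e2
    rintro ⟨e3, e4⟩
    exact h1 ⟨by omega, by omega⟩
  have k4 : ∑ i ∈ G, f i ≤ ∑ i ∈ Q, f i + 3 * δ := by
    rw [hf]
    refine key G Q (hG ▸ sub _) (hQ ▸ sub _) M21 d5 ?_
    intro i hi j hj hjG
    rw [hG, Finset.mem_filter, hmS] at hi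
    rw [hQ, Finset.mem_filter, not_and] at hjG
    have h1 := hjG hj
    obtain ⟨e1, e2⟩ := h21 i.1 i.2 (z i) hi.2 hi.1.1 (hv i).1 (hv i).2
    refine hort j i.2 i.2 _ hj hi.1.2 hi.1.2 ?_ e1 e2
    rintro ⟨e3, e4⟩
    exact h1 ⟨by omega, by omega⟩
  have z1 : ∑ i ∈ Z1, f i ≤ δ ^ 2 / 4 := by
    have e0 : Z1 = (Finset.range (n + 1)).image fun l => ((0 : ℕ), l) := by
      ext i
      rw [hZ1, Finset.mem_filter, hmS, Finset.mem_image]
      constructor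
      · rintro ⟨e1, e2⟩
        exact ⟨i.2, Finset.mem_range.mpr (by omega), Prod.ext e2.symm rfl⟩
      · rintro ⟨l, hl, rfl⟩
        rw [Finset.mem_range] at hl
        exact ⟨⟨by simp, by show l ≤ n; omega⟩, rfl⟩
    have e1 : ∑ i ∈ Z1, z i = RelT_A x n 0 ζ := by
      rw [e0, Finset.sum_image (fun a _ b _ e => congrArg Prod.snd e), hz]
      exact RelT_c_row x y n ζ 0
    have e2 : ∑ i ∈ Z1, f i = ‖RelT_A x n 0 ζ‖ ^ 2 := by
      rw [hf, ← e1, ← real_inner_self_eq_norm_sq]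
      have hs : Z1 ⊆ S := hZ1 ▸ sub _
      exact (RelT_pyth (le_refl Z1) fun i hi j hj => ho i (hs hi) j (hs hj)).symm
    rw [e2, RelT_A_zero hn]
    have := pow_le_pow_left₀ (norm_nonneg _) d1 2
    linarith
  have z2 : ∑ i ∈ Z2, f i ≤ δ ^ 2 / 4 := by
    have e0 : Z2 = (Finset.range (n + 1)).image fun k => (k, (0 : ℕ)) := by
      ext i
      rw [hZ2, Finset.mem_filter, hmS, Finset.mem_image]
      constructor
      · rintro ⟨e1, e2⟩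
        exact ⟨i.1, Finset.mem_range.mpr (by omega), Prod.ext rfl e2.symm⟩
      · rintro ⟨l, hl, rfl⟩
        rw [Finset.mem_range] at hl
        exact ⟨⟨by show l ≤ n; omega, by simp⟩, rfl⟩
    have e1 : ∑ i ∈ Z2, z i = RelT_A y n 0 ζ := by
      rw [e0, Finset.sum_image (fun a _ b _ e => congrArg Prod.fst e), hz]
      exact RelT_c_col x y n ζ 0
    have e2 : ∑ i ∈ Z2, f i = ‖RelT_A y n 0 ζ‖ ^ 2 := by
      rw [hf, ← e1, ← real_inner_self_eq_norm_sq]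
      have hs : Z2 ⊆ S := hZ2 ▸ sub _
      exact (RelT_pyth (le_refl Z2) fun i hi j hj => ho i (hs hi) j (hs hj)).symm
    rw [e2, RelT_A_zero hn]
    have := pow_le_pow_left₀ (norm_nonneg _) d2 2
    linarith
  have u1 : ∑ i ∈ L, f i + ∑ i ∈ Q, f i ≤ ∑ i ∈ C1, f i + ∑ i ∈ Z1, f i := by
    have hd : Disjoint L Q := by
      rw [Finset.disjoint_left]
      intro i h1 h2
      rw [hL, Finset.mem_filter] at h1
      rw [hQ, Finset.mem_filter] at h2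
      omega
    have hd' : Disjoint C1 Z1 := by
      rw [Finset.disjoint_left]
      intro i h1 h2
      rw [hC1, Finset.mem_filter] at h1
      rw [hZ1, Finset.mem_filter] at h2
      omega
    rw [← Finset.sum_union hd, ← Finset.sum_union hd']
    refine Finset.sum_le_sum_of_subset_of_nonneg ?_ fun i _ _ => hf0 i
    intro i hi
    rw [Finset.mem_union, hL, hQ, Finset.mem_filter, Finset.mem_filter, hmS] at hi
    rw [Finset.mem_union, hC1, hZ1, Finset.mem_filter, Finset.mem_filter, hmS]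
    omega
  have u2 : ∑ i ∈ G, f i + ∑ i ∈ Q, f i ≤ ∑ i ∈ C2, f i + ∑ i ∈ Z2, f i := by
    have hd : Disjoint G Q := by
      rw [Finset.disjoint_left]
      intro i h1 h2
      rw [hG, Finset.mem_filter] at h1
      rw [hQ, Finset.mem_filter] at h2
      omega
    have hd' : Disjoint C2 Z2 := by
      rw [Finset.disjoint_left]
      intro i h1 h2
      rw [hC2, Finset.mem_filter] at h1
      rw [hZ2, Finset.mem_filter] at h2
      omega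
    rw [← Finset.sum_union hd, ← Finset.sum_union hd']
    refine Finset.sum_le_sum_of_subset_of_nonneg ?_ fun i _ _ => hf0 i
    intro i hi
    rw [Finset.mem_union, hG, hQ, Finset.mem_filter, Finset.mem_filter, hmS] at hi
    rw [Finset.mem_union, hC2, hZ2, Finset.mem_filter, Finset.mem_filter, hmS]
    omega
  have tot : ∑ i ∈ S, f i = ‖ζ‖ ^ 2 := by
    rw [← real_inner_self_eq_norm_sq, hf]
    conv_rhs => rw [← hsum]
    exact (RelT_pyth (le_refl S) ho).symm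
  have cov : ∑ i ∈ S, f i ≤ ∑ i ∈ L, f i + ∑ i ∈ G, f i + ∑ i ∈ Q, f i + f (n, n) := by
    have h1 : S ⊆ ((L ∪ G) ∪ Q) ∪ {(n, n)} := by
      intro i hi
      have h2 := (hmS i).mp hi
      rw [Finset.mem_union, Finset.mem_union, Finset.mem_union, hL, hG, hQ, Finset.mem_filter,
        Finset.mem_filter, Finset.mem_filter, Finset.mem_singleton, Prod.ext_iff]
      simp only [hi, true_and]
      omega
    have hun : ∀ A B : Finset (ℕ × ℕ), ∑ i ∈ A ∪ B, f i ≤ ∑ i ∈ A, f i + ∑ i ∈ B, f i := by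
      intro A B
      rw [← Finset.sum_union_inter]
      have := Finset.sum_nonneg (s := A ∩ B) fun i _ => hf0 i
      linarith
    have h3 := Finset.sum_le_sum_of_subset_of_nonneg h1 fun i _ _ => hf0 i
    have h4 := hun ((L ∪ G) ∪ Q) {(n, n)}
    have h5 := hun (L ∪ G) Q
    have h6 := hun L G
    rw [Finset.sum_singleton] at h4
    linarith
  have hfin : f (n, n) = ‖RelT_c x y n ζ (n, n)‖ ^ 2 := by rw [hf, hz]
  rw [← hfin]
  nlinarith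

end

section

variable {H : Type} [NormedAddCommGroup H] [InnerProductSpace ℝ H]

/-- `ζ - ζ n n` is orthogonal to the vectors fixed by `x i`, `y i`, `i < n`. -/
private theorem RelT_proj {x y : ℕ → H →ₗ[ℝ] H} (hx : RelT_Inv x) (hy : RelT_Inv y)
    (hxy : ∀ i j v, x i (y j v) = y j (x i v)) (n : ℕ) (ζ u : H) (h1 : ∀ i, i < n → x i u = u)
    (h2 : ∀ i, i < n → y i u = u) : ⟪ζ, u⟫ = ⟪RelT_c x y n ζ (n, n), u⟫ := by
  conv_lhs => rw [← RelT_c_sum x y n ζ]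
  rw [sum_inner]
  have hu : RelT_Val x n n u := ⟨h1, fun h => absurd h (lt_irrefl n)⟩
  have hu' : RelT_Val y n n u := ⟨h2, fun h => absurd h (lt_irrefl n)⟩
  refine Finset.sum_eq_single_of_mem (n, n) ?_ ?_
  · exact Finset.mem_product.mpr ⟨Finset.self_mem_range_succ n, Finset.self_mem_range_succ n⟩
  · intro i hi hne
    rw [Finset.mem_product, Finset.mem_range, Finset.mem_range] at hi
    obtain ⟨e1, e2⟩ := RelT_c_val hx hy hxy n ζ i
    by_cases h : i.1 = n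
    · exact RelT_orth hy e2 hu' (by omega) (le_refl n) fun e => hne (Prod.ext h e)
    · exact RelT_orth hx e1 hu (by omega) (le_refl n) h

/-- (5) the limit. -/
private theorem RelT_lim [CompleteSpace H] {x y : ℕ → H →ₗ[ℝ] H} (hx : RelT_Inv x)
    (hy : RelT_Inv y) (hxy : ∀ i j v, x i (y j v) = y j (x i v)) (cx : ∀ i, Continuous (x i))
    (cy : ∀ i, Continuous (y i)) {ζ : H}
    (h : ∀ n, 0 < n → 1 / 4 ≤ ‖RelT_c x y n ζ (n, n)‖ ^ 2) :
    ∃ ξ : H, ξ ≠ 0 ∧ (∀ i, x i ξ = ξ) ∧ ∀ i, y i ξ = ξ := by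
  obtain ⟨v, hv⟩ : ∃ v : ℕ → H, v = fun n => RelT_c x y n ζ (n, n) := ⟨_, rfl⟩
  have fx : ∀ n i, i < n → x i (v n) = v n := fun n => by
    rw [hv]
    exact (RelT_c_val hx hy hxy n ζ (n, n)).1.1
  have fy : ∀ n i, i < n → y i (v n) = v n := fun n => by
    rw [hv]
    exact (RelT_c_val hx hy hxy n ζ (n, n)).2.1
  have pr : ∀ n m, n ≤ m → ⟪v n, v m⟫ = ‖v m‖ ^ 2 := by
    intro n m hnm
    have e1 := RelT_proj hx hy hxy n ζ (v m) (fun i hi => fx m i (lt_of_lt_of_le hi hnm))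
      fun i hi => fy m i (lt_of_lt_of_le hi hnm)
    have e2 := RelT_proj hx hy hxy m ζ (v m) (fx m) (fy m)
    have e3 : RelT_c x y n ζ (n, n) = v n := by rw [hv]
    have e4 : RelT_c x y m ζ (m, m) = v m := by rw [hv]
    rw [e3] at e1
    rw [e4, real_inner_self_eq_norm_sq] at e2
    rw [← e1, e2]
  have ds : ∀ n m, n ≤ m → ‖v n - v m‖ ^ 2 = ‖v n‖ ^ 2 - ‖v m‖ ^ 2 := by
    intro n m hnm
    rw [norm_sub_sq_real, pr n m hnm]
    ring
  have anti : Antitone fun n => ‖v n‖ ^ 2 := by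
    intro n m hnm
    have := ds n m hnm
    have := sq_nonneg ‖v n - v m‖
    show ‖v m‖ ^ 2 ≤ ‖v n‖ ^ 2
    linarith
  have bdd : BddBelow (Set.range fun n => ‖v n‖ ^ 2) := ⟨0, by
    rintro _ ⟨n, rfl⟩
    exact sq_nonneg _⟩
  have ta := tendsto_atTop_ciInf anti bdd
  set a : ℝ := ⨅ n, ‖v n‖ ^ 2 with ha
  have hle : ∀ n, a ≤ ‖v n‖ ^ 2 := fun n => ciInf_le bdd n
  have hc : CauchySeq v := by
    refine cauchySeq_of_le_tendsto_0' (fun n => Real.sqrt (‖v n‖ ^ 2 - a)) ?_ ?_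
    · intro n m hnm
      rw [dist_eq_norm]
      refine Real.le_sqrt_of_sq_le ?_
      rw [ds n m hnm]
      linarith [hle m]
    · have h1 : Filter.Tendsto (fun n => ‖v n‖ ^ 2 - a) Filter.atTop (nhds (a - a)) :=
        ta.sub_const a
      rw [sub_self] at h1
      have h2 := (Real.continuous_sqrt.tendsto 0).comp h1
      rw [Real.sqrt_zero] at h2
      exact h2
  obtain ⟨ξ, hξ⟩ := cauchySeq_tendsto_of_complete hc
  refine ⟨ξ, ?_, ?_, ?_⟩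
  · rintro rfl
    have h1 : Filter.Tendsto (fun n => ‖v n‖ ^ 2) Filter.atTop (nhds (‖(0 : H)‖ ^ 2)) :=
      (hξ.norm).pow 2
    have h2 : (1 / 4 : ℝ) ≤ ‖(0 : H)‖ ^ 2 := by
      refine ge_of_tendsto h1 ?_
      filter_upwards [Filter.eventually_gt_atTop 0] with n hn
      rw [hv]
      exact h n hn
    rw [norm_zero] at h2
    norm_num at h2
  · intro i
    refine tendsto_nhds_unique (((cx i).tendsto ξ).comp hξ) (hξ.congr' ?_)
    filter_upwards [Filter.eventually_gt_atTop i] with n hn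
    exact (fx n i hn).symm
  · intro i
    refine tendsto_nhds_unique (((cy i).tendsto ξ).comp hξ) (hξ.congr' ?_)
    filter_upwards [Filter.eventually_gt_atTop i] with n hn
    exact (fy n i hn).symm

/-- Transport by an isometry like `M12`. -/
private theorem RelT_t1 {x y : ℕ → H →ₗ[ℝ] H} (M : H →ₗᵢ[ℝ] H)
    (h1 : ∀ i u, x i (M u) = M (x i u)) (h2 : ∀ i u, y i (M u) = M (x i (y i u))) {n k l : ℕ}
    {u : H} (hkl : k < l) (hu : RelT_Val x n k u) (hu' : RelT_Val y n l u) :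
    RelT_Val x n k (M u) ∧ RelT_Val y n k (M u) := by
  refine ⟨⟨fun i hi => ?_, fun hi => ?_⟩, ⟨fun i hi => ?_, fun hi => ?_⟩⟩
  · rw [h1, hu.1 i hi]
  · rw [h1, hu.2 hi, map_neg]
  · rw [h2, hu'.1 i (hi.trans hkl), hu.1 i hi]
  · rw [h2, hu'.1 k hkl, hu.2 hi, map_neg]

/-- Transport by an isometry like `M12t`. -/
private theorem RelT_t2 {x y : ℕ → H →ₗ[ℝ] H} (M : H →ₗᵢ[ℝ] H)
    (h1 : ∀ i u, x i (M u) = M (x i u)) (h2 : ∀ i u, y i (M u) = M (x (i + 1) (y i u)))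
    {n k l : ℕ} {u : H} (hk : 0 < k) (hkl : k ≤ l) (hkn : k < n) (hu : RelT_Val x n k u)
    (hu' : RelT_Val y n l u) : RelT_Val x n k (M u) ∧ RelT_Val y n (k - 1) (M u) := by
  obtain ⟨j, rfl⟩ : ∃ j, k = j + 1 := ⟨k - 1, by omega⟩
  refine ⟨⟨fun i hi => ?_, fun hi => ?_⟩, ⟨fun i hi => ?_, fun hi => ?_⟩⟩
  · rw [h1, hu.1 i hi]
  · rw [h1, hu.2 hi, map_neg]
  · rw [Nat.add_sub_cancel] at hi
    rw [h2, hu'.1 i (by omega), hu.1 (i + 1) (by omega)]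
  · rw [Nat.add_sub_cancel, h2, hu'.1 j (by omega), hu.2 hkn, map_neg]

end

theorem relT {H : Type} [NormedAddCommGroup H] [InnerProductSpace ℝ H] [CompleteSpace H]
    (π : R × R → H →ₗᵢ[ℝ] H) (hπ0 : ∀ v, π 0 v = v) (hπ : ∀ a b v, π (a + b) v = π a (π b v))
    (M12 M12t M21 M21t : H →ₗᵢ[ℝ] H)
    (h12 : ∀ a v, M12 (π a v) = π (f12 1 a) (M12 v))
    (h12t : ∀ a v, M12t (π a v) = π (f12 Polynomial.X a) (M12t v))
    (h21 : ∀ a v, M21 (π a v) = π (f21 1 a) (M21 v))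
    (h21t : ∀ a v, M21t (π a v) = π (f21 Polynomial.X a) (M21t v))
    (ζ : H) (hζ1 : ‖ζ‖ ≤ 1) (hζ2 : 3 / 4 ≤ ‖ζ‖ ^ 2) (δ : ℝ) (hδ : δ ≤ 1 / 50)
    (d1 : ‖π (1, 0) ζ - ζ‖ ≤ δ) (d2 : ‖π (0, 1) ζ - ζ‖ ≤ δ) (d3 : ‖M12 ζ - ζ‖ ≤ δ) (d4 : ‖M12t ζ - ζ‖ ≤ δ)
    (d5 : ‖M21 ζ - ζ‖ ≤ δ) (d6 : ‖M21t ζ - ζ‖ ≤ δ) :
    ∃ ξ : H, ξ ≠ 0 ∧ ∀ a, π a ξ = ξ := by
  have hR : ∀ r : R, r + r = 0 := fun r => CharTwo.add_self_eq_zero r
  have hsq : ∀ a v, π a (π a v) = v := by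
    intro a v
    rw [← hπ, Prod.ext (hR a.1) (hR a.2) (x := a + a) (y := 0), hπ0]
  have hcm : ∀ a b v, π a (π b v) = π b (π a v) := by
    intro a b v
    rw [← hπ, ← hπ, add_comm]
  have hsy : ∀ a v w, ⟪π a v, w⟫ = ⟪v, π a w⟫ := by
    intro a v w
    conv_lhs => rw [← hsq a w]
    exact (π a).inner_map_map v (π a w)
  obtain ⟨x, hxd⟩ : ∃ x : ℕ → H →ₗ[ℝ] H, ∀ i v, x i v = π (Polynomial.X ^ i, 0) v :=
    ⟨fun i => (π (Polynomial.X ^ i, 0)).toLinearMap, fun _ _ => rfl⟩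
  obtain ⟨y, hyd⟩ : ∃ y : ℕ → H →ₗ[ℝ] H, ∀ i v, y i v = π (0, Polynomial.X ^ i) v :=
    ⟨fun i => (π (0, Polynomial.X ^ i)).toLinearMap, fun _ _ => rfl⟩
  have hx : RelT_Inv x := ⟨fun i v => by rw [hxd, hxd, hsq], fun i j v => by
    rw [hxd, hxd, hxd, hxd, hcm], fun i v w => by rw [hxd, hxd, hsy]⟩
  have hy : RelT_Inv y := ⟨fun i v => by rw [hyd, hyd, hsq], fun i j v => by
    rw [hyd, hyd, hyd, hyd, hcm], fun i v w => by rw [hyd, hyd, hsy]⟩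
  have hxy : ∀ i j v, x i (y j v) = y j (x i v) := fun i j v => by
    rw [hxd, hyd, hyd, hxd, hcm]
  have cx : ∀ i, Continuous (x i) := fun i =>
    (π (Polynomial.X ^ i, 0)).continuous.congr fun v => (hxd i v).symm
  have cy : ∀ i, Continuous (y i) := fun i =>
    (π (0, Polynomial.X ^ i)).continuous.congr fun v => (hyd i v).symm
  -- the two mixed translations
  have mix : ∀ (r s : R) v, π (r, s) v = π (r, 0) (π (0, s) v) := by
    intro r s v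
    rw [← hπ, Prod.mk_add_mk, add_zero, zero_add]
  have a1 : ∀ i u, x i (M12 u) = M12 (x i u) := by
    intro i u
    rw [hxd, hxd, h12, f12]
    show _ = π (Polynomial.X ^ i + 1 * 0, 0) (M12 u)
    rw [mul_zero, add_zero]
  have a2 : ∀ i u, y i (M12 u) = M12 (x i (y i u)) := by
    intro i u
    rw [hxd, hyd, hyd, ← mix, h12, f12]
    show _ = π (Polynomial.X ^ i + 1 * Polynomial.X ^ i, Polynomial.X ^ i) (M12 u)
    rw [one_mul, hR]
  have b1 : ∀ i u, x i (M12t u) = M12t (x i u) := by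
    intro i u
    rw [hxd, hxd, h12t, f12]
    show _ = π (Polynomial.X ^ i + Polynomial.X * 0, 0) (M12t u)
    rw [mul_zero, add_zero]
  have b2 : ∀ i u, y i (M12t u) = M12t (x (i + 1) (y i u)) := by
    intro i u
    rw [hxd, hyd, hyd, ← mix, h12t, f12]
    show _ = π (Polynomial.X ^ (i + 1) + Polynomial.X * Polynomial.X ^ i, Polynomial.X ^ i)
      (M12t u)
    rw [pow_succ', hR]
  have c1 : ∀ i u, y i (M21 u) = M21 (y i u) := by
    intro i u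
    rw [hyd, hyd, h21, f21]
    show _ = π (0, Polynomial.X ^ i + 1 * 0) (M21 u)
    rw [mul_zero, add_zero]
  have c2 : ∀ i u, x i (M21 u) = M21 (y i (x i u)) := by
    intro i u
    rw [hyd, hxd, hxd, hcm, ← mix, h21, f21]
    show _ = π (Polynomial.X ^ i, Polynomial.X ^ i + 1 * Polynomial.X ^ i) (M21 u)
    rw [one_mul, hR]
  have e1 : ∀ i u, y i (M21t u) = M21t (y i u) := by
    intro i u
    rw [hyd, hyd, h21t, f21]
    show _ = π (0, Polynomial.X ^ i + Polynomial.X * 0) (M21t u)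
    rw [mul_zero, add_zero]
  have e2 : ∀ i u, x i (M21t u) = M21t (y (i + 1) (x i u)) := by
    intro i u
    rw [hyd, hxd, hxd, hcm, ← mix, h21t, f21]
    show _ = π (Polynomial.X ^ i, Polynomial.X ^ (i + 1) + Polynomial.X * Polynomial.X ^ i)
      (M21t u)
    rw [pow_succ', hR]
  obtain ⟨ξ, hξ, fx, fy⟩ := RelT_lim (ζ := ζ) hx hy hxy cx cy fun n hn =>
    RelT_fin hx hy hxy hn hζ1 hζ2 hδ M12 M12t M21 M21t
      (fun _ _ _ hkl _ hu hu' => RelT_t1 M12 a1 a2 hkl hu hu')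
      (fun _ _ _ hk hkl hkn hu hu' => RelT_t2 M12t b1 b2 hk hkl hkn hu hu')
      (fun _ _ _ hkl _ hu hu' => (RelT_t1 M21 c1 c2 hkl hu' hu).symm)
      (fun _ _ _ hl hkl hln hu hu' => (RelT_t2 M21t e1 e2 hl hkl hln hu' hu).symm)
      (by rw [hxd, pow_zero]; exact d1) (by rw [hyd, pow_zero]; exact d2) d3 d4 d5 d6
  refine ⟨ξ, hξ, ?_⟩
  have g1 : ∀ r : R, π (r, 0) ξ = ξ := by
    intro r
    induction r using Polynomial.induction_on' with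
    | add p q hp hq =>
      have e : ((p + q, 0) : R × R) = (p, 0) + (q, 0) := by
        rw [Prod.mk_add_mk, add_zero]
      rw [e, hπ, hq, hp]
    | monomial n a =>
      rw [← Polynomial.C_mul_X_pow_eq_monomial]
      have ha : a = 0 ∨ a = 1 := by
        revert a
        decide
      rcases ha with rfl | rfl
      · rw [map_zero, zero_mul]
        exact hπ0 ξ
      · rw [map_one, one_mul, ← hxd]
        exact fx n
  have g2 : ∀ r : R, π (0, r) ξ = ξ := by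
    intro r
    induction r using Polynomial.induction_on' with
    | add p q hp hq =>
      have e : ((0, p + q) : R × R) = (0, p) + (0, q) := by
        rw [Prod.mk_add_mk, add_zero]
      rw [e, hπ, hq, hp]
    | monomial n a =>
      rw [← Polynomial.C_mul_X_pow_eq_monomial]
      have ha : a = 0 ∨ a = 1 := by
        revert a
        decide
      rcases ha with rfl | rfl
      · rw [map_zero, zero_mul]
        exact hπ0 ξ
      · rw [map_one, one_mul, ← hyd]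
        exact fy n
  rintro ⟨r, s⟩
  rw [mix, g2, g1]

end Pool.MPb8ab30
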