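import Pool.Agent.Lib_MP_b8ab30.TwoA

/-!
# Piece TWO: two data for independent `c, c'` with the same `t` and close densities are contradictory

PROOF.  `η` from `exists_eta`.  `prod_of_invariant`: `η` is the image of `(nu.prod nu).prod η₀`, `η₀ = η.map (fun p => (p.1.2, p.2.2))`, and `η₀ ≠ 0`.
`η {p | ¬ E (Φ p.1) (Φ' p.2)} = 0` gives: for `η₀`-a.e. `(w,w')` and `nu.prod nu`-a.e. `(y,y')`: `E (Φ (y,w)) (Φ' (y',w'))` (the set is measurable: `hE`, `D.meas`, `D'.meas`).  For `η₀`-a.e. `(w,w')` also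
`(nu.prod nu) {p | E (Φ (p.1,w)) (Φ (p.2,w))} = 0` (`D.nontriv` and `η.map (fun p => p.1.2) ≪ P`).  `η₀ ≠ 0`, so such `(w,w')` exists; Fubini gives `y'` with `E (Φ (y,w)) (Φ' (y',w'))` for
a.e. `y`, so `E (Φ (y₁,w)) (Φ (y₂,w))` for a.e. `(y₁,y₂)`: the set of measure `0` has full measure `1`: contradiction.
-/

set_option autoImplicit false

open MeasureTheory ProbabilityTheory

namespace Pool.MPb8ab30

theorem no_two {X : Type} [MeasurableSpace X] [StandardBorelSpace X] (μ : Measure X) [SigmaFinite μ]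
    (E : X → X → Prop) (hE : MeasurableSet {p : X × X | E p.1 p.2}) (θ : ℕ → X ≃ᵐ X) (hθ : Gen E θ)
    (hm : ∀ k, MeasurePreserving (θ k) μ μ) (t : Fin 6 → X → X) (ht : ∀ s, Measurable (t s)) (htE : ∀ s x, E x (t s x))
    (c c' : T) (hc : Ind c c') (ε : ENNReal) (hε : ε ≤ ENNReal.ofReal (1 / 1000000))
    (P P' : Measure W) (Φ Φ' : Y × W → X) (D : IsDatum E μ c t ε P Φ) (D' : IsDatum E μ c' t ε P' Φ')
    (h1 : ∫⁻ x, (((nu.prod P).map Φ).rnDeriv μ x - ((nu.prod P').map Φ').rnDeriv μ x) ∂μ ≤ ε)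
    (h2 : ∫⁻ x, (((nu.prod P').map Φ').rnDeriv μ x - ((nu.prod P).map Φ).rnDeriv μ x) ∂μ ≤ ε) : False := by
  obtain ⟨η, hfin, hne, hinv, hE0, hac⟩ := exists_eta μ E hE θ hθ hm t ht htE c c' ε hε P P' Φ Φ' D D' h1 h2
  have := hfin
  have := D.prob
  have := D'.prob
  have hprod := prod_of_invariant c c' hc η hinv
  have mW : Measurable (fun p : (Y × W) × (Y × W) => (p.1.2, p.2.2)) := by fun_prop
  have mq : Measurable (fun q : (Y × Y) × (W × W) => ((q.1.1, q.2.1), (q.1.2, q.2.2))) := by fun_prop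
  obtain ⟨η₀, hη₀⟩ : ∃ η₀ : Measure (W × W), η₀ = η.map (fun p => (p.1.2, p.2.2)) := ⟨_, rfl⟩
  rw [← hη₀] at hprod
  have : IsFiniteMeasure η₀ := by rw [hη₀]; infer_instance
  -- the relation holds almost everywhere
  have ha : ∀ᵐ p ∂η, E (Φ p.1) (Φ' p.2) := hE0
  rw [hprod] at ha
  have hb : ∀ᵐ q ∂((nu.prod nu).prod η₀), E (Φ (q.1.1, q.2.1)) (Φ' (q.1.2, q.2.2)) := ae_of_ae_map mq.aemeasurable ha
  have hc1 : ∀ᵐ q ∂(η₀.prod (nu.prod nu)), E (Φ (q.2.1, q.1.1)) (Φ' (q.2.2, q.1.2)) := by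
    have h3 := (Measure.measurePreserving_swap (μ := η₀) (ν := nu.prod nu)).quasiMeasurePreserving.ae hb
    exact h3
  have hd : ∀ᵐ w ∂η₀, ∀ᵐ p ∂(nu.prod nu), E (Φ (p.1, w.1)) (Φ' (p.2, w.2)) := Measure.ae_ae_of_ae_prod hc1
  have he : ∀ᵐ w ∂η₀, (nu.prod nu) {p : Y × Y | E (Φ (p.1, w.1)) (Φ (p.2, w.1))} = 0 := by
    have h3 : ∀ᵐ w ∂(η.map (fun p => p.1.2)), (nu.prod nu) {p : Y × Y | E (Φ (p.1, w)) (Φ (p.2, w))} = 0 := hac.ae_le D.nontriv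
    have h4 : η.map (fun p => p.1.2) = η₀.map Prod.fst := by
      rw [hη₀, Measure.map_map measurable_fst mW]
      rfl
    rw [h4] at h3
    exact ae_of_ae_map measurable_fst.aemeasurable h3
  have hne0 : η₀ ≠ 0 := by
    intro h3
    apply hne
    rw [hprod, h3]
    simp
  have : (ae η₀).NeBot := ae_neBot.2 hne0
  obtain ⟨w, hw1, hw2⟩ := (hd.and he).exists
  have hf : ∀ᵐ y' ∂nu, ∀ᵐ y ∂nu, E (Φ (y, w.1)) (Φ' (y', w.2)) := by
    have h3 : ∀ᵐ p ∂(nu.prod nu), E (Φ (p.2, w.1)) (Φ' (p.1, w.2)) :=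
      (Measure.measurePreserving_swap (μ := nu) (ν := nu)).quasiMeasurePreserving.ae hw1
    exact Measure.ae_ae_of_ae_prod h3
  obtain ⟨y', hy'⟩ := hf.exists
  have hg1 : ∀ᵐ p ∂(nu.prod nu), E (Φ (p.1, w.1)) (Φ' (y', w.2)) := Measure.quasiMeasurePreserving_fst.ae hy'
  have hg2 : ∀ᵐ p ∂(nu.prod nu), E (Φ (p.2, w.1)) (Φ' (y', w.2)) := Measure.quasiMeasurePreserving_snd.ae hy'
  have hg : ∀ᵐ p ∂(nu.prod nu), E (Φ (p.1, w.1)) (Φ (p.2, w.1)) := by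
    filter_upwards [hg1, hg2] with p h3 h4
    exact hθ.equiv.trans h3 (hθ.equiv.symm h4)
  have hz : (nu.prod nu) Set.univ = 0 := by
    have h3 : (nu.prod nu) {p : Y × Y | ¬ E (Φ (p.1, w.1)) (Φ (p.2, w.1))} = 0 := hg
    have h5 : (nu.prod nu) Set.univ ≤ (nu.prod nu) {p : Y × Y | E (Φ (p.1, w.1)) (Φ (p.2, w.1))} + (nu.prod nu) {p : Y × Y | ¬ E (Φ (p.1, w.1)) (Φ (p.2, w.1))} := by
      refine (measure_mono ?_).trans (measure_union_le _ _)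
      intro p _
      by_cases h6 : E (Φ (p.1, w.1)) (Φ (p.2, w.1))
      · exact Or.inl h6
      · exact Or.inr h6
    rw [hw2, h3, add_zero] at h5
    exact le_antisymm h5 bot_le
  rw [measure_univ] at hz
  exact one_ne_zero hz

end Pool.MPb8ab30
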