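import Pool.Agent.Lib_MP_b8ab30.Zet

/-!
# Piece ZETB: `zet` is nearly invariant

PROOF.  Write `r x = K x univ`, `r' x = K' x univ`, `M = max r r'`, `b = min r r'`; `r r' = b M`.
`zet_mul`: let `W = inv2 t`, `B = {u | Φ (s u) ≠ t (Φ u)} ∪ {u | K (Φ (s u)) univ = 0}` (the second set is `m`-null: `m {u | K (Φ u) univ = 0} = 0` by `Dis.int`, and
`s` preserves `m`; it is removed because `zet` is `0`, not `∞`, where `M = 0`), and likewise `B' = {u' | Φ' (s' u') ≠ t (Φ' u')}`, `D = {p | Φ p.1 = Φ' p.2}`,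
`G = {p ∈ D | p.1 ∉ B, p.2 ∉ B', Φ p.1 ∈ W}`.  For `p ∈ G` with `x = Φ p.1` the point `(s p.1, s' p.2)` lies in `D` over `t x`, so
`zet (s p.1, s' p.2) * zet p = (M (t x) M x)^(-1/2) ≥ (M x)⁻¹ * q x`, `q x = min 1 (M x / M (t x))` (because `√y ≥ min 1 y`).  By `lam_diag`
`∫⁻ ofReal (zet (s ·, s' ·) * zet ·) dlam ≥ ∫⁻_G ≥ ∫⁻ x in W, (M x)⁻¹ q x (K x × K' x) {u ∉ B, u' ∉ B'} dμ`, and
`(K x × K' x) {u ∉ B, u' ∉ B'} + (K x B) r' x + (K' x B') r x ≥ r x r' x`.  Dividing by `M x` and using `q ≤ 1`, `r, r' ≤ M`: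
`b x q x ≤ (M x)⁻¹ q x (K x × K' x) {..} + K x B + K' x B'`.  And `b x ≤ b x q x + (M (t x) - M x)` (if `M (t x) ≤ M x` then `q x = 1`; otherwise
`b x (1 - M x / M (t x)) ≤ M (t x) - M x` since `b x ≤ M (t x)`).  Hence
`∫⁻_W b ≤ ∫⁻ ofReal (...) dlam + m B + m' B' + ∫⁻_W (M (t x) - M x)`.  Finally `∫⁻_W b ≥ ∫⁻ b - ∫⁻_(Wᶜ) r ≥ ∫⁻ b - 2 ε` (`near_inv2`, `∫⁻_(Wᶜ) r = m {Φ u ∉ W}`), `∫⁻ b ≥ 1 - ε`,
`m B, m' B' ≤ ε` (`B'` does not need the second part), and `M (t x) - M x ≤ (r (t x) - r x) + (r' (t x) - r (t x))`, so `∫⁻_W (M (t x) - M x) ≤ 3 ε + ε` (`near_dens`; `inv2_preserve` with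
`g = r' - r`).  Total `≤ 9 ε`.
-/

set_option autoImplicit false

open MeasureTheory ProbabilityTheory

namespace Pool.MPb8ab30

private theorem ZetB_fib {X U : Type} [MeasurableSpace X] [MeasurableSpace U] {m : Measure U} {μ : Measure X}
    {Φ : U → X} {K : Kernel X U} (h : Dis m μ Φ K) {A : Set U} (hA : MeasurableSet A) :
    ∫⁻ x, K x A ∂μ = m A := by
  have h1 := h.int (fun p => A.indicator 1 p.1) ((measurable_one.indicator hA).comp measurable_fst)
  simp only [lintegral_indicator_one hA] at h1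
  exact h1.symm

private theorem ZetB_base {X U : Type} [MeasurableSpace X] [MeasurableSpace U] {m : Measure U} {μ : Measure X}
    {Φ : U → X} (hΦ : Measurable Φ) {K : Kernel X U} (h : Dis m μ Φ K) {C : Set X} (hC : MeasurableSet C) :
    ∫⁻ x, C.indicator (fun x => K x Set.univ) x ∂μ = m {u | Φ u ∈ C} := by
  have h1 := h.int (fun p => C.indicator 1 p.2) ((measurable_one.indicator hC).comp measurable_snd)
  have h2 : ∫⁻ u, C.indicator 1 (Φ u) ∂m = m {u | Φ u ∈ C} := lintegral_indicator_one (hΦ hC)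
  have h3 : ∀ x, ∫⁻ _u : U, C.indicator (1 : X → ENNReal) x ∂(K x) = C.indicator (fun x => K x Set.univ) x := by
    intro x
    rw [lintegral_const]
    by_cases hx : x ∈ C
    · rw [Set.indicator_of_mem hx, Set.indicator_of_mem hx, Pi.one_apply, one_mul]
    · rw [Set.indicator_of_notMem hx, Set.indicator_of_notMem hx, zero_mul]
  calc ∫⁻ x, C.indicator (fun x => K x Set.univ) x ∂μ = ∫⁻ x, ∫⁻ _u : U, C.indicator (1 : X → ENNReal) x ∂(K x) ∂μ :=
        lintegral_congr fun x => (h3 x).symm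
    _ = ∫⁻ u, C.indicator 1 (Φ u) ∂m := h1.symm
    _ = _ := h2

private theorem ZetB_null {X U : Type} [MeasurableSpace X] [MeasurableSpace U] {m : Measure U} {μ : Measure X}
    {Φ : U → X} (hΦ : Measurable Φ) {K : Kernel X U} (h : Dis m μ Φ K) :
    m {u | K (Φ u) Set.univ = 0} = 0 := by
  have hS : MeasurableSet {x : X | K x Set.univ = 0} :=
    (Kernel.measurable_coe K MeasurableSet.univ) (measurableSet_singleton 0)
  have h1 := ZetB_base hΦ h hS
  rw [show {u | K (Φ u) Set.univ = 0} = {u | Φ u ∈ {x : X | K x Set.univ = 0}} from rfl, ← h1]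
  have h2 : ∀ x, ({x : X | K x Set.univ = 0}).indicator (fun x => K x Set.univ) x = 0 := by
    intro x
    by_cases hx : x ∈ {x : X | K x Set.univ = 0}
    · rw [Set.indicator_of_mem hx]
      exact hx
    · rw [Set.indicator_of_notMem hx]
  simp only [h2, lintegral_zero]

/-- the weight is at least the inverse of the larger of the two maxima -/
private theorem ZetB_wt (M N : ENNReal) (hM : M ≠ 0) (hM' : M ≠ ⊤) (hN : N ≠ 0) (hN' : N ≠ ⊤) :
    (max M N)⁻¹ ≤ ENNReal.ofReal ((Real.sqrt N.toReal)⁻¹ * (Real.sqrt M.toReal)⁻¹) := by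
  have hm : 0 < M.toReal := ENNReal.toReal_pos hM hM'
  have hn : 0 < N.toReal := ENNReal.toReal_pos hN hN'
  have h1 : Real.sqrt N.toReal * Real.sqrt M.toReal ≤ max M.toReal N.toReal := by
    rw [← Real.sqrt_mul hn.le]
    refine Real.sqrt_le_iff.2 ⟨le_max_of_le_left hm.le, ?_⟩
    rw [sq]
    exact mul_le_mul (le_max_right _ _) (le_max_left _ _) hm.le (le_max_of_le_left hm.le)
  have h2 : 0 < Real.sqrt N.toReal * Real.sqrt M.toReal := mul_pos (Real.sqrt_pos.2 hn) (Real.sqrt_pos.2 hm)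
  have h3 : max M N = ENNReal.ofReal (max M.toReal N.toReal) := by
    rcases le_total M N with h | h
    · rw [max_eq_right h, max_eq_right (ENNReal.toReal_mono hN' h), ENNReal.ofReal_toReal hN']
    · rw [max_eq_left h, max_eq_left (ENNReal.toReal_mono hM' h), ENNReal.ofReal_toReal hM']
  rw [← mul_inv, ENNReal.ofReal_inv_of_pos h2, h3]
  exact ENNReal.inv_le_inv.2 (ENNReal.ofReal_le_ofReal h1)

private theorem ZetB_alg (r r' N a a' : ENNReal) (hr : r ≠ ⊤) (hr' : r' ≠ ⊤) (hN' : N ≠ ⊤) (ha : N = 0 → a = r) :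
    min r r' ≤ ENNReal.ofReal ((Real.sqrt N.toReal)⁻¹ * (Real.sqrt (max r r').toReal)⁻¹) * (r' - a') * (r - a) +
      (a + (a' + (N - max r r'))) := by
  by_cases hN : N = 0
  · calc min r r' ≤ r := min_le_left _ _
      _ = a := (ha hN).symm
      _ ≤ a + (a' + (N - max r r')) := le_self_add
      _ ≤ _ := le_add_self
  by_cases hM : max r r' = 0
  · have h1 : r ≤ 0 := hM ▸ le_max_left r r'
    calc min r r' ≤ r := min_le_left _ _
      _ ≤ 0 := h1
      _ ≤ _ := zero_le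
  have hM' : max r r' ≠ ⊤ := by
    rcases max_choice r r' with h | h
    · rw [h]; exact hr
    · rw [h]; exact hr'
  set M := max r r' with hMdef
  set Q := max M N with hQdef
  have hQ0 : Q ≠ 0 := fun h => hM (le_antisymm (h ▸ le_max_left M N) bot_le)
  have hQt : Q ≠ ⊤ := by
    rcases max_choice M N with h | h
    · rw [hQdef, h]; exact hM'
    · rw [hQdef, h]; exact hN'
  have hw := ZetB_wt M N hM hM' hN hN'
  have hbM : r * r' = M * min r r' := by
    rcases le_total r r' with h | h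
    · rw [hMdef, max_eq_right h, min_eq_left h, mul_comm]
    · rw [hMdef, max_eq_left h, min_eq_right h]
  have hQ : Q = M + (N - M) := by
    rcases le_total M N with h | h
    · rw [hQdef, max_eq_right h, add_tsub_cancel_of_le h]
    · rw [hQdef, max_eq_left h, tsub_eq_zero_of_le h, add_zero]
  have hprod : r * r' ≤ (r' - a') * (r - a) + (M * a + M * a') := by
    calc r * r' ≤ ((r - a) + a) * r' := by gcongr; exact le_tsub_add
      _ = (r - a) * r' + a * r' := by ring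
      _ ≤ (r - a) * ((r' - a') + a') + a * r' := by gcongr; exact le_tsub_add
      _ = (r' - a') * (r - a) + (r' * a + (r - a) * a') := by ring
      _ ≤ (r' - a') * (r - a) + (M * a + M * a') := by
          gcongr
          · exact le_max_right r r'
          · exact tsub_le_self.trans (le_max_left r r')
  have hbQ : min r r' ≤ Q := (min_le_left r r').trans ((le_max_left r r').trans (le_max_left M N))
  have hmain : Q * min r r' ≤ (r' - a') * (r - a) + Q * (a + (a' + (N - M))) := by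
    calc Q * min r r' = M * min r r' + (N - M) * min r r' := by rw [← add_mul, ← hQ]
      _ = r * r' + (N - M) * min r r' := by rw [hbM]
      _ ≤ ((r' - a') * (r - a) + (M * a + M * a')) + (N - M) * Q := by gcongr
      _ ≤ ((r' - a') * (r - a) + (Q * a + Q * a')) + (N - M) * Q := by
          have hMQ : M ≤ Q := le_max_left M N
          gcongr
      _ = _ := by ring
  calc min r r' = Q⁻¹ * (Q * min r r') := by
        rw [← mul_assoc, ENNReal.inv_mul_cancel hQ0 hQt, one_mul]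
    _ ≤ Q⁻¹ * ((r' - a') * (r - a) + Q * (a + (a' + (N - M)))) := by gcongr
    _ = Q⁻¹ * (r' - a') * (r - a) + (a + (a' + (N - M))) := by
        rw [mul_add, ← mul_assoc Q⁻¹ Q, ENNReal.inv_mul_cancel hQ0 hQt, one_mul, mul_assoc]
    _ ≤ _ := by gcongr

/-- lower bound for the inner double integral -/
private theorem ZetB_inner {U U' : Type} [MeasurableSpace U] [MeasurableSpace U'] (ν : Measure U) (ν' : Measure U')
    {A : Set U} {A' : Set U'} (hA : MeasurableSet A) (hA' : MeasurableSet A') (hν : ν Set.univ ≠ ⊤) (hν' : ν' Set.univ ≠ ⊤)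
    (G : U × U' → ENNReal) (c : ENNReal) (P : U → Prop) (P' : U' → Prop) (hP : ∀ᵐ u ∂ν, P u) (hP' : ∀ᵐ u ∂ν', P' u)
    (h : ∀ u u', P u → P' u' → u ∉ A → u' ∉ A' → c ≤ G (u, u')) :
    c * (ν' Set.univ - ν' A') * (ν Set.univ - ν A) ≤ ∫⁻ u, ∫⁻ u', G (u, u') ∂ν' ∂ν := by
  have hAt : ν A ≠ ⊤ := ne_top_of_le_ne_top hν (measure_mono (Set.subset_univ _))
  have hAt' : ν' A' ≠ ⊤ := ne_top_of_le_ne_top hν' (measure_mono (Set.subset_univ _))
  have e1 : ν Set.univ - ν A = ν Aᶜ := (measure_compl hA hAt).symm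
  have e2 : ν' Set.univ - ν' A' = ν' A'ᶜ := (measure_compl hA' hAt').symm
  rw [e1, e2, ← lintegral_indicator_const hA.compl]
  refine lintegral_mono_ae ?_
  filter_upwards [hP] with u hu
  by_cases huA : u ∈ Aᶜ
  · rw [Set.indicator_of_mem huA, ← lintegral_indicator_const hA'.compl]
    refine lintegral_mono_ae ?_
    filter_upwards [hP'] with u' hu'
    by_cases huA' : u' ∈ A'ᶜ
    · rw [Set.indicator_of_mem huA']
      exact h u u' hu hu' huA huA'
    · rw [Set.indicator_of_notMem huA']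
      exact zero_le
  · rw [Set.indicator_of_notMem huA]
    exact zero_le

theorem zet_mul {X U U' : Type} [MeasurableSpace X] [StandardBorelSpace X] [MeasurableSpace U] [MeasurableSpace U']
    {E : X → X → Prop} (θ : ℕ → X ≃ᵐ X) (hθ : Gen E θ)
    (μ : Measure X) (hm : ∀ k, MeasurePreserving (θ k) μ μ)
    {m : Measure U} {m' : Measure U'} [IsProbabilityMeasure m] [IsProbabilityMeasure m']
    {Φ : U → X} {Φ' : U' → X} (hΦ : Measurable Φ) (hΦ' : Measurable Φ')
    {K : Kernel X U} {K' : Kernel X U'} (hK : Dis m μ Φ K) (hK' : Dis m' μ Φ' K') (ε : ENNReal)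
    (hc : ∫⁻ x, (K x Set.univ - K' x Set.univ) ∂μ ≤ ε) (hc' : ∫⁻ x, (K' x Set.univ - K x Set.univ) ∂μ ≤ ε)
    (t : X → X) (ht : Measurable t) (htE : ∀ x, E x (t x))
    (s : U → U) (hs : MeasurePreserving s m m) (hs2 : ∀ u, s (s u) = u) (hε : m {u | Φ (s u) ≠ t (Φ u)} ≤ ε)
    (s' : U' → U') (hs' : MeasurePreserving s' m' m') (hs2' : ∀ u, s' (s' u) = u) (hε' : m' {u | Φ' (s' u) ≠ t (Φ' u)} ≤ ε) :
    1 ≤ ∫⁻ p, ENNReal.ofReal (zet Φ Φ' K K' (s p.1, s' p.2) * zet Φ Φ' K K' p) ∂(lam θ μ K K') + 12 * ε := by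
  have hKs : IsSFiniteKernel K := hK.sfin
  have hKs' : IsSFiniteKernel K' := hK'.sfin
  have hr : Measurable fun x : X => K x Set.univ := Kernel.measurable_coe K MeasurableSet.univ
  have hr' : Measurable fun x : X => K' x Set.univ := Kernel.measurable_coe K' MeasurableSet.univ
  have hMm : Measurable fun x : X => max (K x Set.univ) (K' x Set.univ) := hr.max hr'
  have hA : MeasurableSet {u | Φ (s u) ≠ t (Φ u)} :=
    (measurableSet_eq_fun (hΦ.comp hs.measurable) (ht.comp hΦ)).compl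
  have hA' : MeasurableSet {u | Φ' (s' u) ≠ t (Φ' u)} :=
    (measurableSet_eq_fun (hΦ'.comp hs'.measurable) (ht.comp hΦ')).compl
  have hW : MeasurableSet (inv2 t) := measurableSet_eq_fun (ht.comp ht) measurable_id
  have hG : Measurable fun p : U × U' =>
      ENNReal.ofReal (zet Φ Φ' K K' (s p.1, s' p.2) * zet Φ Φ' K K' p) := by
    have h1 := measurable_zet hΦ hΦ' K K'
    have h2 : Measurable fun p : U × U' => (s p.1, s' p.2) :=
      (hs.measurable.comp measurable_fst).prodMk (hs'.measurable.comp measurable_snd)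
    exact ((h1.comp h2).mul h1).ennreal_ofReal
  -- the fibres over which the density vanishes at the image point
  have hZ : MeasurableSet {u : U | K (Φ (s u)) Set.univ = 0} :=
    (hr.comp (hΦ.comp hs.measurable)) (measurableSet_singleton 0)
  have hZ0 : ∀ᵐ x ∂μ, K x {u : U | K (Φ (s u)) Set.univ = 0} = 0 := by
    have h1 : m {u : U | K (Φ (s u)) Set.univ = 0} = 0 := by
      have h2 : MeasurableSet {u : U | K (Φ u) Set.univ = 0} := (hr.comp hΦ) (measurableSet_singleton 0)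
      have h3 := hs.measure_preimage h2.nullMeasurableSet
      rw [ZetB_null hΦ hK] at h3
      exact h3
    have h4 := ZetB_fib hK hZ
    rw [h1] at h4
    exact (lintegral_eq_zero_iff (Kernel.measurable_coe K hZ)).1 h4
  -- the pointwise inequality
  have hpt : ∀ᵐ x ∂μ, min (K x Set.univ) (K' x Set.univ) ≤
      (∫⁻ u, ∫⁻ u', ENNReal.ofReal (zet Φ Φ' K K' (s u, s' u') * zet Φ Φ' K K' (u, u')) ∂(K' x) ∂(K x)) +
      (K x {u | Φ (s u) ≠ t (Φ u)} + (K' x {u | Φ' (s' u) ≠ t (Φ' u)} +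
        (max (K (t x) Set.univ) (K' (t x) Set.univ) - max (K x Set.univ) (K' x Set.univ)))) := by
    filter_upwards [hK.supp hΦ, hK'.supp hΦ', hZ0] with x hx hx' hz
    have hP : ∀ᵐ u ∂(K x), Φ u = x := by rw [ae_iff]; exact hx
    have hP' : ∀ᵐ u ∂(K' x), Φ' u = x := by rw [ae_iff]; exact hx'
    have hN' : max (K (t x) Set.univ) (K' (t x) Set.univ) ≠ ⊤ := by
      rcases max_choice (K (t x) Set.univ) (K' (t x) Set.univ) with h | h
      · rw [h]; exact hK.fin _
      · rw [h]; exact hK'.fin _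
    have hin := ZetB_inner (K x) (K' x) hA hA' (hK.fin x) (hK'.fin x)
      (fun p : U × U' => ENNReal.ofReal (zet Φ Φ' K K' (s p.1, s' p.2) * zet Φ Φ' K K' p))
      (ENNReal.ofReal ((Real.sqrt (max (K (t x) Set.univ) (K' (t x) Set.univ)).toReal)⁻¹ *
        (Real.sqrt (max (K x Set.univ) (K' x Set.univ)).toReal)⁻¹))
      (fun u => Φ u = x) (fun u => Φ' u = x) hP hP' (by
        intro u u' hu hu' huA huA'
        have e1 : Φ (s u) = t (Φ u) := not_not.1 huA
        have e2 : Φ' (s' u') = t (Φ' u') := not_not.1 huA'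
        have e3 : Φ (s u) = Φ' (s' u') := by rw [e1, e2, hu, hu']
        have e4 : Φ u = Φ' u' := by rw [hu, hu']
        refine le_of_eq ?_
        show _ = ENNReal.ofReal (zet Φ Φ' K K' (s u, s' u') * zet Φ Φ' K K' (u, u'))
        unfold zet
        rw [Set.indicator_of_mem (show (s u, s' u') ∈ {p : U × U' | Φ p.1 = Φ' p.2} from e3),
          Set.indicator_of_mem (show (u, u') ∈ {p : U × U' | Φ p.1 = Φ' p.2} from e4)]
        simp only [e1, hu])
    refine (ZetB_alg (K x Set.univ) (K' x Set.univ) (max (K (t x) Set.univ) (K' (t x) Set.univ))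
      (K x {u | Φ (s u) ≠ t (Φ u)}) (K' x {u | Φ' (s' u) ≠ t (Φ' u)}) (hK.fin x) (hK'.fin x) hN' ?_).trans ?_
    · intro h0
      have h1 : K (t x) Set.univ = 0 := le_antisymm (h0 ▸ le_max_left _ _) bot_le
      refine measure_congr ?_
      have h2 : ∀ᵐ u ∂(K x), ¬ K (Φ (s u)) Set.univ = 0 := by
        rw [ae_iff]
        simpa using hz
      filter_upwards [hP, h2] with u hu hu2
      refine propext ⟨fun _ => trivial, fun _ => ?_⟩
      show Φ (s u) ≠ t (Φ u)
      intro h3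
      rw [h3, hu] at hu2
      exact hu2 h1
    · exact add_le_add hin le_rfl
  -- the four error terms
  have ha : ∫⁻ x, K x {u | Φ (s u) ≠ t (Φ u)} ∂μ ≤ ε := (ZetB_fib hK hA).trans_le hε
  have ha' : ∫⁻ x, K' x {u | Φ' (s' u) ≠ t (Φ' u)} ∂μ ≤ ε := (ZetB_fib hK' hA').trans_le hε'
  have hd : ∫⁻ x, (inv2 t).indicator (fun x => max (K (t x) Set.univ) (K' (t x) Set.univ) -
      max (K x Set.univ) (K' x Set.univ)) x ∂μ ≤ 3 * ε + 3 * ε := by
    rw [lintegral_indicator hW]
    have h1 := near_dens θ hθ μ hm m hΦ hK t ht htE s hs hs2 ε hε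
    have h2 := near_dens θ hθ μ hm m' hΦ' hK' t ht htE s' hs' hs2' ε hε'
    calc ∫⁻ x in inv2 t, (max (K (t x) Set.univ) (K' (t x) Set.univ) - max (K x Set.univ) (K' x Set.univ)) ∂μ
        ≤ ∫⁻ x in inv2 t, ((K (t x) Set.univ - K x Set.univ) + (K' (t x) Set.univ - K' x Set.univ)) ∂μ := by
          refine lintegral_mono fun x => ?_
          rw [tsub_le_iff_right]
          refine max_le ?_ ?_
          · calc K (t x) Set.univ ≤ (K (t x) Set.univ - K x Set.univ) + K x Set.univ := le_tsub_add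
              _ ≤ _ := add_le_add le_self_add (le_max_left _ _)
          · calc K' (t x) Set.univ ≤ (K' (t x) Set.univ - K' x Set.univ) + K' x Set.univ := le_tsub_add
              _ ≤ _ := add_le_add le_add_self (le_max_right _ _)
      _ = ∫⁻ x in inv2 t, (K (t x) Set.univ - K x Set.univ) ∂μ +
            ∫⁻ x in inv2 t, (K' (t x) Set.univ - K' x Set.univ) ∂μ :=
          lintegral_add_left ((hr.comp ht).sub hr) _
      _ ≤ 3 * ε + 3 * ε := add_le_add h1 h2
  have he : ∫⁻ x, (inv2 t)ᶜ.indicator (fun x => K x Set.univ) x ∂μ ≤ 2 * ε := by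
    rw [ZetB_base hΦ hK hW.compl]
    exact near_inv2 m hΦ t ht s hs hs2 ε hε
  have hmd : Measurable fun x => (inv2 t).indicator (fun x => max (K (t x) Set.univ) (K' (t x) Set.univ) -
      max (K x Set.univ) (K' x Set.univ)) x := ((hMm.comp ht).sub hMm).indicator hW
  have hme : Measurable fun x => (inv2 t)ᶜ.indicator (fun x => K x Set.univ) x := hr.indicator hW.compl
  have hma : Measurable fun x => K x {u | Φ (s u) ≠ t (Φ u)} := Kernel.measurable_coe K hA
  have hma' : Measurable fun x => K' x {u | Φ' (s' u) ≠ t (Φ' u)} := Kernel.measurable_coe K' hA'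
  have hmin : ∫⁻ x, min (K x Set.univ) (K' x Set.univ) ∂μ ≤
      ∫⁻ x, ∫⁻ u, ∫⁻ u', ENNReal.ofReal (zet Φ Φ' K K' (s u, s' u') * zet Φ Φ' K K' (u, u')) ∂(K' x) ∂(K x) ∂μ +
        (ε + (ε + ((3 * ε + 3 * ε) + 2 * ε))) := by
    calc ∫⁻ x, min (K x Set.univ) (K' x Set.univ) ∂μ
        ≤ ∫⁻ x, ((∫⁻ u, ∫⁻ u', ENNReal.ofReal (zet Φ Φ' K K' (s u, s' u') * zet Φ Φ' K K' (u, u')) ∂(K' x) ∂(K x)) +
          (K x {u | Φ (s u) ≠ t (Φ u)} + (K' x {u | Φ' (s' u) ≠ t (Φ' u)} +
            ((inv2 t).indicator (fun x => max (K (t x) Set.univ) (K' (t x) Set.univ) -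
              max (K x Set.univ) (K' x Set.univ)) x + (inv2 t)ᶜ.indicator (fun x => K x Set.univ) x)))) ∂μ := by
          refine lintegral_mono_ae ?_
          filter_upwards [hpt] with x hx
          by_cases hxW : x ∈ inv2 t
          · have hxW' : x ∉ (inv2 t)ᶜ := fun h => h hxW
            rw [Set.indicator_of_mem hxW, Set.indicator_of_notMem hxW', add_zero]
            exact hx
          · rw [Set.indicator_of_notMem hxW, Set.indicator_of_mem (show x ∈ (inv2 t)ᶜ from hxW), zero_add]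
            exact (min_le_left _ _).trans (le_add_self.trans (le_add_self.trans le_add_self))
      _ = ∫⁻ x, ∫⁻ u, ∫⁻ u', ENNReal.ofReal (zet Φ Φ' K K' (s u, s' u') * zet Φ Φ' K K' (u, u')) ∂(K' x) ∂(K x) ∂μ +
          (∫⁻ x, K x {u | Φ (s u) ≠ t (Φ u)} ∂μ + (∫⁻ x, K' x {u | Φ' (s' u) ≠ t (Φ' u)} ∂μ +
            (∫⁻ x, (inv2 t).indicator (fun x => max (K (t x) Set.univ) (K' (t x) Set.univ) -
              max (K x Set.univ) (K' x Set.univ)) x ∂μ +
              ∫⁻ x, (inv2 t)ᶜ.indicator (fun x => K x Set.univ) x ∂μ))) := by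
          have hm4 : Measurable fun x => K x {u | Φ (s u) ≠ t (Φ u)} + (K' x {u | Φ' (s' u) ≠ t (Φ' u)} +
            ((inv2 t).indicator (fun x => max (K (t x) Set.univ) (K' (t x) Set.univ) -
              max (K x Set.univ) (K' x Set.univ)) x + (inv2 t)ᶜ.indicator (fun x => K x Set.univ) x)) :=
            hma.add (hma'.add (hmd.add hme))
          rw [lintegral_add_right _ hm4, lintegral_add_left hma, lintegral_add_left hma', lintegral_add_left hmd]
      _ ≤ _ := add_le_add le_rfl (add_le_add ha (add_le_add ha' (add_le_add hd he)))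
  have h1 := zet_sq_ge θ hθ μ hm hΦ hΦ' hK hK' ε hc
  rw [zet_sq θ hθ μ hm hΦ hΦ' hK hK'] at h1
  have h2 := lam_diag θ hθ μ hm hΦ hΦ' hK hK' _ hG
  have h3 : ∫⁻ x, ∫⁻ u, ∫⁻ u', ENNReal.ofReal (zet Φ Φ' K K' (s u, s' u') * zet Φ Φ' K K' (u, u')) ∂(K' x) ∂(K x) ∂μ ≤
      ∫⁻ p, ENNReal.ofReal (zet Φ Φ' K K' (s p.1, s' p.2) * zet Φ Φ' K K' p) ∂(lam θ μ K K') := by
    refine h2.symm.le.trans ?_
    exact setLIntegral_le_lintegral _ _
  calc (1 : ENNReal) ≤ ∫⁻ x, min (K x Set.univ) (K' x Set.univ) ∂μ + ε := h1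
    _ ≤ (∫⁻ p, ENNReal.ofReal (zet Φ Φ' K K' (s p.1, s' p.2) * zet Φ Φ' K K' p) ∂(lam θ μ K K') +
        (ε + (ε + ((3 * ε + 3 * ε) + 2 * ε)))) + ε := add_le_add (hmin.trans (add_le_add h3 le_rfl)) le_rfl
    _ = ∫⁻ p, ENNReal.ofReal (zet Φ Φ' K K' (s p.1, s' p.2) * zet Φ Φ' K K' p) ∂(lam θ μ K K') + 11 * ε := by ring
    _ ≤ _ := by
        gcongr
        norm_num

end Pool.MPb8ab30
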