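import Pool.Agent.Lib_MP_b8ab30.Haar
import Pool.Agent.Lib_MP_b8ab30.LamI
import Pool.Agent.Lib_MP_b8ab30.ZetB
import Pool.Agent.Lib_MP_b8ab30.Koo

/-!
# Piece TWOA: an invariant finite measure carried by `E`

PROOF.  `U = U' = Y × W`, `m = nu.prod P`, `m' = nu.prod P'` (probability measures), `K, K'` from `exists_dis`.  `Dis.dens` turns `h1`, `h2` into `∫⁻ (K x univ - K' x univ) ≤ ε` and the reverse.
`V = (Y × W) × (Y × W)`, `lam = lam θ μ K K'`, `ζ = zet Φ Φ' K K'`, `g j p = ((gen c j p.1.1, p.1.2), (gen c' j p.2.1, p.2.2))` for `j : J`: measure preserving for `lam`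
(`lam_left`, `lam_right`, composition; `(y,w) ↦ (gen c j y, w)` preserves `nu.prod P` by `mp_gen`, and `IsDatum.hom`).  `τ a = g (Sum.inl a)`, `M i = g (six (i+2))`, i.e.
`e12 1, e12 X, e21 1, e21 X`.  `koopman` with `κ = 12 ε`: `tr_zero`, `tr_add`, `e12_tr`, `e21_tr`; `zet_nonneg`, `measurable_zet`, `zet_sq_le`, `zet_sq_ge`, and `zet_mul` for the six special generators
(`gen_gen`; `IsDatum.near` with `t s`).  It gives a finite `η ≠ 0`, `η ≪ lam`, `η.map (τ a) = η`.  `lam_supp` and `η ≪ lam` give `η {p | ¬ E (Φ p.1) (Φ' p.2)} = 0`.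
The last claim: if `P B = 0` then `(nu.prod P) (univ ×ˢ B) = 0 =: m C`, so `lam (C ×ˢ univ) = 0` (`lintegral_lam`, and `∫⁻ x, K x C dμ = m C = 0` by `Dis.int`), so
`η {p | p.1.2 ∈ B} = 0`.
-/

set_option autoImplicit false

open MeasureTheory ProbabilityTheory

namespace Pool.MPb8ab30

/-- the action of a generator on the source -/
private noncomputable def TwoA_h (c : T) (j : J) (u : Y × W) : Y × W := (gen c j u.1, u.2)

private noncomputable def TwoA_g (c c' : T) (j : J) (p : (Y × W) × (Y × W)) : (Y × W) × (Y × W) :=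
  (TwoA_h c j p.1, TwoA_h c' j p.2)

private theorem TwoA_mp (c : T) (j : J) (P : Measure W) [IsProbabilityMeasure P] :
    MeasurePreserving (TwoA_h c j) (nu.prod P) (nu.prod P) :=
  (mp_gen c j).prod (MeasurePreserving.id P)

private theorem TwoA_inv (c : T) (j : J) (u : Y × W) : TwoA_h c j (TwoA_h c j u) = u := by
  unfold TwoA_h
  exact Prod.ext (gen_gen c j u.1) rfl

private noncomputable def TwoA_mi : Fin 4 → J
  | 0 => Sum.inr (Sum.inl 1)
  | 1 => Sum.inr (Sum.inl Polynomial.X)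
  | 2 => Sum.inr (Sum.inr 1)
  | 3 => Sum.inr (Sum.inr Polynomial.X)

private theorem TwoA_six (i : Fin 4) : ∃ s : Fin 6, six s = TwoA_mi i := by
  fin_cases i
  · exact ⟨2, rfl⟩
  · exact ⟨3, rfl⟩
  · exact ⟨4, rfl⟩
  · exact ⟨5, rfl⟩

private theorem TwoA_comm (c : T) (i : Fin 4) (a : R × R) (y : Y) :
    gen c (TwoA_mi i) (gen c (Sum.inl a) y) = gen c (Sum.inl (fA i a)) (gen c (TwoA_mi i) y) := by
  fin_cases i
  · exact e12_tr c 1 a y
  · exact e12_tr c Polynomial.X a y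
  · exact e21_tr c 1 a y
  · exact e21_tr c Polynomial.X a y

private theorem TwoA_null {X : Type} [MeasurableSpace X] [StandardBorelSpace X] (μ : Measure X)
    (θ : ℕ → X ≃ᵐ X) {m m' : Measure (Y × W)} {Φ Φ' : Y × W → X}
    {K K' : Kernel X (Y × W)} (hK : Dis m μ Φ K) (hK' : Dis m' μ Φ' K') (C : Set (Y × W)) (hC : MeasurableSet C)
    (h0 : m C = 0) : lam θ μ K K' (Prod.fst ⁻¹' C) = 0 := by
  have := hK.sfin
  have := hK'.sfin
  have hG : Measurable ((Prod.fst ⁻¹' C : Set ((Y × W) × X)).indicator fun _ => (1 : ENNReal)) :=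
    measurable_const.indicator (measurable_fst hC)
  have h1 := hK.int _ hG
  have h2 : ∫⁻ u, (Prod.fst ⁻¹' C : Set ((Y × W) × X)).indicator (fun _ => (1 : ENNReal)) (u, Φ u) ∂m = 0 := by
    have : ∀ u, (Prod.fst ⁻¹' C : Set ((Y × W) × X)).indicator (fun _ => (1 : ENNReal)) (u, Φ u) =
        C.indicator (fun _ => (1 : ENNReal)) u := fun u => rfl
    simp only [this]
    rw [lintegral_indicator_const hC, h0, mul_zero]
  have h3 : ∀ x, ∫⁻ u, (Prod.fst ⁻¹' C : Set ((Y × W) × X)).indicator (fun _ => (1 : ENNReal)) (u, x) ∂(K x) =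
      K x C := by
    intro x
    have : ∀ u, (Prod.fst ⁻¹' C : Set ((Y × W) × X)).indicator (fun _ => (1 : ENNReal)) (u, x) =
        C.indicator (fun _ => (1 : ENNReal)) u := fun u => rfl
    simp only [this]
    rw [lintegral_indicator_const hC, one_mul]
  rw [h2] at h1
  simp only [h3] at h1
  have h4 : ∀ᵐ x ∂μ, K x C = 0 := (lintegral_eq_zero_iff (Kernel.measurable_coe K hC)).1 h1.symm
  have hG2 : Measurable ((Prod.fst ⁻¹' C : Set ((Y × W) × (Y × W))).indicator fun _ => (1 : ENNReal)) :=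
    measurable_const.indicator (measurable_fst hC)
  have h5 : lam θ μ K K' (Prod.fst ⁻¹' C) =
      ∫⁻ p, (Prod.fst ⁻¹' C : Set ((Y × W) × (Y × W))).indicator (fun _ => (1 : ENNReal)) p ∂(lam θ μ K K') := by
    rw [lintegral_indicator_const (measurable_fst hC), one_mul]
  rw [h5, lintegral_lam θ μ K K' _ hG2]
  refine ENNReal.tsum_eq_zero.2 fun k => ?_
  have h6 : ∀ᵐ x ∂(μ.restrict (first θ k)), ∫⁻ u, ∫⁻ u',
      (Prod.fst ⁻¹' C : Set ((Y × W) × (Y × W))).indicator (fun _ => (1 : ENNReal)) (u, u') ∂(K' (θ k x)) ∂(K x) = 0 := by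
    filter_upwards [ae_restrict_of_ae h4] with x hx
    have h7 : ∀ᵐ u ∂(K x), u ∉ C := measure_eq_zero_iff_ae_notMem.1 hx
    rw [lintegral_congr_ae (g := fun _ => 0)]
    · simp
    · filter_upwards [h7] with u hu
      have : ∀ u', (Prod.fst ⁻¹' C : Set ((Y × W) × (Y × W))).indicator (fun _ => (1 : ENNReal)) (u, u') = 0 := by
        intro u'
        exact Set.indicator_of_notMem (show (u, u') ∉ (Prod.fst ⁻¹' C : Set ((Y × W) × (Y × W))) from hu) _
      simp [this]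
  rw [lintegral_congr_ae h6]
  simp

theorem exists_eta {X : Type} [MeasurableSpace X] [StandardBorelSpace X] (μ : Measure X) [SigmaFinite μ]
    (E : X → X → Prop) (hE : MeasurableSet {p : X × X | E p.1 p.2}) (θ : ℕ → X ≃ᵐ X) (hθ : Gen E θ)
    (hm : ∀ k, MeasurePreserving (θ k) μ μ) (t : Fin 6 → X → X) (ht : ∀ s, Measurable (t s)) (htE : ∀ s x, E x (t s x))
    (c c' : T) (ε : ENNReal) (hε : ε ≤ ENNReal.ofReal (1 / 1000000))
    (P P' : Measure W) (Φ Φ' : Y × W → X) (D : IsDatum E μ c t ε P Φ) (D' : IsDatum E μ c' t ε P' Φ')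
    (h1 : ∫⁻ x, (((nu.prod P).map Φ).rnDeriv μ x - ((nu.prod P').map Φ').rnDeriv μ x) ∂μ ≤ ε)
    (h2 : ∫⁻ x, (((nu.prod P').map Φ').rnDeriv μ x - ((nu.prod P).map Φ).rnDeriv μ x) ∂μ ≤ ε) :
    ∃ η : Measure ((Y × W) × (Y × W)), IsFiniteMeasure η ∧ η ≠ 0 ∧
      (∀ a : R × R, η.map (fun p => ((tr c a p.1.1, p.1.2), (tr c' a p.2.1, p.2.2))) = η) ∧
      η {p | ¬ E (Φ p.1) (Φ' p.2)} = 0 ∧ η.map (fun p => p.1.2) ≪ P := by
  have := D.prob
  have := D'.prob
  obtain ⟨K, hK⟩ := exists_dis (nu.prod P) μ Φ D.meas D.ac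
  obtain ⟨K', hK'⟩ := exists_dis (nu.prod P') μ Φ' D'.meas D'.ac
  have := hK.sfin
  have := hK'.sfin
  have hc1 : ∫⁻ x, (K x Set.univ - K' x Set.univ) ∂μ ≤ ε := by
    refine le_trans (le_of_eq (lintegral_congr_ae ?_)) h1
    filter_upwards [hK.dens, hK'.dens] with x a b
    rw [a, b]
  have hc2 : ∫⁻ x, (K' x Set.univ - K x Set.univ) ∂μ ≤ ε := by
    refine le_trans (le_of_eq (lintegral_congr_ae ?_)) h2
    filter_upwards [hK.dens, hK'.dens] with x a b
    rw [a, b]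
  have hg : ∀ j : J, MeasurePreserving (TwoA_g c c' j) (lam θ μ K K') (lam θ μ K K') := by
    intro j
    have l := lam_left θ hθ μ D.meas hK hK' (TwoA_h c j) (TwoA_mp c j P) (D.hom j)
    have r := lam_right θ hθ μ hm D'.meas hK hK' (TwoA_h c' j) (TwoA_mp c' j P') (D'.hom j)
    exact r.comp l
  have hε12 : ε ≤ 12 * ε := by
    calc ε = 1 * ε := (one_mul ε).symm
      _ ≤ 12 * ε := mul_le_mul_left (by norm_num) ε
  have hκ : 12 * ε ≤ ENNReal.ofReal (1 / 10000) := by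
    calc 12 * ε ≤ 12 * ENNReal.ofReal (1 / 1000000) := mul_le_mul_right hε 12
      _ = ENNReal.ofReal 12 * ENNReal.ofReal (1 / 1000000) := by norm_num
      _ = ENNReal.ofReal (12 * (1 / 1000000)) := (ENNReal.ofReal_mul (by norm_num)).symm
      _ ≤ ENNReal.ofReal (1 / 10000) := ENNReal.ofReal_le_ofReal (by norm_num)
  have hsix : ∀ s : Fin 6, 1 ≤ ∫⁻ p, ENNReal.ofReal (zet Φ Φ' K K' (TwoA_g c c' (six s) p) * zet Φ Φ' K K' p)
      ∂(lam θ μ K K') + 12 * ε := fun s =>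
    zet_mul θ hθ μ hm D.meas D'.meas hK hK' ε hc1 hc2 (t s) (ht s) (htE s)
      (TwoA_h c (six s)) (TwoA_mp c (six s) P) (TwoA_inv c (six s)) (D.near s)
      (TwoA_h c' (six s)) (TwoA_mp c' (six s) P') (TwoA_inv c' (six s)) (D'.near s)
  obtain ⟨η, hη1, hη2, hη3, hη4⟩ := koopman (lam θ μ K K') (fun a => TwoA_g c c' (Sum.inl a))
    (fun i => TwoA_g c c' (TwoA_mi i)) (fun a => hg _) (fun i => hg _)
    (by
      intro v
      refine Prod.ext (Prod.ext ?_ rfl) (Prod.ext ?_ rfl)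
      · exact tr_zero c v.1.1
      · exact tr_zero c' v.2.1)
    (by
      intro a b v
      refine Prod.ext (Prod.ext ?_ rfl) (Prod.ext ?_ rfl)
      · exact tr_add c a b v.1.1
      · exact tr_add c' a b v.2.1)
    (by
      intro i a v
      refine Prod.ext (Prod.ext ?_ rfl) (Prod.ext ?_ rfl)
      · exact TwoA_comm c i a v.1.1
      · exact TwoA_comm c' i a v.2.1)
    (zet Φ Φ' K K') (measurable_zet D.meas D'.meas K K') (zet_nonneg Φ Φ' K K') (12 * ε) hκ
    (zet_sq_le θ hθ μ hm D.meas D'.meas hK hK')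
    ((zet_sq_ge θ hθ μ hm D.meas D'.meas hK hK' ε hc1).trans (add_le_add le_rfl hε12))
    (hsix 0) (hsix 1)
    (by
      intro i
      obtain ⟨s, hs⟩ := TwoA_six i
      rw [← hs]
      exact hsix s)
  refine ⟨η, hη1, hη2, hη4, hη3 (lam_supp hE θ hθ μ hm D.meas D'.meas hK hK'), ?_⟩
  refine Measure.AbsolutelyContinuous.mk fun B hB hB0 => ?_
  have mf : Measurable (fun p : (Y × W) × (Y × W) => p.1.2) := measurable_snd.comp measurable_fst
  rw [Measure.map_apply mf hB]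
  refine hη3 ?_
  have hC : MeasurableSet (Prod.snd ⁻¹' B : Set (Y × W)) := measurable_snd hB
  have h0 : (nu.prod P) (Prod.snd ⁻¹' B : Set (Y × W)) = 0 := by
    have : (Prod.snd ⁻¹' B : Set (Y × W)) = Set.univ ×ˢ B := by
      ext u
      simp
    rw [this, Measure.prod_prod, hB0, mul_zero]
  exact TwoA_null μ θ hK hK' _ hC h0

end Pool.MPb8ab30
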