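import Pool.Agent.Lib_MP_b8ab30.Mtp
import Pool.Agent.Lib_MP_b8ab30.Dis

/-!
# Piece ZET0: the involution `t` of `inv2 t`

PROOF of `inv2_preserve`.  `W = inv2 t = {x | t (t x) = x}` is measurable; `t` maps `W` bijectively onto `W`.  `W` is the disjoint union of the measurable sets
`N k = {x ∈ W | x ∈ first θ k, θ k x = t x}` (`Gen.cover`), and also of their images `θ k '' N k = t '' N k` (`t` is injective on `W`, onto `W`).  So
`∫⁻ x in W, g (t x) = ∑' k, ∫⁻ x in N k, g (θ k x) = ∑' k, ∫⁻ y in θ k '' N k, g y = ∫⁻ y in W, g y`.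
PROOF of `near_inv2`.  For `u` outside `{Φ (s u) ≠ t (Φ u)} ∪ {Φ (s (s u)) ≠ t (Φ (s u))}` (measure `≤ 2 ε`, `s` preserves `m`): `Φ u = Φ (s (s u)) = t (Φ (s u)) = t (t (Φ u))`.
PROOF of `near_dens`.  Let `r x = K x univ` (measurable, `∫⁻ r dμ = m univ = 1`, `∫⁻ x in C, r = m (Φ ⁻¹' C)` by `Dis.int`), `C = {x ∈ W | r x < r (t x)}`, `C' = {x ∈ W | t x ∈ C}`.
`∫⁻ x in W, (r (t x) - r x) = ∫⁻ x in C, (r (t x) - r x) = ∫⁻ x in C, r (t x) - ∫⁻ x in C, r x` (finite), and `∫⁻ x in C, r (t x) = ∫⁻ y in C', r y` (`inv2_preserve` with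
`g = r · 1_{C'}`; for `x ∈ W`: `t x ∈ C' ↔ x ∈ C`) `= m {Φ u ∈ C'} = m {Φ (s u) ∈ C'} ≤ m {t (Φ u) ∈ C'} + ε ≤ m {Φ u ∈ C} + m {Φ u ∉ W} + ε ≤ ∫⁻ x in C, r + 3 ε`.
-/

set_option autoImplicit false

open MeasureTheory ProbabilityTheory

namespace Pool.MPb8ab30

def inv2 {X : Type} (t : X → X) : Set X := {x | t (t x) = x}

private theorem Zet0_least {X : Type} [MeasurableSpace X] (θ : ℕ → X ≃ᵐ X) {x y : X}
    (h : ∃ k, θ k x = y) : ∃ k, x ∈ first θ k ∧ θ k x = y := by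
  classical
  refine ⟨Nat.find h, ?_, Nat.find_spec h⟩
  intro j hj e
  exact Nat.find_min h hj (e.trans (Nat.find_spec h))

private theorem Zet0_inj {X : Type} [MeasurableSpace X] (θ : ℕ → X ≃ᵐ X) {x : X} {k l : ℕ}
    (hk : x ∈ first θ k) (hl : x ∈ first θ l) (e : θ k x = θ l x) : k = l := by
  rcases lt_trichotomy k l with h | h | h
  · exact absurd e (hl k h)
  · exact h
  · exact absurd e.symm (hk l h)

private def Zet0_D {X : Type} [MeasurableSpace X] (θ : ℕ → X ≃ᵐ X) (t : X → X) (p : ℕ × ℕ) : Set X :=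
  {x | t (t x) = x ∧ x ∈ first θ p.1 ∧ θ p.1 x = t x ∧ t x ∈ first θ p.2 ∧ θ p.2 (t x) = x}

private theorem Zet0_D_meas {X : Type} [MeasurableSpace X] [StandardBorelSpace X] (θ : ℕ → X ≃ᵐ X)
    (t : X → X) (ht : Measurable t) (p : ℕ × ℕ) : MeasurableSet (Zet0_D θ t p) := by
  refine (measurableSet_eq_fun (ht.comp ht) measurable_id).inter
    ((measurableSet_first θ p.1).inter ((measurableSet_eq_fun (θ p.1).measurable ht).inter
      ((ht (measurableSet_first θ p.2)).inter ?_)))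
  exact measurableSet_eq_fun ((θ p.2).measurable.comp ht) measurable_id

private theorem Zet0_D_pre {X : Type} [MeasurableSpace X] (θ : ℕ → X ≃ᵐ X) (t : X → X) (k l : ℕ) :
    Zet0_D θ t (k, l) = θ k ⁻¹' Zet0_D θ t (l, k) := by
  ext x
  constructor
  · rintro ⟨h1, h2, h3, h4, h5⟩
    have h2' : x ∈ first θ k := h2
    have h3' : θ k x = t x := h3
    have h4' : t x ∈ first θ l := h4
    have h5' : θ l (t x) = x := h5
    show t (t (θ k x)) = θ k x ∧ θ k x ∈ first θ l ∧ θ l (θ k x) = t (θ k x) ∧ t (θ k x) ∈ first θ k ∧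
      θ k (t (θ k x)) = θ k x
    rw [h3', h1, h5']
    exact ⟨rfl, h4', rfl, h2', h3'⟩
  · rintro ⟨h1, h2, h3, h4, h5⟩
    have h5' : θ k (t (θ k x)) = θ k x := h5
    have h3' : θ l (θ k x) = t (θ k x) := h3
    have h4' : t (θ k x) ∈ first θ k := h4
    have h2' : θ k x ∈ first θ l := h2
    have h6 : t (θ k x) = x := (θ k).injective h5'
    have h7 : t x = θ k x := by
      conv_lhs => rw [← h6]
      exact h1
    rw [h6] at h3' h4'
    show t (t x) = x ∧ x ∈ first θ k ∧ θ k x = t x ∧ t x ∈ first θ l ∧ θ l (t x) = x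
    rw [h7]
    exact ⟨h6, h4', rfl, h2', h3'⟩

private theorem Zet0_D_union {X : Type} [MeasurableSpace X] {E : X → X → Prop} (θ : ℕ → X ≃ᵐ X)
    (hθ : Gen E θ) (t : X → X) (htE : ∀ x, E x (t x)) : inv2 t = ⋃ p, Zet0_D θ t p := by
  ext x
  rw [Set.mem_iUnion]
  constructor
  · intro hx
    obtain ⟨k, hk, hkx⟩ := Zet0_least θ (hθ.cover x (t x) (htE x))
    obtain ⟨l, hl, hlx⟩ := Zet0_least θ (hθ.cover (t x) x (hθ.equiv.symm (htE x)))
    exact ⟨(k, l), hx, hk, hkx, hl, hlx⟩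
  · rintro ⟨p, hx, -⟩
    exact hx

private theorem Zet0_D_disj {X : Type} [MeasurableSpace X] (θ : ℕ → X ≃ᵐ X) (t : X → X) :
    Pairwise (Function.onFun Disjoint fun p => Zet0_D θ t p) := by
  intro p p' hne
  rw [Function.onFun, Set.disjoint_left]
  rintro x ⟨-, h1, h2, h3, h4⟩ ⟨-, h5, h6, h7, h8⟩
  exact hne (Prod.ext (Zet0_inj θ h1 h5 (h2.trans h6.symm)) (Zet0_inj θ h3 h7 (h4.trans h8.symm)))

theorem inv2_preserve {X : Type} [MeasurableSpace X] [StandardBorelSpace X] {E : X → X → Prop} (θ : ℕ → X ≃ᵐ X) (hθ : Gen E θ)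
    (μ : Measure X) (hm : ∀ k, MeasurePreserving (θ k) μ μ) (t : X → X) (ht : Measurable t) (htE : ∀ x, E x (t x))
    (g : X → ENNReal) (hg : Measurable g) : ∫⁻ x in inv2 t, g (t x) ∂μ = ∫⁻ x in inv2 t, g x ∂μ := by
  have key : ∀ k l, ∫⁻ x in Zet0_D θ t (k, l), g (t x) ∂μ = ∫⁻ y in Zet0_D θ t (l, k), g y ∂μ := by
    intro k l
    have h1 : ∫⁻ x in Zet0_D θ t (k, l), g (t x) ∂μ = ∫⁻ x in Zet0_D θ t (k, l), g (θ k x) ∂μ := by
      refine setLIntegral_congr_fun (Zet0_D_meas θ t ht (k, l)) ?_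
      rintro x ⟨-, -, h, -, -⟩
      have h' : θ k x = t x := h
      show g (t x) = g (θ k x)
      rw [h']
    rw [h1]
    have h2 := (hm k).setLIntegral_comp_preimage_emb (θ k).measurableEmbedding g (Zet0_D θ t (l, k))
    rw [← Zet0_D_pre] at h2
    exact h2
  calc ∫⁻ x in inv2 t, g (t x) ∂μ = ∫⁻ x in ⋃ p, Zet0_D θ t p, g (t x) ∂μ := by
        rw [← Zet0_D_union θ hθ t htE]
    _ = ∑' p : ℕ × ℕ, ∫⁻ x in Zet0_D θ t p, g (t x) ∂μ :=
        lintegral_iUnion (fun p => Zet0_D_meas θ t ht p) (Zet0_D_disj θ t) _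
    _ = ∑' p : ℕ × ℕ, ∫⁻ x in Zet0_D θ t (Equiv.prodComm ℕ ℕ p), g x ∂μ :=
        tsum_congr fun p => key p.1 p.2
    _ = ∑' p : ℕ × ℕ, ∫⁻ x in Zet0_D θ t p, g x ∂μ :=
        (Equiv.prodComm ℕ ℕ).tsum_eq (fun p => ∫⁻ x in Zet0_D θ t p, g x ∂μ)
    _ = ∫⁻ x in ⋃ p, Zet0_D θ t p, g x ∂μ :=
        (lintegral_iUnion (fun p => Zet0_D_meas θ t ht p) (Zet0_D_disj θ t) _).symm
    _ = ∫⁻ x in inv2 t, g x ∂μ := by
        rw [← Zet0_D_union θ hθ t htE]

private theorem Zet0_bad_meas {X U : Type} [MeasurableSpace X] [StandardBorelSpace X] [MeasurableSpace U]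
    {Φ : U → X} (hΦ : Measurable Φ) (t : X → X) (ht : Measurable t) (s : U → U) (hs : Measurable s) :
    MeasurableSet {u | Φ (s u) ≠ t (Φ u)} :=
  (measurableSet_eq_fun (hΦ.comp hs) (ht.comp hΦ)).compl

theorem near_inv2 {X U : Type} [MeasurableSpace X] [StandardBorelSpace X] [MeasurableSpace U] (m : Measure U)
    {Φ : U → X} (hΦ : Measurable Φ) (t : X → X) (ht : Measurable t) (s : U → U) (hs : MeasurePreserving s m m)
    (hs2 : ∀ u, s (s u) = u) (ε : ENNReal) (hε : m {u | Φ (s u) ≠ t (Φ u)} ≤ ε) : m {u | Φ u ∉ inv2 t} ≤ 2 * ε := by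
  have hB := Zet0_bad_meas hΦ t ht s hs.measurable
  have h1 : {u | Φ u ∉ inv2 t} ⊆ {u | Φ (s u) ≠ t (Φ u)} ∪ s ⁻¹' {u | Φ (s u) ≠ t (Φ u)} := by
    intro u hu
    by_contra hc
    rw [Set.mem_union, not_or] at hc
    obtain ⟨h2, h3⟩ := hc
    have h2' : Φ (s u) = t (Φ u) := not_not.1 h2
    have h3' : Φ (s (s u)) = t (Φ (s u)) := not_not.1 h3
    apply hu
    show t (t (Φ u)) = Φ u
    rw [← h2', ← h3', hs2]
  calc m {u | Φ u ∉ inv2 t} ≤ m ({u | Φ (s u) ≠ t (Φ u)} ∪ s ⁻¹' {u | Φ (s u) ≠ t (Φ u)}) := measure_mono h1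
    _ ≤ m {u | Φ (s u) ≠ t (Φ u)} + m (s ⁻¹' {u | Φ (s u) ≠ t (Φ u)}) := measure_union_le _ _
    _ ≤ ε + ε := by
        rw [hs.measure_preimage hB.nullMeasurableSet]
        exact add_le_add hε hε
    _ = 2 * ε := by rw [two_mul]

private theorem Zet0_mass {X U : Type} [MeasurableSpace X] [MeasurableSpace U] {μ : Measure X} {m : Measure U}
    {Φ : U → X} (hΦ : Measurable Φ) {K : Kernel X U} (hK : Dis m μ Φ K) (B : Set X) (hB : MeasurableSet B) :
    ∫⁻ x in B, K x Set.univ ∂μ = m (Φ ⁻¹' B) := by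
  have hG : Measurable (fun p : U × X => B.indicator (fun _ => (1 : ENNReal)) p.2) :=
    (measurable_const.indicator hB).comp measurable_snd
  have h1 := hK.int _ hG
  have h2 : ∫⁻ u, B.indicator (fun _ => (1 : ENNReal)) (Φ u) ∂m = m (Φ ⁻¹' B) := by
    rw [← lintegral_indicator_one (hΦ hB)]
    rfl
  have h3 : ∀ x, ∫⁻ _u, B.indicator (fun _ => (1 : ENNReal)) x ∂(K x) = B.indicator (fun x => K x Set.univ) x := by
    intro x
    rw [lintegral_const]
    by_cases hx : x ∈ B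
    · rw [Set.indicator_of_mem hx, Set.indicator_of_mem hx, one_mul]
    · rw [Set.indicator_of_notMem hx, Set.indicator_of_notMem hx, zero_mul]
  rw [← lintegral_indicator hB, ← lintegral_congr h3, ← h2]
  exact h1.symm

theorem near_dens {X U : Type} [MeasurableSpace X] [StandardBorelSpace X] [MeasurableSpace U] {E : X → X → Prop}
    (θ : ℕ → X ≃ᵐ X) (hθ : Gen E θ) (μ : Measure X) (hm : ∀ k, MeasurePreserving (θ k) μ μ) (m : Measure U)
    [IsProbabilityMeasure m] {Φ : U → X} (hΦ : Measurable Φ) {K : Kernel X U} (hK : Dis m μ Φ K)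
    (t : X → X) (ht : Measurable t) (htE : ∀ x, E x (t x)) (s : U → U) (hs : MeasurePreserving s m m)
    (hs2 : ∀ u, s (s u) = u) (ε : ENNReal) (hε : m {u | Φ (s u) ≠ t (Φ u)} ≤ ε) :
    ∫⁻ x in inv2 t, (K (t x) Set.univ - K x Set.univ) ∂μ ≤ 3 * ε := by
  have hW : MeasurableSet (inv2 t) := measurableSet_eq_fun (ht.comp ht) measurable_id
  have hr : Measurable (fun x => K x Set.univ) := K.measurable_coe MeasurableSet.univ
  have hrt : Measurable (fun x => K (t x) Set.univ) := hr.comp ht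
  set C : Set X := inv2 t ∩ {x | K x Set.univ < K (t x) Set.univ} with hCdef
  have hC : MeasurableSet C := hW.inter (measurableSet_lt hr hrt)
  set C' : Set X := inv2 t ∩ t ⁻¹' C with hC'def
  have hC' : MeasurableSet C' := hW.inter (ht hC)
  have hCW : C ⊆ inv2 t := Set.inter_subset_left
  have hfin : ∫⁻ x in C, K x Set.univ ∂μ ≠ ⊤ := by
    rw [Zet0_mass hΦ hK C hC]
    exact measure_ne_top _ _
  have h1 : ∫⁻ x in inv2 t, (K (t x) Set.univ - K x Set.univ) ∂μ =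
      ∫⁻ x in C, (K (t x) Set.univ - K x Set.univ) ∂μ := by
    have e1 : ∫⁻ x in inv2 t, (K (t x) Set.univ - K x Set.univ) ∂μ =
        ∫⁻ x in inv2 t, C.indicator (fun x => K (t x) Set.univ - K x Set.univ) x ∂μ := by
      refine setLIntegral_congr_fun hW ?_
      intro x hx
      by_cases hxC : x ∈ C
      · show K (t x) Set.univ - K x Set.univ = C.indicator (fun x => K (t x) Set.univ - K x Set.univ) x
        rw [Set.indicator_of_mem hxC]
      · show K (t x) Set.univ - K x Set.univ = C.indicator (fun x => K (t x) Set.univ - K x Set.univ) x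
        rw [Set.indicator_of_notMem hxC]
        apply tsub_eq_zero_of_le
        by_contra hlt
        exact hxC ⟨hx, not_le.1 hlt⟩
    rw [e1, lintegral_indicator hC, Measure.restrict_restrict hC, Set.inter_eq_left.2 hCW]
  have h2 : ∫⁻ x in C, K (t x) Set.univ ∂μ = m (Φ ⁻¹' C') := by
    have e1 : ∫⁻ x in inv2 t, C'.indicator (fun y => K y Set.univ) (t x) ∂μ =
        ∫⁻ x in inv2 t, C'.indicator (fun y => K y Set.univ) x ∂μ :=
      inv2_preserve θ hθ μ hm t ht htE _ (hr.indicator hC')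
    have e2 : ∫⁻ x in inv2 t, C'.indicator (fun y => K y Set.univ) (t x) ∂μ =
        ∫⁻ x in inv2 t, C.indicator (fun x => K (t x) Set.univ) x ∂μ := by
      refine setLIntegral_congr_fun hW ?_
      intro x hx
      have hx' : t (t x) = x := hx
      show C'.indicator (fun y => K y Set.univ) (t x) = C.indicator (fun x => K (t x) Set.univ) x
      by_cases hxC : x ∈ C
      · have h3 : t x ∈ C' := by
          refine ⟨?_, ?_⟩
          · show t (t (t x)) = t x
            rw [hx']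
          · show t (t x) ∈ C
            rw [hx']; exact hxC
        rw [Set.indicator_of_mem hxC, Set.indicator_of_mem h3]
      · have h3 : t x ∉ C' := by
          rintro ⟨-, h4⟩
          have h4' : t (t x) ∈ C := h4
          rw [hx'] at h4'
          exact hxC h4'
        rw [Set.indicator_of_notMem hxC, Set.indicator_of_notMem h3]
    rw [e2, lintegral_indicator hC, Measure.restrict_restrict hC, Set.inter_eq_left.2 hCW,
      lintegral_indicator hC', Measure.restrict_restrict hC',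
      Set.inter_eq_left.2 (Set.inter_subset_left : C' ⊆ inv2 t)] at e1
    rw [e1, Zet0_mass hΦ hK C' hC']
  have hB := Zet0_bad_meas hΦ t ht s hs.measurable
  have h3 : m (Φ ⁻¹' C') ≤ m (Φ ⁻¹' C) + 3 * ε := by
    have h4 : m (Φ ⁻¹' C') = m (s ⁻¹' (Φ ⁻¹' C')) :=
      (hs.measure_preimage (hΦ hC').nullMeasurableSet).symm
    have h5 : s ⁻¹' (Φ ⁻¹' C') ⊆ (Φ ⁻¹' C ∪ {u | Φ u ∉ inv2 t}) ∪ {u | Φ (s u) ≠ t (Φ u)} := by
      intro u hu
      have hu' : Φ (s u) ∈ C' := hu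
      by_cases hb : Φ (s u) = t (Φ u)
      · left
        by_cases hw : Φ u ∈ inv2 t
        · left
          rw [hb] at hu'
          have h6 : t (t (Φ u)) ∈ C := hu'.2
          have h7 : t (t (Φ u)) = Φ u := hw
          rw [h7] at h6
          exact h6
        · right
          exact hw
      · right
        exact hb
    calc m (Φ ⁻¹' C') = m (s ⁻¹' (Φ ⁻¹' C')) := h4
      _ ≤ m ((Φ ⁻¹' C ∪ {u | Φ u ∉ inv2 t}) ∪ {u | Φ (s u) ≠ t (Φ u)}) := measure_mono h5
      _ ≤ m (Φ ⁻¹' C ∪ {u | Φ u ∉ inv2 t}) + m {u | Φ (s u) ≠ t (Φ u)} := measure_union_le _ _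
      _ ≤ (m (Φ ⁻¹' C) + m {u | Φ u ∉ inv2 t}) + m {u | Φ (s u) ≠ t (Φ u)} := by
          gcongr
          exact measure_union_le _ _
      _ ≤ (m (Φ ⁻¹' C) + 2 * ε) + ε := by
          gcongr
          exact near_inv2 m hΦ t ht s hs hs2 ε hε
      _ = m (Φ ⁻¹' C) + 3 * ε := by ring
  rw [h1, lintegral_sub hr hfin (by
    refine (ae_restrict_iff' hC).2 (Filter.Eventually.of_forall ?_)
    intro x hx
    exact le_of_lt hx.2)]
  rw [h2, Zet0_mass hΦ hK C hC]
  rw [tsub_le_iff_left]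
  exact h3

end Pool.MPb8ab30
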