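import Pool.Agent.Lib_MP_b8ab30.Lam
import Pool.Agent.Lib_MP_b8ab30.Zet0

/-!
# Piece ZET: the nearly invariant vector

`zet p = M(Φ p.1)^(-1/2)` if `Φ p.1 = Φ' p.2` and `0` otherwise, `M x = max (K x univ) (K' x univ)`.

PROOFS.  Write `r x = K x univ`, `r' x = K' x univ`, `M = max r r'`, `b = min r r'`; `r r' = b M`.
`zet_sq`: `lam_diag`; for a.e. `x` (`Dis.supp`) `Φ u = x` for `K x`-a.e. `u`, so the inner integral is `ofReal (1 / (M x).toReal) * r x * r' x = b x` (if `M x = 0` both sides are `0`; `M x < ⊤`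
by `Dis.fin`).
`zet_sq_ge`: `1 = ∫⁻ r dμ = ∫⁻ b dμ + ∫⁻ (r - r') dμ`.   `zet_sq_le`: `∫⁻ b ≤ ∫⁻ r = 1`.
(`zet_mul` is in ZetB.lean.)
-/

set_option autoImplicit false

open MeasureTheory ProbabilityTheory

namespace Pool.MPb8ab30

noncomputable def zet {X U U' : Type} [MeasurableSpace X] [MeasurableSpace U] [MeasurableSpace U'] (Φ : U → X) (Φ' : U' → X)
    (K : Kernel X U) (K' : Kernel X U') : U × U' → ℝ :=
  Set.indicator {p | Φ p.1 = Φ' p.2} fun p => (Real.sqrt (max (K (Φ p.1) Set.univ) (K' (Φ p.1) Set.univ)).toReal)⁻¹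

theorem zet_nonneg {X U U' : Type} [MeasurableSpace X] [MeasurableSpace U] [MeasurableSpace U'] (Φ : U → X) (Φ' : U' → X)
    (K : Kernel X U) (K' : Kernel X U') (p : U × U') : 0 ≤ zet Φ Φ' K K' p := by
  unfold zet
  exact Set.indicator_nonneg (fun _ _ => inv_nonneg.2 (Real.sqrt_nonneg _)) p

theorem measurable_zet {X U U' : Type} [MeasurableSpace X] [StandardBorelSpace X] [MeasurableSpace U] [MeasurableSpace U']
    {Φ : U → X} {Φ' : U' → X} (hΦ : Measurable Φ) (hΦ' : Measurable Φ') (K : Kernel X U) (K' : Kernel X U') :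
    Measurable (zet Φ Φ' K K') := by
  unfold zet
  refine Measurable.indicator ?_ (measurableSet_eq_fun (hΦ.comp measurable_fst) (hΦ'.comp measurable_snd))
  have h1 : Measurable fun x : X => (max (K x Set.univ) (K' x Set.univ)).toReal :=
    ((Kernel.measurable_coe K MeasurableSet.univ).max (Kernel.measurable_coe K' MeasurableSet.univ)).ennreal_toReal
  exact ((h1.comp (hΦ.comp measurable_fst)).sqrt).inv

private theorem zet_alg (r r' : ENNReal) (hr : r ≠ ⊤) (hr' : r' ≠ ⊤) :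
    ENNReal.ofReal (((max r r').toReal)⁻¹) * r' * r = min r r' := by
  by_cases h0 : max r r' = 0
  · have h1 : r = 0 := by
      have : r ≤ max r r' := le_max_left _ _
      rw [h0] at this
      exact le_antisymm this bot_le
    have h2 : r' = 0 := by
      have : r' ≤ max r r' := le_max_right _ _
      rw [h0] at this
      exact le_antisymm this bot_le
    rw [h1, h2]
    simp
  · have ht : max r r' ≠ ⊤ := by
      rcases max_choice r r' with h | h
      · rw [h]; exact hr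
      · rw [h]; exact hr'
    have hpos : 0 < (max r r').toReal := ENNReal.toReal_pos h0 ht
    rw [ENNReal.ofReal_inv_of_pos hpos, ENNReal.ofReal_toReal ht]
    rcases le_total r r' with h | h
    · rw [max_eq_right h, min_eq_left h]
      rw [max_eq_right h] at h0
      rw [ENNReal.inv_mul_cancel h0 hr', one_mul]
    · rw [max_eq_left h, min_eq_right h]
      rw [max_eq_left h] at h0
      rw [mul_assoc, mul_comm r' r, ← mul_assoc, ENNReal.inv_mul_cancel h0 hr, one_mul]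

theorem zet_sq {X U U' : Type} [MeasurableSpace X] [StandardBorelSpace X] [MeasurableSpace U] [MeasurableSpace U']
    {E : X → X → Prop} (θ : ℕ → X ≃ᵐ X) (hθ : Gen E θ)
    (μ : Measure X) (hm : ∀ k, MeasurePreserving (θ k) μ μ)
    {m : Measure U} {m' : Measure U'} {Φ : U → X} {Φ' : U' → X} (hΦ : Measurable Φ) (hΦ' : Measurable Φ')
    {K : Kernel X U} {K' : Kernel X U'} (hK : Dis m μ Φ K) (hK' : Dis m' μ Φ' K') :
    ∫⁻ p, ENNReal.ofReal (zet Φ Φ' K K' p ^ 2) ∂(lam θ μ K K') = ∫⁻ x, min (K x Set.univ) (K' x Set.univ) ∂μ := by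
  have hKs : IsSFiniteKernel K := hK.sfin
  have hKs' : IsSFiniteKernel K' := hK'.sfin
  have hD : MeasurableSet {p : U × U' | Φ p.1 = Φ' p.2} :=
    measurableSet_eq_fun (hΦ.comp measurable_fst) (hΦ'.comp measurable_snd)
  have h1 : Measurable fun x : X => (max (K x Set.univ) (K' x Set.univ)).toReal :=
    ((Kernel.measurable_coe K MeasurableSet.univ).max (Kernel.measurable_coe K' MeasurableSet.univ)).ennreal_toReal
  have h2 : Measurable fun x : X => ENNReal.ofReal (((max (K x Set.univ) (K' x Set.univ)).toReal)⁻¹) :=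
    h1.inv.ennreal_ofReal
  have h3 : (fun p : U × U' => ENNReal.ofReal (zet Φ Φ' K K' p ^ 2)) =
      Set.indicator {p : U × U' | Φ p.1 = Φ' p.2} fun p =>
        ENNReal.ofReal (((max (K (Φ p.1) Set.univ) (K' (Φ p.1) Set.univ)).toReal)⁻¹) := by
    funext p
    unfold zet
    by_cases hp : p ∈ {p : U × U' | Φ p.1 = Φ' p.2}
    · rw [Set.indicator_of_mem hp, Set.indicator_of_mem hp, inv_pow, Real.sq_sqrt ENNReal.toReal_nonneg]
    · rw [Set.indicator_of_notMem hp, Set.indicator_of_notMem hp]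
      simp
  rw [h3, lintegral_indicator hD]
  refine (lam_diag θ hθ μ hm hΦ hΦ' hK hK' _ (h2.comp (hΦ.comp measurable_fst))).trans ?_
  refine lintegral_congr_ae ?_
  filter_upwards [hK.supp hΦ] with x hx
  have h4 : ∀ᵐ u ∂(K x), Φ u = x := by
    rw [ae_iff]
    exact hx
  have h5 : ∫⁻ u, ∫⁻ _u' : U', ENNReal.ofReal (((max (K (Φ u) Set.univ) (K' (Φ u) Set.univ)).toReal)⁻¹) ∂(K' x) ∂(K x) =
      ∫⁻ _u : U, ENNReal.ofReal (((max (K x Set.univ) (K' x Set.univ)).toReal)⁻¹) * K' x Set.univ ∂(K x) := by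
    refine lintegral_congr_ae ?_
    filter_upwards [h4] with u hu
    rw [lintegral_const, hu]
  refine h5.trans ?_
  rw [lintegral_const]
  exact zet_alg _ _ (hK.fin x) (hK'.fin x)

theorem zet_sq_le {X U U' : Type} [MeasurableSpace X] [StandardBorelSpace X] [MeasurableSpace U] [MeasurableSpace U']
    {E : X → X → Prop} (θ : ℕ → X ≃ᵐ X) (hθ : Gen E θ)
    (μ : Measure X) (hm : ∀ k, MeasurePreserving (θ k) μ μ)
    {m : Measure U} {m' : Measure U'} [IsProbabilityMeasure m] [IsProbabilityMeasure m']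
    {Φ : U → X} {Φ' : U' → X} (hΦ : Measurable Φ) (hΦ' : Measurable Φ')
    {K : Kernel X U} {K' : Kernel X U'} (hK : Dis m μ Φ K) (hK' : Dis m' μ Φ' K') :
    ∫⁻ p, ENNReal.ofReal (zet Φ Φ' K K' p ^ 2) ∂(lam θ μ K K') ≤ 1 := by
  rw [zet_sq θ hθ μ hm hΦ hΦ' hK hK']
  calc ∫⁻ x, min (K x Set.univ) (K' x Set.univ) ∂μ ≤ ∫⁻ x, K x Set.univ ∂μ := lintegral_mono fun x => min_le_left _ _
    _ = 1 := by rw [hK.mass, measure_univ]

theorem zet_sq_ge {X U U' : Type} [MeasurableSpace X] [StandardBorelSpace X] [MeasurableSpace U] [MeasurableSpace U']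
    {E : X → X → Prop} (θ : ℕ → X ≃ᵐ X) (hθ : Gen E θ)
    (μ : Measure X) (hm : ∀ k, MeasurePreserving (θ k) μ μ)
    {m : Measure U} {m' : Measure U'} [IsProbabilityMeasure m] [IsProbabilityMeasure m']
    {Φ : U → X} {Φ' : U' → X} (hΦ : Measurable Φ) (hΦ' : Measurable Φ')
    {K : Kernel X U} {K' : Kernel X U'} (hK : Dis m μ Φ K) (hK' : Dis m' μ Φ' K') (ε : ENNReal)
    (hc : ∫⁻ x, (K x Set.univ - K' x Set.univ) ∂μ ≤ ε) :
    1 ≤ ∫⁻ p, ENNReal.ofReal (zet Φ Φ' K K' p ^ 2) ∂(lam θ μ K K') + ε := by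
  rw [zet_sq θ hθ μ hm hΦ hΦ' hK hK']
  have h1 : ∫⁻ x, K x Set.univ ∂μ = 1 := by rw [hK.mass, measure_univ]
  have h2 : ∫⁻ x, K x Set.univ ∂μ =
      ∫⁻ x, min (K x Set.univ) (K' x Set.univ) ∂μ + ∫⁻ x, (K x Set.univ - K' x Set.univ) ∂μ := by
    rw [← lintegral_add_left ((Kernel.measurable_coe K MeasurableSet.univ).min (Kernel.measurable_coe K' MeasurableSet.univ))]
    refine lintegral_congr fun x => ?_
    rw [add_comm, tsub_add_min]
  calc (1 : ENNReal) = ∫⁻ x, min (K x Set.univ) (K' x Set.univ) ∂μ + ∫⁻ x, (K x Set.univ - K' x Set.univ) ∂μ := by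
        rw [← h2, h1]
    _ ≤ _ := by gcongr

end Pool.MPb8ab30
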